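import Mathlib

/-!
# MP_ae319b_an : numbers with given digits
-/

namespace Pool.Agent.Lib.MP_ae319b_an

/-- The number `∑ c_j b^(-(j+1))` with digits `c_j < a` in base `b`. -/
noncomputable def dig (b : ℕ) {a : ℕ} (c : ℕ → Fin a) : ℝ :=
  ∑' j : ℕ, ((c j : ℕ) : ℝ) * ((b : ℝ)⁻¹) ^ (j + 1)

end Pool.Agent.Lib.MP_ae319b_an
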