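import Pool.Agent.Lib.MP_ae319b_an.Defs
import Pool.Agent.Lib.MP_ae319b_an.Dig

/-!
# MP_ae319b_an : the Hausdorff dimension of a product of Cantor sets, lower bound

Proof of `le_dimH_cantor`.  Let `Y(c) = dig b c`, `Z(c) = dig a c` for `c : ℕ → Fin a`, and
`κ = log a / log b ∈ (0, 1)`, so `b^κ = a`.
* If `c ≠ c'` and `j` is the first index where they differ, then
  `|Y(c) - Y(c')| ≥ b^(-(j+1)) (b-a)/(b-1)` and `|Z(c) - Z(c')| ≤ a^(-j) = a (b^(-(j+1)))^κ`.  So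
  `|Z(c) - Z(c')| ≤ H |Y(c) - Y(c')|^κ` with `H = a ((b-1)/(b-a))^κ`.
* `Z` maps onto `[0,1)`.
* The map `Φ : A → (Fin k → ℝ)`, `Φ(x)_i = Z(Y⁻¹((x_i - x₀_i)/ρ))` is `κ`-Hölder on our set `A` and
  its image contains `[0,1)^k`, hence has dimension `k`.
-/

namespace Pool.Agent.Lib.MP_ae319b_an

open MeasureTheory Filter Topology Set
open scoped ENNReal NNReal

/-- The series of `dig b c` converges. -/
theorem summable_dig_term {a b : ℕ} (hb : 1 < b) (c : ℕ → Fin a) :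
    Summable (fun j : ℕ => ((c j : ℕ) : ℝ) * ((b : ℝ)⁻¹) ^ (j + 1)) := by
  have hb' : (1 : ℝ) < b := by exact_mod_cast hb
  have h0 : (0 : ℝ) ≤ (b : ℝ)⁻¹ := by positivity
  have h1 : (b : ℝ)⁻¹ < 1 := inv_lt_one_of_one_lt₀ hb'
  refine Summable.of_nonneg_of_le (fun j => by positivity) (fun j => ?_)
    ((summable_geometric_of_lt_one h0 h1).mul_left (a : ℝ))
  have hc : ((c j : ℕ) : ℝ) ≤ a := by exact_mod_cast (c j).2.le
  have hp : ((b : ℝ)⁻¹) ^ (j + 1) ≤ ((b : ℝ)⁻¹) ^ j :=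
    pow_le_pow_of_le_one h0 h1.le (Nat.le_succ j)
  exact mul_le_mul hc hp (by positivity) (by positivity)

theorem cdig_nonneg {a b : ℕ} (c : ℕ → Fin a) : 0 ≤ dig b c :=
  tsum_nonneg fun j => by positivity

theorem cdig_le {a b : ℕ} (hb : 1 < b) (c : ℕ → Fin a) :
    dig b c ≤ ((a : ℝ) - 1) / ((b : ℝ) - 1) := by
  have hb' : (1 : ℝ) < b := by exact_mod_cast hb
  have h0 : (0 : ℝ) ≤ (b : ℝ)⁻¹ := by positivity
  have h1 : (b : ℝ)⁻¹ < 1 := inv_lt_one_of_one_lt₀ hb'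
  have hs := hasSum_geometric_of_lt_one h0 h1
  have hs2 : HasSum (fun j : ℕ => (((a : ℝ) - 1) * (b : ℝ)⁻¹) * ((b : ℝ)⁻¹) ^ j)
      ((((a : ℝ) - 1) * (b : ℝ)⁻¹) * (1 - (b : ℝ)⁻¹)⁻¹) := hs.mul_left _
  have hval : (((a : ℝ) - 1) * (b : ℝ)⁻¹) * (1 - (b : ℝ)⁻¹)⁻¹ = ((a : ℝ) - 1) / ((b : ℝ) - 1) := by
    have : (b : ℝ) - 1 ≠ 0 := by linarith
    have hb0 : (b : ℝ) ≠ 0 := by positivity
    field_simp
  rw [hval] at hs2
  refine (summable_dig_term hb c).tsum_le_tsum (g := fun j : ℕ =>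
    (((a : ℝ) - 1) * (b : ℝ)⁻¹) * ((b : ℝ)⁻¹) ^ j) (fun j => ?_) hs2.summable |>.trans hs2.tsum_eq.le
  have hc : ((c j : ℕ) : ℝ) ≤ (a : ℝ) - 1 := by
    have : (c j : ℕ) + 1 ≤ a := (c j).2
    have : ((c j : ℕ) : ℝ) + 1 ≤ a := by exact_mod_cast this
    linarith
  calc ((c j : ℕ) : ℝ) * ((b : ℝ)⁻¹) ^ (j + 1) ≤ ((a : ℝ) - 1) * ((b : ℝ)⁻¹) ^ (j + 1) :=
        mul_le_mul_of_nonneg_right hc (by positivity)
    _ = _ := by rw [pow_succ]; ring

theorem dig_succ {a b : ℕ} (hb : 1 < b) (c : ℕ → Fin a) :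
    dig b c = (b : ℝ)⁻¹ * ((c 0 : ℕ) : ℝ) + (b : ℝ)⁻¹ * dig b (fun i => c (i + 1)) := by
  unfold dig
  rw [(summable_dig_term hb c).tsum_eq_zero_add, ← tsum_mul_left]
  congr 1
  · simp [mul_comm]
  · congr 1
    funext j
    rw [pow_succ]
    ring

theorem dig_sub_of_eq {a b : ℕ} (hb : 1 < b) :
    ∀ (n : ℕ) (c c' : ℕ → Fin a), (∀ i < n, c i = c' i) →
      dig b c - dig b c' = ((b : ℝ)⁻¹) ^ n * (dig b (fun i => c (i + n)) -
        dig b (fun i => c' (i + n)))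
  | 0, c, c', _ => by simp
  | n + 1, c, c', h => by
    have h0 := h 0 (Nat.succ_pos n)
    have := dig_sub_of_eq hb n (fun i => c (i + 1)) (fun i => c' (i + 1))
      (fun i hi => h (i + 1) (by omega))
    rw [dig_succ hb c, dig_succ hb c', h0, add_sub_add_left_eq_sub, ← mul_sub, this, pow_succ]
    have e1 : (fun i => c (i + n + 1)) = fun i => c (i + (n + 1)) := rfl
    have e2 : (fun i => c' (i + n + 1)) = fun i => c' (i + (n + 1)) := rfl
    rw [e1, e2]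
    ring

theorem dig_sub_ge {a b : ℕ} (hb : 1 < b) (c c' : ℕ → Fin a) (h : c 0 ≠ c' 0) :
    (b : ℝ)⁻¹ * (((b : ℝ) - a) / ((b : ℝ) - 1)) ≤ |dig b c - dig b c'| := by
  have hb' : (1 : ℝ) < b := by exact_mod_cast hb
  have hb1 : 0 < (b : ℝ) - 1 := by linarith
  rw [dig_succ hb c, dig_succ hb c']
  have e : (b : ℝ)⁻¹ * ((c 0 : ℕ) : ℝ) + (b : ℝ)⁻¹ * dig b (fun i => c (i + 1)) -
      ((b : ℝ)⁻¹ * ((c' 0 : ℕ) : ℝ) + (b : ℝ)⁻¹ * dig b (fun i => c' (i + 1))) =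
      (b : ℝ)⁻¹ * ((((c 0 : ℕ) : ℝ) - ((c' 0 : ℕ) : ℝ)) + (dig b (fun i => c (i + 1)) -
        dig b (fun i => c' (i + 1)))) := by ring
  rw [e, abs_mul, abs_of_nonneg (by positivity : (0 : ℝ) ≤ (b : ℝ)⁻¹)]
  refine mul_le_mul_of_nonneg_left ?_ (by positivity)
  have h1 : (1 : ℝ) ≤ |((c 0 : ℕ) : ℝ) - ((c' 0 : ℕ) : ℝ)| := by
    have : ((c 0 : ℕ) : ℤ) - ((c' 0 : ℕ) : ℤ) ≠ 0 := by
      intro h2
      apply h
      apply Fin.ext
      omega
    have h3 : (1 : ℤ) ≤ |((c 0 : ℕ) : ℤ) - ((c' 0 : ℕ) : ℤ)| := Int.one_le_abs this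
    have h4 : ((1 : ℤ) : ℝ) ≤ ((|((c 0 : ℕ) : ℤ) - ((c' 0 : ℕ) : ℤ)| : ℤ) : ℝ) := by
      exact_mod_cast h3
    simpa using h4
  have h2 : |dig b (fun i => c (i + 1)) - dig b (fun i => c' (i + 1))| ≤
      ((a : ℝ) - 1) / ((b : ℝ) - 1) := by
    rw [abs_sub_le_iff]
    have A1 := cdig_le hb (fun i => c (i + 1))
    have A2 := cdig_le hb (fun i => c' (i + 1))
    have B1 := cdig_nonneg (b := b) (fun i => c (i + 1))
    have B2 := cdig_nonneg (b := b) (fun i => c' (i + 1))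
    constructor <;> linarith
  have h3 : |((c 0 : ℕ) : ℝ) - ((c' 0 : ℕ) : ℝ)| -
      |dig b (fun i => c (i + 1)) - dig b (fun i => c' (i + 1))| ≤
      |(((c 0 : ℕ) : ℝ) - ((c' 0 : ℕ) : ℝ)) + (dig b (fun i => c (i + 1)) -
        dig b (fun i => c' (i + 1)))| := by
    have := abs_sub_abs_le_abs_sub (((c 0 : ℕ) : ℝ) - ((c' 0 : ℕ) : ℝ))
      (-(dig b (fun i => c (i + 1)) - dig b (fun i => c' (i + 1))))
    rw [abs_neg, sub_neg_eq_add] at this
    exact this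
  have h4 : ((b : ℝ) - a) / ((b : ℝ) - 1) = 1 - ((a : ℝ) - 1) / ((b : ℝ) - 1) := by
    field_simp
    ring
  rw [h4]
  linarith

/-- The Hölder estimate between the two digit maps. -/
theorem ofDigits_sub_le {a b : ℕ} (ha : 2 ≤ a) (hab : a < b) (c c' : ℕ → Fin a) :
    |Real.ofDigits c - Real.ofDigits c'| ≤
      (a * (((b : ℝ) - 1) / ((b : ℝ) - a)) ^ (Real.log a / Real.log b)) *
        |dig b c - dig b c'| ^ (Real.log a / Real.log b) := by
  have hb : 1 < b := by omega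
  have hb' : (1 : ℝ) < b := by exact_mod_cast hb
  have ha' : (1 : ℝ) < a := by exact_mod_cast (by omega : 1 < a)
  have hab' : (a : ℝ) < b := by exact_mod_cast hab
  have hba : 0 < (b : ℝ) - a := by linarith
  have hb1 : 0 < (b : ℝ) - 1 := by linarith
  set κ := Real.log a / Real.log b with hκ
  have hκ0 : 0 < κ := div_pos (Real.log_pos ha') (Real.log_pos hb')
  by_cases hcc : c = c'
  · subst hcc
    simp only [sub_self, abs_zero]
    positivity
  · -- the first index where they differ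
    have hex : ∃ j, c j ≠ c' j := by
      by_contra hcon
      push Not at hcon
      exact hcc (funext hcon)
    classical
    set j := Nat.find hex with hj
    have hjne : c j ≠ c' j := Nat.find_spec hex
    have hjlt : ∀ i < j, c i = c' i := fun i hi => by
      have := Nat.find_min hex hi
      push Not at this
      exact this
    have hZ := Real.abs_ofDigits_sub_ofDigits_le hjlt
    have hY := dig_sub_of_eq hb j c c' hjlt
    have hY2 := dig_sub_ge hb (fun i => c (i + j)) (fun i => c' (i + j)) (by simpa using hjne)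
    have hY3 : ((b : ℝ)⁻¹) ^ (j + 1) * (((b : ℝ) - a) / ((b : ℝ) - 1)) ≤ |dig b c - dig b c'| := by
      rw [hY, abs_mul, abs_of_nonneg (by positivity : (0 : ℝ) ≤ ((b : ℝ)⁻¹) ^ j), pow_succ,
        mul_assoc]
      exact mul_le_mul_of_nonneg_left hY2 (by positivity)
    have hY4 : ((b : ℝ)⁻¹) ^ (j + 1) ≤ (((b : ℝ) - 1) / ((b : ℝ) - a)) * |dig b c - dig b c'| := by
      have := mul_le_mul_of_nonneg_left hY3 (by positivity : 0 ≤ ((b : ℝ) - 1) / ((b : ℝ) - a))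
      refine le_trans (le_of_eq ?_) this
      field_simp
    have hbk : (b : ℝ) ^ κ = a := by
      rw [Real.rpow_def_of_pos (by linarith), hκ, mul_div_cancel₀ _ (Real.log_pos hb').ne',
        Real.exp_log (by linarith)]
    have hpow : (((b : ℝ)⁻¹) ^ (j + 1)) ^ κ = ((a : ℝ)⁻¹) ^ (j + 1) := by
      rw [← Real.rpow_natCast, ← Real.rpow_mul (by positivity), mul_comm, Real.rpow_mul
        (by positivity), Real.inv_rpow (by positivity), hbk, Real.rpow_natCast]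
    have h5 : (((b : ℝ)⁻¹) ^ (j + 1)) ^ κ ≤
        ((((b : ℝ) - 1) / ((b : ℝ) - a)) * |dig b c - dig b c'|) ^ κ :=
      Real.rpow_le_rpow (by positivity) hY4 hκ0.le
    rw [hpow, Real.mul_rpow (by positivity) (abs_nonneg _)] at h5
    calc |Real.ofDigits c - Real.ofDigits c'| ≤ ((a : ℝ) ^ j)⁻¹ := hZ
      _ = a * ((a : ℝ)⁻¹) ^ (j + 1) := by
        rw [pow_succ, inv_pow]
        field_simp
      _ ≤ a * ((((b : ℝ) - 1) / ((b : ℝ) - a)) ^ κ * |dig b c - dig b c'| ^ κ) :=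
        mul_le_mul_of_nonneg_left h5 (by positivity)
      _ = _ := by ring

theorem le_dimH_cantor {N k a b : ℕ} (hk : k ≤ N) (ha : 2 ≤ a) (hab : a < b) (x₀ : Eu N) {ρ : ℝ}
    (hρ : 0 < ρ) :
    ENNReal.ofReal (k * (Real.log a / Real.log b)) ≤
      dimH {x : Eu N | (∀ i : Fin N, (i : ℕ) < k → ∃ c : ℕ → Fin a, x i = x₀ i + ρ * dig b c) ∧
        ∀ i : Fin N, k ≤ (i : ℕ) → x i = x₀ i} := by
  have hb : 1 < b := by omega
  have hb' : (1 : ℝ) < b := by exact_mod_cast hb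
  have ha' : (1 : ℝ) < a := by exact_mod_cast (by omega : 1 < a)
  have hab' : (a : ℝ) < b := by exact_mod_cast hab
  have hba : 0 < (b : ℝ) - a := by linarith
  have hb1 : 0 < (b : ℝ) - 1 := by linarith
  have : NeZero a := ⟨by omega⟩
  set κ := Real.log a / Real.log b with hκ
  have hκ0 : 0 < κ := div_pos (Real.log_pos ha') (Real.log_pos hb')
  set A := {x : Eu N | (∀ i : Fin N, (i : ℕ) < k → ∃ c : ℕ → Fin a, x i = x₀ i + ρ * dig b c) ∧
        ∀ i : Fin N, k ≤ (i : ℕ) → x i = x₀ i} with hA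
  set H : ℝ := a * (((b : ℝ) - 1) / ((b : ℝ) - a)) ^ κ with hH
  have hH0 : 0 ≤ H := by positivity
  classical
  let Φ : Eu N → (Fin k → ℝ) := fun x i =>
    if h : ∃ c : ℕ → Fin a, x (Fin.castLE hk i) = x₀ (Fin.castLE hk i) + ρ * dig b c then
      Real.ofDigits h.choose else 0
  have hΦ : ∀ x ∈ A, ∀ i : Fin k, ∀ c : ℕ → Fin a,
      x (Fin.castLE hk i) = x₀ (Fin.castLE hk i) + ρ * dig b c → Φ x i = Real.ofDigits c := by
    intro x hx i c hc
    have hex : ∃ c : ℕ → Fin a, x (Fin.castLE hk i) = x₀ (Fin.castLE hk i) + ρ * dig b c := ⟨c, hc⟩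
    have h1 : Φ x i = Real.ofDigits hex.choose := by
      simp only [Φ]
      rw [dif_pos hex]
    have h2 := hex.choose_spec
    have h3 : dig b hex.choose = dig b c := by
      have : ρ * dig b hex.choose = ρ * dig b c := by linarith
      exact mul_left_cancel₀ hρ.ne' this
    have h4 := ofDigits_sub_le ha hab hex.choose c
    rw [h3, sub_self, abs_zero, Real.zero_rpow hκ0.ne', mul_zero] at h4
    have h5 := abs_nonpos_iff.1 h4
    rw [h1]
    linarith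
  -- the Hölder property
  have hHol : HolderOnWith (Real.toNNReal (H * (ρ⁻¹) ^ κ)) (Real.toNNReal κ) Φ A := by
    intro x hx y hy
    have hdist : dist (Φ x) (Φ y) ≤ H * (ρ⁻¹) ^ κ * dist x y ^ κ := by
      refine (dist_pi_le_iff (by positivity)).2 fun i => ?_
      obtain ⟨c, hc⟩ := hx.1 (Fin.castLE hk i) (by simp)
      obtain ⟨c', hc'⟩ := hy.1 (Fin.castLE hk i) (by simp)
      rw [hΦ x hx i c hc, hΦ y hy i c' hc', Real.dist_eq]
      refine (ofDigits_sub_le ha hab c c').trans ?_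
      rw [mul_assoc H]
      refine mul_le_mul_of_nonneg_left ?_ hH0
      rw [← Real.mul_rpow (by positivity) dist_nonneg]
      refine Real.rpow_le_rpow (abs_nonneg _) ?_ hκ0.le
      have h1 : dig b c - dig b c' = ρ⁻¹ * (x (Fin.castLE hk i) - y (Fin.castLE hk i)) := by
        rw [hc, hc']
        field_simp
        ring
      rw [h1, abs_mul, abs_of_nonneg (by positivity : (0 : ℝ) ≤ ρ⁻¹)]
      refine mul_le_mul_of_nonneg_left ?_ (by positivity)
      have h2 := PiLp.norm_apply_le (x - y) (Fin.castLE hk i)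
      rw [dist_eq_norm]
      simpa using h2
    rw [edist_dist, edist_dist, Real.coe_toNNReal _ hκ0.le]
    calc ENNReal.ofReal (dist (Φ x) (Φ y)) ≤ ENNReal.ofReal (H * (ρ⁻¹) ^ κ * dist x y ^ κ) :=
          ENNReal.ofReal_le_ofReal hdist
      _ = _ := by
        rw [ENNReal.ofReal_mul (by positivity), ENNReal.ofReal_rpow_of_nonneg dist_nonneg hκ0.le]
        rfl
  have hdim := hHol.dimH_image_le (by simpa using hκ0)
  -- the image contains `[0,1)^k`
  have himg : Set.pi Set.univ (fun _ : Fin k => Set.Ioo (0 : ℝ) 1) ⊆ Φ '' A := by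
    intro t ht
    have ht' : ∀ i, t i ∈ Set.Ico (0 : ℝ) 1 := fun i => ⟨(ht i (mem_univ i)).1.le,
      (ht i (mem_univ i)).2⟩
    let x : Eu N := WithLp.toLp 2 (fun i : Fin N => if h : (i : ℕ) < k then
      x₀ i + ρ * dig b (Real.digits (t ⟨i, h⟩) a) else x₀ i)
    have hxA : x ∈ A := by
      constructor
      · intro i hi
        exact ⟨Real.digits (t ⟨i, hi⟩) a, by simp [x, hi]⟩
      · intro i hi
        simp [x, not_lt.2 hi]
    refine ⟨x, hxA, ?_⟩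
    funext i
    rw [hΦ x hxA i (Real.digits (t i) a) (by simp [x])]
    exact Real.ofDigits_digits (by omega) (ht' i)
  have hopen : IsOpen (Set.pi Set.univ (fun _ : Fin k => Set.Ioo (0 : ℝ) 1)) :=
    isOpen_set_pi Set.finite_univ (fun _ _ => isOpen_Ioo)
  have hmem : Set.pi Set.univ (fun _ : Fin k => Set.Ioo (0 : ℝ) 1) ∈ 𝓝 (fun _ : Fin k => (1/2 : ℝ)) :=
    hopen.mem_nhds (fun i _ => by constructor <;> norm_num)
  have hk2 : (k : ℝ≥0∞) ≤ dimH (Φ '' A) := by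
    have h1 := Real.dimH_of_mem_nhds hmem
    have h2 := dimH_mono himg
    rw [h1] at h2
    simpa using h2
  have h3 : (k : ℝ≥0∞) ≤ dimH A / ((Real.toNNReal κ : ℝ≥0) : ℝ≥0∞) := hk2.trans hdim
  have h4 : (k : ℝ≥0∞) * ((Real.toNNReal κ : ℝ≥0) : ℝ≥0∞) ≤ dimH A := by
    refine (ENNReal.le_div_iff_mul_le (Or.inl ?_) (Or.inl ENNReal.coe_ne_top)).1 h3
    simpa using hκ0
  refine le_trans (le_of_eq ?_) h4
  rw [ENNReal.ofReal_mul (by positivity), ENNReal.ofReal_natCast]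
  rfl

end Pool.Agent.Lib.MP_ae319b_an
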