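import Pool.Agent.Lib.MP_ae319b_an.RegEq

/-!
# MP_ae319b_an : the explicit weak solutions `u = ψ ∘ s`

Notation: `s = sS μ`, `Q = sQ μ'`, `g = sG μ'` (`= ∇ s`), so `‖g‖² = Q ≤ 2 M s`
(`SepData.sQ_le`, `norm_sG_sq`), `p' = p/(p-1)`, `δ_n = 1/(n+1)`, `u_n = ψ(s + δ_n)`
(a `C¹` function on the whole space, zero where `s ≥ 1`, so with compact support in `K ⊆ Ω`),
`∇ u_n = ψ'(s + δ_n) g`.
The function `W = s^(-(β+1)(p-1)) Q^((p-2)/2)` on `{s < 1}`, `0` elsewhere, satisfies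
`W^{p'} = s^(-(β+1)p) Q^(-(p'-p)/2)`, which is integrable by hypothesis.  All the functions below
vanish on `{s ≥ 1}` (`Profile.vanish`); on `{s < 1}`, where a.e. `s > 0` and `Q > 0`:
* `|u_n|, |u| ≤ C s^(-β)`, and `s^(-βp) ≤ c₁ W^{p'}` (as `s < 1`, `Q ≤ 2 M s ≤ 2 M`);
* `|∇ u_n|, |G| ≤ C s^(-(β+1)) Q^(1/2)` (`-ψ'(s+δ) ≤ C (s+δ)^(-(β+1)) ≤ C s^(-(β+1))`), and
  `(s^(-(β+1)) Q^(1/2))^p = W^{p'} Q^{p'/2} ≤ c₂ W^{p'}`;
* with `F_δ = sF p α α' μ μ' μ'' δ`, `δ ≥ 0`: `|F_δ| ≤ c₃ W`.  Indeed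
  `|α'(s+δ)| (Q+δ)^((p-2)/2) Q ≤ C (s+δ)^(-(β+1)(p-1)-1) Q^((p-2)/2) 2 M s
   ≤ 2 M C s^(-(β+1)(p-1)) Q^((p-2)/2)`,
  `(Q+δ)^((p-2)/2-1) ∑ 2 μ'² |μ''| ≤ 2 M (Q+δ)^((p-2)/2-1) Q ≤ 2 M (Q+δ)^((p-2)/2)`,
  `(Q+δ)^((p-2)/2) ≤ Q^((p-2)/2)`, `∑ |μ''| ≤ N M`;
* `|α(s+δ) (Q+δ)^((p-2)/2) g| ≤ C W Q^(1/2) ≤ c₄ W`.
Let `G = ψ'(s) g` and `F = F_0`.
(1) `F ∈ L^{p'}(Ω)`, `G, u ∈ L^p(Ω)` from the bounds (measurability from continuity on the open set
`{s > 0, Q > 0}` of full measure or as an a.e. limit).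
(2) `u_n → u`, `∇ u_n → G` in `L^p(Ω)` by dominated convergence (pointwise a.e. where `s > 0`, by
continuity of `ψ`, `ψ'` on `(0, ∞)`).
(3) By `mollify` choose test functions `φ_n` with `|φ_n - u_n|, |∇ φ_n - ∇ u_n| ≤ 1/(n+1)`;
`Ω` has finite measure, so `φ_n → u`, `∇ φ_n → G` in `L^p(Ω)`.  So `IsW01 Ω p u G`.
(4) For a test function `φ`: where `s > 0` and `Q > 0`,
`‖G‖^(p-2) * ⟪G, ∇φ⟫ = -α(s) Q^((p-2)/2) * fderiv ℝ φ x (g x)` (`Profile.α_eq`; if `ψ'(s) = 0`
both sides are `0`).  By `regularized_eq` for `δ = δ_n`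
`∫ α(s+δ)(Q+δ)^((p-2)/2) fderiv ℝ φ x (g x) = -∫ F_δ φ`; let `n → ∞` by dominated convergence
(dominating functions `c₄ W sup|∇φ|`, `c₃ W sup|φ|`, where `W ∈ L^{p'}` with bounded support, so
`W ∈ L¹`).
-/

namespace Pool.Agent.Lib.MP_ae319b_an

open MeasureTheory Filter Topology Set
open scoped ENNReal NNReal RealInnerProductSpace ContDiff

section

/-- dominated convergence in `L^p` -/
theorem tendsto_eLpNorm_dominated {α E : Type*} [MeasurableSpace α] [NormedAddCommGroup E]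
    {ν : Measure α} {p : ℝ} (hp : 0 < p) {f : ℕ → α → E} {g : α → E} {b : α → ℝ}
    (hf : ∀ n, AEStronglyMeasurable (f n) ν) (hg : AEStronglyMeasurable g ν)
    (hb : MemLp b (ENNReal.ofReal p) ν) (hle : ∀ n, ∀ᵐ x ∂ν, ‖f n x‖ ≤ b x)
    (hgle : ∀ᵐ x ∂ν, ‖g x‖ ≤ b x)
    (hlim : ∀ᵐ x ∂ν, Tendsto (fun n => f n x) atTop (𝓝 (g x))) :
    Tendsto (fun n => eLpNorm (fun x => f n x - g x) (ENNReal.ofReal p) ν) atTop (𝓝 0) := by
  have hp0 : ENNReal.ofReal p ≠ 0 := by simpa using hp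
  have hpt : ENNReal.ofReal p ≠ ⊤ := ENNReal.ofReal_ne_top
  have hpr : (ENNReal.ofReal p).toReal = p := ENNReal.toReal_ofReal hp.le
  simp only [eLpNorm_eq_lintegral_rpow_enorm_toReal hp0 hpt, hpr]
  have h1 : Tendsto (fun n => ∫⁻ x, ‖f n x - g x‖ₑ ^ p ∂ν) atTop (𝓝 (∫⁻ _, 0 ∂ν)) := by
    refine tendsto_lintegral_of_dominated_convergence' (fun x => (2 * ‖b x‖ₑ) ^ p) ?_ ?_ ?_ ?_
    · intro n
      exact ((hf n).sub hg).enorm.pow_const p
    · intro n
      filter_upwards [hle n, hgle] with x h2 h3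
      refine ENNReal.rpow_le_rpow ?_ hp.le
      have h4 : ‖f n x - g x‖ ≤ 2 * |b x| := by
        have := norm_sub_le (f n x) (g x)
        have := le_abs_self (b x)
        linarith
      have h5 : ‖f n x - g x‖ₑ ≤ ENNReal.ofReal (2 * |b x|) := by
        rw [← ofReal_norm]
        exact ENNReal.ofReal_le_ofReal h4
      rw [ENNReal.ofReal_mul (by norm_num), ENNReal.ofReal_ofNat] at h5
      rwa [← Real.enorm_eq_ofReal_abs] at h5
    · have h2 : MemLp (fun x => (2 : ℝ) * b x) (ENNReal.ofReal p) ν := hb.const_mul 2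
      have h3 := lintegral_rpow_enorm_lt_top_of_eLpNorm_lt_top hp0 hpt h2.2
      rw [hpr] at h3
      refine ne_of_lt (lt_of_le_of_lt (lintegral_mono fun x => ?_) h3)
      refine ENNReal.rpow_le_rpow ?_ hp.le
      rw [enorm_mul]
      gcongr
      rw [Real.enorm_eq_ofReal_abs]
      simp
    · filter_upwards [hlim] with x hx
      have h2 : Tendsto (fun n => ‖f n x - g x‖ₑ) atTop (𝓝 0) := by
        have h3 : Tendsto (fun n => f n x - g x) atTop (𝓝 (g x - g x)) := hx.sub_const _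
        rw [sub_self] at h3
        have := h3.enorm
        simpa using this
      have h3 := (ENNReal.continuous_rpow_const (y := p)).continuousAt.tendsto.comp h2
      simpa [Function.comp_def, ENNReal.zero_rpow_of_pos hp] using h3
  simp only [lintegral_zero] at h1
  have h2 := (ENNReal.continuous_rpow_const (y := 1 / p)).continuousAt.tendsto.comp h1
  simpa [Function.comp_def, ENNReal.zero_rpow_of_pos (one_div_pos.2 hp), hp] using h2

variable {N : ℕ}

/-- The integrand of the integrability hypothesis. -/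
noncomputable def hh (p β : ℝ) (μ μ' : Fin N → ℝ → ℝ) (x : Eu N) : ℝ :=
  sS μ x ^ (-((β + 1) * p)) * sQ μ' x ^ (-((p / (p - 1) - p) / 2))

/-- The dominating function in `L^{p'}`. -/
noncomputable def wW (p β : ℝ) (μ μ' : Fin N → ℝ → ℝ) (x : Eu N) : ℝ :=
  {x : Eu N | sS μ x < 1}.indicator
    (fun x => sS μ x ^ (-((β + 1) * (p - 1))) * sQ μ' x ^ ((p - 2) / 2)) x

/-- The dominating function in `L^p`. -/
noncomputable def vV (β : ℝ) (μ μ' : Fin N → ℝ → ℝ) (x : Eu N) : ℝ :=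
  {x : Eu N | sS μ x < 1}.indicator (fun x => sS μ x ^ (-(β + 1)) * sQ μ' x ^ (1 / 2 : ℝ)) x

/-- The dominating function in `L^p` for `u`. -/
noncomputable def uU (β : ℝ) (μ : Fin N → ℝ → ℝ) (x : Eu N) : ℝ :=
  {x : Eu N | sS μ x < 1}.indicator (fun x => sS μ x ^ (-β)) x

variable {μ μ' μ'' : Fin N → ℝ → ℝ} {M : ℝ} {p β : ℝ}

theorem SepData.measurableSet_lt (S : SepData μ μ' μ'' M) :
    MeasurableSet {x : Eu N | sS μ x < 1} :=
  (isOpen_lt S.continuous_sS continuous_const).measurableSet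

theorem SepData.measurable_hh (S : SepData μ μ' μ'' M) : Measurable (hh p β μ μ' : Eu N → ℝ) :=
  (S.continuous_sS.measurable.pow_const _).mul (S.continuous_sQ.measurable.pow_const _)

theorem SepData.measurable_wW (S : SepData μ μ' μ'' M) : Measurable (wW p β μ μ' : Eu N → ℝ) :=
  ((S.continuous_sS.measurable.pow_const _).mul
    (S.continuous_sQ.measurable.pow_const _)).indicator S.measurableSet_lt

theorem SepData.measurable_vV (S : SepData μ μ' μ'' M) : Measurable (vV β μ μ' : Eu N → ℝ) :=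
  ((S.continuous_sS.measurable.pow_const _).mul
    (S.continuous_sQ.measurable.pow_const _)).indicator S.measurableSet_lt

theorem SepData.measurable_uU (S : SepData μ μ' μ'' M) : Measurable (uU β μ : Eu N → ℝ) :=
  (S.continuous_sS.measurable.pow_const _).indicator S.measurableSet_lt

theorem SepData.wW_nonneg (S : SepData μ μ' μ'' M) (x : Eu N) : 0 ≤ wW p β μ μ' x := by
  unfold wW
  apply Set.indicator_nonneg
  intro x _
  exact mul_nonneg (Real.rpow_nonneg (S.sS_nonneg x) _) (Real.rpow_nonneg (sQ_nonneg μ' x) _)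

theorem SepData.vV_nonneg (S : SepData μ μ' μ'' M) (x : Eu N) : 0 ≤ vV β μ μ' x := by
  unfold vV
  apply Set.indicator_nonneg
  intro x _
  exact mul_nonneg (Real.rpow_nonneg (S.sS_nonneg x) _) (Real.rpow_nonneg (sQ_nonneg μ' x) _)

theorem SepData.uU_nonneg (S : SepData μ μ' μ'' M) (x : Eu N) : 0 ≤ uU β μ x := by
  unfold uU
  apply Set.indicator_nonneg
  intro x _
  exact Real.rpow_nonneg (S.sS_nonneg x) _

theorem SepData.wW_rpow (S : SepData μ μ' μ'' M) (hp1 : 1 < p) (x : Eu N) :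
    ‖wW p β μ μ' x‖ ^ (p / (p - 1)) = {x : Eu N | sS μ x < 1}.indicator (hh p β μ μ') x := by
  have hp : 0 < p - 1 := by linarith
  have hq : 0 < p / (p - 1) := div_pos (by linarith) hp
  rw [Real.norm_of_nonneg (S.wW_nonneg x)]
  unfold wW
  by_cases hx : x ∈ {x : Eu N | sS μ x < 1}
  · rw [Set.indicator_of_mem hx, Set.indicator_of_mem hx]
    have h1 := S.sS_nonneg x
    have h2 := sQ_nonneg μ' x
    rw [Real.mul_rpow (Real.rpow_nonneg h1 _) (Real.rpow_nonneg h2 _), ← Real.rpow_mul h1,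
      ← Real.rpow_mul h2]
    unfold hh
    congr 2
    · field_simp
    · field_simp
      ring
  · rw [Set.indicator_of_notMem hx, Set.indicator_of_notMem hx, Real.zero_rpow hq.ne']

/-- `vV ^ p ≤ c hh` -/
theorem SepData.vV_rpow_le (S : SepData μ μ' μ'' M) (hp1 : 1 < p) (hp2 : p < 2) (x : Eu N)
    (hpos : 0 < sS μ x ∧ 0 < sQ μ' x) :
    ‖vV β μ μ' x‖ ^ p ≤ (2 * M) ^ (p / (p - 1) / 2) *
      {x : Eu N | sS μ x < 1}.indicator (hh p β μ μ') x := by
  have hp : 0 < p - 1 := by linarith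
  have hq : 0 < p / (p - 1) := div_pos (by linarith) hp
  rw [Real.norm_of_nonneg (S.vV_nonneg x)]
  unfold vV
  by_cases hx : x ∈ {x : Eu N | sS μ x < 1}
  · rw [Set.indicator_of_mem hx, Set.indicator_of_mem hx]
    obtain ⟨h1, h2⟩ := hpos
    have hx' : sS μ x < 1 := hx
    rw [Real.mul_rpow (Real.rpow_nonneg h1.le _) (Real.rpow_nonneg h2.le _), ← Real.rpow_mul h1.le,
      ← Real.rpow_mul h2.le]
    unfold hh
    have h3 : sQ μ' x ^ (1 / 2 * p) = sQ μ' x ^ (p / (p - 1) / 2) *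
        sQ μ' x ^ (-((p / (p - 1) - p) / 2)) := by
      rw [← Real.rpow_add h2]
      congr 1
      ring
    have h4 : sQ μ' x ≤ 2 * M := by
      have := S.sQ_le x
      have hM := S.M_pos
      nlinarith
    have h5 : sQ μ' x ^ (p / (p - 1) / 2) ≤ (2 * M) ^ (p / (p - 1) / 2) :=
      Real.rpow_le_rpow h2.le h4 (by positivity)
    rw [h3, show -(β + 1) * p = -((β + 1) * p) by ring]
    have h6 : 0 ≤ sS μ x ^ (-((β + 1) * p)) := Real.rpow_nonneg h1.le _
    have h7 : 0 ≤ sQ μ' x ^ (-((p / (p - 1) - p) / 2)) := Real.rpow_nonneg h2.le _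
    calc sS μ x ^ (-((β + 1) * p)) * (sQ μ' x ^ (p / (p - 1) / 2) *
          sQ μ' x ^ (-((p / (p - 1) - p) / 2)))
        = sQ μ' x ^ (p / (p - 1) / 2) * (sS μ x ^ (-((β + 1) * p)) *
          sQ μ' x ^ (-((p / (p - 1) - p) / 2))) := by ring
      _ ≤ _ := mul_le_mul_of_nonneg_right h5 (mul_nonneg h6 h7)
  · rw [Set.indicator_of_notMem hx, Set.indicator_of_notMem hx,
      Real.zero_rpow (by linarith : p ≠ 0), mul_zero]

/-- `uU ^ p ≤ c hh` -/
theorem SepData.uU_rpow_le (S : SepData μ μ' μ'' M) (hp1 : 1 < p) (hp2 : p < 2) (x : Eu N)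
    (hpos : 0 < sS μ x ∧ 0 < sQ μ' x) :
    ‖uU β μ x‖ ^ p ≤ (2 * M) ^ ((p / (p - 1) - p) / 2) *
      {x : Eu N | sS μ x < 1}.indicator (hh p β μ μ') x := by
  have hp : 0 < p - 1 := by linarith
  have hq : 0 < p / (p - 1) := div_pos (by linarith) hp
  have hqp : 0 ≤ (p / (p - 1) - p) / 2 := by
    have : p ≤ p / (p - 1) := by
      rw [le_div_iff₀ hp]
      nlinarith
    linarith
  rw [Real.norm_of_nonneg (S.uU_nonneg x)]
  unfold uU
  by_cases hx : x ∈ {x : Eu N | sS μ x < 1}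
  · rw [Set.indicator_of_mem hx, Set.indicator_of_mem hx]
    obtain ⟨h1, h2⟩ := hpos
    have hx' : sS μ x < 1 := hx
    rw [← Real.rpow_mul h1.le]
    unfold hh
    have h4 : sQ μ' x ≤ 2 * M := by
      have := S.sQ_le x
      have hM := S.M_pos
      nlinarith
    have h5 : (2 * M) ^ (-((p / (p - 1) - p) / 2)) ≤ sQ μ' x ^ (-((p / (p - 1) - p) / 2)) :=
      Real.rpow_le_rpow_of_nonpos h2 h4 (by linarith)
    have h6 : sS μ x ^ (-β * p) ≤ sS μ x ^ (-((β + 1) * p)) :=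
      Real.rpow_le_rpow_of_exponent_ge h1 hx'.le (by nlinarith)
    have hM := S.M_pos
    have h7 : (2 * M) ^ ((p / (p - 1) - p) / 2) * (2 * M) ^ (-((p / (p - 1) - p) / 2)) = 1 := by
      rw [← Real.rpow_add (by positivity)]
      simp
    have h8 : 0 ≤ sS μ x ^ (-((β + 1) * p)) := Real.rpow_nonneg h1.le _
    have h9 : 0 ≤ (2 * M) ^ ((p / (p - 1) - p) / 2) := by positivity
    calc sS μ x ^ (-β * p) ≤ sS μ x ^ (-((β + 1) * p)) * ((2 * M) ^ ((p / (p - 1) - p) / 2) *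
          (2 * M) ^ (-((p / (p - 1) - p) / 2))) := by rw [h7, mul_one]; exact h6
      _ = (2 * M) ^ ((p / (p - 1) - p) / 2) * (sS μ x ^ (-((β + 1) * p)) *
          (2 * M) ^ (-((p / (p - 1) - p) / 2))) := by ring
      _ ≤ _ := by
          apply mul_le_mul_of_nonneg_left _ h9
          exact mul_le_mul_of_nonneg_left h5 h8
  · rw [Set.indicator_of_notMem hx, Set.indicator_of_notMem hx,
      Real.zero_rpow (by linarith : p ≠ 0), mul_zero]

theorem memLp_of_rpow_le {α : Type*} [MeasurableSpace α] {ν : Measure α} {q : ℝ} (hq : 0 < q)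
    {f : α → ℝ} (hf : AEStronglyMeasurable f ν) {h : α → ℝ} {c : ℝ} (hh : Integrable h ν)
    (hle : ∀ᵐ x ∂ν, ‖f x‖ ^ q ≤ c * h x) : MemLp f (ENNReal.ofReal q) ν := by
  have hp0 : ENNReal.ofReal q ≠ 0 := by simpa using hq
  have hpt : ENNReal.ofReal q ≠ ⊤ := ENNReal.ofReal_ne_top
  have hpr : (ENNReal.ofReal q).toReal = q := ENNReal.toReal_ofReal hq.le
  rw [← integrable_norm_rpow_iff hf hp0 hpt, hpr]
  refine (hh.const_mul c).mono' ?_ ?_
  · exact (hf.norm.aemeasurable.pow_const q).aestronglyMeasurable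
  · filter_upwards [hle] with x hx
    rw [Real.norm_of_nonneg (Real.rpow_nonneg (norm_nonneg _) _)]
    exact hx

variable {ψ ψ' α α' : ℝ → ℝ} {C : ℝ}

theorem Profile.α_nonneg (P : Profile p β ψ ψ' α α' C) {t : ℝ} (ht : 0 < t) : 0 ≤ α t := by
  rw [P.α_eq t ht]
  exact Real.rpow_nonneg (by linarith [P.ψ'_nonpos t ht]) _

/-- bound for `u` -/
theorem bound_u (P : Profile p β ψ ψ' α α' C) (hβ : 0 < β) {δ : ℝ}
    (hδ : 0 ≤ δ) (x : Eu N) (hpos : 0 < sS μ x) :
    ‖ψ (sS μ x + δ)‖ ≤ C * uU β μ x := by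
  unfold uU
  have h0 : 0 < sS μ x + δ := by linarith
  by_cases hx : x ∈ {x : Eu N | sS μ x < 1}
  · rw [Set.indicator_of_mem hx, Real.norm_of_nonneg (P.ψ_nonneg _ h0)]
    refine (P.ψ_le _ h0).trans ?_
    apply mul_le_mul_of_nonneg_left _ P.C_pos.le
    exact Real.rpow_le_rpow_of_nonpos hpos (by linarith) (by linarith)
  · rw [Set.indicator_of_notMem hx]
    have hx' : 1 ≤ sS μ x := not_lt.1 hx
    rw [(P.vanish _ (by linarith)).1]
    simp

/-- bound for the gradient of `u` -/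
theorem bound_g (P : Profile p β ψ ψ' α α' C) (hβ : 0 < β) {δ : ℝ}
    (hδ : 0 ≤ δ) (x : Eu N) (hpos : 0 < sS μ x) :
    ‖ψ' (sS μ x + δ) • sG μ' x‖ ≤ C * vV β μ μ' x := by
  unfold vV
  have h0 : 0 < sS μ x + δ := by linarith
  by_cases hx : x ∈ {x : Eu N | sS μ x < 1}
  · rw [Set.indicator_of_mem hx, norm_smul, norm_sG, Real.norm_of_nonpos (P.ψ'_nonpos _ h0),
      ← mul_assoc]
    refine mul_le_mul_of_nonneg_right ?_ (Real.rpow_nonneg (sQ_nonneg μ' x) _)
    refine (P.ψ'_le _ h0).trans ?_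
    apply mul_le_mul_of_nonneg_left _ P.C_pos.le
    exact Real.rpow_le_rpow_of_nonpos hpos (by linarith) (by linarith)
  · rw [Set.indicator_of_notMem hx]
    have hx' : 1 ≤ sS μ x := not_lt.1 hx
    rw [(P.vanish _ (by linarith)).2.1]
    simp

/-- bound for `α(s + δ) (Q + δ)^((p-2)/2)` -/
theorem bound_a (P : Profile p β ψ ψ' α α' C) (hp1 : 1 < p) (hp2 : p < 2)
    (hβ : 0 < β) {δ : ℝ} (hδ : 0 ≤ δ) (x : Eu N) (hpos : 0 < sS μ x ∧ 0 < sQ μ' x) :
    |α (sS μ x + δ) * (sQ μ' x + δ) ^ ((p - 2) / 2)| ≤ C * wW p β μ μ' x := by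
  unfold wW
  have h0 : 0 < sS μ x + δ := by linarith [hpos.1]
  have h1 : 0 < sQ μ' x + δ := by linarith [hpos.2]
  by_cases hx : x ∈ {x : Eu N | sS μ x < 1}
  · rw [Set.indicator_of_mem hx, abs_of_nonneg (mul_nonneg (P.α_nonneg h0)
      (Real.rpow_nonneg h1.le _)), ← mul_assoc]
    refine mul_le_mul ?_ ?_ (Real.rpow_nonneg h1.le _)
      (mul_nonneg P.C_pos.le (Real.rpow_nonneg hpos.1.le _))
    · refine (P.α_le _ h0).trans ?_
      apply mul_le_mul_of_nonneg_left _ P.C_pos.le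
      exact Real.rpow_le_rpow_of_nonpos hpos.1 (by linarith) (by nlinarith)
    · exact Real.rpow_le_rpow_of_nonpos hpos.2 (by linarith) (by linarith)
  · rw [Set.indicator_of_notMem hx]
    have hx' : 1 ≤ sS μ x := not_lt.1 hx
    rw [(P.vanish _ (by linarith)).2.2.1]
    simp

/-- bound for the first term of `sF` -/
theorem bound_a' (S : SepData μ μ' μ'' M) (P : Profile p β ψ ψ' α α' C) (hp1 : 1 < p) (hp2 : p < 2)
    (hβ : 0 < β) {δ : ℝ} (hδ : 0 ≤ δ) (x : Eu N) (hpos : 0 < sS μ x ∧ 0 < sQ μ' x) :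
    |α' (sS μ x + δ) * (sQ μ' x + δ) ^ ((p - 2) / 2) * sQ μ' x| ≤
      2 * M * C * wW p β μ μ' x := by
  unfold wW
  have h0 : 0 < sS μ x + δ := by linarith [hpos.1]
  have h1 : 0 < sQ μ' x + δ := by linarith [hpos.2]
  have hM := S.M_pos
  have hC := P.C_pos
  by_cases hx : x ∈ {x : Eu N | sS μ x < 1}
  · rw [Set.indicator_of_mem hx, abs_mul, abs_mul, abs_of_pos hpos.2,
      abs_of_nonneg (Real.rpow_nonneg h1.le _)]
    have h2 : |α' (sS μ x + δ)| ≤ C * sS μ x ^ (-((β + 1) * (p - 1)) - 1) := by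
      refine (P.α'_le _ h0).trans ?_
      apply mul_le_mul_of_nonneg_left _ hC.le
      exact Real.rpow_le_rpow_of_nonpos hpos.1 (by linarith) (by nlinarith)
    have h3 : (sQ μ' x + δ) ^ ((p - 2) / 2) ≤ sQ μ' x ^ ((p - 2) / 2) :=
      Real.rpow_le_rpow_of_nonpos hpos.2 (by linarith) (by linarith)
    have h4 : sS μ x ^ (-((β + 1) * (p - 1)) - 1) * sS μ x = sS μ x ^ (-((β + 1) * (p - 1))) := by
      rw [Real.rpow_sub_one hpos.1.ne', div_mul_cancel₀ _ hpos.1.ne']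
    have h5 : 0 ≤ (sQ μ' x + δ) ^ ((p - 2) / 2) := Real.rpow_nonneg h1.le _
    have h6 : 0 ≤ sS μ x ^ (-((β + 1) * (p - 1)) - 1) := Real.rpow_nonneg hpos.1.le _
    have h7 : 0 ≤ sQ μ' x ^ ((p - 2) / 2) := Real.rpow_nonneg hpos.2.le _
    calc |α' (sS μ x + δ)| * (sQ μ' x + δ) ^ ((p - 2) / 2) * sQ μ' x
        ≤ (C * sS μ x ^ (-((β + 1) * (p - 1)) - 1)) * sQ μ' x ^ ((p - 2) / 2) *
          (2 * M * sS μ x) := by
          apply mul_le_mul _ (S.sQ_le x) hpos.2.le (by positivity)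
          exact mul_le_mul h2 h3 h5 (by positivity)
      _ = 2 * M * C * ((sS μ x ^ (-((β + 1) * (p - 1)) - 1) * sS μ x) *
          sQ μ' x ^ ((p - 2) / 2)) := by ring
      _ = _ := by rw [h4]
  · rw [Set.indicator_of_notMem hx]
    have hx' : 1 ≤ sS μ x := not_lt.1 hx
    rw [(P.vanish _ (by linarith)).2.2.2]
    simp

/-- bound for `sF` -/
theorem bound_F (S : SepData μ μ' μ'' M) (P : Profile p β ψ ψ' α α' C) (hp1 : 1 < p) (hp2 : p < 2)
    (hβ : 0 < β) {δ : ℝ} (hδ : 0 ≤ δ) (x : Eu N) (hpos : 0 < sS μ x ∧ 0 < sQ μ' x) :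
    |sF p α α' μ μ' μ'' δ x| ≤ (4 + N) * M * C * wW p β μ μ' x := by
  have h0 : 0 < sS μ x + δ := by linarith [hpos.1]
  have h1 : 0 < sQ μ' x + δ := by linarith [hpos.2]
  have hM := S.M_pos
  have hC := P.C_pos
  have hW : 0 ≤ wW p β μ μ' x := S.wW_nonneg x
  have ha := bound_a P hp1 hp2 hβ hδ x hpos
  have ha' := bound_a' S P hp1 hp2 hβ hδ x hpos
  have hsum1 : |∑ i, 2 * μ' i (x i) ^ 2 * μ'' i (x i)| ≤ 2 * M * sQ μ' x := by
    refine (Finset.abs_sum_le_sum_abs _ _).trans ?_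
    unfold sQ
    rw [Finset.mul_sum]
    apply Finset.sum_le_sum
    intro i _
    rw [abs_mul, abs_of_nonneg (by positivity)]
    have := S.bd i (x i)
    nlinarith [sq_nonneg (μ' i (x i))]
  have hsum2 : |∑ i, μ'' i (x i)| ≤ N * M := by
    refine (Finset.abs_sum_le_sum_abs _ _).trans ?_
    calc ∑ i, |μ'' i (x i)| ≤ ∑ _i : Fin N, M := Finset.sum_le_sum fun i _ => S.bd i _
      _ = N * M := by simp
  have h2 : |α (sS μ x + δ) * ((p - 2) / 2 * (sQ μ' x + δ) ^ ((p - 2) / 2 - 1)) *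
      (∑ i, 2 * μ' i (x i) ^ 2 * μ'' i (x i))| ≤ 2 * M * C * wW p β μ μ' x := by
    have e1 : (sQ μ' x + δ) ^ ((p - 2) / 2 - 1) * (sQ μ' x + δ) =
        (sQ μ' x + δ) ^ ((p - 2) / 2) := by
      rw [Real.rpow_sub_one h1.ne']
      field_simp
    have e2 : |α (sS μ x + δ)| * (sQ μ' x + δ) ^ ((p - 2) / 2) ≤ C * wW p β μ μ' x := by
      rw [abs_mul, abs_of_nonneg (Real.rpow_nonneg h1.le _)] at ha
      exact ha
    have e3 : |(p - 2) / 2| ≤ 1 := by
      rw [abs_le]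
      constructor <;> linarith
    have e4 : 0 ≤ (sQ μ' x + δ) ^ ((p - 2) / 2 - 1) := Real.rpow_nonneg h1.le _
    rw [abs_mul, abs_mul, abs_mul, abs_of_nonneg e4]
    calc |α (sS μ x + δ)| * (|(p - 2) / 2| * (sQ μ' x + δ) ^ ((p - 2) / 2 - 1)) *
          |∑ i, 2 * μ' i (x i) ^ 2 * μ'' i (x i)|
        ≤ |α (sS μ x + δ)| * (1 * (sQ μ' x + δ) ^ ((p - 2) / 2 - 1)) *
          (2 * M * (sQ μ' x + δ)) := by
          apply mul_le_mul _ _ (abs_nonneg _) (by positivity)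
          · exact mul_le_mul_of_nonneg_left (mul_le_mul_of_nonneg_right e3 e4) (abs_nonneg _)
          · refine hsum1.trans ?_
            nlinarith
      _ = 2 * M * (|α (sS μ x + δ)| * ((sQ μ' x + δ) ^ ((p - 2) / 2 - 1) *
          (sQ μ' x + δ))) := by ring
      _ = 2 * M * (|α (sS μ x + δ)| * (sQ μ' x + δ) ^ ((p - 2) / 2)) := by rw [e1]
      _ ≤ 2 * M * (C * wW p β μ μ' x) := by
          apply mul_le_mul_of_nonneg_left e2 (by positivity)
      _ = _ := by ring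
  have h3 : |α (sS μ x + δ) * (sQ μ' x + δ) ^ ((p - 2) / 2) * ∑ i, μ'' i (x i)| ≤
      N * M * C * wW p β μ μ' x := by
    rw [abs_mul]
    calc |α (sS μ x + δ) * (sQ μ' x + δ) ^ ((p - 2) / 2)| * |∑ i, μ'' i (x i)|
        ≤ (C * wW p β μ μ' x) * (N * M) :=
          mul_le_mul ha hsum2 (abs_nonneg _) (mul_nonneg hC.le hW)
      _ = _ := by ring
  unfold sF
  refine (abs_add_three _ _ _).trans ?_
  calc _ ≤ 2 * M * C * wW p β μ μ' x + 2 * M * C * wW p β μ μ' x +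
        N * M * C * wW p β μ μ' x := add_le_add (add_le_add ha' h2) h3
    _ = _ := by ring

/-- bound for the field -/
theorem bound_field (S : SepData μ μ' μ'' M) (P : Profile p β ψ ψ' α α' C) (hp1 : 1 < p)
    (hp2 : p < 2) (hβ : 0 < β) {δ : ℝ} (hδ : 0 ≤ δ) (x : Eu N)
    (hpos : 0 < sS μ x ∧ 0 < sQ μ' x) (ℓ : Eu N →L[ℝ] ℝ) {B : ℝ} (hB : ‖ℓ‖ ≤ B) :
    |(α (sS μ x + δ) * (sQ μ' x + δ) ^ ((p - 2) / 2)) * ℓ (sG μ' x)| ≤
      C * (2 * M) ^ (1 / 2 : ℝ) * B * wW p β μ μ' x := by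
  have hM := S.M_pos
  have hC := P.C_pos
  have hW : 0 ≤ wW p β μ μ' x := S.wW_nonneg x
  have ha := bound_a P hp1 hp2 hβ hδ x hpos
  have hB0 : 0 ≤ B := (norm_nonneg _).trans hB
  by_cases hx : sS μ x < 1
  · have h1 : |ℓ (sG μ' x)| ≤ B * (2 * M) ^ (1 / 2 : ℝ) := by
      have h2 := ℓ.le_opNorm (sG μ' x)
      rw [Real.norm_eq_abs] at h2
      refine h2.trans ?_
      apply mul_le_mul hB _ (norm_nonneg _) hB0
      rw [norm_sG]
      apply Real.rpow_le_rpow hpos.2.le _ (by norm_num)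
      have := S.sQ_le x
      nlinarith
    rw [abs_mul]
    calc _ ≤ (C * wW p β μ μ' x) * (B * (2 * M) ^ (1 / 2 : ℝ)) :=
          mul_le_mul ha h1 (abs_nonneg _) (mul_nonneg hC.le hW)
      _ = _ := by ring
  · have hx' : 1 ≤ sS μ x := not_lt.1 hx
    rw [(P.vanish _ (by linarith)).2.2.1]
    have : 0 ≤ C * (2 * M) ^ (1 / 2 : ℝ) * B * wW p β μ μ' x := by positivity
    simpa using this

theorem hasFDerivAt_u (S : SepData μ μ' μ'' M) (P : Profile p β ψ ψ' α α' C) {δ : ℝ} (hδ : 0 < δ)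
    (x : Eu N) : HasFDerivAt (fun x : Eu N => ψ (sS μ x + δ))
      (ψ' (sS μ x + δ) • ∑ i, μ' i (x i) • (EuclideanSpace.proj (𝕜 := ℝ) i : Eu N →L[ℝ] ℝ)) x := by
  have h1 : 0 < sS μ x + δ := by linarith [S.sS_nonneg x]
  have h2 : HasFDerivAt (fun x : Eu N => sS μ x + δ)
      (∑ i, μ' i (x i) • (EuclideanSpace.proj (𝕜 := ℝ) i : Eu N →L[ℝ] ℝ)) x :=
    (S.hasFDerivAt_sS x).add_const δ
  exact (P.hψ _ h1).comp_hasFDerivAt x h2

theorem continuous_comp_shift (S : SepData μ μ' μ'' M) {f : ℝ → ℝ}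
    (hf : ContinuousOn f (Ioi 0)) {δ : ℝ} (hδ : 0 < δ) :
    Continuous (fun x : Eu N => f (sS μ x + δ)) :=
  hf.comp_continuous (S.continuous_sS.add continuous_const)
    (fun x => mem_Ioi.2 (by linarith [S.sS_nonneg x]))

theorem contDiff_u (S : SepData μ μ' μ'' M) (P : Profile p β ψ ψ' α α' C) {δ : ℝ} (hδ : 0 < δ) :
    ContDiff ℝ 1 (fun x : Eu N => ψ (sS μ x + δ)) := by
  rw [contDiff_one_iff_fderiv]
  refine ⟨fun x => (hasFDerivAt_u S P hδ x).differentiableAt, ?_⟩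
  have h1 : fderiv ℝ (fun x : Eu N => ψ (sS μ x + δ)) = fun x : Eu N =>
      ψ' (sS μ x + δ) • ∑ i, μ' i (x i) • (EuclideanSpace.proj (𝕜 := ℝ) i : Eu N →L[ℝ] ℝ) := by
    funext x
    exact (hasFDerivAt_u S P hδ x).fderiv
  rw [h1]
  refine (continuous_comp_shift S P.cψ' hδ).smul ?_
  exact continuous_finsetSum _ fun i _ => ((S.continuous_μ' i).comp
    (EuclideanSpace.proj (𝕜 := ℝ) i).continuous).smul continuous_const

theorem gradient_u (S : SepData μ μ' μ'' M) (P : Profile p β ψ ψ' α α' C) {δ : ℝ} (hδ : 0 < δ)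
    (x : Eu N) : gradient (fun x : Eu N => ψ (sS μ x + δ)) x = ψ' (sS μ x + δ) • sG μ' x := by
  rw [← S.gradient_sS x]
  unfold gradient
  rw [(hasFDerivAt_u S P hδ x).fderiv, (S.hasFDerivAt_sS x).fderiv]
  exact map_smul _ _ _

theorem continuousOn_of_hasDerivAt {f f' : ℝ → ℝ} (h : ∀ t, 0 < t → HasDerivAt f (f' t) t) :
    ContinuousOn f (Ioi 0) := fun t ht => (h t ht).continuousAt.continuousWithinAt

/-- the limit of a function of `s + δ_n` -/
theorem tendsto_shift {f : ℝ → ℝ} (hf : ContinuousOn f (Ioi 0)) {x : Eu N} (hx : 0 < sS μ x) :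
    Tendsto (fun n : ℕ => f (sS μ x + 1 / ((n : ℝ) + 1))) atTop (𝓝 (f (sS μ x))) := by
  have h1 : Tendsto (fun n : ℕ => sS μ x + 1 / ((n : ℝ) + 1)) atTop (𝓝 (sS μ x)) := by
    have := (tendsto_one_div_add_atTop_nhds_zero_nat (𝕜 := ℝ)).const_add (sS μ x)
    simpa using this
  exact (hf.continuousAt (Ioi_mem_nhds hx)).tendsto.comp h1

theorem tendsto_shift_Q {e : ℝ} {x : Eu N} (hx : 0 < sQ μ' x) :
    Tendsto (fun n : ℕ => (sQ μ' x + 1 / ((n : ℝ) + 1)) ^ e) atTop (𝓝 (sQ μ' x ^ e)) := by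
  have h1 : Tendsto (fun n : ℕ => sQ μ' x + 1 / ((n : ℝ) + 1)) atTop (𝓝 (sQ μ' x)) := by
    have := (tendsto_one_div_add_atTop_nhds_zero_nat (𝕜 := ℝ)).const_add (sQ μ' x)
    simpa using this
  exact h1.rpow_const (Or.inl hx.ne')

theorem continuous_Q_shift (S : SepData μ μ' μ'' M) (e : ℝ) {δ : ℝ} (hδ : 0 < δ) :
    Continuous (fun x : Eu N => (sQ μ' x + δ) ^ e) :=
  (S.continuous_sQ.add continuous_const).rpow_const
    (fun x => Or.inl (by linarith [sQ_nonneg μ' x] : 0 < sQ μ' x + δ).ne')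

theorem continuous_sF (S : SepData μ μ' μ'' M) (P : Profile p β ψ ψ' α α' C) {δ : ℝ} (hδ : 0 < δ) :
    Continuous (sF p α α' μ μ' μ'' δ : Eu N → ℝ) := by
  unfold sF
  have c1 := continuous_comp_shift (N := N) S P.cα' hδ
  have c2 := continuous_comp_shift (N := N) S (continuousOn_of_hasDerivAt P.hα) hδ
  have c3 := continuous_Q_shift (N := N) S ((p - 2) / 2) hδ
  have c4 := continuous_Q_shift (N := N) S ((p - 2) / 2 - 1) hδ
  have c5 : Continuous (fun x : Eu N => ∑ i, 2 * μ' i (x i) ^ 2 * μ'' i (x i)) :=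
    continuous_finsetSum _ fun i _ => (continuous_const.mul (((S.continuous_μ' i).comp
      (EuclideanSpace.proj (𝕜 := ℝ) i).continuous).pow 2)).mul
      ((S.hc i).comp (EuclideanSpace.proj (𝕜 := ℝ) i).continuous)
  have c6 : Continuous (fun x : Eu N => ∑ i, μ'' i (x i)) :=
    continuous_finsetSum _ fun i _ => (S.hc i).comp (EuclideanSpace.proj (𝕜 := ℝ) i).continuous
  exact (((c1.mul c3).mul S.continuous_sQ).add ((c2.mul (continuous_const.mul c4)).mul c5)).add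
    ((c2.mul c3).mul c6)

theorem tendsto_sF (P : Profile p β ψ ψ' α α' C) {x : Eu N}
    (hpos : 0 < sS μ x ∧ 0 < sQ μ' x) :
    Tendsto (fun n : ℕ => sF p α α' μ μ' μ'' (1 / ((n : ℝ) + 1)) x) atTop
      (𝓝 (sF p α α' μ μ' μ'' 0 x)) := by
  unfold sF
  simp only [add_zero]
  have t1 := tendsto_shift (μ := μ) P.cα' hpos.1
  have t2 := tendsto_shift (μ := μ) (continuousOn_of_hasDerivAt P.hα) hpos.1
  have t3 := tendsto_shift_Q (μ' := μ') (e := (p - 2) / 2) hpos.2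
  have t4 := tendsto_shift_Q (μ' := μ') (e := (p - 2) / 2 - 1) hpos.2
  exact (((t1.mul t3).mul_const _).add ((t2.mul (t4.const_mul _)).mul_const _)).add
    ((t2.mul t3).mul_const _)

/-- the pointwise identity between the field of `G` and the field of the regularized equation -/
theorem field_eq (P : Profile p β ψ ψ' α α' C) (hp1 : 1 < p)
    {x : Eu N} (hpos : 0 < sS μ x ∧ 0 < sQ μ' x) (φ : Eu N → ℝ) :
    ‖ψ' (sS μ x) • sG μ' x‖ ^ (p - 2) * ⟪ψ' (sS μ x) • sG μ' x, gradient φ x⟫ =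
      -((α (sS μ x) * sQ μ' x ^ ((p - 2) / 2)) * fderiv ℝ φ x (sG μ' x)) := by
  have h1 : ⟪sG μ' x, gradient φ x⟫ = fderiv ℝ φ x (sG μ' x) := by
    rw [real_inner_comm]
    unfold gradient
    exact InnerProductSpace.toDual_symm_apply
  rw [real_inner_smul_left, h1, P.α_eq _ hpos.1]
  by_cases h0 : ψ' (sS μ x) = 0
  · rw [h0]
    have : p - 1 ≠ 0 := by linarith
    simp [Real.zero_rpow this]
  · have h2 : 0 < -ψ' (sS μ x) := by
      have := P.ψ'_nonpos _ hpos.1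
      rcases lt_or_eq_of_le this with h | h
      · linarith
      · exact absurd h h0
    rw [norm_smul, norm_sG, Real.norm_of_nonpos (by linarith), Real.mul_rpow h2.le
      (Real.rpow_nonneg hpos.2.le _), ← Real.rpow_mul hpos.2.le]
    have h3 : (-ψ' (sS μ x)) ^ (p - 1) = (-ψ' (sS μ x)) ^ (p - 2) * (-ψ' (sS μ x)) := by
      rw [← Real.rpow_add_one h2.ne']
      congr 1
      ring
    rw [h3, show 1 / 2 * (p - 2) = (p - 2) / 2 by ring]
    ring

end

variable {N : ℕ}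

theorem mem_solutionSet {Ω : Set (Eu N)} (hΩ : IsOpen Ω) (hb : Bornology.IsBounded Ω) {p β : ℝ}
    (hp1 : 1 < p) (hp2 : p < 2) (hβ : 0 < β) {ψ ψ' α α' : ℝ → ℝ} {C : ℝ}
    (P : Profile p β ψ ψ' α α' C) {μ μ' μ'' : Fin N → ℝ → ℝ} {M : ℝ} (S : SepData μ μ' μ'' M)
    {K : Set (Eu N)} (hK : IsCompact K) (hKΩ : K ⊆ Ω) (hKs : ∀ x : Eu N, sS μ x ≤ 1 → x ∈ K)
    (hpos : ∀ᵐ x : Eu N, 0 < sS μ x ∧ 0 < sQ μ' x)
    (hint : IntegrableOn (fun x : Eu N => sS μ x ^ (-((β + 1) * p)) *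
      sQ μ' x ^ (-((p / (p - 1) - p) / 2))) {x | sS μ x < 1} volume) :
    (fun x => ψ (sS μ x)) ∈ solutionSet Ω p := by
  have hp0 : 0 < p := by linarith
  have hpm : 0 < p - 1 := by linarith
  have hq0 : 0 < p / (p - 1) := div_pos hp0 hpm
  have hq1 : 1 ≤ p / (p - 1) := by
    rw [le_div_iff₀ hpm]
    linarith
  have hM := S.M_pos
  have hC := P.C_pos
  obtain ⟨δ, hδ⟩ : ∃ δ : ℕ → ℝ, δ = fun n : ℕ => 1 / ((n : ℝ) + 1) := ⟨_, rfl⟩
  have hδ0 : ∀ n, 0 < δ n := by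
    intro n
    rw [hδ]
    positivity
  have hδt : Tendsto δ atTop (𝓝 0) := by
    rw [hδ]
    exact tendsto_one_div_add_atTop_nhds_zero_nat
  obtain ⟨ν, hν⟩ : ∃ ν : Measure (Eu N), ν = volume.restrict Ω := ⟨_, rfl⟩
  have hfin : IsFiniteMeasure ν := by
    rw [hν]
    refine ⟨?_⟩
    rw [Measure.restrict_apply_univ]
    exact hb.measure_lt_top
  have hposν : ∀ᵐ x ∂ν, 0 < sS μ x ∧ 0 < sQ μ' x := by
    rw [hν]
    exact ae_restrict_of_ae hpos
  have hint' : Integrable ({x : Eu N | sS μ x < 1}.indicator (hh p β μ μ')) ν := by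
    rw [hν]
    exact ((integrable_indicator_iff S.measurableSet_lt).2 hint).restrict
  -- the dominating functions
  have hW : MemLp (wW p β μ μ' : Eu N → ℝ) (ENNReal.ofReal (p / (p - 1))) ν := by
    refine memLp_of_rpow_le hq0 S.measurable_wW.aestronglyMeasurable (c := 1) hint' ?_
    refine Eventually.of_forall fun x => ?_
    rw [S.wW_rpow hp1, one_mul]
  have hV : MemLp (vV β μ μ' : Eu N → ℝ) (ENNReal.ofReal p) ν := by
    refine memLp_of_rpow_le hp0 S.measurable_vV.aestronglyMeasurable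
      (c := (2 * M) ^ (p / (p - 1) / 2)) hint' ?_
    filter_upwards [hposν] with x hx
    exact S.vV_rpow_le hp1 hp2 x hx
  have hU : MemLp (uU β μ : Eu N → ℝ) (ENNReal.ofReal p) ν := by
    refine memLp_of_rpow_le hp0 S.measurable_uU.aestronglyMeasurable
      (c := (2 * M) ^ ((p / (p - 1) - p) / 2)) hint' ?_
    filter_upwards [hposν] with x hx
    exact S.uU_rpow_le hp1 hp2 x hx
  have hW1 : Integrable (wW p β μ μ' : Eu N → ℝ) ν := by
    rw [← memLp_one_iff_integrable]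
    exact hW.mono_exponent (by
      rw [← ENNReal.ofReal_one]
      exact ENNReal.ofReal_le_ofReal hq1)
  -- the functions
  obtain ⟨un, hun⟩ : ∃ un : ℕ → Eu N → ℝ, un = fun n x => ψ (sS μ x + δ n) := ⟨_, rfl⟩
  obtain ⟨G, hG⟩ : ∃ G : Eu N → Eu N, G = fun x => ψ' (sS μ x) • sG μ' x := ⟨_, rfl⟩
  obtain ⟨F, hF⟩ : ∃ F : Eu N → ℝ, F = sF p α α' μ μ' μ'' 0 := ⟨_, rfl⟩
  have hunc : ∀ n, ContDiff ℝ 1 (un n) := by
    intro n
    rw [hun]
    exact contDiff_u S P (hδ0 n)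
  have hung : ∀ n x, gradient (un n) x = ψ' (sS μ x + δ n) • sG μ' x := by
    intro n x
    rw [hun]
    exact gradient_u S P (hδ0 n) x
  have hungc : ∀ n, Continuous (fun x => gradient (un n) x) := by
    intro n
    simp only [hung]
    exact (continuous_comp_shift S P.cψ' (hδ0 n)).smul S.continuous_sG
  -- supports
  have hsupp : ∀ n, Function.support (un n) ⊆ K := by
    intro n x hx
    apply hKs
    by_contra h
    push Not at h
    apply hx
    rw [hun]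
    exact (P.vanish _ (by linarith [hδ0 n])).1
  have htsupp : ∀ n, tsupport (un n) ⊆ K := fun n => closure_minimal (hsupp n) hK.isClosed
  have hcomp : ∀ n, HasCompactSupport (un n) := fun n =>
    HasCompactSupport.of_support_subset_isCompact hK (hsupp n)
  -- pointwise limits
  have hlimu : ∀ᵐ x ∂ν, Tendsto (fun n => un n x) atTop (𝓝 (ψ (sS μ x))) := by
    filter_upwards [hposν] with x hx
    rw [hun, hδ]
    exact tendsto_shift (continuousOn_of_hasDerivAt P.hψ) hx.1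
  have hlimg : ∀ᵐ x ∂ν, Tendsto (fun n => gradient (un n) x) atTop (𝓝 (G x)) := by
    filter_upwards [hposν] with x hx
    simp only [hung]
    rw [hG, hδ]
    exact (tendsto_shift P.cψ' hx.1).smul_const _
  have hlimF : ∀ᵐ x ∂ν, Tendsto (fun n => sF p α α' μ μ' μ'' (δ n) x) atTop (𝓝 (F x)) := by
    filter_upwards [hposν] with x hx
    rw [hF, hδ]
    exact tendsto_sF P hx
  -- measurability
  have hum : AEStronglyMeasurable (fun x : Eu N => ψ (sS μ x)) ν :=
    aestronglyMeasurable_of_tendsto_ae atTop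
      (fun n => (hunc n).continuous.aestronglyMeasurable) hlimu
  have hGm : AEStronglyMeasurable G ν :=
    aestronglyMeasurable_of_tendsto_ae atTop (fun n => (hungc n).aestronglyMeasurable) hlimg
  have hFm : AEStronglyMeasurable F ν :=
    aestronglyMeasurable_of_tendsto_ae atTop
      (fun n => (continuous_sF S P (hδ0 n)).aestronglyMeasurable) hlimF
  -- bounds
  have hub : ∀ᵐ x ∂ν, ‖ψ (sS μ x)‖ ≤ C * uU β μ x := by
    filter_upwards [hposν] with x hx
    have := bound_u P hβ le_rfl x hx.1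
    rwa [add_zero] at this
  have hGb : ∀ᵐ x ∂ν, ‖G x‖ ≤ C * vV β μ μ' x := by
    filter_upwards [hposν] with x hx
    have := bound_g P hβ le_rfl x hx.1 (μ' := μ')
    rw [add_zero] at this
    rw [hG]
    exact this
  have hunb : ∀ n, ∀ᵐ x ∂ν, ‖un n x‖ ≤ C * uU β μ x := by
    intro n
    filter_upwards [hposν] with x hx
    rw [hun]
    exact bound_u P hβ (hδ0 n).le x hx.1
  have hungb : ∀ n, ∀ᵐ x ∂ν, ‖gradient (un n) x‖ ≤ C * vV β μ μ' x := by
    intro n
    filter_upwards [hposν] with x hx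
    rw [hung]
    exact bound_g P hβ (hδ0 n).le x hx.1
  have hFb : ∀ᵐ x ∂ν, ‖F x‖ ≤ ((4 + N) * M * C) * ‖wW p β μ μ' x‖ := by
    filter_upwards [hposν] with x hx
    rw [hF, Real.norm_eq_abs, Real.norm_of_nonneg (S.wW_nonneg x)]
    exact bound_F S P hp1 hp2 hβ le_rfl x hx
  have huL : MemLp (fun x : Eu N => ψ (sS μ x)) (ENNReal.ofReal p) ν :=
    (hU.const_mul C).mono' hum hub
  have hGL : MemLp G (ENNReal.ofReal p) ν := (hV.const_mul C).mono' hGm hGb
  have hFL : MemLp F (ENNReal.ofReal (p / (p - 1))) ν := hW.of_le_mul hFm hFb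
  -- convergence in `L^p`
  have hconv1 : Tendsto (fun n => eLpNorm (fun x => un n x - ψ (sS μ x)) (ENNReal.ofReal p) ν)
      atTop (𝓝 0) :=
    tendsto_eLpNorm_dominated hp0 (fun n => (hunc n).continuous.aestronglyMeasurable) hum
      (hU.const_mul C) hunb hub hlimu
  have hconv2 : Tendsto (fun n => eLpNorm (fun x => gradient (un n) x - G x) (ENNReal.ofReal p) ν)
      atTop (𝓝 0) :=
    tendsto_eLpNorm_dominated hp0 (fun n => (hungc n).aestronglyMeasurable) hGm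
      (hV.const_mul C) hungb hGb hlimg
  -- test functions
  choose φ hφT hφ1 hφ2 using fun n => mollify hΩ (hunc n) (hcomp n)
    ((htsupp n).trans hKΩ) (hδ0 n)
  have hp1' : (1 : ℝ≥0∞) ≤ ENNReal.ofReal p := by
    rw [← ENNReal.ofReal_one]
    exact ENNReal.ofReal_le_ofReal hp1.le
  have hsmall : Tendsto (fun n => ν univ ^ (ENNReal.ofReal p).toReal⁻¹ * ENNReal.ofReal (δ n))
      atTop (𝓝 0) := by
    have h1 : Tendsto (fun n => ENNReal.ofReal (δ n)) atTop (𝓝 0) := by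
      have := (ENNReal.continuous_ofReal.tendsto 0).comp hδt
      rwa [ENNReal.ofReal_zero] at this
    have h2 := ENNReal.Tendsto.const_mul (a := ν univ ^ (ENNReal.ofReal p).toReal⁻¹) h1
      (Or.inr (ENNReal.rpow_ne_top_of_nonneg (by positivity) (measure_ne_top ν univ)))
    simpa using h2
  have hW01 : IsW01 Ω p (fun x : Eu N => ψ (sS μ x)) G := by
    refine ⟨hν ▸ huL, hν ▸ hGL, φ, hφT, ?_, ?_⟩
    · rw [← hν]
      refine tendsto_of_tendsto_of_tendsto_of_le_of_le tendsto_const_nhds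
        (by simpa using hsmall.add hconv1) (fun n => zero_le) (fun n => ?_)
      have e1 : (fun x => φ n x - ψ (sS μ x)) =
          (fun x => φ n x - un n x) + fun x => un n x - ψ (sS μ x) := by
        funext x
        simp
      rw [e1]
      refine (eLpNorm_add_le ?_ ?_ hp1').trans (add_le_add ?_ le_rfl)
      · exact ((hφT n).1.continuous.sub (hunc n).continuous).aestronglyMeasurable
      · exact (hunc n).continuous.aestronglyMeasurable.sub hum
      · exact eLpNorm_le_of_ae_bound (Eventually.of_forall fun x => hφ1 n x)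
    · rw [← hν]
      refine tendsto_of_tendsto_of_tendsto_of_le_of_le tendsto_const_nhds
        (by simpa using hsmall.add hconv2) (fun n => zero_le) (fun n => ?_)
      have e1 : (fun x => gradient (φ n) x - G x) =
          (fun x => gradient (φ n) x - gradient (un n) x) +
            fun x => gradient (un n) x - G x := by
        funext x
        simp
      have hφg : Continuous (fun x => gradient (φ n) x) := by
        unfold gradient
        exact (LinearIsometryEquiv.continuous _).comp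
          ((hφT n).1.continuous_fderiv (by simp))
      rw [e1]
      refine (eLpNorm_add_le ?_ ?_ hp1').trans (add_le_add ?_ le_rfl)
      · exact (hφg.sub (hungc n)).aestronglyMeasurable
      · exact (hungc n).aestronglyMeasurable.sub hGm
      · exact eLpNorm_le_of_ae_bound (Eventually.of_forall fun x => hφ2 n x)
  refine ⟨G, F, hW01, hν ▸ hFL, ?_⟩
  -- the equation
  intro φ hφ
  have hφc : Continuous φ := hφ.1.continuous
  have hφd : Continuous (fderiv ℝ φ) := hφ.1.continuous_fderiv (by simp)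
  obtain ⟨B₀, hB₀⟩ := hφ.2.1.exists_bound_of_continuous hφc
  obtain ⟨B₁, hB₁⟩ := (hφ.2.1.fderiv ℝ).exists_bound_of_continuous hφd
  have hφ0 : ∀ x, x ∉ Ω → φ x = 0 := fun x hx => by
    by_contra h
    exact hx (hφ.2.2 (subset_tsupport _ h))
  have hφd0 : ∀ x, x ∉ Ω → fderiv ℝ φ x = 0 := fun x hx => by
    by_contra h
    exact hx (hφ.2.2 (support_fderiv_subset ℝ h))
  have hreg : ∀ n, ∫ x in Ω, (α (sS μ x + δ n) * (sQ μ' x + δ n) ^ ((p - 2) / 2)) *
      fderiv ℝ φ x (sG μ' x) = -∫ x in Ω, sF p α α' μ μ' μ'' (δ n) x * φ x := by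
    intro n
    rw [setIntegral_eq_integral_of_forall_compl_eq_zero (fun x hx => by rw [hφd0 x hx]; simp),
      setIntegral_eq_integral_of_forall_compl_eq_zero (fun x hx => by rw [hφ0 x hx]; simp)]
    exact regularized_eq P S (hδ0 n) (hφ.1.of_le (by exact_mod_cast le_top)) hφ.2.1
  rw [← hν] at hreg ⊢
  have hL : Tendsto (fun n => ∫ x, (α (sS μ x + δ n) * (sQ μ' x + δ n) ^ ((p - 2) / 2)) *
      fderiv ℝ φ x (sG μ' x) ∂ν) atTop
      (𝓝 (∫ x, (α (sS μ x) * sQ μ' x ^ ((p - 2) / 2)) * fderiv ℝ φ x (sG μ' x) ∂ν)) := by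
    refine tendsto_integral_of_dominated_convergence
      (fun x => C * (2 * M) ^ (1 / 2 : ℝ) * B₁ * wW p β μ μ' x) ?_ (hW1.const_mul _) ?_ ?_
    · intro n
      apply Continuous.aestronglyMeasurable
      exact ((continuous_comp_shift S (continuousOn_of_hasDerivAt P.hα) (hδ0 n)).mul
        (continuous_Q_shift S _ (hδ0 n))).mul (hφd.clm_apply S.continuous_sG)
    · intro n
      filter_upwards [hposν] with x hx
      rw [Real.norm_eq_abs]
      exact bound_field S P hp1 hp2 hβ (hδ0 n).le x hx _ (hB₁ x)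
    · filter_upwards [hposν] with x hx
      rw [hδ]
      exact ((tendsto_shift (continuousOn_of_hasDerivAt P.hα) hx.1).mul
        (tendsto_shift_Q hx.2)).mul_const _
  have hR : Tendsto (fun n => ∫ x, sF p α α' μ μ' μ'' (δ n) x * φ x ∂ν) atTop
      (𝓝 (∫ x, F x * φ x ∂ν)) := by
    refine tendsto_integral_of_dominated_convergence
      (fun x => ((4 + N) * M * C) * B₀ * wW p β μ μ' x) ?_ (hW1.const_mul _) ?_ ?_
    · intro n
      exact ((continuous_sF S P (hδ0 n)).mul hφc).aestronglyMeasurable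
    · intro n
      filter_upwards [hposν] with x hx
      rw [norm_mul, Real.norm_eq_abs]
      calc |sF p α α' μ μ' μ'' (δ n) x| * ‖φ x‖
          ≤ ((4 + N) * M * C * wW p β μ μ' x) * B₀ := by
            apply mul_le_mul (bound_F S P hp1 hp2 hβ (hδ0 n).le x hx) (hB₀ x) (norm_nonneg _)
            have := S.wW_nonneg (p := p) (β := β) x
            positivity
        _ = _ := by ring
    · filter_upwards [hlimF] with x hx
      exact hx.mul_const _
  have heq := tendsto_nhds_unique hL ((hR.neg).congr fun n => (hreg n).symm)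
  have h1 : ∫ x, ‖G x‖ ^ (p - 2) * ⟪G x, gradient φ x⟫ ∂ν =
      ∫ x, -((α (sS μ x) * sQ μ' x ^ ((p - 2) / 2)) * fderiv ℝ φ x (sG μ' x)) ∂ν := by
    apply integral_congr_ae
    filter_upwards [hposν] with x hx
    rw [hG]
    exact field_eq P hp1 hx φ
  rw [h1, integral_neg, heq, neg_neg]

end Pool.Agent.Lib.MP_ae319b_an
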