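import Mathlib

/-!
# MP_ae319b_an : weak solutions of the p-Laplace equation and their singular sets
-/

namespace Pool.Agent.Lib.MP_ae319b_an

open MeasureTheory Filter Topology Set
open scoped ENNReal NNReal RealInnerProductSpace ContDiff

/-- The space `ℝ^N` with its Euclidean norm. -/
abbrev Eu (N : ℕ) : Type := EuclideanSpace ℝ (Fin N)

/-- `φ` is a test function on `Ω`: smooth, with compact support contained in `Ω`. -/
def IsTest {N : ℕ} (Ω : Set (Eu N)) (φ : Eu N → ℝ) : Prop :=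
  ContDiff ℝ ∞ φ ∧ HasCompactSupport φ ∧ tsupport φ ⊆ Ω

/-- `u` belongs to `W_0^{1,p}(Ω)` and `G` is its weak gradient: the pair `(u, G)` is the limit in
`L^p(Ω)` of the pairs `(φ, ∇ φ)` for test functions `φ` on `Ω`. -/
def IsW01 {N : ℕ} (Ω : Set (Eu N)) (p : ℝ) (u : Eu N → ℝ) (G : Eu N → Eu N) : Prop :=
  MemLp u (ENNReal.ofReal p) (volume.restrict Ω) ∧
  MemLp G (ENNReal.ofReal p) (volume.restrict Ω) ∧
  ∃ φ : ℕ → Eu N → ℝ, (∀ n, IsTest Ω (φ n)) ∧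
    Tendsto (fun n => eLpNorm (fun x => φ n x - u x) (ENNReal.ofReal p) (volume.restrict Ω))
      atTop (𝓝 0) ∧
    Tendsto (fun n => eLpNorm (fun x => gradient (φ n) x - G x) (ENNReal.ofReal p)
      (volume.restrict Ω)) atTop (𝓝 0)

/-- The set `X(Ω, p)` of the weak solutions `u ∈ W_0^{1,p}(Ω)` of `-Δ_p u = F` in `D'(Ω)`, where
`F` ranges over `L^{p'}(Ω)`, `p' = p / (p - 1)`. -/
def solutionSet {N : ℕ} (Ω : Set (Eu N)) (p : ℝ) : Set (Eu N → ℝ) :=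
  {u | ∃ (G : Eu N → Eu N) (F : Eu N → ℝ), IsW01 Ω p u G ∧
    MemLp F (ENNReal.ofReal (p / (p - 1))) (volume.restrict Ω) ∧
    ∀ φ : Eu N → ℝ, IsTest Ω φ →
      ∫ x in Ω, ‖G x‖ ^ (p - 2) * ⟪G x, gradient φ x⟫ = ∫ x in Ω, F x * φ x}

/-- The singular set of `u`: the points `a` of `Ω` such that, for some `C, γ, r > 0`,
`u(x) ≥ C |x - a|^{-γ}` for almost every `x` in `B_r(a)`. -/
def singularSet {N : ℕ} (Ω : Set (Eu N)) (u : Eu N → ℝ) : Set (Eu N) :=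
  {a | a ∈ Ω ∧ ∃ C γ r : ℝ, 0 < C ∧ 0 < γ ∧ 0 < r ∧ Metric.ball a r ⊆ Ω ∧
    ∀ᵐ x ∂(volume.restrict (Metric.ball a r)), C * ‖x - a‖ ^ (-γ) ≤ u x}

/-- The singular dimension of a set of functions: the supremum of the Hausdorff dimensions of
their singular sets. -/
noncomputable def singularDim {N : ℕ} (Ω : Set (Eu N)) (X : Set (Eu N → ℝ)) : ℝ≥0∞ :=
  ⨆ u ∈ X, dimH (singularSet Ω u)

end Pool.Agent.Lib.MP_ae319b_an
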