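import Pool.Agent.Lib.MP_ae319b_an.Mollify

/-!
# MP_ae319b_an : the one-dimensional case

For `φ : Eu 1 → ℝ` of class `C¹` with compact support, `‖φ x‖ₑ ≤ ∫⁻ y, ‖gradient φ y‖ₑ`.  Hence a
function of `W_0^{1,p}(Ω)`, `Ω` a bounded open subset of `Eu 1`, is essentially bounded, and its
singular set is empty.
-/

namespace Pool.Agent.Lib.MP_ae319b_an

open MeasureTheory Filter Topology Set
open scoped ENNReal NNReal RealInnerProductSpace ContDiff

theorem enorm_le_lintegral_gradient {φ : Eu 1 → ℝ} (h : ContDiff ℝ 1 φ)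
    (hc : HasCompactSupport φ) (x : Eu 1) : ‖φ x‖ₑ ≤ ∫⁻ y, ‖gradient φ y‖ₑ := by
  let e : ℝ ≃ₗᵢ[ℝ] Eu 1 := (OrthonormalBasis.singleton (Fin 1) ℝ).repr
  have he : MeasurePreserving e := LinearIsometryEquiv.measurePreserving e
  have hf : ContDiff ℝ 1 (φ ∘ e) := h.comp e.contDiff
  have hfc : HasCompactSupport (φ ∘ e) := hc.comp_homeomorph e.toHomeomorph
  have hder : ∀ t, ‖deriv (φ ∘ e) t‖ₑ ≤ ‖gradient φ (e t)‖ₑ := by
    intro t
    have h1 : HasDerivAt (φ ∘ e) (fderiv ℝ φ (e t) (e 1)) t := by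
      have h2 : HasFDerivAt φ (fderiv ℝ φ (e t)) (e t) :=
        (h.differentiable one_ne_zero (e t)).hasFDerivAt
      have h3 : HasDerivAt (fun s => e s) (e 1) t := by
        have h4 := (e.toContinuousLinearEquiv : ℝ →L[ℝ] Eu 1).hasFDerivAt (x := t)
        exact h4.hasDerivAt
      exact h2.comp_hasDerivAt t h3
    rw [h1.deriv]
    rw [enorm_le_iff_norm_le, norm_gradient]
    calc ‖fderiv ℝ φ (e t) (e 1)‖ ≤ ‖fderiv ℝ φ (e t)‖ * ‖e 1‖ := ContinuousLinearMap.le_opNorm _ _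
      _ = ‖fderiv ℝ φ (e t)‖ := by rw [e.norm_map]; simp
  obtain ⟨t, rfl⟩ := e.surjective x
  calc ‖φ (e t)‖ₑ ≤ ∫⁻ y in Iic t, ‖deriv (φ ∘ e) y‖ₑ :=
        HasCompactSupport.enorm_le_lintegral_Ici_deriv hf hfc t
    _ ≤ ∫⁻ y, ‖deriv (φ ∘ e) y‖ₑ := setLIntegral_le_lintegral _ _
    _ ≤ ∫⁻ y, ‖gradient φ (e y)‖ₑ := lintegral_mono hder
    _ = ∫⁻ y, ‖gradient φ y‖ₑ :=
        he.lintegral_comp_emb e.toHomeomorph.measurableEmbedding (fun y => ‖gradient φ y‖ₑ)

theorem continuous_gradient {N : ℕ} {φ : Eu N → ℝ} (h : ContDiff ℝ 1 φ) :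
    Continuous (gradient φ) := by
  unfold gradient
  exact (InnerProductSpace.toDual ℝ (Eu N)).symm.continuous.comp
    (h.continuous_fderiv one_ne_zero)

theorem enorm_le_eLpNorm_gradient {Ω : Set (Eu 1)} (hΩ : IsOpen Ω)
    {p : ℝ} (hp : 1 < p) {φ : Eu 1 → ℝ} (h : IsTest Ω φ) (x : Eu 1) :
    ‖φ x‖ₑ ≤ eLpNorm (gradient φ) (ENNReal.ofReal p) (volume.restrict Ω) *
      (volume Ω) ^ (1 - 1 / p) := by
  have h1 : ContDiff ℝ 1 φ := h.1.of_le (by simp)
  have h2 := enorm_le_lintegral_gradient h1 h.2.1 x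
  have h3 : ∫⁻ y, ‖gradient φ y‖ₑ = ∫⁻ y in Ω, ‖gradient φ y‖ₑ := by
    rw [← lintegral_indicator hΩ.measurableSet]
    congr 1
    ext y
    by_cases hy : y ∈ Ω
    · rw [indicator_of_mem hy]
    · rw [indicator_of_notMem hy]
      have h4 : y ∉ tsupport φ := fun h' => hy (h.2.2 h')
      have h5 : fderiv ℝ φ y = 0 := by
        by_contra hne
        exact h4 (support_fderiv_subset ℝ (f := φ) hne)
      have h6 : ‖gradient φ y‖ = 0 := by rw [norm_gradient, h5, norm_zero]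
      rw [norm_eq_zero] at h6
      rw [h6, enorm_zero]
  rw [h3, ← eLpNorm_one_eq_lintegral_enorm] at h2
  refine h2.trans ?_
  have h7 := eLpNorm_le_eLpNorm_mul_rpow_measure_univ (μ := volume.restrict Ω) (p := 1)
    (q := ENNReal.ofReal p) (f := gradient φ)
    (by rw [← ENNReal.ofReal_one]; exact ENNReal.ofReal_le_ofReal hp.le)
    (continuous_gradient h1).aestronglyMeasurable
  rw [Measure.restrict_apply_univ, ENNReal.toReal_one, ENNReal.toReal_ofReal (by linarith),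
    div_one] at h7
  exact h7

theorem ae_bounded_one {Ω : Set (Eu 1)} (hΩ : IsOpen Ω) (hb : Bornology.IsBounded Ω) {p : ℝ}
    (hp : 1 < p) {u : Eu 1 → ℝ} {G : Eu 1 → Eu 1} (h : IsW01 Ω p u G) :
    ∃ M : ℝ, ∀ᵐ x ∂(volume.restrict Ω), u x ≤ M := by
  obtain ⟨hu, hG, φ, hφ, hφu, hφG⟩ := h
  have hp1 : (1 : ℝ≥0∞) ≤ ENNReal.ofReal p := by
    rw [← ENNReal.ofReal_one]; exact ENNReal.ofReal_le_ofReal hp.le
  set B : ℝ≥0∞ := (1 + eLpNorm G (ENNReal.ofReal p) (volume.restrict Ω)) *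
    (volume Ω) ^ (1 - 1 / p) with hB
  have hp2 : 0 ≤ 1 - 1 / p := by
    rw [sub_nonneg, div_le_one (by linarith)]
    exact hp.le
  have hBtop : B ≠ ⊤ := by
    rw [hB]
    refine ENNReal.mul_ne_top (ENNReal.add_ne_top.2 ⟨ENNReal.one_ne_top, hG.2.ne⟩) ?_
    exact ENNReal.rpow_ne_top_of_nonneg hp2 hb.measure_lt_top.ne
  have hev : ∀ᶠ n in atTop, ∀ x, φ n x ≤ B.toReal := by
    have h1 : ∀ᶠ n in atTop, eLpNorm (fun x => gradient (φ n) x - G x) (ENNReal.ofReal p)
        (volume.restrict Ω) < 1 := hφG.eventually_lt_const (by norm_num)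
    filter_upwards [h1] with n hn x
    have hcd : ContDiff ℝ 1 (φ n) := (hφ n).1.of_le (by simp)
    have h2 : eLpNorm (gradient (φ n)) (ENNReal.ofReal p) (volume.restrict Ω) ≤
        1 + eLpNorm G (ENNReal.ofReal p) (volume.restrict Ω) := by
      have h3 : gradient (φ n) = (fun x => gradient (φ n) x - G x) + G := by
        ext1 y
        simp
      calc eLpNorm (gradient (φ n)) (ENNReal.ofReal p) (volume.restrict Ω)
          = eLpNorm ((fun x => gradient (φ n) x - G x) + G) (ENNReal.ofReal p)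
            (volume.restrict Ω) := by rw [← h3]
        _ ≤ eLpNorm (fun x => gradient (φ n) x - G x) (ENNReal.ofReal p) (volume.restrict Ω) +
            eLpNorm G (ENNReal.ofReal p) (volume.restrict Ω) :=
            eLpNorm_add_le ((continuous_gradient hcd).aestronglyMeasurable.sub hG.1) hG.1 hp1
        _ ≤ _ := by gcongr
    have h4 : ‖φ n x‖ₑ ≤ B := by
      refine (enorm_le_eLpNorm_gradient hΩ hp (hφ n) x).trans ?_
      rw [hB]
      gcongr
    have h5 : ‖φ n x‖ ≤ B.toReal := by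
      rw [← toReal_enorm]
      exact ENNReal.toReal_mono hBtop h4
    exact (le_abs_self _).trans h5
  have hmeas : TendstoInMeasure (volume.restrict Ω) φ atTop u := by
    refine tendstoInMeasure_of_tendsto_eLpNorm (p := ENNReal.ofReal p)
      (by positivity) (fun n => (hφ n).1.continuous.aestronglyMeasurable) hu.1 ?_
    exact hφu
  obtain ⟨ns, hns, hae⟩ := hmeas.exists_seq_tendsto_ae
  refine ⟨B.toReal, ?_⟩
  filter_upwards [hae] with x hx
  refine le_of_tendsto hx ?_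
  have := hns.tendsto_atTop.eventually hev
  filter_upwards [this] with i hi
  exact hi x

theorem singularSet_one {Ω : Set (Eu 1)} (hΩ : IsOpen Ω) (hb : Bornology.IsBounded Ω) {p : ℝ}
    (hp : 1 < p) {u : Eu 1 → ℝ} {G : Eu 1 → Eu 1} (h : IsW01 Ω p u G) : singularSet Ω u = ∅ := by
  obtain ⟨M, hM⟩ := ae_bounded_one hΩ hb hp h
  rw [eq_empty_iff_forall_notMem]
  rintro a ⟨haΩ, C, γ, r, hC, hγ, hr, hball, hae⟩
  have hlim : Tendsto (fun t : ℝ => C * t ^ (-γ)) (𝓝[>] 0) atTop :=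
    (tendsto_rpow_neg_nhdsGT_zero (by linarith)).const_mul_atTop hC
  have hev := hlim.eventually (eventually_gt_atTop M)
  rw [eventually_nhdsWithin_iff, Metric.eventually_nhds_iff] at hev
  obtain ⟨ε, hε, hε2⟩ := hev
  set s := min r ε with hs
  have hs0 : 0 < s := lt_min hr hε
  have hsub : Metric.ball a s ⊆ Metric.ball a r := Metric.ball_subset_ball (min_le_left _ _)
  have hM' : ∀ᵐ x ∂(volume.restrict (Metric.ball a s)), u x ≤ M :=
    ae_mono (Measure.restrict_mono (hsub.trans hball) le_rfl) hM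
  have hae' : ∀ᵐ x ∂(volume.restrict (Metric.ball a s)), C * ‖x - a‖ ^ (-γ) ≤ u x :=
    ae_mono (Measure.restrict_mono hsub le_rfl) hae
  have hne : ∀ᵐ x ∂(volume.restrict (Metric.ball a s)), x ≠ a :=
    ae_mono Measure.restrict_le_self (Measure.ae_ne volume a)
  have hmem : ∀ᵐ x ∂(volume.restrict (Metric.ball a s)), x ∈ Metric.ball a s :=
    ae_restrict_mem Metric.isOpen_ball.measurableSet
  have hfalse : ∀ᵐ x ∂(volume.restrict (Metric.ball a s)), False := by
    filter_upwards [hM', hae', hne, hmem] with x h1 h2 h3 h4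
    have h5 : 0 < ‖x - a‖ := norm_pos_iff.2 (sub_ne_zero.2 h3)
    have h6 : ‖x - a‖ < ε := by
      rw [Metric.mem_ball, dist_eq_norm] at h4
      exact h4.trans_le (min_le_right _ _)
    have h7 := hε2 (y := ‖x - a‖) (by rw [Real.dist_eq, sub_zero, abs_of_pos h5]; exact h6) h5
    linarith
  rw [eventually_false_iff_eq_bot, ae_eq_bot, Measure.restrict_eq_zero] at hfalse
  exact (Metric.measure_ball_pos volume a hs0).ne' hfalse

end Pool.Agent.Lib.MP_ae319b_an
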