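import Mathlib

/-!
# MP_ae319b_an : the auxiliary functions of one variable
-/

namespace Pool.Agent.Lib.MP_ae319b_an

open Filter Topology Set

/-- `1 + (w⁺)²` -/
noncomputable def zf (w : ℝ) : ℝ := 1 + (max w 0) ^ 2

theorem one_le_zf (w : ℝ) : 1 ≤ zf w := by
  unfold zf
  nlinarith [sq_nonneg (max w 0)]

theorem zf_pos (w : ℝ) : 0 < zf w := lt_of_lt_of_le one_pos (one_le_zf w)

theorem continuous_zf : Continuous zf := by
  unfold zf
  fun_prop

theorem hasDerivAt_zf (w : ℝ) : HasDerivAt zf (2 * max w 0) w := by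
  unfold zf
  apply HasDerivAt.const_add
  rcases lt_trichotomy w 0 with h | h | h
  · rw [max_eq_right h.le]
    have h1 : (fun w : ℝ => (max w 0) ^ 2) =ᶠ[𝓝 w] fun _ => 0 := by
      filter_upwards [Iio_mem_nhds h] with x hx
      rw [max_eq_right (le_of_lt hx)]
      simp
    rw [mul_zero]
    exact (hasDerivAt_const w (0 : ℝ)).congr_of_eventuallyEq h1
  · subst h
    rw [max_self, mul_zero]
    rw [hasDerivAt_iff_isLittleO]
    simp only [max_self, sub_zero, smul_zero]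
    have h2 : (fun x : ℝ => (max x 0) ^ 2 - 0 ^ 2) =O[𝓝 0] fun x : ℝ => x ^ 2 := by
      apply Asymptotics.IsBigO.of_bound 1
      filter_upwards with x
      rw [one_mul]
      simp only [ne_eq, OfNat.ofNat_ne_zero, not_false_eq_true, zero_pow, sub_zero, norm_pow,
        Real.norm_eq_abs]
      apply pow_le_pow_left₀ (abs_nonneg _)
      rcases le_total x 0 with hx | hx
      · rw [max_eq_right hx, abs_zero]; exact abs_nonneg x
      · rw [max_eq_left hx]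
    refine h2.trans_isLittleO ?_
    have h3 : (fun x : ℝ => x ^ 2) = fun x : ℝ => x * x := by
      funext x; ring
    rw [h3]
    have h4 : (fun x : ℝ => x * x) =o[𝓝 0] fun x : ℝ => 1 * x := by
      apply Asymptotics.IsLittleO.mul_isBigO
      · rw [Asymptotics.isLittleO_one_iff]
        exact tendsto_id
      · exact Asymptotics.isBigO_refl _ _
    simpa using h4
  · rw [max_eq_left h.le]
    have h1 : (fun w : ℝ => (max w 0) ^ 2) =ᶠ[𝓝 w] fun w => w ^ 2 := by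
      filter_upwards [Ioi_mem_nhds h] with x hx
      rw [max_eq_left (le_of_lt hx)]
    have h2 := hasDerivAt_pow 2 w
    simp only [Nat.cast_ofNat, Nat.add_one_sub_one, pow_one] at h2
    exact h2.congr_of_eventuallyEq h1

/-- `H(w) = 1 - (1 + (w⁺)²)^(-σ/2)` -/
noncomputable def Hf (σ w : ℝ) : ℝ := 1 - zf w ^ (-σ / 2)

/-- the derivative of `H` -/
noncomputable def Hf' (σ w : ℝ) : ℝ := σ * max w 0 * zf w ^ (-σ / 2 - 1)

/-- `Γ(w) = (1 + (w⁺)²)^(b/2) - 1` -/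
noncomputable def Gf (b w : ℝ) : ℝ := zf w ^ (b / 2) - 1

/-- the derivative of `Γ` -/
noncomputable def Gf' (b w : ℝ) : ℝ := b * max w 0 * zf w ^ (b / 2 - 1)

theorem hasDerivAt_Hf (σ w : ℝ) : HasDerivAt (Hf σ) (Hf' σ w) w := by
  unfold Hf Hf'
  have h := (hasDerivAt_zf w).rpow_const (p := -σ / 2) (Or.inl (zf_pos w).ne')
  have h2 := h.const_sub 1
  refine h2.congr_deriv ?_
  ring

theorem hasDerivAt_Gf (b w : ℝ) : HasDerivAt (Gf b) (Gf' b w) w := by
  unfold Gf Gf'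
  have h := (hasDerivAt_zf w).rpow_const (p := b / 2) (Or.inl (zf_pos w).ne')
  have h2 := h.sub_const 1
  refine h2.congr_deriv ?_
  ring

theorem continuous_Hf' (σ : ℝ) : Continuous (Hf' σ) := by
  unfold Hf'
  apply Continuous.mul (by fun_prop)
  exact continuous_zf.rpow_const (fun w => Or.inl (zf_pos w).ne')

theorem continuous_Gf' (b : ℝ) : Continuous (Gf' b) := by
  unfold Gf'
  apply Continuous.mul (by fun_prop)
  exact continuous_zf.rpow_const (fun w => Or.inl (zf_pos w).ne')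

theorem max_le_sqrt_zf (w : ℝ) : max w 0 ≤ zf w ^ (1 / 2 : ℝ) := by
  rw [← Real.sqrt_eq_rpow]
  apply Real.le_sqrt_of_sq_le
  unfold zf
  linarith

theorem Hf_nonneg {σ : ℝ} (hσ : 0 < σ) (w : ℝ) : 0 ≤ Hf σ w := by
  unfold Hf
  have := Real.rpow_le_one_of_one_le_of_nonpos (one_le_zf w) (by linarith : -σ / 2 ≤ 0)
  linarith

theorem Hf_le_one (σ w : ℝ) : Hf σ w ≤ 1 := by
  unfold Hf
  have := Real.rpow_nonneg (zf_pos w).le (-σ / 2)
  linarith

theorem Hf'_nonneg {σ : ℝ} (hσ : 0 < σ) (w : ℝ) : 0 ≤ Hf' σ w := by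
  unfold Hf'
  have := Real.rpow_nonneg (zf_pos w).le (-σ / 2 - 1)
  have := le_max_right w 0
  positivity

theorem Hf'_le {σ : ℝ} (hσ : 0 < σ) (w : ℝ) : Hf' σ w ≤ σ := by
  unfold Hf'
  have h1 := max_le_sqrt_zf w
  have h2 : zf w ^ (1 / 2 : ℝ) * zf w ^ (-σ / 2 - 1) ≤ 1 := by
    rw [← Real.rpow_add (zf_pos w)]
    exact Real.rpow_le_one_of_one_le_of_nonpos (one_le_zf w) (by linarith)
  have h3 := Real.rpow_nonneg (zf_pos w).le (-σ / 2 - 1)
  calc σ * max w 0 * zf w ^ (-σ / 2 - 1) = σ * (max w 0 * zf w ^ (-σ / 2 - 1)) := by ring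
    _ ≤ σ * (zf w ^ (1 / 2 : ℝ) * zf w ^ (-σ / 2 - 1)) := by gcongr
    _ ≤ σ * 1 := by gcongr
    _ = σ := mul_one σ

theorem Gf_nonneg {b : ℝ} (hb : 0 ≤ b) (w : ℝ) : 0 ≤ Gf b w := by
  unfold Gf
  have := Real.one_le_rpow (one_le_zf w) (by linarith : 0 ≤ b / 2)
  linarith

theorem Gf'_nonneg {b : ℝ} (hb : 0 ≤ b) (w : ℝ) : 0 ≤ Gf' b w := by
  unfold Gf'
  have := Real.rpow_nonneg (zf_pos w).le (b / 2 - 1)
  have := le_max_right w 0
  positivity

theorem Gf'_le {b : ℝ} (hb : 0 ≤ b) (hb1 : b ≤ 1) (w : ℝ) : Gf' b w ≤ b := by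
  unfold Gf'
  have h1 := max_le_sqrt_zf w
  have h2 : zf w ^ (1 / 2 : ℝ) * zf w ^ (b / 2 - 1) ≤ 1 := by
    rw [← Real.rpow_add (zf_pos w)]
    exact Real.rpow_le_one_of_one_le_of_nonpos (one_le_zf w) (by linarith)
  have h3 := Real.rpow_nonneg (zf_pos w).le (b / 2 - 1)
  calc b * max w 0 * zf w ^ (b / 2 - 1) = b * (max w 0 * zf w ^ (b / 2 - 1)) := by ring
    _ ≤ b * (zf w ^ (1 / 2 : ℝ) * zf w ^ (b / 2 - 1)) := by gcongr
    _ ≤ b * 1 := by gcongr
    _ = b := mul_one b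

theorem zf_of_nonpos {w : ℝ} (hw : w ≤ 0) : zf w = 1 := by
  unfold zf
  rw [max_eq_right hw]
  norm_num

theorem Hf_of_nonpos {σ w : ℝ} (hw : w ≤ 0) : Hf σ w = 0 := by
  unfold Hf
  rw [zf_of_nonpos hw, Real.one_rpow, sub_self]

theorem Gf_of_nonpos {b w : ℝ} (hw : w ≤ 0) : Gf b w = 0 := by
  unfold Gf
  rw [zf_of_nonpos hw, Real.one_rpow, sub_self]

/-- (a) -/
theorem Gf'_rpow_le {p σ : ℝ} (hp : 1 < p) (hσ : 0 < σ) (hσp : σ < p - 1) (w : ℝ) :
    Gf' ((p - 1 - σ) / p) w ^ p ≤ (((p - 1 - σ) / p) ^ p / σ) * Hf' σ w := by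
  set b := (p - 1 - σ) / p with hb
  have hp0 : 0 < p := by linarith
  have hb0 : 0 < b := div_pos (by linarith) hp0
  have hm : 0 ≤ max w 0 := le_max_right w 0
  have hz := zf_pos w
  have hbp : b * p = p - 1 - σ := by rw [hb]; field_simp
  unfold Gf' Hf'
  rw [Real.mul_rpow (by positivity) (by positivity), Real.mul_rpow hb0.le hm, ← Real.rpow_mul hz.le]
  have h1 : max w 0 ^ p ≤ max w 0 * zf w ^ ((p - 1) / 2) := by
    have h2 : max w 0 ^ p = max w 0 * max w 0 ^ (p - 1) := by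
      rcases hm.eq_or_lt with h | h
      · rw [← h, Real.zero_rpow hp0.ne', zero_mul]
      · rw [← Real.rpow_one_add' hm (by linarith)]
        congr 1; ring
    rw [h2]
    have h3 : max w 0 ^ (p - 1) ≤ (zf w ^ (1 / 2 : ℝ)) ^ (p - 1) :=
      Real.rpow_le_rpow hm (max_le_sqrt_zf w) (by linarith)
    rw [← Real.rpow_mul hz.le] at h3
    have h4 : 1 / 2 * (p - 1) = (p - 1) / 2 := by ring
    rw [h4] at h3
    gcongr
  calc b ^ p * max w 0 ^ p * zf w ^ ((b / 2 - 1) * p)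
      ≤ b ^ p * (max w 0 * zf w ^ ((p - 1) / 2)) * zf w ^ ((b / 2 - 1) * p) := by gcongr
    _ = b ^ p * max w 0 * (zf w ^ ((p - 1) / 2) * zf w ^ ((b / 2 - 1) * p)) := by ring
    _ = b ^ p * max w 0 * zf w ^ (-σ / 2 - 1) := by
        rw [← Real.rpow_add hz]
        congr 2
        have : (b / 2 - 1) * p = (b * p) / 2 - p := by ring
        rw [this, hbp]; ring
    _ = b ^ p / σ * (σ * max w 0 * zf w ^ (-σ / 2 - 1)) := by
        field_simp

/-- (b) -/
theorem Hf_rpow_le {p σ : ℝ} (hp : 1 < p) (hσ : 0 < σ) (hσ1 : σ ≤ 1) (w : ℝ) :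
    Hf σ w ^ p ≤ σ ^ (-(p - 1)) * (Hf' σ w ^ (p - 1) * zf w ^ ((1 + σ) * (p - 1) / 2)) := by
  have hm : 0 ≤ max w 0 := le_max_right w 0
  have hz := zf_pos w
  have hH0 := Hf_nonneg hσ w
  -- `y = (w⁺)² / z`
  set y := (max w 0) ^ 2 / zf w with hy
  have hy0 : 0 ≤ y := by positivity
  have hy1 : y ≤ 1 := by
    rw [hy, div_le_one hz]
    unfold zf
    linarith
  have hzy : zf w ^ (-(1 : ℝ)) = 1 - y := by
    rw [Real.rpow_neg_one, hy]
    have : zf w = 1 + max w 0 ^ 2 := rfl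
    field_simp
    rw [this]; ring
  have hH : Hf σ w ≤ y := by
    unfold Hf
    have h1 : zf w ^ (-σ / 2) = (1 - y) ^ (σ / 2) := by
      rw [← hzy, ← Real.rpow_mul hz.le]
      congr 1; ring
    rw [h1]
    have h2 : (1 - y) ^ (1 : ℝ) ≤ (1 - y) ^ (σ / 2) := by
      rcases hy1.eq_or_lt with h | h
      · rw [h, sub_self, Real.zero_rpow one_ne_zero]
        positivity
      · exact Real.rpow_le_rpow_of_exponent_ge (by linarith) (by linarith) (by linarith)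
    rw [Real.rpow_one] at h2
    linarith
  have h3 : Hf σ w ^ p ≤ y ^ ((p - 1) / 2) := by
    calc Hf σ w ^ p ≤ y ^ p := Real.rpow_le_rpow hH0 hH (by linarith)
      _ ≤ y ^ ((p - 1) / 2) := by
        rcases hy0.eq_or_lt with h | h
        · rw [← h, Real.zero_rpow (by linarith)]
          positivity
        · exact Real.rpow_le_rpow_of_exponent_ge h hy1 (by linarith)
  refine h3.trans (le_of_eq ?_)
  unfold Hf'
  rw [hy, Real.div_rpow (by positivity) hz.le, Real.mul_rpow (by positivity) (by positivity),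
    Real.mul_rpow hσ.le hm, ← Real.rpow_mul hz.le]
  have h4 : (max w 0 ^ 2) ^ ((p - 1) / 2) = max w 0 ^ (p - 1) := by
    rw [← Real.rpow_natCast, ← Real.rpow_mul hm]
    congr 1
    push_cast
    ring
  rw [h4]
  have h5 : σ ^ (-(p - 1)) * (σ ^ (p - 1) * max w 0 ^ (p - 1) * zf w ^ ((-σ / 2 - 1) * (p - 1)) *
      zf w ^ ((1 + σ) * (p - 1) / 2)) = (σ ^ (-(p - 1)) * σ ^ (p - 1)) * max w 0 ^ (p - 1) *
        (zf w ^ ((-σ / 2 - 1) * (p - 1)) * zf w ^ ((1 + σ) * (p - 1) / 2)) := by ring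
  rw [h5, ← Real.rpow_add hσ, ← Real.rpow_add hz]
  have h6 : -(p - 1) + (p - 1) = 0 := by ring
  have h7 : (-σ / 2 - 1) * (p - 1) + (1 + σ) * (p - 1) / 2 = -((p - 1) / 2) := by ring
  rw [h6, Real.rpow_zero, one_mul, h7, Real.rpow_neg hz.le]
  rfl

/-- (c) -/
theorem Gf_rpow_le {p σ : ℝ} (hp : 1 < p) (hσ : 0 < σ) (hσp : σ < p - 1) (w : ℝ) :
    Gf ((p - 1 - σ) / p) w ^ p ≤ zf w ^ ((1 + σ) * (p - 1) / 2) := by
  set b := (p - 1 - σ) / p with hb
  have hp0 : 0 < p := by linarith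
  have hb0 : 0 < b := div_pos (by linarith) hp0
  have hz := zf_pos w
  have hbp : b * p = p - 1 - σ := by rw [hb]; field_simp
  have h1 : Gf b w ≤ zf w ^ (b / 2) := by
    unfold Gf
    linarith
  calc Gf b w ^ p ≤ (zf w ^ (b / 2)) ^ p := Real.rpow_le_rpow (Gf_nonneg hb0.le w) h1 hp0.le
    _ = zf w ^ ((b * p) / 2) := by
        rw [← Real.rpow_mul hz.le]
        congr 1; ring
    _ ≤ zf w ^ ((1 + σ) * (p - 1) / 2) := by
        apply Real.rpow_le_rpow_of_exponent_le (one_le_zf w)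
        rw [hbp]
        nlinarith

/-- (d) -/
theorem Gf_ge {b ε w : ℝ} (hb : 0 < b) (hε : 0 < ε) (hw : ε ≤ w) :
    (1 - (1 + ε ^ 2) ^ (-(b / 2))) * zf w ^ (b / 2) ≤ Gf b w := by
  have hz := zf_pos w
  have h1 : 1 + ε ^ 2 ≤ zf w := by
    unfold zf
    have : ε ≤ max w 0 := hw.trans (le_max_left _ _)
    gcongr
  have h2 : (1 + ε ^ 2) ^ (b / 2) ≤ zf w ^ (b / 2) :=
    Real.rpow_le_rpow (by positivity) h1 (by linarith)
  have h3 : 0 < (1 + ε ^ 2) ^ (b / 2) := by positivity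
  unfold Gf
  rw [Real.rpow_neg (by positivity)]
  have h4 : 1 ≤ ((1 + ε ^ 2) ^ (b / 2))⁻¹ * zf w ^ (b / 2) := by
    rw [inv_mul_eq_div, one_le_div h3]
    exact h2
  linarith

theorem Gf_const_pos {b ε : ℝ} (hb : 0 < b) (hε : 0 < ε) :
    0 < 1 - (1 + ε ^ 2) ^ (-(b / 2)) := by
  have : (1 + ε ^ 2) ^ (-(b / 2)) < 1 :=
    Real.rpow_lt_one_of_one_lt_of_neg (by nlinarith [sq_pos_of_pos hε]) (by linarith)
  linarith

theorem max_rpow_le_zf {γ : ℝ} (hγ : 0 ≤ γ) (w : ℝ) : max w 0 ^ γ ≤ zf w ^ (γ / 2) := by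
  have h := Real.rpow_le_rpow (le_max_right w 0) (max_le_sqrt_zf w) hγ
  rw [← Real.rpow_mul (zf_pos w).le] at h
  convert h using 2
  ring

theorem zf_le_of_pos {w v : ℝ} (hv : 1 ≤ v) (hw : w ≤ 2 * (v - 1)) : zf w ≤ 4 * v ^ 2 := by
  unfold zf
  have h1 : max w 0 ≤ 2 * (v - 1) := max_le hw (by linarith)
  have h0 := le_max_right w 0
  nlinarith

theorem Hf_lipschitz (σ : ℝ) (hσ : 0 < σ) (x y : ℝ) : |Hf σ x - Hf σ y| ≤ σ * |x - y| := by
  have h := Convex.norm_image_sub_le_of_norm_deriv_le (f := Hf σ) (s := Set.univ) (C := σ)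
    (x := y) (y := x) (fun z _ => (hasDerivAt_Hf σ z).differentiableAt)
    (fun z _ => by
      rw [(hasDerivAt_Hf σ z).deriv, Real.norm_eq_abs, abs_of_nonneg (Hf'_nonneg hσ z)]
      exact Hf'_le hσ z) convex_univ (mem_univ _) (mem_univ _)
  simpa using h

theorem Gf_lipschitz {b : ℝ} (hb : 0 ≤ b) (hb1 : b ≤ 1) (x y : ℝ) :
    |Gf b x - Gf b y| ≤ b * |x - y| := by
  have h := Convex.norm_image_sub_le_of_norm_deriv_le (f := Gf b) (s := Set.univ) (C := b)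
    (x := y) (y := x) (fun z _ => (hasDerivAt_Gf b z).differentiableAt)
    (fun z _ => by
      rw [(hasDerivAt_Gf b z).deriv, Real.norm_eq_abs, abs_of_nonneg (Gf'_nonneg hb z)]
      exact Gf'_le hb hb1 z) convex_univ (mem_univ _) (mem_univ _)
  simpa using h

end Pool.Agent.Lib.MP_ae319b_an
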