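import Pool.Agent.Lib.MP_ae319b_an.Weak
import Pool.Agent.Lib.MP_ae319b_an.Scalar

/-!
# MP_ae319b_an : the energy estimate
-/

namespace Pool.Agent.Lib.MP_ae319b_an

open MeasureTheory Filter Topology Set
open scoped ENNReal NNReal RealInnerProductSpace ContDiff

variable {N : ℕ}

theorem contDiff_Hf (σ : ℝ) : ContDiff ℝ 1 (Hf σ) := by
  rw [contDiff_one_iff_deriv]
  refine ⟨fun w => (hasDerivAt_Hf σ w).differentiableAt, ?_⟩
  have : deriv (Hf σ) = Hf' σ := funext fun w => (hasDerivAt_Hf σ w).deriv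
  rw [this]
  exact continuous_Hf' σ

theorem contDiff_Gf (b : ℝ) : ContDiff ℝ 1 (Gf b) := by
  rw [contDiff_one_iff_deriv]
  refine ⟨fun w => (hasDerivAt_Gf b w).differentiableAt, ?_⟩
  have : deriv (Gf b) = Gf' b := funext fun w => (hasDerivAt_Gf b w).deriv
  rw [this]
  exact continuous_Gf' b

/-- A cutoff function. -/
structure Cutoff (Ω : Set (Eu N)) (η : Eu N → ℝ) : Prop where
  smooth : ContDiff ℝ 1 η
  comp : HasCompactSupport η
  supp : tsupport η ⊆ Ω
  nonneg : ∀ x, 0 ≤ η x
  le_one : ∀ x, η x ≤ 1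

/-- the test functions `η² K((φ - l)/d)` -/
theorem test_props {Ω : Set (Eu N)} {η : Eu N → ℝ} (hη : Cutoff Ω η) {φ : Eu N → ℝ}
    (hφ : ContDiff ℝ 1 φ) {K K' : ℝ → ℝ} (hK : ContDiff ℝ 1 K)
    (hK' : ∀ w, HasDerivAt K (K' w) w) (l d : ℝ) :
    ContDiff ℝ 1 (fun x => η x ^ 2 * K ((φ x - l) / d)) ∧
    HasCompactSupport (fun x => η x ^ 2 * K ((φ x - l) / d)) ∧
    tsupport (fun x => η x ^ 2 * K ((φ x - l) / d)) ⊆ Ω ∧
    ∀ x, fderiv ℝ (fun x => η x ^ 2 * K ((φ x - l) / d)) x =
      (η x ^ 2 * (K' ((φ x - l) / d) / d)) • fderiv ℝ φ x +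
        (2 * η x * K ((φ x - l) / d)) • fderiv ℝ η x := by
  have hsup : Function.support (fun x => η x ^ 2 * K ((φ x - l) / d)) ⊆ Function.support η := by
    intro x hx
    simp only [Function.mem_support, ne_eq, mul_eq_zero, not_or] at hx ⊢
    intro h0
    apply hx.1
    rw [h0]; norm_num
  refine ⟨?_, ?_, ?_, ?_⟩
  · exact (hη.smooth.pow 2).mul (hK.comp ((hφ.sub contDiff_const).div_const d))
  · exact hη.comp.mono hsup
  · exact (closure_mono hsup).trans hη.supp
  · intro x
    have h1 : HasFDerivAt η (fderiv ℝ η x) x :=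
      (hη.smooth.differentiable one_ne_zero x).hasFDerivAt
    have h2 : HasFDerivAt φ (fderiv ℝ φ x) x := (hφ.differentiable one_ne_zero x).hasFDerivAt
    have h3 : HasFDerivAt (fun x => (φ x - l) / d) (d⁻¹ • fderiv ℝ φ x) x := by
      have := (h2.sub_const l).const_smul d⁻¹
      refine this.congr_of_eventuallyEq ?_
      filter_upwards with y
      simp only [Pi.smul_apply, smul_eq_mul]
      rw [div_eq_inv_mul]
    have h4 : HasFDerivAt (fun x => K ((φ x - l) / d))
        (K' ((φ x - l) / d) • (d⁻¹ • fderiv ℝ φ x)) x :=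
      (hK' _).comp_hasFDerivAt x h3
    have h5 : HasFDerivAt (fun x => η x ^ 2) ((2 * η x) • fderiv ℝ η x) x := by
      have := h1.pow 2
      simpa using this
    have h6 := h5.mul h4
    change fderiv ℝ ((fun x => η x ^ 2) * fun x => K ((φ x - l) / d)) x = _
    rw [h6.fderiv]
    ext v
    simp only [_root_.add_apply, _root_.smul_apply, smul_eq_mul]
    ring

/-- almost everywhere convergence of a subsequence -/
theorem exists_subseq_ae {f : ℕ → Eu N → ℝ} {g : Eu N → ℝ} {p : ℝ≥0∞} (hp : p ≠ 0)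
    (hf : ∀ n, AEStronglyMeasurable (f n) (volume : Measure (Eu N)))
    (hg : AEStronglyMeasurable g (volume : Measure (Eu N)))
    (h : Tendsto (fun n => eLpNorm (fun x => f n x - g x) p volume) atTop (𝓝 0)) :
    ∃ ns : ℕ → ℕ, StrictMono ns ∧ ∀ᵐ x ∂(volume : Measure (Eu N)),
      Tendsto (fun i => f (ns i) x) atTop (𝓝 (g x)) := by
  have h1 : TendstoInMeasure volume f atTop g :=
    tendstoInMeasure_of_tendsto_eLpNorm hp hf hg h
  exact h1.exists_seq_tendsto_ae

/-- Hölder's inequality in the form needed -/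
theorem tendsto_integral_inner_zero {p : ℝ} (hp1 : 1 < p) {f : ℕ → Eu N → Eu N} {V : Eu N → Eu N}
    {c : ℕ → Eu N → ℝ} {C : ℝ}
    (hf : ∀ n, AEStronglyMeasurable (f n) (volume : Measure (Eu N)))
    (hV : MemLp V (ENNReal.ofReal (p / (p - 1))) (volume : Measure (Eu N)))
    (hc : ∀ n x, |c n x| ≤ C)
    (h : Tendsto (fun n => eLpNorm (f n) (ENNReal.ofReal p) (volume : Measure (Eu N)))
      atTop (𝓝 0)) :
    Tendsto (fun n => ∫ x, c n x * ⟪f n x, V x⟫) atTop (𝓝 0) := by
  have hp0 : 0 < p := by linarith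
  set q := p / (p - 1) with hq
  have hq0 : 0 < q := div_pos hp0 (by linarith)
  have hpq : p.HolderConjugate q := by
    rw [Real.holderConjugate_iff]
    refine ⟨hp1, ?_⟩
    rw [hq]
    field_simp
    ring
  have hC : 0 ≤ C := (abs_nonneg _).trans (hc 0 0)
  have hVfin : eLpNorm V (ENNReal.ofReal q) volume ≠ (⊤ : ℝ≥0∞) := hV.2.ne
  have key : ∀ n, ‖∫ x, c n x * ⟪f n x, V x⟫‖ₑ ≤
      ENNReal.ofReal C * (eLpNorm (f n) (ENNReal.ofReal p) volume *
        eLpNorm V (ENNReal.ofReal q) volume) := by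
    intro n
    refine (enorm_integral_le_lintegral_enorm _).trans ?_
    have h1 : ∀ x, ‖c n x * ⟪f n x, V x⟫‖ₑ ≤ ENNReal.ofReal C * (‖f n x‖ₑ * ‖V x‖ₑ) := by
      intro x
      rw [enorm_mul]
      gcongr
      · rw [Real.enorm_eq_ofReal_abs]
        exact ENNReal.ofReal_le_ofReal (hc n x)
      · have h0 : ‖f n x‖ₑ * ‖V x‖ₑ = ‖‖f n x‖ * ‖V x‖‖ₑ := by
          rw [enorm_mul, enorm_norm, enorm_norm]
        rw [h0, Real.enorm_eq_ofReal_abs, Real.enorm_eq_ofReal_abs]
        apply ENNReal.ofReal_le_ofReal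
        refine (abs_real_inner_le_norm _ _).trans (le_abs_self _)
    refine (lintegral_mono h1).trans ?_
    rw [lintegral_const_mul' _ _ ENNReal.ofReal_ne_top]
    gcongr
    have h2 := ENNReal.lintegral_mul_le_Lp_mul_Lq (volume : Measure (Eu N)) hpq
      (f := fun x => ‖f n x‖ₑ) (g := fun x => ‖V x‖ₑ) (hf n).enorm hV.1.enorm
    have h3 : eLpNorm (f n) (ENNReal.ofReal p) (volume : Measure (Eu N)) =
        (∫⁻ x, ‖f n x‖ₑ ^ p) ^ (1 / p) := by
      rw [eLpNorm_eq_lintegral_rpow_enorm_toReal (by simpa using hp0) ENNReal.ofReal_ne_top,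
        ENNReal.toReal_ofReal hp0.le]
    have h4 : eLpNorm V (ENNReal.ofReal q) (volume : Measure (Eu N)) =
        (∫⁻ x, ‖V x‖ₑ ^ q) ^ (1 / q) := by
      rw [eLpNorm_eq_lintegral_rpow_enorm_toReal (by simpa using hq0) ENNReal.ofReal_ne_top,
        ENNReal.toReal_ofReal hq0.le]
    rw [h3, h4]
    exact h2
  rw [tendsto_zero_iff_enorm_tendsto_zero]
  have h5 : Tendsto (fun n => ENNReal.ofReal C * (eLpNorm (f n) (ENNReal.ofReal p) volume *
      eLpNorm V (ENNReal.ofReal q) volume)) atTop (𝓝 0) := by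
    have h6 := (ENNReal.Tendsto.mul_const (b := eLpNorm V (ENNReal.ofReal q) volume) h
      (Or.inr hVfin))
    rw [zero_mul] at h6
    have h7 := ENNReal.Tendsto.const_mul (a := ENNReal.ofReal C) h6
      (Or.inr ENNReal.ofReal_ne_top)
    rwa [mul_zero] at h7
  exact tendsto_of_tendsto_of_tendsto_of_le_of_le tendsto_const_nhds h5 (fun _ => zero_le)
    key

theorem memLp_Vf {p : ℝ} (hp1 : 1 < p) {G : Eu N → Eu N} {μ : Measure (Eu N)}
    (hG : MemLp G (ENNReal.ofReal p) μ) :
    MemLp (Vf p G) (ENNReal.ofReal (p / (p - 1))) μ := by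
  have hp0 : 0 < p := by linarith
  have hq0 : 0 < p / (p - 1) := div_pos hp0 (by linarith)
  refine ⟨aestronglyMeasurable_Vf hG.1, ?_⟩
  rw [eLpNorm_lt_top_iff_lintegral_rpow_enorm_lt_top (by simpa using hq0) ENNReal.ofReal_ne_top,
    ENNReal.toReal_ofReal hq0.le]
  have h1 := hG.2
  rw [eLpNorm_lt_top_iff_lintegral_rpow_enorm_lt_top (by simpa using hp0) ENNReal.ofReal_ne_top,
    ENNReal.toReal_ofReal hp0.le] at h1
  refine lt_of_le_of_lt (lintegral_mono fun x => ?_) h1
  rw [← enorm_norm (Vf p G x), norm_Vf hp1, ← enorm_norm (G x)]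
  rw [Real.enorm_of_nonneg (by positivity), Real.enorm_of_nonneg (norm_nonneg _)]
  rw [ENNReal.ofReal_rpow_of_nonneg (by positivity) hq0.le,
    ENNReal.ofReal_rpow_of_nonneg (norm_nonneg _) hp0.le, ← Real.rpow_mul (norm_nonneg _)]
  apply le_of_eq
  congr 2
  have : p - 1 ≠ 0 := by linarith
  field_simp

/-- The energy identity. -/
theorem energy_identity {Ω : Set (Eu N)} {p : ℝ} {u : Eu N → ℝ} {G : Eu N → Eu N}
    {F : Eu N → ℝ} {φ : ℕ → Eu N → ℝ} (D : Data Ω p u G F φ) {η : Eu N → ℝ} (hη : Cutoff Ω η)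
    {σ : ℝ} (hσ : 0 < σ) (l : ℝ) {d : ℝ} (hd : 0 < d) :
    (∫ x, η x ^ 2 * (Hf' σ ((u x - l) / d) / d) * ‖G x‖ ^ p) +
      ∫ x, (2 * η x * Hf σ ((u x - l) / d)) * fderiv ℝ η x (Vf p G x) =
    ∫ x, F x * (η x ^ 2 * Hf σ ((u x - l) / d)) := by
  have hp1 := D.hp1
  have hp0 : 0 < p := by linarith
  have hφ1 : ∀ n, ContDiff ℝ 1 (φ n) := fun n => (D.hφ n).1.of_le (by exact_mod_cast le_top)
  obtain ⟨ns, hns, hae⟩ := exists_subseq_ae (f := φ) (g := u) (p := ENNReal.ofReal p)
    (by simpa using hp0) (fun n => (hφ1 n).continuous.aestronglyMeasurable) D.hu.1 D.hφu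
  set V := Vf p G with hV
  have hVm := D.hV1.1
  have hwc : ∀ {f : Eu N → ℝ}, Continuous f → Continuous (fun x => (f x - l) / d) :=
    fun h => (h.sub continuous_const).div_const d
  -- integrability facts
  have hGp : Integrable (fun x => ‖G x‖ ^ p) volume := by
    have := D.hG.integrable_norm_rpow (by simpa using hp0) ENNReal.ofReal_ne_top
    rwa [ENNReal.toReal_ofReal hp0.le] at this
  have hη2 : ∀ x, η x ^ 2 ≤ 1 := fun x => pow_le_one₀ (hη.nonneg x) (hη.le_one x)
  have hηc : Continuous η := hη.smooth.continuous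
  obtain ⟨Cη, hCη⟩ := (hη.smooth.continuous_fderiv one_ne_zero).bounded_above_of_compact_support
    (hη.comp.fderiv ℝ)
  have hCη0 : 0 ≤ Cη := (norm_nonneg _).trans (hCη 0)
  have hdη : Integrable (fun x => fderiv ℝ η x (V x)) volume := by
    refine (D.hV1.norm.const_mul Cη).mono' ?_ ?_
    · exact (ContinuousLinearMap.apply ℝ ℝ).flip.aestronglyMeasurable_comp₂
        (hη.smooth.continuous_fderiv one_ne_zero).aestronglyMeasurable hVm
    · filter_upwards with x
      exact ((fderiv ℝ η x).le_opNorm _).trans (by gcongr; exact hCη x)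
  have hHc : Continuous (Hf σ) := (contDiff_Hf σ).continuous
  have hcb : ∀ (v : ℝ) x, |η x ^ 2 * (Hf' σ v / d)| ≤ σ / d := by
    intro v x
    rw [abs_of_nonneg (mul_nonneg (sq_nonneg _) (div_nonneg (Hf'_nonneg hσ v) hd.le))]
    calc η x ^ 2 * (Hf' σ v / d) ≤ 1 * (σ / d) := by
          gcongr
          · exact div_nonneg (Hf'_nonneg hσ v) hd.le
          · exact hη2 x
          · exact Hf'_le hσ v
      _ = σ / d := one_mul _
  -- weak formulation for the approximations
  have hweak : ∀ i, (∫ x, (η x ^ 2 * (Hf' σ ((φ (ns i) x - l) / d) / d)) *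
      ⟪gradient (φ (ns i)) x - G x, V x⟫) +
      ((∫ x, (η x ^ 2 * (Hf' σ ((φ (ns i) x - l) / d) / d)) * ‖G x‖ ^ p) +
      ∫ x, (2 * η x * Hf σ ((φ (ns i) x - l) / d)) * fderiv ℝ η x (V x)) =
      ∫ x, F x * (η x ^ 2 * Hf σ ((φ (ns i) x - l) / d)) := by
    intro i
    set f := φ (ns i) with hf
    have hfc : Continuous f := (hφ1 (ns i)).continuous
    have hcc : Continuous (fun x => η x ^ 2 * (Hf' σ ((f x - l) / d) / d)) := by
      have := (continuous_Hf' σ).comp (hwc hfc)
      exact (hηc.pow 2).mul (this.div_const d)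
    have hcc2 : Continuous (fun x => 2 * η x * Hf σ ((f x - l) / d)) := by
      have := hHc.comp (hwc hfc)
      exact (continuous_const.mul hηc).mul this
    obtain ⟨hψ1, hψ2, hψ3, hψ4⟩ := test_props hη (hφ1 (ns i)) (contDiff_Hf σ)
      (hasDerivAt_Hf σ) l d
    have hw := D.weak _ hψ1 hψ2 hψ3
    rw [← hw]
    have hint1 : Integrable (fun x => (η x ^ 2 * (Hf' σ ((f x - l) / d) / d)) * ‖G x‖ ^ p)
        volume := by
      refine (hGp.const_mul (σ / d)).mono' (hcc.aestronglyMeasurable.mul hGp.1) ?_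
      filter_upwards with x
      rw [norm_mul, Real.norm_eq_abs, Real.norm_of_nonneg (by positivity : 0 ≤ ‖G x‖ ^ p)]
      gcongr
      exact hcb _ x
    have hint2 : Integrable (fun x => (2 * η x * Hf σ ((f x - l) / d)) * fderiv ℝ η x (V x))
        volume := by
      refine (hdη.norm.const_mul 2).mono' (hcc2.aestronglyMeasurable.mul hdη.1) ?_
      filter_upwards with x
      rw [norm_mul]
      gcongr
      rw [Real.norm_eq_abs, abs_of_nonneg (mul_nonneg (mul_nonneg zero_le_two (hη.nonneg x))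
        (Hf_nonneg hσ _))]
      have := Hf_le_one σ ((f x - l) / d)
      have h2 := hη.le_one x
      have h3 := hη.nonneg x
      have h4 := Hf_nonneg hσ ((f x - l) / d)
      nlinarith
    have hgc : Continuous (gradient f) := by
      have : Continuous (fderiv ℝ f) := (hφ1 (ns i)).continuous_fderiv one_ne_zero
      exact (InnerProductSpace.toDual ℝ (Eu N)).symm.continuous.comp this
    obtain ⟨Cg, hCg⟩ := ((hφ1 (ns i)).continuous_fderiv one_ne_zero).bounded_above_of_compact_support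
      ((D.hφ (ns i)).2.1.fderiv ℝ)
    have hint0 : Integrable (fun x => ⟪gradient f x, V x⟫) volume := by
      refine (D.hV1.norm.const_mul Cg).mono' (hgc.aestronglyMeasurable.inner hVm) ?_
      filter_upwards with x
      refine (norm_inner_le_norm _ _).trans ?_
      gcongr
      rw [norm_gradient]
      exact hCg x
    have hint3 : Integrable (fun x => (η x ^ 2 * (Hf' σ ((f x - l) / d) / d)) *
        ⟪gradient f x - G x, V x⟫) volume := by
      have h1 : Integrable (fun x => ⟪gradient f x - G x, V x⟫) volume := by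
        have h2 := hint0.sub hGp
        refine h2.congr ?_
        filter_upwards with x
        rw [inner_sub_left, inner_Vf hp1]
        rfl
      refine (h1.norm.const_mul (σ / d)).mono' (hcc.aestronglyMeasurable.mul h1.1) ?_
      filter_upwards with x
      rw [norm_mul, Real.norm_eq_abs]
      gcongr
      exact hcb _ x
    have hint12 : Integrable (fun x => η x ^ 2 * (Hf' σ ((f x - l) / d) / d) * ‖G x‖ ^ p +
        2 * η x * Hf σ ((f x - l) / d) * (fderiv ℝ η x) (V x)) volume := hint1.add hint2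
    rw [← integral_add hint1 hint2, ← integral_add hint3 hint12]
    congr 1
    funext x
    rw [hψ4 x]
    simp only [_root_.add_apply, _root_.smul_apply, smul_eq_mul]
    have e1 : fderiv ℝ (φ (ns i)) x (Vf p G x) = ⟪gradient f x, V x⟫ := by
      rw [← inner_gradient_eq, real_inner_comm]
    rw [e1, inner_sub_left, inner_Vf hp1]
    ring
  -- passage to the limit
  have hGnm : ∀ i, AEStronglyMeasurable (fun x => gradient (φ (ns i)) x - G x)
      (volume : Measure (Eu N)) := by
    intro i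
    have : Continuous (fderiv ℝ (φ (ns i))) := (hφ1 (ns i)).continuous_fderiv one_ne_zero
    exact ((InnerProductSpace.toDual ℝ (Eu N)).symm.continuous.comp this).aestronglyMeasurable.sub
      D.hG.1
  have hlim1 := tendsto_integral_inner_zero hp1 (f := fun i x => gradient (φ (ns i)) x - G x)
    (V := V) (c := fun i x => η x ^ 2 * (Hf' σ ((φ (ns i) x - l) / d) / d)) (C := σ / d) hGnm
    (memLp_Vf hp1 D.hG) (fun i x => hcb _ x) (D.hφG.comp hns.tendsto_atTop)
  have hφc : ∀ i, Continuous (φ (ns i)) := fun i => (hφ1 (ns i)).continuous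
  have hlim2 : Tendsto (fun i => ∫ x, (η x ^ 2 * (Hf' σ ((φ (ns i) x - l) / d) / d)) * ‖G x‖ ^ p)
      atTop (𝓝 (∫ x, (η x ^ 2 * (Hf' σ ((u x - l) / d) / d)) * ‖G x‖ ^ p)) := by
    apply tendsto_integral_of_dominated_convergence (fun x => (σ / d) * ‖G x‖ ^ p)
    · intro i
      have := (continuous_Hf' σ).comp (hwc (hφc i))
      exact ((hηc.pow 2).mul (this.div_const d)).aestronglyMeasurable.mul hGp.1
    · exact hGp.const_mul _
    · intro i
      filter_upwards with x
      rw [norm_mul, Real.norm_eq_abs, Real.norm_of_nonneg (by positivity : 0 ≤ ‖G x‖ ^ p)]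
      gcongr
      exact hcb _ x
    · filter_upwards [hae] with x hx
      apply Tendsto.mul_const
      apply Tendsto.const_mul
      apply Tendsto.div_const
      exact ((continuous_Hf' σ).tendsto _).comp ((hx.sub_const l).div_const d)
  have hlim3 : Tendsto (fun i => ∫ x, (2 * η x * Hf σ ((φ (ns i) x - l) / d)) *
      fderiv ℝ η x (V x)) atTop
      (𝓝 (∫ x, (2 * η x * Hf σ ((u x - l) / d)) * fderiv ℝ η x (V x))) := by
    apply tendsto_integral_of_dominated_convergence (fun x => 2 * ‖fderiv ℝ η x (V x)‖)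
    · intro i
      have := hHc.comp (hwc (hφc i))
      exact ((continuous_const.mul hηc).mul this).aestronglyMeasurable.mul hdη.1
    · exact hdη.norm.const_mul _
    · intro i
      filter_upwards with x
      rw [norm_mul]
      gcongr
      rw [Real.norm_eq_abs, abs_of_nonneg (mul_nonneg (mul_nonneg zero_le_two (hη.nonneg x))
        (Hf_nonneg hσ _))]
      have := Hf_le_one σ ((φ (ns i) x - l) / d)
      have h2 := hη.le_one x
      have h3 := hη.nonneg x
      have h4 := Hf_nonneg hσ ((φ (ns i) x - l) / d)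
      nlinarith
    · filter_upwards [hae] with x hx
      apply Tendsto.mul_const
      apply Tendsto.const_mul
      exact (hHc.tendsto _).comp ((hx.sub_const l).div_const d)
  have hlim4 : Tendsto (fun i => ∫ x, F x * (η x ^ 2 * Hf σ ((φ (ns i) x - l) / d))) atTop
      (𝓝 (∫ x, F x * (η x ^ 2 * Hf σ ((u x - l) / d)))) := by
    apply tendsto_integral_of_dominated_convergence (fun x => ‖F x‖)
    · intro i
      have := hHc.comp (hwc (hφc i))
      exact D.hF1.1.mul (((hηc.pow 2).mul this).aestronglyMeasurable)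
    · exact D.hF1.norm
    · intro i
      filter_upwards with x
      rw [norm_mul]
      have h1 : ‖η x ^ 2 * Hf σ ((φ (ns i) x - l) / d)‖ ≤ 1 := by
        rw [Real.norm_eq_abs, abs_of_nonneg (mul_nonneg (sq_nonneg _) (Hf_nonneg hσ _))]
        exact mul_le_one₀ (hη2 x) (Hf_nonneg hσ _) (Hf_le_one _ _)
      calc ‖F x‖ * ‖η x ^ 2 * Hf σ ((φ (ns i) x - l) / d)‖ ≤ ‖F x‖ * 1 := by gcongr
        _ = ‖F x‖ := mul_one _
    · filter_upwards [hae] with x hx
      apply Tendsto.const_mul
      apply Tendsto.const_mul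
      exact (hHc.tendsto _).comp ((hx.sub_const l).div_const d)
  have h1 := hlim1.add (hlim2.add hlim3)
  have h2 := tendsto_nhds_unique (h1.congr hweak) hlim4
  rw [zero_add] at h2
  exact h2

end Pool.Agent.Lib.MP_ae319b_an
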