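import Pool.Agent.Lib.MP_ae319b_an.Energy

/-!
# MP_ae319b_an : the energy inequality
-/

namespace Pool.Agent.Lib.MP_ae319b_an

open MeasureTheory Filter Topology Set
open scoped ENNReal NNReal RealInnerProductSpace ContDiff

variable {N : ℕ}

/-- the constant in Young's inequality -/
noncomputable def CY (p σ : ℝ) : ℝ := 2 ^ p * 2 ^ (p - 1) * σ ^ (-(p - 1))

theorem CY_pos {p σ : ℝ} (hσ : 0 < σ) : 0 < CY p σ := by
  unfold CY
  positivity

/-- `z^{γ/2}` on the set `{w > 0}` -/
noncomputable def Zt (γ w : ℝ) : ℝ := if 0 < w then zf w ^ (γ / 2) else 0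

theorem Zt_nonneg (γ w : ℝ) : 0 ≤ Zt γ w := by
  unfold Zt
  split_ifs
  · exact Real.rpow_nonneg (zf_pos w).le _
  · exact le_rfl

theorem measurable_Zt (γ : ℝ) : Measurable (Zt γ) := by
  unfold Zt
  apply Measurable.ite measurableSet_Ioi
  · exact (continuous_zf.rpow_const (fun w => Or.inl (zf_pos w).ne')).measurable
  · exact measurable_const

theorem Zt_le {γ p : ℝ} (hγ : 0 ≤ γ) (hγp : γ ≤ p) (w : ℝ) : Zt γ w ≤ (1 + |w|) ^ p := by
  unfold Zt
  have h1 : zf w ≤ (1 + |w|) ^ 2 := by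
    unfold zf
    have h2 : max w 0 ≤ |w| := max_le (le_abs_self w) (abs_nonneg w)
    have h3 := le_max_right w 0
    have h4 := abs_nonneg w
    nlinarith
  split_ifs
  · calc zf w ^ (γ / 2) ≤ ((1 + |w|) ^ 2) ^ (γ / 2) :=
          Real.rpow_le_rpow (zf_pos w).le h1 (by linarith)
      _ = (1 + |w|) ^ γ := by
          rw [← Real.rpow_natCast, ← Real.rpow_mul (by positivity)]
          congr 1
          push_cast
          ring
      _ ≤ (1 + |w|) ^ p :=
          Real.rpow_le_rpow_of_exponent_le (by linarith [abs_nonneg w]) hγp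
  · positivity

theorem integrableOn_Zt {p γ : ℝ} (hp : 0 < p) (hγ : 0 ≤ γ) (hγp : γ ≤ p) {u : Eu N → ℝ}
    (hu : MemLp u (ENNReal.ofReal p) (volume : Measure (Eu N))) (l d : ℝ) {K : Set (Eu N)}
    (hK : volume K ≠ (⊤ : ℝ≥0∞)) : IntegrableOn (fun x => Zt γ ((u x - l) / d)) K volume := by
  have hfin : IsFiniteMeasure (volume.restrict K) := ⟨by
    rw [Measure.restrict_apply_univ]; exact hK.lt_top⟩
  have h2 : MemLp (fun x => u x - l) (ENNReal.ofReal p) (volume.restrict K) :=
    (hu.restrict K).sub (memLp_const l)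
  have h3 : MemLp (fun x => (u x - l) / d) (ENNReal.ofReal p) (volume.restrict K) := by
    have h3 := h2.const_mul d⁻¹
    have h4 : (fun x => (u x - l) / d) = fun x => d⁻¹ * (u x - l) := by
      funext x
      rw [div_eq_inv_mul]
    rw [h4]
    exact h3
  have h4 : MemLp (fun x => ‖(u x - l) / d‖) (ENNReal.ofReal p) (volume.restrict K) := h3.norm
  have h6 : MemLp (fun _ : Eu N => (1 : ℝ)) (ENNReal.ofReal p) (volume.restrict K) := memLp_const 1
  have h7 : MemLp (fun x => 1 + ‖(u x - l) / d‖) (ENNReal.ofReal p) (volume.restrict K) :=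
    h6.add h4
  have h5 := h7.integrable_norm_rpow (by simpa using hp) ENNReal.ofReal_ne_top
  rw [ENNReal.toReal_ofReal hp.le] at h5
  refine Integrable.mono' h5 ?_ ?_
  · exact ((measurable_Zt γ).comp_aemeasurable h3.1.aemeasurable).aestronglyMeasurable
  · filter_upwards with x
    rw [Real.norm_of_nonneg (Zt_nonneg _ _),
      Real.norm_of_nonneg (by positivity : 0 ≤ 1 + ‖(u x - l) / d‖)]
    exact Zt_le hγ hγp _

theorem young_pointwise {p σ : ℝ} (hp1 : 1 < p) (hp2 : p < 2) (hσ : 0 < σ) (hσ1 : σ ≤ 1)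
    {e a g d : ℝ} (w : ℝ) (he0 : 0 ≤ e) (he1 : e ≤ 1) (ha : 0 ≤ a) (hg : 0 ≤ g) (hd : 0 < d) :
    2 * e * Hf σ w * (g * a ^ (p - 1)) ≤ (1 / (2 * d)) * (e ^ 2 * Hf' σ w * a ^ p) +
      CY p σ * d ^ (p - 1) * (g ^ p * Zt ((1 + σ) * (p - 1)) w) := by
  have hp0 : 0 < p := by linarith
  rcases le_or_gt w 0 with hw | hw
  · rw [Hf_of_nonpos hw]
    have h1 := Hf'_nonneg hσ w
    have h2 := Zt_nonneg ((1 + σ) * (p - 1)) w
    have h3 := CY_pos (p := p) hσ
    have : 0 ≤ (1 / (2 * d)) * (e ^ 2 * Hf' σ w * a ^ p) +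
      CY p σ * d ^ (p - 1) * (g ^ p * Zt ((1 + σ) * (p - 1)) w) := by positivity
    simpa using this
  · have hZ : Zt ((1 + σ) * (p - 1)) w = zf w ^ ((1 + σ) * (p - 1) / 2) := by
      unfold Zt
      rw [if_pos hw]
    rw [hZ]
    set Z := zf w ^ ((1 + σ) * (p - 1) / 2) with hZdef
    have hZ0 : 0 < Z := Real.rpow_pos_of_pos (zf_pos w) _
    set H := Hf σ w with hH
    set H' := Hf' σ w with hH'
    have hH0 : 0 ≤ H := Hf_nonneg hσ w
    have hH'0 : 0 ≤ H' := Hf'_nonneg hσ w
    have hb : H ^ p ≤ σ ^ (-(p - 1)) * (H' ^ (p - 1) * Z) := Hf_rpow_le hp1 hσ hσ1 w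
    set A := (1 / (2 * d)) * (e ^ 2 * H' * a ^ p) with hA
    set B := CY p σ * d ^ (p - 1) * (g ^ p * Z) with hB
    have hA0 : 0 ≤ A := by positivity
    have hB0 : 0 ≤ B := by
      have := CY_pos (p := p) hσ
      positivity
    have hX0 : 0 ≤ 2 * e * H * (g * a ^ (p - 1)) := by positivity
    -- the `p`-th powers
    have hpow : (2 * e * H * (g * a ^ (p - 1))) ^ p ≤ A ^ (p - 1) * B := by
      have e1 : (2 * e * H * (g * a ^ (p - 1))) ^ p =
          2 ^ p * e ^ p * H ^ p * (g ^ p * (a ^ p) ^ (p - 1)) := by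
        rw [Real.mul_rpow (by positivity) (by positivity),
          Real.mul_rpow (by positivity) hH0, Real.mul_rpow (by norm_num) he0,
          Real.mul_rpow hg (by positivity), ← Real.rpow_mul ha, ← Real.rpow_mul ha]
        congr 3
        ring
      have e2 : A ^ (p - 1) * B = 2 ^ p * (e ^ 2) ^ (p - 1) *
          (σ ^ (-(p - 1)) * (H' ^ (p - 1) * Z)) * (g ^ p * (a ^ p) ^ (p - 1)) := by
        rw [hA, hB]
        unfold CY
        rw [Real.mul_rpow (by positivity) (by positivity),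
          Real.mul_rpow (by positivity) (by positivity),
          Real.mul_rpow (by positivity) hH'0]
        have e3 : (1 / (2 * d)) ^ (p - 1) * (2 ^ (p - 1) * d ^ (p - 1)) = 1 := by
          rw [← Real.mul_rpow (by norm_num) hd.le, ← Real.mul_rpow (by positivity) (by positivity)]
          rw [one_div_mul_cancel (by positivity), Real.one_rpow]
        calc _ = ((1 / (2 * d)) ^ (p - 1) * (2 ^ (p - 1) * d ^ (p - 1))) *
            (2 ^ p * (e ^ 2) ^ (p - 1) *
          (σ ^ (-(p - 1)) * (H' ^ (p - 1) * Z)) * (g ^ p * (a ^ p) ^ (p - 1))) := by ring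
          _ = _ := by rw [e3, one_mul]
      rw [e1, e2]
      have e4 : e ^ p ≤ (e ^ 2) ^ (p - 1) := by
        rw [← Real.rpow_natCast e 2, ← Real.rpow_mul he0]
        rcases he0.eq_or_lt with h | h
        · rw [← h, Real.zero_rpow hp0.ne']
          positivity
        · apply Real.rpow_le_rpow_of_exponent_ge h he1
          push_cast
          linarith
      gcongr
    have h1 : 2 * e * H * (g * a ^ (p - 1)) ≤ A ^ ((p - 1) / p) * B ^ (1 / p) := by
      have h2 := Real.rpow_le_rpow (by positivity) hpow (by positivity : 0 ≤ 1 / p)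
      rw [← Real.rpow_mul hX0, mul_one_div_cancel hp0.ne', Real.rpow_one,
        Real.mul_rpow (by positivity) hB0, ← Real.rpow_mul hA0] at h2
      have h3 : (p - 1) * (1 / p) = (p - 1) / p := by ring
      rwa [h3] at h2
    have h4 := Real.geom_mean_le_arith_mean2_weighted (w₁ := (p - 1) / p) (w₂ := 1 / p)
      (by apply div_nonneg <;> linarith) (by positivity) hA0 hB0 (by field_simp; ring)
    refine h1.trans (h4.trans ?_)
    have h5 : (p - 1) / p ≤ 1 := by rw [div_le_one hp0]; linarith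
    have h6 : 1 / p ≤ 1 := by rw [div_le_one hp0]; linarith
    have h7 : (p - 1) / p * A ≤ 1 * A := by gcongr
    have h8 : 1 / p * B ≤ 1 * B := by gcongr
    linarith

/-- The energy inequality. -/
theorem energy_ineq {Ω : Set (Eu N)} {p : ℝ} {u : Eu N → ℝ} {G : Eu N → Eu N}
    {F : Eu N → ℝ} {φ : ℕ → Eu N → ℝ} (D : Data Ω p u G F φ) {η : Eu N → ℝ} (hη : Cutoff Ω η)
    {σ : ℝ} (hσ : 0 < σ) (hσp : σ < p - 1) (l : ℝ) {d : ℝ} (hd : 0 < d) :
    ∫ x, η x ^ 2 * Hf' σ ((u x - l) / d) * ‖G x‖ ^ p ≤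
      2 * d * (∫ x, |F x| * η x ^ 2) +
      2 * CY p σ * d ^ p * ∫ x, ‖fderiv ℝ η x‖ ^ p * Zt ((1 + σ) * (p - 1)) ((u x - l) / d) := by
  have hp1 := D.hp1
  have hp2 := D.hp2
  have hp0 : 0 < p := by linarith
  have hid := energy_identity D hη hσ l hd
  have hGp : Integrable (fun x => ‖G x‖ ^ p) volume := by
    have := D.hG.integrable_norm_rpow (by simpa using hp0) ENNReal.ofReal_ne_top
    rwa [ENNReal.toReal_ofReal hp0.le] at this
  have hηc : Continuous η := hη.smooth.continuous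
  have hfd : Continuous (fderiv ℝ η) := hη.smooth.continuous_fderiv one_ne_zero
  have hη2 : ∀ x, η x ^ 2 ≤ 1 := fun x => pow_le_one₀ (hη.nonneg x) (hη.le_one x)
  have hwm : AEStronglyMeasurable (fun x => (u x - l) / d) (volume : Measure (Eu N)) :=
    ((D.hu.1.aemeasurable.sub_const l).div_const d).aestronglyMeasurable
  have hH'm : AEStronglyMeasurable (fun x => Hf' σ ((u x - l) / d)) (volume : Measure (Eu N)) :=
    (continuous_Hf' σ).comp_aestronglyMeasurable hwm
  have hHm : AEStronglyMeasurable (fun x => Hf σ ((u x - l) / d)) (volume : Measure (Eu N)) :=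
    (contDiff_Hf σ).continuous.comp_aestronglyMeasurable hwm
  -- integrability
  have hI1 : Integrable (fun x => η x ^ 2 * Hf' σ ((u x - l) / d) * ‖G x‖ ^ p) volume := by
    refine (hGp.const_mul σ).mono' (((hηc.pow 2).aestronglyMeasurable.mul hH'm).mul hGp.1) ?_
    filter_upwards with x
    have h1 := Hf'_nonneg hσ ((u x - l) / d)
    rw [Real.norm_of_nonneg (by positivity)]
    have h2 := Hf'_le hσ ((u x - l) / d)
    have h3 := hη2 x
    calc η x ^ 2 * Hf' σ ((u x - l) / d) * ‖G x‖ ^ p ≤ 1 * σ * ‖G x‖ ^ p := by gcongr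
      _ = σ * ‖G x‖ ^ p := by rw [one_mul]
  have hI2 : Integrable (fun x => |F x| * η x ^ 2) volume := by
    refine D.hF1.norm.mono' (D.hF1.norm.1.mul (hηc.pow 2).aestronglyMeasurable) ?_
    filter_upwards with x
    rw [Real.norm_of_nonneg (by positivity), Real.norm_eq_abs]
    calc |F x| * η x ^ 2 ≤ |F x| * 1 := by gcongr; exact hη2 x
      _ = |F x| := mul_one _
  set γ := (1 + σ) * (p - 1) with hγ
  have hγ0 : 0 ≤ γ := by rw [hγ]; apply mul_nonneg <;> linarith
  have hγp : γ ≤ p := by rw [hγ]; nlinarith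
  have hK : volume (tsupport η) ≠ (⊤ : ℝ≥0∞) := hη.comp.isCompact.measure_lt_top.ne
  have hI3 : Integrable (fun x => ‖fderiv ℝ η x‖ ^ p * Zt γ ((u x - l) / d)) volume := by
    have h1 := integrableOn_Zt hp0 hγ0 hγp D.hu l d hK
    obtain ⟨C, hC⟩ := hfd.bounded_above_of_compact_support (hη.comp.fderiv ℝ)
    have h2 : Integrable (fun x => (tsupport η).indicator (fun x => Zt γ ((u x - l) / d)) x)
        volume := (integrable_indicator_iff (isClosed_tsupport η).measurableSet).2 h1
    refine (h2.const_mul (C ^ p)).mono' ?_ ?_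
    · exact (hfd.norm.rpow_const (fun _ => Or.inr hp0.le)).aestronglyMeasurable.mul
        ((measurable_Zt γ).comp_aemeasurable hwm.aemeasurable).aestronglyMeasurable
    · filter_upwards with x
      have hz := Zt_nonneg γ ((u x - l) / d)
      rw [Real.norm_of_nonneg (by positivity)]
      by_cases hx : x ∈ tsupport η
      · rw [indicator_of_mem hx]
        gcongr
        exact hC x
      · rw [indicator_of_notMem hx]
        have h3 : fderiv ℝ η x = 0 := by
          by_contra hne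
          exact hx (support_fderiv_subset ℝ hne)
        rw [h3, norm_zero, Real.zero_rpow hp0.ne']
        simp
  have hI4 : Integrable (fun x => (2 * η x * Hf σ ((u x - l) / d)) * fderiv ℝ η x (Vf p G x))
      volume := by
    obtain ⟨C, hC⟩ := hfd.bounded_above_of_compact_support (hη.comp.fderiv ℝ)
    refine (D.hV1.norm.const_mul (2 * C)).mono' ?_ ?_
    · exact ((continuous_const.mul hηc).aestronglyMeasurable.mul hHm).mul
        ((ContinuousLinearMap.apply ℝ ℝ).flip.aestronglyMeasurable_comp₂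
          hfd.aestronglyMeasurable D.hV1.1)
    · filter_upwards with x
      rw [norm_mul]
      have h1 : ‖2 * η x * Hf σ ((u x - l) / d)‖ ≤ 2 := by
        rw [Real.norm_eq_abs, abs_of_nonneg (mul_nonneg (mul_nonneg zero_le_two (hη.nonneg x))
          (Hf_nonneg hσ _))]
        have := Hf_le_one σ ((u x - l) / d)
        have h2 := hη.le_one x
        have h3 := hη.nonneg x
        have h4 := Hf_nonneg hσ ((u x - l) / d)
        nlinarith
      calc ‖2 * η x * Hf σ ((u x - l) / d)‖ * ‖fderiv ℝ η x (Vf p G x)‖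
          ≤ 2 * (C * ‖Vf p G x‖) := by
            gcongr
            exact ((fderiv ℝ η x).le_opNorm _).trans (by gcongr; exact hC x)
        _ = 2 * C * ‖Vf p G x‖ := by ring
  -- the estimate
  have hpt : ∀ x, η x ^ 2 * (Hf' σ ((u x - l) / d) / d) * ‖G x‖ ^ p =
      (1 / d) * (η x ^ 2 * Hf' σ ((u x - l) / d) * ‖G x‖ ^ p) := fun x => by ring
  simp_rw [hpt] at hid
  rw [integral_const_mul] at hid
  set T := ∫ x, η x ^ 2 * Hf' σ ((u x - l) / d) * ‖G x‖ ^ p with hT
  have hR1 : ∫ x, F x * (η x ^ 2 * Hf σ ((u x - l) / d)) ≤ ∫ x, |F x| * η x ^ 2 := by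
    have hI5 : Integrable (fun x => F x * (η x ^ 2 * Hf σ ((u x - l) / d))) volume := by
      refine hI2.mono' (D.hF1.1.mul ((hηc.pow 2).aestronglyMeasurable.mul hHm)) ?_
      filter_upwards with x
      have h1 := Hf_nonneg hσ ((u x - l) / d)
      have h2 := Hf_le_one σ ((u x - l) / d)
      rw [norm_mul, Real.norm_eq_abs, Real.norm_of_nonneg (by positivity)]
      gcongr
      calc η x ^ 2 * Hf σ ((u x - l) / d) ≤ η x ^ 2 * 1 := by gcongr
        _ = η x ^ 2 := mul_one _
    apply integral_mono hI5 hI2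
    intro x
    have h1 := Hf_nonneg hσ ((u x - l) / d)
    have h2 := Hf_le_one σ ((u x - l) / d)
    have h3 : 0 ≤ η x ^ 2 := sq_nonneg _
    calc F x * (η x ^ 2 * Hf σ ((u x - l) / d)) ≤ |F x| * (η x ^ 2 * Hf σ ((u x - l) / d)) := by
          gcongr
          exact le_abs_self _
      _ ≤ |F x| * (η x ^ 2 * 1) := by gcongr
      _ = |F x| * η x ^ 2 := by rw [mul_one]
  have hR2 : -(∫ x, (2 * η x * Hf σ ((u x - l) / d)) * fderiv ℝ η x (Vf p G x)) ≤
      (1 / (2 * d)) * T + CY p σ * d ^ (p - 1) *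
        ∫ x, ‖fderiv ℝ η x‖ ^ p * Zt γ ((u x - l) / d) := by
    rw [hT, ← integral_const_mul, ← integral_const_mul, ← integral_neg,
      ← integral_add (hI1.const_mul _) (hI3.const_mul _)]
    apply integral_mono hI4.neg ((hI1.const_mul _).add (hI3.const_mul _))
    intro x
    simp only [Pi.add_apply, Pi.neg_apply]
    have h1 : -(2 * η x * Hf σ ((u x - l) / d) * (fderiv ℝ η x) (Vf p G x)) ≤
        2 * η x * Hf σ ((u x - l) / d) * (‖fderiv ℝ η x‖ * ‖G x‖ ^ (p - 1)) := by
      rw [← mul_neg]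
      have h2 : 0 ≤ 2 * η x * Hf σ ((u x - l) / d) :=
        mul_nonneg (mul_nonneg zero_le_two (hη.nonneg x)) (Hf_nonneg hσ _)
      gcongr
      refine (neg_le_abs _).trans ?_
      rw [← Real.norm_eq_abs, ← norm_Vf hp1]
      exact (fderiv ℝ η x).le_opNorm _
    exact h1.trans (young_pointwise hp1 hp2 hσ (by linarith) _ (hη.nonneg x) (hη.le_one x)
      (norm_nonneg _) (norm_nonneg _) hd)
  have h1 : (1 / d) * T ≤ (∫ x, |F x| * η x ^ 2) + ((1 / (2 * d)) * T + CY p σ * d ^ (p - 1) *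
        ∫ x, ‖fderiv ℝ η x‖ ^ p * Zt γ ((u x - l) / d)) := by
    linarith
  have h2 : (1 / (2 * d)) * T ≤ (∫ x, |F x| * η x ^ 2) + CY p σ * d ^ (p - 1) *
        ∫ x, ‖fderiv ℝ η x‖ ^ p * Zt γ ((u x - l) / d) := by
    have : (1 / d) * T = 2 * ((1 / (2 * d)) * T) := by
      field_simp
    linarith
  have h3 := mul_le_mul_of_nonneg_left h2 (by positivity : 0 ≤ 2 * d)
  have h4 : 2 * d * ((1 / (2 * d)) * T) = T := by
    field_simp
  rw [h4] at h3
  refine h3.trans (le_of_eq ?_)
  have h5 : d ^ p = d * d ^ (p - 1) := by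
    rw [← Real.rpow_one_add' hd.le (by linarith)]
    congr 1; ring
  rw [h5]
  ring

end Pool.Agent.Lib.MP_ae319b_an
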