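import Mathlib

/-!
# MP_ae319b_an : the dimension of the set of points where a finite measure is large

Proof of `dimH_limsup_ball_le`.  Write `r_j = (1/2)^j` and
`E_j = {a | ofReal (r_j ^ s) ≤ μ (ball a r_j)}`, so the set in question is `limsup_j E_j`, hence is
contained in `⋃_{j ≥ n} E_j` for every `n`.

Fix `j`.  If `T ⊆ E_j` is a finite set whose points have mutual distances `≥ 2 r_j`, then the balls
`ball a r_j`, `a ∈ T`, are disjoint, so `card T * r_j ^ s ≤ μ univ`.  So the cardinalities of such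
sets `T` are bounded, there is a maximal one `T_j`, it satisfies
`card T_j ≤ μ(univ) * r_j^(-s)`, and by maximality `E_j ⊆ ⋃_{a ∈ T_j} ball a (2 r_j)` (for
`x ∈ E_j` not in the union `T_j ∪ {x}` would be larger).

For `t > s` (real) the covers `⋃_{j ≥ n} {ball a (2 r_j) : a ∈ T_j}` of the set have diameters
`≤ 4 r_n → 0` and `∑ diam ^ t ≤ ∑_{j ≥ n} μ(univ) r_j^(-s) (4 r_j)^t = 4^t μ(univ) ∑_{j≥n}
(2^{-(t-s)})^j → 0` as `n → ∞`, whence `μH[t] = 0` for our set
(`MeasureTheory.Measure.hausdorffMeasure_le_liminf_tsum`), so `dimH ≤ t`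
(`dimH_le_of_hausdorffMeasure_ne_top`), for all `t > s`.
-/

namespace Pool.Agent.Lib.MP_ae319b_an

open MeasureTheory Filter Topology Set
open scoped ENNReal NNReal

/-- a separated subset of `E` on which the measure of the `r`-balls is at least `c` has at most
`μ univ / c` elements -/
lemma card_separated_le {X : Type*} [MetricSpace X] [MeasurableSpace X] [BorelSpace X]
    (μ : Measure X) {r : ℝ} {c : ℝ≥0∞} (T : Finset X)
    (hT : ∀ a ∈ T, c ≤ μ (Metric.ball a r))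
    (hsep : ∀ a ∈ T, ∀ b ∈ T, a ≠ b → 2 * r ≤ dist a b) :
    (T.card : ℝ≥0∞) * c ≤ μ univ := by
  have hdisj : (T : Set X).PairwiseDisjoint (fun a => Metric.ball a r) := by
    intro a ha b hb hab
    apply Metric.ball_disjoint_ball
    have := hsep a ha b hb hab
    linarith
  have h1 := measure_biUnion_finset (μ := μ) hdisj (fun b _ => Metric.isOpen_ball.measurableSet)
  calc (T.card : ℝ≥0∞) * c = ∑ a ∈ T, c := by simp
    _ ≤ ∑ a ∈ T, μ (Metric.ball a r) := Finset.sum_le_sum hT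
    _ = μ (⋃ b ∈ T, Metric.ball b r) := h1.symm
    _ ≤ μ univ := measure_mono (subset_univ _)

/-- maximal separated sets -/
lemma exists_max_separated {X : Type*} [MetricSpace X] [MeasurableSpace X] [BorelSpace X]
    (μ : Measure X) [IsFiniteMeasure μ] {r : ℝ} (hr : 0 < r) {c : ℝ≥0∞} (hc : c ≠ 0) :
    ∃ T : Finset X, (T.card : ℝ≥0∞) * c ≤ μ univ ∧
      {a : X | c ≤ μ (Metric.ball a r)} ⊆ ⋃ a ∈ T, Metric.ball a (2 * r) := by
  classical
  let P : ℕ → Prop := fun n => ∃ T : Finset X, (∀ a ∈ T, c ≤ μ (Metric.ball a r)) ∧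
    (∀ a ∈ T, ∀ b ∈ T, a ≠ b → 2 * r ≤ dist a b) ∧ T.card = n
  have hP0 : P 0 := ⟨∅, by simp, by simp, by simp⟩
  have hbound : ¬ ∀ n, P n := by
    intro hall
    obtain ⟨n, hn⟩ := ENNReal.exists_nat_mul_gt hc (measure_ne_top μ univ)
    obtain ⟨T, h1, h2, h3⟩ := hall n
    have := card_separated_le μ T h1 h2
    rw [h3] at this
    exact absurd this (not_le.mpr hn)
  have hex : ∃ n, P n ∧ ¬ P (n + 1) := by
    by_contra hcon
    push Not at hcon
    exact hbound (fun n => Nat.rec hP0 (fun k hk => hcon k hk) n)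
  obtain ⟨n, ⟨T, h1, h2, h3⟩, hn⟩ := hex
  refine ⟨T, card_separated_le μ T h1 h2, ?_⟩
  intro x hx
  by_contra hcon
  simp only [mem_iUnion, Metric.mem_ball, not_exists, not_lt, exists_prop, not_and] at hcon
  have hxT : x ∉ T := by
    intro hxT
    have := hcon x hxT
    rw [dist_self] at this
    linarith
  apply hn
  refine ⟨insert x T, ?_, ?_, ?_⟩
  · intro a ha
    rcases Finset.mem_insert.mp ha with rfl | ha
    · exact hx
    · exact h1 a ha
  · intro a ha b hb hab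
    rcases Finset.mem_insert.mp ha with ha' | ha'
    · rcases Finset.mem_insert.mp hb with hb' | hb'
      · exact absurd (ha'.trans hb'.symm) hab
      · rw [ha']; exact hcon b hb'
    · rcases Finset.mem_insert.mp hb with hb' | hb'
      · rw [hb', dist_comm]; exact hcon a ha'
      · exact h2 a ha' b hb' hab
  · rw [Finset.card_insert_of_notMem hxT, h3]

theorem dimH_limsup_ball_le {X : Type*} [MetricSpace X] [MeasurableSpace X] [BorelSpace X]
    (μ : Measure X) [IsFiniteMeasure μ] {s : ℝ} (hs : 0 ≤ s) :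
    dimH {a : X | ∃ᶠ j : ℕ in atTop,
      ENNReal.ofReal (((1 / 2 : ℝ) ^ j) ^ s) ≤ μ (Metric.ball a ((1 / 2 : ℝ) ^ j))} ≤
      ENNReal.ofReal s := by
  classical
  have _hs := hs
  have hrpos : ∀ j : ℕ, (0 : ℝ) < (1 / 2 : ℝ) ^ j := fun j => by positivity
  have hcpos : ∀ j : ℕ, ENNReal.ofReal (((1 / 2 : ℝ) ^ j) ^ s) ≠ 0 := by
    intro j
    have : (0 : ℝ) < ((1 / 2 : ℝ) ^ j) ^ s := Real.rpow_pos_of_pos (hrpos j) s
    simpa [ENNReal.ofReal_eq_zero, not_le] using this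
  choose T hTcard hTcov using fun j : ℕ => exists_max_separated μ (hrpos j) (hcpos j)
  by_contra hlt
  rw [not_le, ENNReal.lt_iff_exists_nnreal_btwn] at hlt
  obtain ⟨t, hst, htlt⟩ := hlt
  have hst' : s < (t : ℝ) := by
    have h1 : ENNReal.ofReal s < ENNReal.ofReal (t : ℝ) := by
      rwa [ENNReal.ofReal_coe_nnreal]
    have ht0 : 0 < (t : ℝ) := by
      by_contra h0
      have h2 : (t : ℝ) = 0 := le_antisymm (not_lt.mp h0) t.coe_nonneg
      rw [h2, ENNReal.ofReal_zero] at h1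
      exact absurd h1 (by simp)
    exact (ENNReal.ofReal_lt_ofReal_iff ht0).mp h1
  have ht0 : 0 ≤ (t : ℝ) := t.coe_nonneg
  refine absurd (dimH_le_of_hausdorffMeasure_ne_top (d := t) ?_) (not_le.mpr htlt)
  set S : Set X := {a : X | ∃ᶠ j : ℕ in atTop,
      ENNReal.ofReal (((1 / 2 : ℝ) ^ j) ^ s) ≤ μ (Metric.ball a ((1 / 2 : ℝ) ^ j))} with hS
  -- the geometric ratio
  set c : ℝ := (1 / 2 : ℝ) ^ ((t : ℝ) - s) with hc
  have hc0 : 0 < c := Real.rpow_pos_of_pos (by norm_num) _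
  have hc1 : c < 1 := Real.rpow_lt_one (by norm_num) (by norm_num) (by linarith)
  have hdiam : ∀ (j : ℕ) (a : X), Metric.ediam (Metric.ball a (2 * (1 / 2 : ℝ) ^ j)) ≤
      ENNReal.ofReal (4 * (1 / 2 : ℝ) ^ j) := by
    intro j a
    apply Metric.ediam_le
    intro x hx y hy
    rw [edist_dist]
    apply ENNReal.ofReal_le_ofReal
    have h1 : dist x a < 2 * (1 / 2 : ℝ) ^ j := hx
    have h2 : dist y a < 2 * (1 / 2 : ℝ) ^ j := hy
    have h3 := dist_triangle_right x y a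
    linarith
  have hrj : Tendsto (fun n : ℕ => ENNReal.ofReal (4 * (1 / 2 : ℝ) ^ n)) atTop (𝓝 0) := by
    have h1 : Tendsto (fun n : ℕ => 4 * (1 / 2 : ℝ) ^ n) atTop (𝓝 (4 * 0)) :=
      (tendsto_pow_atTop_nhds_zero_of_lt_one (by norm_num) (by norm_num)).const_mul 4
    have h2 := ENNReal.tendsto_ofReal h1
    simpa using h2
  have hkey := Measure.hausdorffMeasure_le_liminf_tsum (X := X) (ι := fun n : ℕ =>
      Σ j : ℕ, {a : X // a ∈ T (n + j)}) (l := atTop) (t : ℝ) S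
      (fun n : ℕ => ENNReal.ofReal (4 * (1 / 2 : ℝ) ^ n)) hrj
      (fun n i => Metric.ball (i.2 : X) (2 * (1 / 2 : ℝ) ^ (n + i.1)))
      (by
        refine Eventually.of_forall (fun n i => (hdiam _ _).trans ?_)
        apply ENNReal.ofReal_le_ofReal
        have : (1 / 2 : ℝ) ^ (n + i.1) ≤ (1 / 2 : ℝ) ^ n :=
          pow_le_pow_of_le_one (by norm_num) (by norm_num) (by omega)
        linarith)
      (by
        refine Eventually.of_forall (fun n x hx => ?_)
        have hx' : ∃ᶠ j : ℕ in atTop,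
            ENNReal.ofReal (((1 / 2 : ℝ) ^ j) ^ s) ≤ μ (Metric.ball x ((1 / 2 : ℝ) ^ j)) := hx
        obtain ⟨j, hj, hxj⟩ := (Filter.frequently_atTop.mp hx') n
        have h2 := hTcov j hxj
        simp only [mem_iUnion, exists_prop] at h2
        obtain ⟨a, ha, hxa⟩ := h2
        obtain ⟨k, rfl⟩ := Nat.exists_eq_add_of_le hj
        exact mem_iUnion.mpr ⟨⟨k, ⟨a, ha⟩⟩, hxa⟩)
  have hsum : ∀ n : ℕ, (∑' i : (Σ j : ℕ, {a : X // a ∈ T (n + j)}),
      Metric.ediam (Metric.ball (i.2 : X) (2 * (1 / 2 : ℝ) ^ (n + i.1))) ^ (t : ℝ)) ≤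
      μ univ * ENNReal.ofReal ((4 : ℝ) ^ (t : ℝ)) * (1 - ENNReal.ofReal c)⁻¹ *
        ENNReal.ofReal (c ^ n) := by
    intro n
    have h1 : (∑' i : (Σ j : ℕ, {a : X // a ∈ T (n + j)}),
        Metric.ediam (Metric.ball (i.2 : X) (2 * (1 / 2 : ℝ) ^ (n + i.1))) ^ (t : ℝ)) ≤
        ∑' i : (Σ j : ℕ, {a : X // a ∈ T (n + j)}),
          (ENNReal.ofReal (4 * (1 / 2 : ℝ) ^ (n + i.1))) ^ (t : ℝ) :=
      ENNReal.tsum_le_tsum (fun i => ENNReal.rpow_le_rpow (hdiam _ _) ht0)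
    refine h1.trans ?_
    have h2 := ENNReal.tsum_sigma (β := fun j : ℕ => {a : X // a ∈ T (n + j)})
      (fun (j : ℕ) (_ : {a : X // a ∈ T (n + j)}) =>
        (ENNReal.ofReal (4 * (1 / 2 : ℝ) ^ (n + j))) ^ (t : ℝ))
    rw [h2]
    have h3 : ∀ j : ℕ, (∑' (_ : {a : X // a ∈ T (n + j)}),
        (ENNReal.ofReal (4 * (1 / 2 : ℝ) ^ (n + j))) ^ (t : ℝ)) ≤
        μ univ * ENNReal.ofReal ((4 : ℝ) ^ (t : ℝ)) * ENNReal.ofReal (c ^ n) *
          (ENNReal.ofReal c) ^ j := by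
      intro j
      have e1 : (∑' (_ : {a : X // a ∈ T (n + j)}),
          (ENNReal.ofReal (4 * (1 / 2 : ℝ) ^ (n + j))) ^ (t : ℝ)) =
          ((T (n + j)).card : ℝ≥0∞) * (ENNReal.ofReal (4 * (1 / 2 : ℝ) ^ (n + j))) ^ (t : ℝ) := by
        rw [ENNReal.tsum_const]
        simp
      rw [e1]
      have e2 : (ENNReal.ofReal (4 * (1 / 2 : ℝ) ^ (n + j))) ^ (t : ℝ) =
          ENNReal.ofReal (((1 / 2 : ℝ) ^ (n + j)) ^ s) *
            (ENNReal.ofReal ((4 : ℝ) ^ (t : ℝ)) * (ENNReal.ofReal (c ^ n) *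
              (ENNReal.ofReal c) ^ j)) := by
        rw [ENNReal.ofReal_rpow_of_nonneg (by positivity) ht0,
          ← ENNReal.ofReal_pow hc0.le, ← ENNReal.ofReal_mul (by positivity),
          ← ENNReal.ofReal_mul (by positivity), ← ENNReal.ofReal_mul (by positivity)]
        congr 1
        rw [Real.mul_rpow (by norm_num) (by positivity), ← pow_add]
        have e3 : c ^ (n + j) = ((1 / 2 : ℝ) ^ (n + j)) ^ ((t : ℝ) - s) := by
          rw [hc, ← Real.rpow_natCast, ← Real.rpow_natCast, ← Real.rpow_mul (by norm_num),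
            ← Real.rpow_mul (by norm_num), mul_comm]
        rw [e3, Real.rpow_sub (hrpos _)]
        have e4 : ((1 / 2 : ℝ) ^ (n + j)) ^ s ≠ 0 := (Real.rpow_pos_of_pos (hrpos _) s).ne'
        field_simp
      rw [e2, ← mul_assoc, mul_assoc (μ univ), mul_assoc (μ univ), mul_assoc]
      have := hTcard (n + j)
      calc ((T (n + j)).card : ℝ≥0∞) * (ENNReal.ofReal (((1 / 2 : ℝ) ^ (n + j)) ^ s) *
            (ENNReal.ofReal ((4 : ℝ) ^ (t : ℝ)) * (ENNReal.ofReal (c ^ n) *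
              (ENNReal.ofReal c) ^ j)))
          = (((T (n + j)).card : ℝ≥0∞) * ENNReal.ofReal (((1 / 2 : ℝ) ^ (n + j)) ^ s)) *
            (ENNReal.ofReal ((4 : ℝ) ^ (t : ℝ)) * (ENNReal.ofReal (c ^ n) *
              (ENNReal.ofReal c) ^ j)) := by ring
        _ ≤ μ univ * (ENNReal.ofReal ((4 : ℝ) ^ (t : ℝ)) * (ENNReal.ofReal (c ^ n) *
              (ENNReal.ofReal c) ^ j)) := by gcongr
        _ = _ := by ring
    refine (ENNReal.tsum_le_tsum h3).trans ?_
    rw [ENNReal.tsum_mul_left, ENNReal.tsum_geometric]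
    apply le_of_eq
    ring
  have hlim : Tendsto (fun n : ℕ => μ univ * ENNReal.ofReal ((4 : ℝ) ^ (t : ℝ)) *
      (1 - ENNReal.ofReal c)⁻¹ * ENNReal.ofReal (c ^ n)) atTop (𝓝 0) := by
    have h1 : Tendsto (fun n : ℕ => c ^ n) atTop (𝓝 0) :=
      tendsto_pow_atTop_nhds_zero_of_lt_one hc0.le hc1
    have h2 := ENNReal.tendsto_ofReal h1
    rw [ENNReal.ofReal_zero] at h2
    have h3 : μ univ * ENNReal.ofReal ((4 : ℝ) ^ (t : ℝ)) * (1 - ENNReal.ofReal c)⁻¹ ≠ ⊤ := by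
      apply ENNReal.mul_ne_top
      · exact ENNReal.mul_ne_top (measure_ne_top μ univ) ENNReal.ofReal_ne_top
      · rw [Ne, ENNReal.inv_eq_top, tsub_eq_zero_iff_le, not_le]
        exact (ENNReal.ofReal_lt_one).mpr hc1
    have h4 := ENNReal.Tendsto.const_mul h2 (Or.inr h3)
    simpa using h4
  have hzero : Measure.hausdorffMeasure (t : ℝ) S ≤ 0 := by
    refine hkey.trans ?_
    have h5 : liminf (fun n : ℕ => ∑' i : (Σ j : ℕ, {a : X // a ∈ T (n + j)}),
        Metric.ediam (Metric.ball (i.2 : X) (2 * (1 / 2 : ℝ) ^ (n + i.1))) ^ (t : ℝ)) atTop ≤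
        liminf (fun n : ℕ => μ univ * ENNReal.ofReal ((4 : ℝ) ^ (t : ℝ)) *
      (1 - ENNReal.ofReal c)⁻¹ * ENNReal.ofReal (c ^ n)) atTop :=
      liminf_le_liminf (Eventually.of_forall hsum)
    rw [hlim.liminf_eq] at h5
    exact h5
  exact (lt_of_le_of_lt hzero ENNReal.zero_lt_top).ne

end Pool.Agent.Lib.MP_ae319b_an
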