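import Pool.Agent.Lib.MP_ae319b_an.Step

/-!
# MP_ae319b_an : the iteration
-/

namespace Pool.Agent.Lib.MP_ae319b_an

open MeasureTheory Filter Topology Set Module
open scoped ENNReal NNReal RealInnerProductSpace ContDiff

variable {N : ℕ}

/-- `∫_{B_r(a)} (((u - l)/d)⁺)^γ` -/
noncomputable def MM (γ : ℝ) (u : Eu N → ℝ) (l d : ℝ) (a : Eu N) (r : ℝ) : ℝ≥0∞ :=
  ∫⁻ x in Metric.ball a r, ENNReal.ofReal ((u x - l) / d) ^ γ

theorem Zt_pt {γ w w' : ℝ} (hγ : 0 < γ) (h : 0 < w' → 1 < w ∧ w' ≤ 2 * (w - 1)) :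
    ENNReal.ofReal (Zt γ w') ≤ ENNReal.ofReal (2 ^ γ) * ENNReal.ofReal w ^ γ := by
  unfold Zt
  split_ifs with h1
  · obtain ⟨h2, h3⟩ := h h1
    have h4 := zf_le_of_pos h2.le h3
    rw [ENNReal.ofReal_rpow_of_nonneg (by linarith) hγ.le, ← ENNReal.ofReal_mul (by positivity)]
    apply ENNReal.ofReal_le_ofReal
    calc zf w' ^ (γ / 2) ≤ (4 * w ^ 2) ^ (γ / 2) :=
          Real.rpow_le_rpow (zf_pos w').le h4 (by linarith)
      _ = ((2 * w) ^ 2) ^ (γ / 2) := by congr 1; ring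
      _ = (2 * w) ^ γ := by
          rw [← Real.rpow_natCast, ← Real.rpow_mul (by linarith)]
          congr 1
          push_cast
          ring
      _ = 2 ^ γ * w ^ γ := Real.mul_rpow (by norm_num) (by linarith)
  · rw [ENNReal.ofReal_zero]
    exact zero_le

theorem MM_pt {γ b q ε w w' : ℝ} (hγ : 0 < γ) (hb : 0 < b) (hq : 0 < q) (hbq : b * q = γ)
    (hε : 0 < ε) (h : 0 < w' → 1 < w ∧ w' ≤ 2 * (w - 1)) :
    ENNReal.ofReal w' ^ γ ≤ ENNReal.ofReal (ε ^ γ) * ENNReal.ofReal w ^ γ +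
      ENNReal.ofReal ((1 - (1 + ε ^ 2) ^ (-(b / 2))) ^ (-q)) * ‖Gf b w'‖ₑ ^ q := by
  rcases le_or_gt w' 0 with h0 | h0
  · rw [ENNReal.ofReal_of_nonpos h0, ENNReal.zero_rpow_of_pos hγ]
    exact zero_le
  obtain ⟨h2, -⟩ := h h0
  rcases lt_or_ge w' ε with h1 | h1
  · refine le_trans ?_ le_self_add
    rw [ENNReal.ofReal_rpow_of_nonneg h0.le hγ.le]
    have h3 : (1 : ℝ≥0∞) ≤ ENNReal.ofReal w ^ γ := by
      apply ENNReal.one_le_rpow _ hγ
      rw [ENNReal.one_le_ofReal]
      exact h2.le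
    calc ENNReal.ofReal (w' ^ γ) ≤ ENNReal.ofReal (ε ^ γ) * 1 := by
          rw [mul_one]
          exact ENNReal.ofReal_le_ofReal (Real.rpow_le_rpow h0.le h1.le hγ.le)
      _ ≤ _ := by gcongr
  · refine le_trans ?_ le_add_self
    have hc := Gf_const_pos hb hε
    set c := 1 - (1 + ε ^ 2) ^ (-(b / 2)) with hcdef
    have h3 := Gf_ge hb hε h1
    rw [← hcdef] at h3
    have h4 := Gf_nonneg hb.le w'
    have h5 := zf_pos w'
    rw [ENNReal.ofReal_rpow_of_nonneg h0.le hγ.le, Real.enorm_of_nonneg h4,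
      ENNReal.ofReal_rpow_of_nonneg h4 hq.le, ← ENNReal.ofReal_mul (by positivity)]
    apply ENNReal.ofReal_le_ofReal
    have h6 := max_rpow_le_zf hγ.le w'
    rw [max_eq_left h0.le] at h6
    refine h6.trans ?_
    have h7 : zf w' ^ (γ / 2) = (zf w' ^ (b / 2)) ^ q := by
      rw [← Real.rpow_mul h5.le, ← hbq]
      congr 1
      ring
    rw [h7, Real.rpow_neg hc.le, inv_mul_eq_div, ← Real.div_rpow h4 hc.le]
    apply Real.rpow_le_rpow (by positivity) _ hq.le
    rw [le_div_iff₀ hc, mul_comm]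
    exact h3

/-- One step of the iteration. -/
theorem one_step {p : ℝ} (hp1 : 1 < p) (hp2 : p < 2) (hN : 2 ≤ N) :
    ∃ κ0 : ℝ, 0 < κ0 ∧ ∀ κ : ℝ, 0 < κ → κ ≤ κ0 → ∀ {Ω : Set (Eu N)} {u : Eu N → ℝ}
      {G : Eu N → Eu N} {F : Eu N → ℝ} {φ : ℕ → Eu N → ℝ} (_ : Data Ω p u G F φ) (a : Eu N)
      (r l d d' : ℝ), 0 < r → 0 < d → d / 2 ≤ d' → Metric.ball a r ⊆ Ω →
      MM (gam N p) u l d a r ≤ ENNReal.ofReal (κ * r ^ N) →
      ∫⁻ x in Metric.ball a r, ‖F x‖ₑ ≤
        ENNReal.ofReal (κ * d' ^ (p - 1) * r ^ ((N : ℝ) - p)) →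
      MM (gam N p) u (l + d) d' a (r / 2) ≤ ENNReal.ofReal (κ * (r / 2) ^ N) := by
  have hN' : (2 : ℝ) ≤ N := by exact_mod_cast hN
  have hp0 : 0 < p := by linarith
  have hNp : 0 < (N : ℝ) - p := by linarith
  have hγ := gam_pos hp1 hp2 hN
  have hb := bb_pos hp1 hp2 hN
  have hq := pst_pos hp1 hp2 hN
  have hbq := bb_mul_pst hp1 hp2 hN
  obtain ⟨C0, hC0, hstep⟩ := sobolev_step hp1 hp2 hN
  set γ := gam N p with hγdef
  set b := bb N p with hbdef
  set q := pst N p with hqdef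
  have hqp : q / p = N / (N - p) := by
    rw [hqdef]
    unfold pst
    field_simp
  set h := (2 : ℝ) ^ (-((N : ℝ) + 1)) with hh
  have hhpos : 0 < h := by positivity
  set ε := h ^ (1 / γ) with hε
  have hεpos : 0 < ε := by positivity
  have hεγ : ε ^ γ = h := by
    rw [hε, ← Real.rpow_mul hhpos.le, one_div_mul_cancel hγ.ne', Real.rpow_one]
  have hc := Gf_const_pos hb hεpos
  set c := 1 - (1 + ε ^ 2) ^ (-(b / 2)) with hcdef
  set K := C0 * (1 + 2 ^ γ) with hK
  have hKpos : 0 < K := by positivity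
  set L := c ^ (-q) * K ^ ((N : ℝ) / (N - p)) with hL
  have hLpos : 0 < L := by positivity
  refine ⟨(h / L) ^ (((N : ℝ) - p) / p), by positivity, ?_⟩
  intro κ hκ hκ0 Ω u G F φ D a r l d d' hr hd hdd' hball hM hF
  have hd' : 0 < d' := by linarith
  -- the smallness condition
  have hκL : L * κ ^ (p / ((N : ℝ) - p)) ≤ h := by
    have h1 : κ ^ (p / ((N : ℝ) - p)) ≤ h / L := by
      have h2 := Real.rpow_le_rpow hκ.le hκ0 (by positivity : 0 ≤ p / ((N : ℝ) - p))
      rw [← Real.rpow_mul (by positivity)] at h2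
      have h3 : ((N : ℝ) - p) / p * (p / (N - p)) = 1 := by field_simp
      rwa [h3, Real.rpow_one] at h2
    rw [le_div_iff₀ hLpos] at h1
    linarith
  -- pointwise facts
  have hpt : ∀ x, 0 < (u x - (l + d)) / d' → 1 < (u x - l) / d ∧
      (u x - (l + d)) / d' ≤ 2 * ((u x - l) / d - 1) := by
    intro x hx
    have h1 : 0 < u x - (l + d) := by
      by_contra hne
      exact absurd hx (not_lt.2 (div_nonpos_of_nonpos_of_nonneg (not_lt.1 hne) hd'.le))
    refine ⟨?_, ?_⟩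
    · rw [lt_div_iff₀ hd]; linarith
    · have h2 : (u x - l) / d - 1 = (u x - (l + d)) / d := by
        field_simp
        ring
      rw [h2, div_le_iff₀ hd']
      have h3 : 2 * ((u x - (l + d)) / d) * d' = (u x - (l + d)) * (2 * d' / d) := by ring
      rw [h3]
      have h4 : 1 ≤ 2 * d' / d := by
        rw [one_le_div hd]; linarith
      nlinarith
  have hwm : AEStronglyMeasurable (fun x => (u x - l) / d) (volume : Measure (Eu N)) :=
    ((D.hu.1.aemeasurable.sub_const l).div_const d).aestronglyMeasurable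
  have hwγm : AEMeasurable (fun x => ENNReal.ofReal (ε ^ γ) * ENNReal.ofReal ((u x - l) / d) ^ γ)
      (volume.restrict (Metric.ball a (r / 2))) :=
    ((hwm.aemeasurable.ennreal_ofReal.pow_const γ).const_mul _).restrict
  have hsub : Metric.ball a (r / 2) ⊆ Metric.ball a r := Metric.ball_subset_ball (by linarith)
  -- first estimate
  have h1 : MM γ u (l + d) d' a (r / 2) ≤ ENNReal.ofReal (ε ^ γ) * MM γ u l d a r +
      ENNReal.ofReal (c ^ (-q)) *
        ∫⁻ x in Metric.ball a (r / 2), ‖Gf b ((u x - (l + d)) / d')‖ₑ ^ q := by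
    calc MM γ u (l + d) d' a (r / 2) ≤ ∫⁻ x in Metric.ball a (r / 2),
          (ENNReal.ofReal (ε ^ γ) * ENNReal.ofReal ((u x - l) / d) ^ γ +
          ENNReal.ofReal (c ^ (-q)) * ‖Gf b ((u x - (l + d)) / d')‖ₑ ^ q) := by
          unfold MM
          apply lintegral_mono
          intro x
          exact MM_pt hγ hb hq hbq hεpos (hpt x)
      _ = (∫⁻ x in Metric.ball a (r / 2),
          ENNReal.ofReal (ε ^ γ) * ENNReal.ofReal ((u x - l) / d) ^ γ) +
          ∫⁻ x in Metric.ball a (r / 2),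
            ENNReal.ofReal (c ^ (-q)) * ‖Gf b ((u x - (l + d)) / d')‖ₑ ^ q :=
          lintegral_add_left' hwγm _
      _ ≤ _ := by
          rw [lintegral_const_mul' _ _ ENNReal.ofReal_ne_top,
            lintegral_const_mul' _ _ ENNReal.ofReal_ne_top]
          gcongr
          exact lintegral_mono_set hsub
  -- the Sobolev step
  have h2 := hstep D a r (l + d) d' hr hd' hball
  have hJ2 : ∫⁻ x in Metric.ball a r, ENNReal.ofReal (Zt γ ((u x - (l + d)) / d')) ≤
      ENNReal.ofReal (2 ^ γ * (κ * r ^ N)) := by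
    calc _ ≤ ∫⁻ x in Metric.ball a r, ENNReal.ofReal (2 ^ γ) *
          ENNReal.ofReal ((u x - l) / d) ^ γ := by
          apply lintegral_mono
          intro x
          exact Zt_pt hγ (hpt x)
      _ = ENNReal.ofReal (2 ^ γ) * MM γ u l d a r := by
          rw [lintegral_const_mul' _ _ ENNReal.ofReal_ne_top]
          rfl
      _ ≤ ENNReal.ofReal (2 ^ γ) * ENNReal.ofReal (κ * r ^ N) := by gcongr
      _ = _ := (ENNReal.ofReal_mul (by positivity)).symm
  have h3 : ENNReal.ofReal C0 * (ENNReal.ofReal (d' ^ (1 - p)) *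
      (∫⁻ x in Metric.ball a r, ‖F x‖ₑ) + ENNReal.ofReal (r ^ (-p)) *
      ∫⁻ x in Metric.ball a r, ENNReal.ofReal (Zt γ ((u x - (l + d)) / d'))) ≤
      ENNReal.ofReal (K * κ * r ^ ((N : ℝ) - p)) := by
    have e1 : d' ^ (1 - p) * (κ * d' ^ (p - 1) * r ^ ((N : ℝ) - p)) = κ * r ^ ((N : ℝ) - p) := by
      have : d' ^ (1 - p) * d' ^ (p - 1) = 1 := by
        rw [← Real.rpow_add hd']
        have : 1 - p + (p - 1) = 0 := by ring
        rw [this, Real.rpow_zero]
      calc _ = (d' ^ (1 - p) * d' ^ (p - 1)) * (κ * r ^ ((N : ℝ) - p)) := by ring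
        _ = _ := by rw [this, one_mul]
    have e2 : r ^ (-p) * (2 ^ γ * (κ * r ^ N)) = 2 ^ γ * κ * r ^ ((N : ℝ) - p) := by
      have : r ^ (-p) * r ^ N = r ^ ((N : ℝ) - p) := by
        rw [← Real.rpow_natCast, ← Real.rpow_add hr]
        congr 1; ring
      rw [← this]; ring
    calc _ ≤ ENNReal.ofReal C0 * (ENNReal.ofReal (d' ^ (1 - p)) *
          ENNReal.ofReal (κ * d' ^ (p - 1) * r ^ ((N : ℝ) - p)) + ENNReal.ofReal (r ^ (-p)) *
          ENNReal.ofReal (2 ^ γ * (κ * r ^ N))) := by gcongr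
      _ = ENNReal.ofReal (K * κ * r ^ ((N : ℝ) - p)) := by
          rw [← ENNReal.ofReal_mul (by positivity), ← ENNReal.ofReal_mul (by positivity), e1, e2,
            ← ENNReal.ofReal_add (by positivity) (by positivity), ← ENNReal.ofReal_mul hC0.le]
          congr 1
          rw [hK]; ring
  have h4 : ∫⁻ x in Metric.ball a (r / 2), ‖Gf b ((u x - (l + d)) / d')‖ₑ ^ q ≤
      ENNReal.ofReal (K ^ ((N : ℝ) / (N - p)) * κ ^ ((N : ℝ) / (N - p)) * r ^ N) := by
    refine h2.trans ?_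
    refine (ENNReal.rpow_le_rpow h3 (by positivity)).trans ?_
    rw [ENNReal.ofReal_rpow_of_nonneg (by positivity) (by positivity), hqp]
    apply le_of_eq
    congr 1
    rw [Real.mul_rpow (by positivity) (by positivity), Real.mul_rpow hKpos.le hκ.le,
      ← Real.rpow_mul hr.le]
    congr 1
    have : ((N : ℝ) - p) * (N / (N - p)) = N := by field_simp
    rw [this, Real.rpow_natCast]
  refine h1.trans ?_
  calc _ ≤ ENNReal.ofReal (ε ^ γ) * ENNReal.ofReal (κ * r ^ N) + ENNReal.ofReal (c ^ (-q)) *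
        ENNReal.ofReal (K ^ ((N : ℝ) / (N - p)) * κ ^ ((N : ℝ) / (N - p)) * r ^ N) := by gcongr
    _ = ENNReal.ofReal (ε ^ γ * (κ * r ^ N) + c ^ (-q) *
        (K ^ ((N : ℝ) / (N - p)) * κ ^ ((N : ℝ) / (N - p)) * r ^ N)) := by
        rw [← ENNReal.ofReal_mul (by positivity), ← ENNReal.ofReal_mul (by positivity),
          ← ENNReal.ofReal_add (by positivity) (by positivity)]
    _ ≤ ENNReal.ofReal (κ * (r / 2) ^ N) := by
        apply ENNReal.ofReal_le_ofReal
        rw [hεγ]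
        have e3 : κ ^ ((N : ℝ) / (N - p)) = κ * κ ^ (p / ((N : ℝ) - p)) := by
          rw [← Real.rpow_one_add' hκ.le (by positivity)]
          congr 1
          field_simp
          ring
        have e4 : (r / 2) ^ N = 2 * h * r ^ N := by
          rw [div_pow, hh, Real.rpow_neg (by norm_num), Real.rpow_add (by norm_num),
            Real.rpow_natCast, Real.rpow_one]
          field_simp
        rw [e3, e4]
        have e5 : h * (κ * r ^ N) + c ^ (-q) * (K ^ ((N : ℝ) / (N - p)) *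
            (κ * κ ^ (p / ((N : ℝ) - p))) * r ^ N) =
            (h + L * κ ^ (p / ((N : ℝ) - p))) * (κ * r ^ N) := by
          rw [hL]; ring
        rw [e5]
        have e6 : κ * (2 * h * r ^ N) = (h + h) * (κ * r ^ N) := by ring
        rw [e6]
        gcongr

end Pool.Agent.Lib.MP_ae319b_an
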