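import Mathlib

/-!
# MP_ae319b_an : choice of the parameters for the lower bound
-/

namespace Pool.Agent.Lib.MP_ae319b_an

open Filter Topology Set

theorem exists_params {N : ℕ} {p D : ℝ} (hp1 : 1 < p) (hp2 : p < 2) (hD : 0 ≤ D)
    (hDN : D < (N : ℝ) - p * (p / (p - 1))) :
    ∃ (k a b : ℕ) (ε σ β : ℝ), k < N ∧ 1 ≤ k ∧ 2 ≤ a ∧ a + 2 ≤ b ∧ 0 < ε ∧ 0 < σ ∧ 0 < β ∧ β ≤ 1 ∧
      ((a : ℝ) + 2) / b * ((b : ℝ) ^ (-(2 + ε))) ^ (-σ) < 1 ∧
      D ≤ k * (Real.log a / Real.log b) ∧ 0 ≤ (β + 1) * p - k * σ ∧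
      2 * ((β + 1) * p - k * σ) + (p / (p - 1) - p) < (N : ℝ) - k := by
  have hp1' : 0 < p - 1 := by linarith
  set q := p / (p - 1) with hq
  have hpq : p * q = p + q := by
    rw [hq]
    field_simp
    ring
  set Δ := (N : ℝ) - p * q with hΔ
  have hΔ0 : 0 < Δ := by linarith
  have hpq4 : 4 < p * q := by
    rw [hq, ← mul_div_assoc, lt_div_iff₀ hp1']
    nlinarith [sq_nonneg (p - 2), sq_pos_of_pos (by linarith : 0 < 2 - p)]
  set k := ⌊Δ⌋₊ + 1 with hk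
  have hk1 : Δ < k := by
    rw [hk]; push_cast
    exact Nat.lt_floor_add_one Δ
  have hk2 : (k : ℝ) ≤ Δ + 1 := by
    rw [hk]; push_cast
    have := Nat.floor_le hΔ0.le
    linarith
  have hk0 : (0 : ℝ) < k := by linarith
  set e1 := min ((Δ - D) / 4) (min (Δ / 4) 1) with he1
  have he10 : 0 < e1 := lt_min (by linarith) (lt_min (by linarith) one_pos)
  have he1a : e1 ≤ (Δ - D) / 4 := min_le_left _ _
  have he1b : e1 ≤ Δ / 4 := (min_le_right _ _).trans (min_le_left _ _)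
  have he1c : e1 ≤ 1 := (min_le_right _ _).trans (min_le_right _ _)
  set κ1 := (Δ - 2 * e1) / k with hκ1
  set κ2 := (Δ - 3 / 2 * e1) / k with hκ2
  have hκ10 : 0 < κ1 := div_pos (by linarith) hk0
  have hκ12 : κ1 < κ2 := by
    rw [hκ1, hκ2]
    gcongr
    linarith
  have hκ2le : κ2 ≤ 1 := by
    rw [hκ2, div_le_one hk0]
    linarith
  -- choice of `b`
  have hlim : Tendsto (fun n : ℕ => (n : ℝ) ^ (κ2 - κ1)) atTop atTop :=
    (tendsto_rpow_atTop (by linarith)).comp tendsto_natCast_atTop_atTop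
  obtain ⟨b, hb1, hb2⟩ := ((hlim.eventually_ge_atTop 4).and (eventually_ge_atTop 2)).exists
  have hb2' : (2 : ℝ) ≤ b := by exact_mod_cast hb2
  have hb0 : (0 : ℝ) < b := by linarith
  have hb1' : (1 : ℝ) < b := by linarith
  have hbκ1 : 1 < (b : ℝ) ^ κ1 := Real.one_lt_rpow hb1' hκ10
  have hbκ : (b : ℝ) ^ κ1 + 3 ≤ (b : ℝ) ^ κ2 := by
    have h1 : (b : ℝ) ^ κ2 = (b : ℝ) ^ (κ2 - κ1) * (b : ℝ) ^ κ1 := by
      rw [← Real.rpow_add hb0]
      congr 1; ring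
    rw [h1]
    nlinarith
  set a := ⌈(b : ℝ) ^ κ1⌉₊ with ha
  have ha1 : (b : ℝ) ^ κ1 ≤ a := Nat.le_ceil _
  have ha2 : (a : ℝ) < (b : ℝ) ^ κ1 + 1 := Nat.ceil_lt_add_one (by positivity)
  have ha3 : 2 ≤ a := by
    have : (1 : ℝ) < a := lt_of_lt_of_le hbκ1 ha1
    exact_mod_cast this
  have hab : (a : ℝ) + 2 ≤ (b : ℝ) ^ κ2 := by linarith
  have hbb : (b : ℝ) ^ κ2 ≤ b := by
    calc (b : ℝ) ^ κ2 ≤ (b : ℝ) ^ (1 : ℝ) := Real.rpow_le_rpow_of_exponent_le hb1'.le hκ2le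
      _ = b := Real.rpow_one _
  set ε := e1 / (2 * k) with hε
  have hε0 : 0 < ε := by positivity
  set σ := (1 - (Δ - e1) / k) / 2 with hσ
  have hkσ : k * σ = (k - Δ + e1) / 2 := by
    rw [hσ]
    field_simp
    ring
  have hσ0 : 0 < σ := by
    have : 0 < k * σ := by rw [hkσ]; linarith
    exact (mul_pos_iff_of_pos_left hk0).1 this
  have hσ1 : σ < 1 / 2 := by
    rw [hσ]
    have : 0 < (Δ - e1) / k := div_pos (by linarith) hk0
    linarith
  refine ⟨k, a, b, ε, σ, e1 / 8, ?_, by omega, ha3, ?_, hε0, hσ0, by positivity, by linarith, ?_, ?_,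
    ?_, ?_⟩
  · have : (k : ℝ) < N := by linarith
    exact_mod_cast this
  · have : ((a + 2 : ℕ) : ℝ) ≤ b := by
      push_cast
      linarith
    exact_mod_cast this
  · rw [← Real.rpow_mul hb0.le]
    have h1 : ((a : ℝ) + 2) / b * (b : ℝ) ^ (-(2 + ε) * -σ) ≤ (b : ℝ) ^ (κ2 - 1 + (2 + ε) * σ) := by
      calc ((a : ℝ) + 2) / b * (b : ℝ) ^ (-(2 + ε) * -σ)
          ≤ (b : ℝ) ^ κ2 / b * (b : ℝ) ^ (-(2 + ε) * -σ) := by gcongr
        _ = (b : ℝ) ^ (κ2 - 1 + (2 + ε) * σ) := by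
            rw [Real.rpow_add hb0, Real.rpow_sub hb0, Real.rpow_one]
            congr 2
            ring
    refine lt_of_le_of_lt h1 ?_
    apply Real.rpow_lt_one_of_one_lt_of_neg hb1'
    have h2 : κ2 - 1 + (2 + ε) * σ = -(e1 / (2 * k)) + ε * σ := by
      rw [hκ2, hσ]
      field_simp
      ring
    rw [h2, ← hε]
    nlinarith
  · have h1 : κ1 ≤ Real.log a / Real.log b := by
      rw [le_div_iff₀ (Real.log_pos hb1'), ← Real.log_rpow hb0]
      exact Real.log_le_log (by positivity) ha1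
    calc D ≤ Δ - 2 * e1 := by linarith
      _ = k * κ1 := by
          rw [hκ1]
          field_simp
      _ ≤ _ := by gcongr
  · rw [hkσ]
    nlinarith
  · have h1 : 2 * ((e1 / 8 + 1) * p - k * σ) + (q - p) = N - k + (e1 / 4 * p - e1) := by
      have : 2 * ((e1 / 8 + 1) * p - k * σ) = e1 / 4 * p + 2 * p - (k - Δ + e1) := by
        rw [← sub_eq_zero]
        have := hkσ
        linear_combination (-2) * this
      rw [this, hΔ]
      linear_combination -hpq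
    rw [h1]
    nlinarith

end Pool.Agent.Lib.MP_ae319b_an
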