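import Pool.Agent.Lib.MP_ae319b_an.Defs

/-!
# MP_ae319b_an : integrals of products
-/

namespace Pool.Agent.Lib.MP_ae319b_an

open MeasureTheory Filter Topology Set
open scoped ENNReal NNReal

variable {N : ℕ}

theorem ae_coord {P : Fin N → ℝ → Prop} (h : ∀ i, ∀ᵐ y : ℝ, P i y) :
    ∀ᵐ x : Eu N, ∀ i, P i (x i) := by
  rw [ae_all_iff]
  intro i
  have h1 : ∀ᵐ x : Fin N → ℝ, P i (x i) :=
    (Measure.tendsto_eval_ae_ae (μ := fun _ : Fin N => (volume : Measure ℝ))).eventually (h i)
  exact (PiLp.volume_preserving_ofLp (Fin N)).quasiMeasurePreserving.ae h1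

theorem integrable_prod {g : Fin N → ℝ → ℝ} (h : ∀ i, Integrable (g i) volume) :
    Integrable (fun x : Eu N => ∏ i, g i (x i)) volume := by
  have h1 : Integrable (fun x : Fin N → ℝ => ∏ i, g i (x i))
      (Measure.pi fun _ => (volume : Measure ℝ)) := Integrable.fintype_prod h
  rw [← volume_pi] at h1
  rw [← (PiLp.volume_preserving_toLp (Fin N)).integrable_comp_emb
    (MeasurableEquiv.toLp 2 _).measurableEmbedding]
  exact h1

theorem integrableOn_sq_rpow {e : ℝ} (he : e < 1) :
    IntegrableOn (fun z : ℝ => (2 * z ^ 2) ^ (-(e / 2))) (Icc (-1) 2) volume := by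
  set f : ℝ → ℝ := fun z => (2 * z ^ 2) ^ (-(e / 2)) with hf
  have h1 : ∀ c : ℝ, 0 ≤ c → IntervalIntegrable f volume 0 c := by
    intro c hc
    have h2 : IntervalIntegrable (fun z : ℝ => (2 : ℝ) ^ (-(e / 2)) * z ^ (-e)) volume 0 c :=
      (intervalIntegral.intervalIntegrable_rpow' (by linarith)).const_mul _
    refine h2.congr_ae ?_
    rw [uIoc_of_le hc]
    filter_upwards [ae_restrict_mem measurableSet_Ioc] with z hz
    rw [hf]
    beta_reduce
    rw [Real.mul_rpow (by norm_num) (sq_nonneg z), ← Real.rpow_natCast z 2,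
      ← Real.rpow_mul hz.1.le]
    congr 2
    push_cast
    ring
  have h3 : IntervalIntegrable f volume (-1) 0 := by
    have h4 := h1 1 zero_le_one
    rw [IntervalIntegrable.iff_comp_neg] at h4
    rw [neg_zero] at h4
    refine h4.symm.congr_ae ?_
    filter_upwards with z
    simp [hf]
  have h5 := h3.trans (h1 2 zero_le_two)
  rw [intervalIntegrable_iff_integrableOn_Icc_of_le (by norm_num)] at h5
  exact h5

theorem integrable_scaled {h : ℝ → ℝ} {J : Set ℝ} (hJ : MeasurableSet J)
    (hh : IntegrableOn h J volume) (x ρ : ℝ) (hρ : 0 < ρ) :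
    Integrable (fun y => J.indicator h ((y - x) / ρ)) volume := by
  have h1 : Integrable (J.indicator h) volume := (integrable_indicator_iff hJ).2 hh
  have h2 : Integrable (fun y => J.indicator h (y / ρ)) volume := h1.comp_div hρ.ne'
  exact h2.comp_sub_right x

theorem ae_scaled {P : ℝ → Prop} {J : Set ℝ} (hJ : MeasurableSet J)
    (hh : ∀ᵐ z ∂(volume.restrict J), P z) (x ρ : ℝ) (hρ : 0 < ρ) :
    ∀ᵐ y : ℝ, (y - x) / ρ ∈ J → P ((y - x) / ρ) := by
  rw [ae_restrict_iff' hJ] at hh
  have h1 : Measure.QuasiMeasurePreserving (fun y : ℝ => (y - x) / ρ) volume volume := by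
    have e1 : MeasurePreserving (fun y : ℝ => y - x) volume volume :=
      measurePreserving_sub_right volume x
    have e2 : Measure.QuasiMeasurePreserving (fun y : ℝ => y / ρ) volume volume := by
      refine ⟨measurable_id.div_const ρ, ?_⟩
      have := Real.map_volume_mul_right (a := ρ⁻¹) (inv_ne_zero hρ.ne')
      have e3 : (fun y : ℝ => y / ρ) = fun y => y * ρ⁻¹ := by
        funext y; rw [div_eq_mul_inv]
      rw [e3, this]
      exact Measure.smul_absolutelyContinuous
    exact e2.comp e1.quasiMeasurePreserving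
  exact h1.ae hh

/-- A function vanishing to second order. -/
theorem le_sq_of_vanish {f f' f'' : ℝ → ℝ} {M a : ℝ} (h1 : ∀ y, HasDerivAt f (f' y) y)
    (h2 : ∀ y, HasDerivAt f' (f'' y) y) (hb : ∀ y, |f'' y| ≤ M) (h0 : f a = 0) (h0' : f' a = 0)
    (y : ℝ) : f y ≤ M * (y - a) ^ 2 := by
  have hM : 0 ≤ M := (abs_nonneg _).trans (hb 0)
  have h3 : ∀ z, |f' z| ≤ M * |z - a| := by
    intro z
    have h4 := Convex.norm_image_sub_le_of_norm_hasDerivWithin_le (f := f') (f' := f'')
        (s := Set.univ) (C := M) (x := a) (y := z)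
        (fun w _ => (h2 w).hasDerivWithinAt) (fun w _ => by
          rw [Real.norm_eq_abs]; exact hb w) convex_univ (mem_univ _) (mem_univ _)
    simpa [h0'] using h4
  have h5 := Convex.norm_image_sub_le_of_norm_hasDerivWithin_le (f := f) (f' := f')
        (s := Set.uIcc a y) (C := M * |y - a|) (x := a) (y := y)
        (fun w _ => (h1 w).hasDerivWithinAt) (fun w hw => by
          rw [Real.norm_eq_abs]
          refine (h3 w).trans ?_
          exact mul_le_mul_of_nonneg_left (abs_sub_left_of_mem_uIcc hw) hM) (convex_uIcc a y) left_mem_uIcc right_mem_uIcc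
  rw [h0, sub_zero, Real.norm_eq_abs, Real.norm_eq_abs] at h5
  calc f y ≤ |f y| := le_abs_self _
    _ ≤ M * |y - a| * |y - a| := h5
    _ = M * (y - a) ^ 2 := by rw [← sq_abs (y - a)]; ring

end Pool.Agent.Lib.MP_ae319b_an
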