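import Pool.Agent.Lib.MP_ae319b_an.Dig

/-!
# MP_ae319b_an : the function `θ` vanishing on a Cantor set

Proof of `exists_theta`.  Let
`P(y) = smoothTransition ((cos(π a / b) - cos(2π (y - a/(2b)))) / (cos(π a/b) - cos(π (a+2)/b)))`
(`Real.smoothTransition`; the denominator is positive as `cos` is strictly decreasing on `[0, π]`
and `a + 2 ≤ b`).  `P` is smooth (`Real.smoothTransition.contDiff`), 1-periodic, with values in
`[0,1]`; `P = 0` on `[0, a/b]` (there `|2π (y - a/(2b))| ≤ π a/b`), and `P = 1` on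
`[(a+1)/b, (b-1)/b]` (there `2π (y - a/(2b))` is in `[π (a+2)/b, 2π - π (a+2)/b]`, so its cosine is
`≤ cos (π (a+2)/b)`).  The derivatives of `P` are bounded (periodic and continuous).
Let `r = b^(-(2+ε))` and `θ(y) = ∑_j r^j P(b^j y)`, which is `C^2` by `contDiff_tsum`.
`θ(y) = P(y) + r θ(b y) ≥ r θ(b y)`, and `θ(y) ≥ P(y) = 1` on `[(a+1)/b, (b-1)/b]`.
If `y = dig b c` then `b^j y = integer + dig b (c (· + j))` and
`dig b c' ∈ [0, (a-1)/(b-1)] ⊆ [0, a/b]`, so all `P(b^j y) = 0`.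
-/

namespace Pool.Agent.Lib.MP_ae319b_an

open Filter Topology Set

/-- The smooth periodic bump. -/
lemma exists_periodic_bump {a b : ℕ} (ha : 1 ≤ a) (hab : a + 2 ≤ b) :
    ∃ P : ℝ → ℝ, ContDiff ℝ 2 P ∧ (∀ y, P (y + 1) = P y) ∧ (∀ y, 0 ≤ P y) ∧
      (∀ y ∈ Icc (0 : ℝ) (a / b), P y = 0) ∧
      (∀ y ∈ Icc (((a : ℝ) + 1) / b) (((b : ℝ) - 1) / b), P y = 1) := by
  have hb : (0 : ℝ) < b := by
    have : 0 < b := by omega
    exact_mod_cast this
  have ha' : (1 : ℝ) ≤ a := by exact_mod_cast ha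
  have hab' : (a : ℝ) + 2 ≤ b := by exact_mod_cast hab
  have hpi := Real.pi_pos
  set A : ℝ := Real.pi * a / b with hA
  set B : ℝ := Real.pi * (a + 2) / b with hB
  have hA0 : 0 ≤ A := by positivity
  have hAB : A < B := by
    rw [hA, hB]
    gcongr
    linarith
  have hBpi : B ≤ Real.pi := by
    rw [hB, div_le_iff₀ hb]
    gcongr
  have hD : 0 < Real.cos A - Real.cos B := by
    have := Real.cos_lt_cos_of_nonneg_of_le_pi hA0 hBpi hAB
    linarith
  refine ⟨fun y => Real.smoothTransition ((Real.cos A - Real.cos (2 * Real.pi * y - A)) /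
    (Real.cos A - Real.cos B)), ?_, ?_, ?_, ?_, ?_⟩
  · have h1 : ContDiff ℝ 2 (fun y : ℝ => (Real.cos A - Real.cos (2 * Real.pi * y - A)) /
        (Real.cos A - Real.cos B)) := by
      refine ContDiff.div_const ?_ _
      refine contDiff_const.sub (Real.contDiff_cos.comp ?_)
      exact (contDiff_const.mul contDiff_id).sub contDiff_const
    exact Real.smoothTransition.contDiff.comp h1
  · intro y
    have : 2 * Real.pi * (y + 1) - A = (2 * Real.pi * y - A) + 2 * Real.pi := by ring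
    simp only [this, Real.cos_add_two_pi]
  · intro y
    exact Real.smoothTransition.nonneg _
  · rintro y ⟨hy0, hy1⟩
    apply Real.smoothTransition.zero_of_nonpos
    apply div_nonpos_of_nonpos_of_nonneg _ hD.le
    have h2 : |2 * Real.pi * y - A| ≤ A := by
      rw [abs_le]
      constructor
      · have : 0 ≤ 2 * Real.pi * y := by positivity
        linarith
      · have h3 : 2 * Real.pi * y ≤ 2 * Real.pi * (a / b) := by gcongr
        have h4 : 2 * Real.pi * (a / b) = 2 * A := by rw [hA]; ring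
        linarith
    have h5 := Real.cos_le_cos_of_nonneg_of_le_pi (abs_nonneg (2 * Real.pi * y - A))
      (hAB.le.trans hBpi) h2
    rw [Real.cos_abs] at h5
    linarith
  · rintro y ⟨hy0, hy1⟩
    apply Real.smoothTransition.one_of_one_le
    rw [le_div_iff₀ hD, one_mul]
    have h1 : B ≤ 2 * Real.pi * y - A := by
      have h3 : 2 * Real.pi * (((a : ℝ) + 1) / b) ≤ 2 * Real.pi * y := by gcongr
      have h4 : 2 * Real.pi * (((a : ℝ) + 1) / b) = A + B := by rw [hA, hB]; ring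
      linarith
    have h2 : 2 * Real.pi * y - A ≤ 2 * Real.pi - B := by
      have h3 : 2 * Real.pi * y ≤ 2 * Real.pi * (((b : ℝ) - 1) / b) := by gcongr
      have h4 : 2 * Real.pi * (((b : ℝ) - 1) / b) = 2 * Real.pi + A - B := by
        rw [hA, hB]
        field_simp
        ring
      linarith
    have hB0 : 0 ≤ B := hA0.trans hAB.le
    rcases le_total (2 * Real.pi * y - A) Real.pi with h | h
    · have := Real.cos_le_cos_of_nonneg_of_le_pi hB0 h h1
      linarith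
    · have := Real.cos_le_cos_of_nonneg_of_le_pi hB0 (y := 2 * Real.pi - (2 * Real.pi * y - A))
        (by linarith) (by linarith)
      rw [Real.cos_two_pi_sub] at this
      linarith

lemma summable_dig {a b : ℕ} (hb : 2 ≤ b) (c : ℕ → Fin a) :
    Summable fun j : ℕ => ((c j : ℕ) : ℝ) * ((b : ℝ)⁻¹) ^ (j + 1) := by
  have hb' : (1 : ℝ) < b := by
    have : 1 < b := by omega
    exact_mod_cast this
  have h0 : (0 : ℝ) ≤ (b : ℝ)⁻¹ := by positivity
  have h1 : (b : ℝ)⁻¹ < 1 := inv_lt_one_of_one_lt₀ hb'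
  have hs : Summable fun j : ℕ => (a : ℝ) * ((b : ℝ)⁻¹) ^ (j + 1) :=
    ((summable_geometric_of_lt_one h0 h1).comp_injective (add_left_injective 1)).mul_left _
  refine Summable.of_nonneg_of_le (fun j => by positivity) (fun j => ?_) hs
  have : ((c j : ℕ) : ℝ) ≤ a := by exact_mod_cast (c j).2.le
  gcongr

lemma dig_nonneg {a b : ℕ} (c : ℕ → Fin a) : 0 ≤ dig b c :=
  tsum_nonneg fun j => by positivity

lemma dig_shift {a b : ℕ} (hb : 2 ≤ b) (c : ℕ → Fin a) :
    (b : ℝ) * dig b c = ((c 0 : ℕ) : ℝ) + dig b (fun j => c (j + 1)) := by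
  have hb0 : (b : ℝ) ≠ 0 := by
    have : b ≠ 0 := by omega
    exact_mod_cast this
  unfold dig
  rw [(summable_dig hb c).tsum_eq_zero_add, mul_add, ← tsum_mul_left]
  congr 1
  · rw [zero_add, pow_one]
    field_simp
  · apply tsum_congr
    intro j
    rw [pow_succ ((b : ℝ)⁻¹) (j + 1)]
    field_simp

lemma dig_le {a b : ℕ} (hab : a + 2 ≤ b) (c : ℕ → Fin a) : dig b c ≤ a / b := by
  have ha : 1 ≤ a := by
    have := (c 0).2
    omega
  have hb' : (1 : ℝ) < b := by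
    have : 1 < b := by omega
    exact_mod_cast this
  have ha' : (1 : ℝ) ≤ a := by exact_mod_cast ha
  have hab' : (a : ℝ) + 2 ≤ b := by exact_mod_cast hab
  have h0 : (0 : ℝ) ≤ (b : ℝ)⁻¹ := by positivity
  have h1 : (b : ℝ)⁻¹ < 1 := inv_lt_one_of_one_lt₀ hb'
  have hs : HasSum (fun j : ℕ => ((a : ℝ) - 1) * ((b : ℝ)⁻¹) ^ (j + 1))
      (((a : ℝ) - 1) * ((b : ℝ)⁻¹ * (1 - (b : ℝ)⁻¹)⁻¹)) := by
    have h2 := ((hasSum_geometric_of_lt_one h0 h1).mul_left ((b : ℝ)⁻¹)).mul_left ((a : ℝ) - 1)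
    have h3 : (fun j : ℕ => ((a : ℝ) - 1) * ((b : ℝ)⁻¹) ^ (j + 1)) =
        fun j : ℕ => ((a : ℝ) - 1) * ((b : ℝ)⁻¹ * (b : ℝ)⁻¹ ^ j) := by
      funext j
      rw [pow_succ']
    rw [h3]
    exact h2
  have h4 : dig b c ≤ ((a : ℝ) - 1) * ((b : ℝ)⁻¹ * (1 - (b : ℝ)⁻¹)⁻¹) := by
    rw [← hs.tsum_eq]
    refine (summable_dig (by omega) c).tsum_le_tsum (fun j => ?_) hs.summable
    have h5 : ((c j : ℕ) : ℝ) + 1 ≤ a := by exact_mod_cast (c j).2
    have h6 : ((c j : ℕ) : ℝ) ≤ (a : ℝ) - 1 := by linarith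
    gcongr
  refine h4.trans ?_
  have h7 : ((a : ℝ) - 1) * ((b : ℝ)⁻¹ * (1 - (b : ℝ)⁻¹)⁻¹) = (a - 1) / (b - 1) := by
    have : (b : ℝ) - 1 ≠ 0 := by linarith
    field_simp
  rw [h7, div_le_div_iff₀ (by linarith) (by linarith)]
  nlinarith

lemma bump_dig {a b : ℕ} (hab : a + 2 ≤ b) {P : ℝ → ℝ} (hper : Function.Periodic P 1)
    (h0 : ∀ y ∈ Icc (0 : ℝ) (a / b), P y = 0) (j : ℕ) (c : ℕ → Fin a) :
    P ((b : ℝ) ^ j * dig b c) = 0 := by
  induction j generalizing c with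
  | zero => simpa using h0 _ ⟨dig_nonneg c, dig_le hab c⟩
  | succ j ih =>
    have h1 : (b : ℝ) ^ (j + 1) * dig b c =
        (b : ℝ) ^ j * dig b (fun j => c (j + 1)) + ((b ^ j * (c 0 : ℕ) : ℕ) : ℝ) * 1 := by
      rw [pow_succ, mul_assoc, dig_shift (by omega)]
      push_cast
      ring
    rw [h1, hper.nat_mul]
    exact ih _

lemma periodic_iteratedDeriv {P : ℝ → ℝ} (hper : Function.Periodic P 1) (k : ℕ) :
    Function.Periodic (iteratedDeriv k P) 1 := by
  intro y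
  have h1 : (fun z => P (z + 1)) = P := funext hper
  have h2 := congrFun (iteratedDeriv_comp_add_const k P 1) y
  rw [h1] at h2
  exact h2.symm

theorem exists_theta {a b : ℕ} (ha : 1 ≤ a) (hab : a + 2 ≤ b) {ε : ℝ} (hε : 0 < ε) :
    ∃ (θ θ' θ'' : ℝ → ℝ) (C : ℝ), (∀ y, HasDerivAt θ (θ' y) y) ∧ (∀ y, HasDerivAt θ' (θ'' y) y) ∧
      Continuous θ'' ∧ (∀ y, |θ'' y| ≤ C) ∧ (∀ y, 0 ≤ θ y) ∧ (∀ y, θ (y + 1) = θ y) ∧
      (∀ c : ℕ → Fin a, θ (dig b c) = 0) ∧
      (∀ y, (b : ℝ) ^ (-(2 + ε)) * θ (b * y) ≤ θ y) ∧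
      ∀ y ∈ Icc (((a : ℝ) + 1) / b) (((b : ℝ) - 1) / b), 1 ≤ θ y := by
  obtain ⟨P, hPc, hPper', hP0, hPz, hP1⟩ := exists_periodic_bump ha hab
  have hPper : Function.Periodic P 1 := hPper'
  have hb1 : (1 : ℝ) < b := by
    have : 1 < b := by omega
    exact_mod_cast this
  have hb0 : (0 : ℝ) < b := by linarith
  set r : ℝ := (b : ℝ) ^ (-(2 + ε)) with hr
  have hr0 : 0 < r := Real.rpow_pos_of_pos hb0 _
  have hrb2 : r * (b : ℝ) ^ 2 < 1 := by
    have h1 : r * (b : ℝ) ^ 2 = (b : ℝ) ^ (-ε) := by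
      rw [hr, ← Real.rpow_natCast (b : ℝ) 2, ← Real.rpow_add hb0]
      congr 1
      push_cast
      ring
    rw [h1]
    exact Real.rpow_lt_one_of_one_lt_of_neg hb1 (by linarith)
  have hrk : ∀ k : ℕ, k ≤ 2 → r * (b : ℝ) ^ k < 1 := by
    intro k hk
    refine lt_of_le_of_lt ?_ hrb2
    gcongr
    exact hb1.le
  -- bounds of the derivatives of `P`
  have hM : ∀ k : ℕ, k ≤ 2 → ∃ M : ℝ, ∀ y, |iteratedDeriv k P y| ≤ M := by
    intro k hk
    have hc : Continuous (iteratedDeriv k P) := hPc.continuous_iteratedDeriv k (by exact_mod_cast hk)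
    obtain ⟨M, hM⟩ := ((periodic_iteratedDeriv hPper k).isBounded_of_continuous one_ne_zero
      hc).exists_norm_le
    exact ⟨M, fun y => hM _ ⟨y, rfl⟩⟩
  have hM' : ∃ M : ℕ → ℝ, ∀ k : ℕ, k ≤ 2 → ∀ y, |iteratedDeriv k P y| ≤ M k := by
    choose! M hM using hM
    exact ⟨M, hM⟩
  obtain ⟨M, hM⟩ := hM'
  have hterm : ∀ j : ℕ, ContDiff ℝ 2 (fun y : ℝ => r ^ j * P ((b : ℝ) ^ j * y)) := by
    intro j
    exact contDiff_const.mul (hPc.comp (contDiff_const.mul contDiff_id))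
  have hsum : ∀ k : ℕ, k ≤ 2 → Summable fun j : ℕ => (r * (b : ℝ) ^ k) ^ j * M k := by
    intro k hk
    exact (summable_geometric_of_lt_one (by positivity) (hrk k hk)).mul_right _
  have hbound : ∀ (k : ℕ) (j : ℕ) (y : ℝ), k ≤ 2 →
      ‖iteratedFDeriv ℝ k (fun y : ℝ => r ^ j * P ((b : ℝ) ^ j * y)) y‖ ≤
        (r * (b : ℝ) ^ k) ^ j * M k := by
    intro k j y hk
    have hPk : ContDiff ℝ k P := hPc.of_le (by exact_mod_cast hk)
    rw [norm_iteratedFDeriv_eq_norm_iteratedDeriv, iteratedDeriv_const_mul_field,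
      iteratedDeriv_comp_const_mul hPk, norm_mul, norm_mul, Real.norm_of_nonneg (by positivity),
      Real.norm_of_nonneg (by positivity)]
    have h1 : (r * (b : ℝ) ^ k) ^ j = r ^ j * ((b : ℝ) ^ j) ^ k := by
      rw [mul_pow, ← pow_mul, ← pow_mul, mul_comm k j]
    rw [h1, mul_assoc]
    gcongr
    exact hM k hk _
  set θ : ℝ → ℝ := fun y => ∑' j : ℕ, r ^ j * P ((b : ℝ) ^ j * y) with hθ
  have hθc : ContDiff ℝ 2 θ := by
    refine contDiff_tsum (N := 2) (v := fun k j => (r * (b : ℝ) ^ k) ^ j * M k)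
      (fun j => hterm j) ?_ ?_
    · intro k hk
      exact hsum k (by exact_mod_cast hk)
    · intro k j y hk
      exact hbound k j y (by exact_mod_cast hk)
  have hsumm : ∀ y, Summable fun j : ℕ => r ^ j * P ((b : ℝ) ^ j * y) := by
    intro y
    refine Summable.of_norm_bounded (hsum 0 (by norm_num)) (fun j => ?_)
    have := hbound 0 j y (by norm_num)
    rwa [norm_iteratedFDeriv_zero] at this
  have hθ0 : ∀ y, 0 ≤ θ y := fun y => tsum_nonneg fun j => mul_nonneg (by positivity) (hP0 _)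
  have hθper : Function.Periodic θ 1 := by
    intro y
    refine tsum_congr fun j => ?_
    have h1 : (b : ℝ) ^ j * (y + 1) = (b : ℝ) ^ j * y + ((b ^ j : ℕ) : ℝ) * 1 := by
      push_cast
      ring
    rw [h1, hPper.nat_mul]
  have hθrec : ∀ y, θ y = P y + r * θ (b * y) := by
    intro y
    rw [hθ]
    simp only
    rw [(hsumm y).tsum_eq_zero_add, ← tsum_mul_left]
    congr 1
    · simp
    · refine tsum_congr fun j => ?_
      rw [pow_succ, pow_succ, mul_assoc ((b : ℝ) ^ j)]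
      ring
  have hd1 : Differentiable ℝ θ := hθc.differentiable (by norm_num)
  have hd1c : ContDiff ℝ 1 (deriv θ) := by
    have : ContDiff ℝ (1 + 1) θ := by simpa [one_add_one_eq_two] using hθc
    exact (contDiff_succ_iff_deriv.1 this).2.2
  have hd2 : Differentiable ℝ (deriv θ) := hd1c.differentiable (by norm_num)
  have hc2 : Continuous (deriv (deriv θ)) := hd1c.continuous_deriv (by norm_num)
  have hper2 : Function.Periodic (deriv (deriv θ)) 1 := by
    have := periodic_iteratedDeriv hθper 2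
    rwa [iteratedDeriv_succ, iteratedDeriv_one] at this
  obtain ⟨C, hC⟩ := (hper2.isBounded_of_continuous one_ne_zero hc2).exists_norm_le
  refine ⟨θ, deriv θ, deriv (deriv θ), C, fun y => (hd1 y).hasDerivAt,
    fun y => (hd2 y).hasDerivAt, hc2, fun y => hC _ ⟨y, rfl⟩, hθ0, hθper, ?_, ?_, ?_⟩
  · intro c
    rw [hθ]
    simp only
    rw [← tsum_zero (β := ℕ)]
    refine tsum_congr fun j => ?_
    rw [bump_dig hab hPper hPz j c, mul_zero]
  · intro y
    rw [hθrec y]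
    have := hP0 y
    linarith
  · intro y hy
    rw [hθrec y, hP1 y hy]
    have := mul_nonneg hr0.le (hθ0 (b * y))
    linarith

end Pool.Agent.Lib.MP_ae319b_an
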