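import Mathlib

/-!
# MP_ae319b_an : integrability of `θ^(-σ)`

Proof of `integrableOn_theta_rpow`.  For `δ > 0` let `I_δ = ∫_0^1 (θ + δ)^(-σ)` (finite, the
integrand is continuous, positive and `≤ δ^(-σ)`).  Split `[0,1]` into the `b` intervals
`[c/b, (c+1)/b]`, `c < b`.  For `a + 1 ≤ c ≤ b - 2` we have `θ ≥ 1` on the interval, so the integral
over it is `≤ 1/b`.  For the other `a + 2` values of `c` we use `θ(y) ≥ r θ(b y)` and `r ≤ 1`:
`∫_{c/b}^{(c+1)/b} (θ(y)+δ)^(-σ) dy ≤ r^(-σ) ∫_{c/b}^{(c+1)/b} (θ(b y) + δ)^(-σ) dy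
 = r^(-σ) b^(-1) ∫_c^{c+1} (θ + δ)^(-σ) = r^(-σ) b^(-1) I_δ` (periodicity).
Hence `I_δ ≤ 1 + q I_δ` with `q = (a+2)/b * r^(-σ) < 1`, so `I_δ ≤ 1/(1-q)`.  Let `δ → 0`
(Fatou's lemma).
-/

namespace Pool.Agent.Lib.MP_ae319b_an

open MeasureTheory Filter Topology Set
open scoped ENNReal NNReal

theorem thetaInt_aux {a b : ℕ} (ha : 1 ≤ a) (hab : a + 2 ≤ b) {r σ : ℝ} (hr : 0 < r)
    (hr1 : r ≤ 1) (hσ : 0 < σ) (hq : ((a : ℝ) + 2) / b * r ^ (-σ) < 1) {θ : ℝ → ℝ}
    (hθ : Continuous θ) (h0 : ∀ y, 0 ≤ θ y) (hper : ∀ y, θ (y + 1) = θ y)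
    (hself : ∀ y, r * θ (b * y) ≤ θ y)
    (hone : ∀ y ∈ Icc (((a : ℝ) + 1) / b) (((b : ℝ) - 1) / b), 1 ≤ θ y) {δ : ℝ} (hδ : 0 < δ) :
    ∫ y in (0 : ℝ)..1, (θ y + δ) ^ (-σ) ≤ 1 / (1 - ((a : ℝ) + 2) / b * r ^ (-σ)) := by
  have hb0 : 0 < b := by omega
  have hbR : (0 : ℝ) < b := by exact_mod_cast hb0
  have hcont : Continuous fun y => (θ y + δ) ^ (-σ) := by
    refine Continuous.rpow_const (hθ.add continuous_const) fun y => Or.inl ?_
    have := h0 y; positivity
  have hint : ∀ u v : ℝ, IntervalIntegrable (fun y => (θ y + δ) ^ (-σ)) volume u v :=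
    fun u v => hcont.intervalIntegrable u v
  have hperF : Function.Periodic (fun y => (θ y + δ) ^ (-σ)) 1 := by
    intro y; simp only [hper]
  set I : ℝ := ∫ y in (0 : ℝ)..1, (θ y + δ) ^ (-σ) with hI
  have hIc : ∀ c : ℕ, ∫ y in (c : ℝ)..((c : ℝ) + 1), (θ y + δ) ^ (-σ) = I := by
    intro c
    have := hperF.intervalIntegral_add_eq (c : ℝ) 0
    simpa using this
  have hI0 : 0 ≤ I := by
    refine intervalIntegral.integral_nonneg (by norm_num) fun y _ => ?_
    have := h0 y; positivity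
  have hsum : ∑ c ∈ Finset.range b, ∫ y in ((c : ℝ) / b)..(((c + 1 : ℕ) : ℝ) / b),
      (θ y + δ) ^ (-σ) = I := by
    have h := intervalIntegral.sum_integral_adjacent_intervals (μ := volume)
      (f := fun y => (θ y + δ) ^ (-σ)) (a := fun c : ℕ => (c : ℝ) / b) (n := b)
      (fun k _ => hint _ _)
    rw [h]
    simp [hI, hbR.ne']
  have hbad : ∀ c : ℕ, ∫ y in ((c : ℝ) / b)..(((c + 1 : ℕ) : ℝ) / b), (θ y + δ) ^ (-σ)
      ≤ r ^ (-σ) / b * I := by
    intro c
    have h1 : ∫ y in ((c : ℝ) / b)..(((c + 1 : ℕ) : ℝ) / b), (θ y + δ) ^ (-σ)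
        ≤ ∫ y in ((c : ℝ) / b)..(((c + 1 : ℕ) : ℝ) / b), r ^ (-σ) * (θ (b * y) + δ) ^ (-σ) := by
      refine intervalIntegral.integral_mono_on ?_ (hint _ _) ?_ ?_
      · apply div_le_div_of_nonneg_right _ hbR.le
        push_cast; linarith
      · refine Continuous.intervalIntegrable ?_ _ _
        exact continuous_const.mul (hcont.comp (continuous_const.mul continuous_id))
      · intro y _
        have hy := h0 y
        have hy' := h0 (b * y)
        have h2 : r * (θ (b * y) + δ) ≤ θ y + δ := by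
          have := hself y
          nlinarith
        have h3 : 0 < r * (θ (b * y) + δ) := by positivity
        calc (θ y + δ) ^ (-σ) ≤ (r * (θ (b * y) + δ)) ^ (-σ) :=
              Real.rpow_le_rpow_of_nonpos h3 h2 (by linarith)
          _ = r ^ (-σ) * (θ (b * y) + δ) ^ (-σ) := Real.mul_rpow hr.le (by positivity)
    refine h1.trans (le_of_eq ?_)
    rw [intervalIntegral.integral_const_mul]
    have h4 := intervalIntegral.integral_comp_mul_left (a := (c : ℝ) / b)
      (b := ((c + 1 : ℕ) : ℝ) / b) (fun y => (θ y + δ) ^ (-σ)) hbR.ne'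
    rw [h4]
    have h5 : (b : ℝ) * ((c : ℝ) / b) = c := by field_simp
    have h6 : (b : ℝ) * (((c + 1 : ℕ) : ℝ) / b) = (c : ℝ) + 1 := by push_cast; field_simp
    rw [h5, h6, hIc c, smul_eq_mul]
    ring
  have hgood : ∀ c : ℕ, a + 1 ≤ c → c + 2 ≤ b →
      ∫ y in ((c : ℝ) / b)..(((c + 1 : ℕ) : ℝ) / b), (θ y + δ) ^ (-σ) ≤ 1 / b := by
    intro c hc1 hc2
    have hle : (c : ℝ) / b ≤ ((c + 1 : ℕ) : ℝ) / b := by
      apply div_le_div_of_nonneg_right _ hbR.le
      push_cast; linarith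
    have h1 : ∫ y in ((c : ℝ) / b)..(((c + 1 : ℕ) : ℝ) / b), (θ y + δ) ^ (-σ)
        ≤ ∫ y in ((c : ℝ) / b)..(((c + 1 : ℕ) : ℝ) / b), (1 : ℝ) := by
      refine intervalIntegral.integral_mono_on hle (hint _ _) (by simp) ?_
      intro y hy
      have hy1 : y ∈ Icc (((a : ℝ) + 1) / b) (((b : ℝ) - 1) / b) := by
        constructor
        · refine le_trans ?_ hy.1
          apply div_le_div_of_nonneg_right _ hbR.le
          exact_mod_cast hc1
        · refine le_trans hy.2 ?_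
          apply div_le_div_of_nonneg_right _ hbR.le
          have : ((c + 2 : ℕ) : ℝ) ≤ b := by exact_mod_cast hc2
          push_cast at this ⊢
          linarith
      have h2 := hone y hy1
      exact Real.rpow_le_one_of_one_le_of_nonpos (by linarith) (by linarith)
    refine h1.trans (le_of_eq ?_)
    rw [intervalIntegral.integral_const]
    push_cast
    rw [smul_eq_mul]
    ring
  -- sum up
  set B : Finset ℕ := (Finset.range b).filter (fun c => c ≤ a ∨ c + 1 = b) with hB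
  have hcardB : B.card ≤ a + 2 := by
    have hsub : B ⊆ insert (b - 1) (Finset.range (a + 1)) := by
      intro c hc
      simp only [hB, Finset.mem_filter, Finset.mem_range, Finset.mem_insert] at hc ⊢
      omega
    refine (Finset.card_le_card hsub).trans ((Finset.card_insert_le _ _).trans ?_)
    simp
  have hq' : 0 ≤ r ^ (-σ) / b := by positivity
  have hmain : I ≤ ((a : ℝ) + 2) * (r ^ (-σ) / b * I) + 1 := by
    conv_lhs => rw [← hsum]
    rw [← Finset.sum_filter_add_sum_filter_not (Finset.range b) (fun c => c ≤ a ∨ c + 1 = b)]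
    refine add_le_add ?_ ?_
    · calc ∑ c ∈ B, ∫ y in ((c : ℝ) / b)..(((c + 1 : ℕ) : ℝ) / b), (θ y + δ) ^ (-σ)
          ≤ ∑ c ∈ B, r ^ (-σ) / b * I := Finset.sum_le_sum fun c _ => hbad c
        _ = (B.card : ℝ) * (r ^ (-σ) / b * I) := by rw [Finset.sum_const, nsmul_eq_mul]
        _ ≤ ((a : ℝ) + 2) * (r ^ (-σ) / b * I) := by
            refine mul_le_mul_of_nonneg_right ?_ (by positivity)
            exact_mod_cast hcardB
    · calc ∑ c ∈ (Finset.range b).filter (fun c => ¬ (c ≤ a ∨ c + 1 = b)),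
            ∫ y in ((c : ℝ) / b)..(((c + 1 : ℕ) : ℝ) / b), (θ y + δ) ^ (-σ)
          ≤ ∑ c ∈ (Finset.range b).filter (fun c => ¬ (c ≤ a ∨ c + 1 = b)), (1 : ℝ) / b := by
            refine Finset.sum_le_sum fun c hc => ?_
            simp only [Finset.mem_filter, Finset.mem_range] at hc
            exact hgood c (by omega) (by omega)
        _ = (((Finset.range b).filter (fun c => ¬ (c ≤ a ∨ c + 1 = b))).card : ℝ) * (1 / b) := by
            rw [Finset.sum_const, nsmul_eq_mul]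
        _ ≤ (b : ℝ) * (1 / b) := by
            refine mul_le_mul_of_nonneg_right ?_ (by positivity)
            exact_mod_cast (Finset.card_filter_le _ _).trans (by simp)
        _ = 1 := by field_simp
  have h1q : 0 < 1 - ((a : ℝ) + 2) / b * r ^ (-σ) := by linarith
  rw [le_div_iff₀ h1q]
  have : ((a : ℝ) + 2) * (r ^ (-σ) / b * I) = ((a : ℝ) + 2) / b * r ^ (-σ) * I := by ring
  rw [this] at hmain
  linarith

theorem integrableOn_theta_rpow {a b : ℕ} (ha : 1 ≤ a) (hab : a + 2 ≤ b) {r σ : ℝ} (hr : 0 < r)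
    (hr1 : r ≤ 1) (hσ : 0 < σ) (hq : ((a : ℝ) + 2) / b * r ^ (-σ) < 1) {θ : ℝ → ℝ}
    (hθ : Continuous θ) (h0 : ∀ y, 0 ≤ θ y) (hper : ∀ y, θ (y + 1) = θ y)
    (hself : ∀ y, r * θ (b * y) ≤ θ y)
    (hone : ∀ y ∈ Icc (((a : ℝ) + 1) / b) (((b : ℝ) - 1) / b), 1 ≤ θ y) :
    (∀ᵐ y ∂(volume.restrict (Icc (-1 : ℝ) 2)), 0 < θ y) ∧
      IntegrableOn (fun y => θ y ^ (-σ)) (Icc (-1 : ℝ) 2) volume := by
  set δ : ℕ → ℝ := fun n => 1 / ((n : ℝ) + 1) with hδdef
  have hδ : ∀ n, 0 < δ n := fun n => by simp only [hδdef]; positivity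
  have hδlim : Tendsto δ atTop (𝓝 0) := tendsto_one_div_add_atTop_nhds_zero_nat
  set K : ℝ := 1 / (1 - ((a : ℝ) + 2) / b * r ^ (-σ)) with hK
  have h1q : 0 < 1 - ((a : ℝ) + 2) / b * r ^ (-σ) := by linarith
  have hK0 : 0 ≤ K := by positivity
  have hcont : ∀ n, Continuous fun y => (θ y + δ n) ^ (-σ) := by
    intro n
    refine Continuous.rpow_const (hθ.add continuous_const) fun y => Or.inl ?_
    have := h0 y; have := hδ n; positivity
  -- bound over [-1,2]
  have hbound : ∀ n, ∫⁻ y in Icc (-1 : ℝ) 2, ENNReal.ofReal ((θ y + δ n) ^ (-σ))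
      ≤ ENNReal.ofReal (3 * K) := by
    intro n
    have hperF : Function.Periodic (fun y => (θ y + δ n) ^ (-σ)) 1 := by
      intro y; simp only [hper]
    have hI := thetaInt_aux ha hab hr hr1 hσ hq hθ h0 hper hself hone (hδ n)
    have hii : ∀ u v : ℝ, IntervalIntegrable (fun y => (θ y + δ n) ^ (-σ)) volume u v :=
      fun u v => (hcont n).intervalIntegrable u v
    have e1 : ∫ y in (-1 : ℝ)..0, (θ y + δ n) ^ (-σ) = ∫ y in (0 : ℝ)..1, (θ y + δ n) ^ (-σ) := by
      have := hperF.intervalIntegral_add_eq (-1 : ℝ) 0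
      simpa using this
    have e2 : ∫ y in (1 : ℝ)..2, (θ y + δ n) ^ (-σ) = ∫ y in (0 : ℝ)..1, (θ y + δ n) ^ (-σ) := by
      have := hperF.intervalIntegral_add_eq (1 : ℝ) 0
      norm_num at this
      simpa using this
    have e3 : ∫ y in (-1 : ℝ)..2, (θ y + δ n) ^ (-σ)
        = 3 * ∫ y in (0 : ℝ)..1, (θ y + δ n) ^ (-σ) := by
      rw [← intervalIntegral.integral_add_adjacent_intervals (hii (-1) 1) (hii 1 2),
        ← intervalIntegral.integral_add_adjacent_intervals (hii (-1) 0) (hii 0 1), e1, e2]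
      ring
    have e4 : ∫ y in Icc (-1 : ℝ) 2, (θ y + δ n) ^ (-σ)
        = ∫ y in (-1 : ℝ)..2, (θ y + δ n) ^ (-σ) := by
      rw [intervalIntegral.integral_of_le (by norm_num), integral_Icc_eq_integral_Ioc]
    rw [← ofReal_integral_eq_lintegral_ofReal]
    · refine ENNReal.ofReal_le_ofReal ?_
      rw [e4, e3]
      linarith
    · exact ((hcont n).continuousOn).integrableOn_Icc
    · refine Eventually.of_forall fun y => ?_
      have := h0 y; have := hδ n
      simp only [Pi.zero_apply]; positivity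
  set g : ℝ → ℝ≥0∞ := fun y => liminf (fun n => ENNReal.ofReal ((θ y + δ n) ^ (-σ))) atTop with hg
  have hmeas : ∀ n, Measurable fun y => ENNReal.ofReal ((θ y + δ n) ^ (-σ)) := fun n =>
    (hcont n).measurable.ennreal_ofReal
  have hgmeas : Measurable g := Measurable.liminf hmeas
  have hfatou : ∫⁻ y in Icc (-1 : ℝ) 2, g y ≤ ENNReal.ofReal (3 * K) := by
    refine (lintegral_liminf_le hmeas).trans ?_
    refine liminf_le_of_le (by isBoundedDefault) ?_
    intro b' hb'
    obtain ⟨n, hn⟩ := hb'.exists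
    exact hn.trans (hbound n)
  have hfin : ∫⁻ y in Icc (-1 : ℝ) 2, g y ≠ ⊤ := ne_top_of_le_ne_top ENNReal.ofReal_ne_top hfatou
  have hlt : ∀ᵐ y ∂(volume.restrict (Icc (-1 : ℝ) 2)), g y < ⊤ := ae_lt_top hgmeas hfin
  have hzero : ∀ y, θ y = 0 → g y = ⊤ := by
    intro y hy
    simp only [hg, hy, zero_add]
    have h1 : Tendsto (fun n => (δ n) ^ (-σ)) atTop atTop := by
      have h2 : Tendsto (fun n : ℕ => ((n : ℝ) + 1) ^ σ) atTop atTop :=
        (tendsto_rpow_atTop hσ).comp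
          (tendsto_atTop_add_const_right atTop (1 : ℝ) tendsto_natCast_atTop_atTop)
      refine h2.congr fun n => ?_
      simp only [hδdef]
      rw [one_div, Real.inv_rpow (by positivity), Real.rpow_neg (by positivity), inv_inv]
    exact (ENNReal.tendsto_ofReal_atTop.comp h1).liminf_eq
  have hposlim : ∀ y, 0 < θ y → g y = ENNReal.ofReal (θ y ^ (-σ)) := by
    intro y hy
    have h1 : Tendsto (fun n => (θ y + δ n) ^ (-σ)) atTop (𝓝 (θ y ^ (-σ))) := by
      have h2 : Tendsto (fun n => θ y + δ n) atTop (𝓝 (θ y)) := by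
        simpa using (tendsto_const_nhds (x := θ y)).add hδlim
      exact h2.rpow_const (Or.inl hy.ne')
    exact ((ENNReal.continuous_ofReal.tendsto _).comp h1).liminf_eq
  have hpos : ∀ᵐ y ∂(volume.restrict (Icc (-1 : ℝ) 2)), 0 < θ y := by
    filter_upwards [hlt] with y hy
    rcases (h0 y).lt_or_eq with h | h
    · exact h
    · rw [hzero y h.symm] at hy
      exact absurd hy (lt_irrefl _)
  refine ⟨hpos, ?_⟩
  have hmeasθ : Measurable fun y => θ y ^ (-σ) := hθ.measurable.pow_const _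
  refine ⟨hmeasθ.aestronglyMeasurable, ?_⟩
  rw [hasFiniteIntegral_iff_ofReal]
  · have : ∫⁻ y in Icc (-1 : ℝ) 2, ENNReal.ofReal (θ y ^ (-σ)) = ∫⁻ y in Icc (-1 : ℝ) 2, g y := by
      refine lintegral_congr_ae ?_
      filter_upwards [hpos] with y hy
      exact (hposlim y hy).symm
    rw [this]
    exact lt_of_le_of_ne le_top hfin
  · refine Eventually.of_forall fun y => ?_
    have := h0 y
    simp only [Pi.zero_apply]; positivity

end Pool.Agent.Lib.MP_ae319b_an
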