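import Mathlib

/-!
# MP_ae319b_an : the confining function
-/

namespace Pool.Agent.Lib.MP_ae319b_an

open Filter Topology Set
open scoped ContDiff

theorem exists_st : ∃ (f f' f'' : ℝ → ℝ) (C : ℝ), (∀ y, HasDerivAt f (f' y) y) ∧
    (∀ y, HasDerivAt f' (f'' y) y) ∧ Continuous f'' ∧ (∀ y, |f'' y| ≤ C) ∧ (∀ y, 0 ≤ f y) ∧
    (∀ y, y ≤ 0 → f y = 0) ∧ ∀ y, 1 ≤ y → 1 ≤ f y := by
  have hf : ContDiff ℝ ∞ Real.smoothTransition := Real.smoothTransition.contDiff
  have hf1 : ContDiff ℝ ∞ (deriv Real.smoothTransition) := by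
    have := (contDiff_infty_iff_deriv (𝕜 := ℝ)).1 hf
    exact this.2
  have hf2 : ContDiff ℝ ∞ (deriv (deriv Real.smoothTransition)) := by
    have := (contDiff_infty_iff_deriv (𝕜 := ℝ)).1 hf1
    exact this.2
  have hz : ∀ y, y ∉ Icc (0 : ℝ) 1 → deriv Real.smoothTransition y = 0 := by
    intro y hy
    rw [mem_Icc, not_and_or, not_le, not_le] at hy
    rcases hy with h | h
    · have h1 : Real.smoothTransition =ᶠ[𝓝 y] fun _ => 0 := by
        filter_upwards [Iio_mem_nhds h] with x hx
        exact Real.smoothTransition.zero_of_nonpos (le_of_lt hx)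
      rw [h1.deriv_eq]
      simp
    · have h1 : Real.smoothTransition =ᶠ[𝓝 y] fun _ => 1 := by
        filter_upwards [Ioi_mem_nhds h] with x hx
        exact Real.smoothTransition.one_of_one_le (le_of_lt hx)
      rw [h1.deriv_eq]
      simp
  have hcs : HasCompactSupport (deriv Real.smoothTransition) := by
    apply HasCompactSupport.of_support_subset_isCompact (isCompact_Icc (a := (0 : ℝ)) (b := 1))
    intro y hy
    by_contra hne
    exact hy (hz y hne)
  obtain ⟨C, hC⟩ := hf2.continuous.bounded_above_of_compact_support hcs.deriv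
  refine ⟨Real.smoothTransition, deriv Real.smoothTransition, deriv (deriv Real.smoothTransition),
    C, ?_, ?_, hf2.continuous, ?_, Real.smoothTransition.nonneg, ?_, ?_⟩
  · intro y
    exact (hf.differentiable (by simp) y).hasDerivAt
  · intro y
    exact (hf1.differentiable (by simp) y).hasDerivAt
  · intro y
    exact hC y
  · intro y hy
    exact Real.smoothTransition.zero_of_nonpos hy
  · intro y hy
    exact (Real.smoothTransition.one_of_one_le hy).ge

/-- the confining function: zero on `[0, 1]`, at least `1` outside `(-1, 2)` -/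
theorem exists_zeta : ∃ (ζ ζ' ζ'' : ℝ → ℝ) (C : ℝ), (∀ y, HasDerivAt ζ (ζ' y) y) ∧
    (∀ y, HasDerivAt ζ' (ζ'' y) y) ∧ Continuous ζ'' ∧ (∀ y, |ζ'' y| ≤ C) ∧ (∀ y, 0 ≤ ζ y) ∧
    (∀ y ∈ Icc (0 : ℝ) 1, ζ y = 0) ∧ ∀ y, y ∉ Icc (-1 : ℝ) 2 → 1 ≤ ζ y := by
  obtain ⟨f, f', f'', C, h1, h2, hc, hb, h0, hz, ho⟩ := exists_st
  refine ⟨fun y => f (y - 1) + f (-y), fun y => f' (y - 1) - f' (-y),
    fun y => f'' (y - 1) + f'' (-y), C + C, ?_, ?_, ?_, ?_, ?_, ?_, ?_⟩
  · intro y
    have e1 : HasDerivAt (fun y => f (y - 1)) (f' (y - 1)) y := (h1 (y - 1)).comp_sub_const y 1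
    have e2 : HasDerivAt (fun y => f (-y)) (-f' (-y)) y := by
      have := (h1 (-y)).comp y (hasDerivAt_neg y)
      simpa [Function.comp_def] using this
    refine (e1.add e2).congr_deriv ?_
    ring
  · intro y
    have e1 : HasDerivAt (fun y => f' (y - 1)) (f'' (y - 1)) y := (h2 (y - 1)).comp_sub_const y 1
    have e2 : HasDerivAt (fun y => f' (-y)) (-f'' (-y)) y := by
      have := (h2 (-y)).comp y (hasDerivAt_neg y)
      simpa [Function.comp_def] using this
    refine (e1.sub e2).congr_deriv ?_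
    ring
  · exact (hc.comp (continuous_id.sub continuous_const)).add (hc.comp continuous_neg)
  · intro y
    exact (abs_add_le _ _).trans (add_le_add (hb _) (hb _))
  · intro y
    exact add_nonneg (h0 _) (h0 _)
  · intro y hy
    change f (y - 1) + f (-y) = 0
    rw [hz _ (by linarith [hy.2]), hz _ (by linarith [hy.1]), add_zero]
  · intro y hy
    change 1 ≤ f (y - 1) + f (-y)
    rw [mem_Icc, not_and_or, not_le, not_le] at hy
    rcases hy with h | h
    · have := ho (-y) (by linarith)
      have := h0 (y - 1)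
      linarith
    · have := ho (y - 1) (by linarith)
      have := h0 (-y)
      linarith

end Pool.Agent.Lib.MP_ae319b_an
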