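import Pool.Agent.Lib.MP_ae319b_an.Construct
import Pool.Agent.Lib.MP_ae319b_an.Params
import Pool.Agent.Lib.MP_ae319b_an.Zeta
import Pool.Agent.Lib.MP_ae319b_an.Prod
import Pool.Agent.Lib.MP_ae319b_an.Theta
import Pool.Agent.Lib.MP_ae319b_an.ThetaInt
import Pool.Agent.Lib.MP_ae319b_an.CantorDim

/-!
# MP_ae319b_an : the lower bound
-/

namespace Pool.Agent.Lib.MP_ae319b_an

open MeasureTheory Filter Topology Set
open scoped ENNReal NNReal RealInnerProductSpace ContDiff

variable {N : ℕ}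

/-- The function of one variable for the first `k` coordinates. -/
theorem exists_T {a b : ℕ} {ε σ : ℝ} (ha : 2 ≤ a) (hab : a + 2 ≤ b) (hε : 0 < ε) (hσ : 0 < σ)
    (hq : ((a : ℝ) + 2) / b * ((b : ℝ) ^ (-(2 + ε))) ^ (-σ) < 1) :
    ∃ (T T' T'' : ℝ → ℝ) (M : ℝ), (∀ z, HasDerivAt T (T' z) z) ∧ (∀ z, HasDerivAt T' (T'' z) z) ∧
      Continuous T'' ∧ (∀ z, |T'' z| ≤ M) ∧ (∀ z, 0 ≤ T z) ∧
      (∀ z, T z ≤ 1 → z ∈ Icc (-1 : ℝ) 2) ∧ (∀ c : ℕ → Fin a, T (dig b c) = 0) ∧
      (∀ᵐ z ∂(volume.restrict (Icc (-1 : ℝ) 2)), 0 < T z) ∧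
      IntegrableOn (fun z => T z ^ (-σ)) (Icc (-1 : ℝ) 2) volume := by
  obtain ⟨θ, θ', θ'', C, h1, h2, h3, h4, h5, h6, h7, h8, h9⟩ :=
    exists_theta (a := a) (b := b) (by omega) hab hε
  obtain ⟨ζ, ζ', ζ'', C', g1, g2, g3, g4, g5, g6, g7⟩ := exists_zeta
  have hb : (1 : ℝ) ≤ b := by
    have : 1 ≤ b := by omega
    exact_mod_cast this
  have hb0 : (0 : ℝ) < b := by linarith
  have hcθ : Continuous θ := continuous_iff_continuousAt.2 fun y => (h1 y).continuousAt
  have hcζ : Continuous ζ := continuous_iff_continuousAt.2 fun y => (g1 y).continuousAt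
  obtain ⟨i1, i2⟩ := integrableOn_theta_rpow (a := a) (b := b) (r := (b : ℝ) ^ (-(2 + ε))) (σ := σ)
    (by omega) hab (by positivity) (Real.rpow_le_one_of_one_le_of_nonpos hb (by linarith)) hσ hq
    hcθ h5 h6 h8 h9
  refine ⟨fun z => 2 * (θ z + ζ z), fun z => 2 * (θ' z + ζ' z), fun z => 2 * (θ'' z + ζ'' z),
    2 * (C + C'), fun z => ((h1 z).add (g1 z)).const_mul 2, fun z => ((h2 z).add (g2 z)).const_mul 2,
    continuous_const.mul (h3.add g3), ?_, ?_, ?_, ?_, ?_, ?_⟩
  · intro z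
    rw [abs_mul, abs_two]
    have := abs_add_le (θ'' z) (ζ'' z)
    have := h4 z
    have := g4 z
    linarith
  · intro z
    have := h5 z
    have := g5 z
    positivity
  · intro z hz
    by_contra hne
    have := g7 z hne
    have := h5 z
    beta_reduce at hz
    linarith
  · intro c
    have e1 := dig_nonneg (b := b) c
    have e2 : dig b c ≤ 1 := by
      refine (dig_le hab c).trans ?_
      rw [div_le_one hb0]
      have : a ≤ b := by omega
      exact_mod_cast this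
    beta_reduce
    rw [h7 c, g6 _ ⟨e1, e2⟩]
    norm_num
  · filter_upwards [i1] with z hz
    have := g5 z
    positivity
  · refine Integrable.mono' i2 ?_ ?_
    · exact ((hcθ.add hcζ).const_mul 2).measurable.pow_const _ |>.aestronglyMeasurable
    · filter_upwards [i1] with z hz
      have := g5 z
      rw [Real.norm_of_nonneg (by positivity)]
      apply Real.rpow_le_rpow_of_nonpos hz _ (by linarith)
      linarith

/-- The separable function. -/
theorem exists_sep {k a b : ℕ} {ε σ e : ℝ} (ha : 2 ≤ a) (hab : a + 2 ≤ b)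
    (hε : 0 < ε) (hσ : 0 < σ)
    (hq : ((a : ℝ) + 2) / b * ((b : ℝ) ^ (-(2 + ε))) ^ (-σ) < 1) (he : e < 1) (x₀ : Eu N) {ρ : ℝ}
    (hρ : 0 < ρ) :
    ∃ (μ μ' μ'' : Fin N → ℝ → ℝ) (M : ℝ), SepData μ μ' μ'' M ∧
      (∀ i y, μ i y ≤ 1 → (y - x₀ i) / ρ ∈ Icc (-1 : ℝ) 2) ∧
      (∀ i : Fin N, (i : ℕ) < k → ∀ c : ℕ → Fin a, μ i (x₀ i + ρ * dig b c) = 0) ∧
      (∀ i : Fin N, k ≤ (i : ℕ) → ∀ y, μ i y = 2 * ((y - x₀ i) / ρ) ^ 2 ∧
        μ' i y ^ 2 = 8 / ρ ^ 2 * μ i y) ∧
      (∀ i, ∀ᵐ y : ℝ, (y - x₀ i) / ρ ∈ Icc (-1 : ℝ) 2 → 0 < μ i y) ∧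
      ∀ i, Integrable ({y | (y - x₀ i) / ρ ∈ Icc (-1 : ℝ) 2}.indicator
        fun y => μ i y ^ (-(if (i : ℕ) < k then σ else e / 2))) volume := by
  obtain ⟨T, T', T'', M, h1, h2, h3, h4, h5, h6, h7, h8, h9⟩ := exists_T ha hab hε hσ hq
  set B : Fin N → ℝ → ℝ := fun i => if (i : ℕ) < k then T else fun z => 2 * z ^ 2 with hB
  set B' : Fin N → ℝ → ℝ := fun i => if (i : ℕ) < k then T' else fun z => 4 * z with hB'
  set B'' : Fin N → ℝ → ℝ := fun i => if (i : ℕ) < k then T'' else fun _ => 4 with hB''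
  set M' := max M 4 with hM'
  have hM'pos : 0 < M' := lt_of_lt_of_le (by norm_num) (le_max_right _ _)
  have b1 : ∀ i z, HasDerivAt (B i) (B' i z) z := by
    intro i z
    simp only [hB, hB']
    split_ifs with h
    · exact h1 z
    · have := (hasDerivAt_pow 2 z).const_mul 2
      refine this.congr_deriv ?_
      simp
      ring
  have b2 : ∀ i z, HasDerivAt (B' i) (B'' i z) z := by
    intro i z
    simp only [hB'', hB']
    split_ifs with h
    · exact h2 z
    · have := (hasDerivAt_id z).const_mul 4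
      refine this.congr_deriv ?_
      simp
  have b3 : ∀ i, Continuous (B'' i) := by
    intro i
    simp only [hB'']
    split_ifs with h
    · exact h3
    · exact continuous_const
  have b4 : ∀ i z, |B'' i z| ≤ M' := by
    intro i z
    simp only [hB'']
    split_ifs with h
    · exact (h4 z).trans (le_max_left _ _)
    · rw [abs_of_pos (by norm_num)]
      exact le_max_right _ _
  have b5 : ∀ i z, 0 ≤ B i z := by
    intro i z
    simp only [hB]
    split_ifs with h
    · exact h5 z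
    · positivity
  have b6 : ∀ i z, B i z ≤ 1 → z ∈ Icc (-1 : ℝ) 2 := by
    intro i z
    simp only [hB]
    split_ifs with h
    · exact h6 z
    · intro hz
      constructor <;> nlinarith
  have hJ : MeasurableSet (Icc (-1 : ℝ) 2) := measurableSet_Icc
  have b7 : ∀ i, ∀ᵐ z ∂(volume.restrict (Icc (-1 : ℝ) 2)), 0 < B i z := by
    intro i
    simp only [hB]
    split_ifs with h
    · exact h8
    · have : ∀ᵐ z : ℝ, z ≠ 0 := Measure.ae_ne volume 0
      filter_upwards [ae_restrict_of_ae this] with z hz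
      positivity
  have b8 : ∀ i, IntegrableOn (fun z => B i z ^ (-(if (i : ℕ) < k then σ else e / 2)))
      (Icc (-1 : ℝ) 2) volume := by
    intro i
    simp only [hB]
    split_ifs with h
    · exact h9
    · exact integrableOn_sq_rpow he
  refine ⟨fun i y => B i ((y - x₀ i) / ρ), fun i y => B' i ((y - x₀ i) / ρ) / ρ,
    fun i y => B'' i ((y - x₀ i) / ρ) / ρ ^ 2, M' / ρ ^ 2, ⟨by positivity, ?_, ?_, ?_, ?_, ?_⟩,
    ?_, ?_, ?_, ?_, ?_⟩
  · intro i y
    have e1 : HasDerivAt (fun y => (y - x₀ i) / ρ) (1 / ρ) y :=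
      ((hasDerivAt_id y).sub_const _).div_const ρ
    have e2 := (b1 i ((y - x₀ i) / ρ)).comp y e1
    refine e2.congr_deriv ?_
    ring
  · intro i y
    have e1 : HasDerivAt (fun y => (y - x₀ i) / ρ) (1 / ρ) y :=
      ((hasDerivAt_id y).sub_const _).div_const ρ
    have e2 := ((b2 i ((y - x₀ i) / ρ)).comp y e1).div_const ρ
    refine e2.congr_deriv ?_
    field_simp
  · intro i
    exact ((b3 i).comp ((continuous_id.sub continuous_const).div_const ρ)).div_const _
  · intro i y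
    exact b5 i _
  · intro i y
    rw [abs_div, abs_of_pos (by positivity : 0 < ρ ^ 2)]
    gcongr
    exact b4 i _
  · intro i y hy
    exact b6 i _ hy
  · intro i hi c
    have e1 : (x₀ i + ρ * dig b c - x₀ i) / ρ = dig b c := by
      field_simp
      ring
    simp only [hB, hi, if_true, e1]
    exact h7 c
  · intro i hi y
    have hi' : ¬ (i : ℕ) < k := not_lt.2 hi
    simp only [hB, hB', hi', if_false]
    refine ⟨trivial, ?_⟩
    field_simp
    ring
  · intro i
    exact ae_scaled hJ (b7 i) (x₀ i) ρ hρ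
  · intro i
    exact integrable_scaled hJ (b8 i) (x₀ i) ρ hρ

/-- The pointwise bound of the integrand. -/
theorem integrand_le {k : ℕ} (hkN : k < N) {σ e A B c : ℝ} (hσ : 0 < σ) (he : 0 ≤ e) (hA : 0 ≤ A)
    (hB : 0 ≤ B) (hc : 0 < c) (hAB : A + B = ((N : ℝ) - k) * (e / 2)) (m m' : Fin N → ℝ)
    (hm : ∀ i, 0 < m i) (hm' : ∀ i : Fin N, k ≤ (i : ℕ) → m' i ^ 2 = c * m i) :
    (∑ i, m i) ^ (-(k * σ + A)) * (∑ i, m' i ^ 2) ^ (-B) ≤
      c ^ (-B) * ∏ i : Fin N, m i ^ (-(if (i : ℕ) < k then σ else e / 2)) := by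
  set s := ∑ i, m i with hs
  set S2 := ∑ i : Fin N, if (i : ℕ) < k then 0 else m i with hS2
  have hle : ∀ i, m i ≤ s := fun i =>
    Finset.single_le_sum (f := m) (fun j _ => (hm j).le) (Finset.mem_univ i)
  have hS2i : ∀ i : Fin N, ¬ (i : ℕ) < k → m i ≤ S2 := by
    intro i hi
    have h1 := Finset.single_le_sum (f := fun i : Fin N => if (i : ℕ) < k then 0 else m i)
      (fun j _ => by
        split_ifs
        · exact le_rfl
        · exact (hm j).le) (Finset.mem_univ i)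
    beta_reduce at h1
    rwa [if_neg hi] at h1
  have hS2pos : 0 < S2 := lt_of_lt_of_le (hm ⟨k, hkN⟩) (hS2i ⟨k, hkN⟩ (by simp))
  have hS2s : S2 ≤ s := by
    apply Finset.sum_le_sum
    intro i _
    split_ifs
    · exact (hm i).le
    · exact le_rfl
  have hspos : 0 < s := lt_of_lt_of_le hS2pos hS2s
  have hQ : c * S2 ≤ ∑ i, m' i ^ 2 := by
    rw [hS2, Finset.mul_sum]
    apply Finset.sum_le_sum
    intro i _
    split_ifs with h
    · rw [mul_zero]; positivity
    · rw [hm' i (not_lt.1 h)]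
  have h1 : s ^ (-(k * σ + A)) ≤ s ^ (-(k * σ)) * S2 ^ (-A) := by
    rw [neg_add, Real.rpow_add hspos]
    exact mul_le_mul_of_nonneg_left (Real.rpow_le_rpow_of_nonpos hS2pos hS2s (neg_nonpos.2 hA))
      (Real.rpow_nonneg hspos.le _)
  have h2 : (∑ i, m' i ^ 2) ^ (-B) ≤ c ^ (-B) * S2 ^ (-B) := by
    rw [← Real.mul_rpow hc.le hS2pos.le]
    exact Real.rpow_le_rpow_of_nonpos (mul_pos hc hS2pos) hQ (neg_nonpos.2 hB)
  have h3 : s ^ (-(k * σ)) * S2 ^ (-(((N : ℝ) - k) * (e / 2))) ≤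
      ∏ i : Fin N, m i ^ (-(if (i : ℕ) < k then σ else e / 2)) := by
    have h4 : ∏ i : Fin N, (if (i : ℕ) < k then s ^ (-σ) else S2 ^ (-(e / 2))) =
        s ^ (-(k * σ)) * S2 ^ (-(((N : ℝ) - k) * (e / 2))) := by
      rw [Finset.prod_ite, Finset.prod_const, Finset.prod_const]
      have c1 : (Finset.univ.filter fun i : Fin N => (i : ℕ) < k).card = k := by
        rw [Fin.card_filter_val_lt]
        exact min_eq_right hkN.le
      have c2 : (Finset.univ.filter fun i : Fin N => ¬ (i : ℕ) < k).card = N - k := by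
        have := Finset.card_filter_add_card_filter_not (s := (Finset.univ : Finset (Fin N)))
          (fun i : Fin N => (i : ℕ) < k)
        rw [c1, Finset.card_univ, Fintype.card_fin] at this
        omega
      rw [c1, c2, ← Real.rpow_natCast, ← Real.rpow_natCast, ← Real.rpow_mul hspos.le,
        ← Real.rpow_mul hS2pos.le, Nat.cast_sub hkN.le]
      congr 2 <;> ring
    rw [← h4]
    apply Finset.prod_le_prod
    · intro i _
      split_ifs <;> positivity
    · intro i _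
      split_ifs with h
      · exact Real.rpow_le_rpow_of_nonpos (hm i) (hle i) (by linarith)
      · exact Real.rpow_le_rpow_of_nonpos (hm i) (hS2i i h) (by linarith)
  calc s ^ (-(k * σ + A)) * (∑ i, m' i ^ 2) ^ (-B)
      ≤ (s ^ (-(k * σ)) * S2 ^ (-A)) * (c ^ (-B) * S2 ^ (-B)) := by
        gcongr
    _ = c ^ (-B) * (s ^ (-(k * σ)) * S2 ^ (-(((N : ℝ) - k) * (e / 2)))) := by
        rw [← hAB, neg_add, Real.rpow_add hS2pos]
        ring
    _ ≤ _ := by gcongr

/-- The lower bound. -/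
theorem exists_large {Ω : Set (Eu N)} (hΩ : IsOpen Ω) (hne : Ω.Nonempty)
    (hb : Bornology.IsBounded Ω) {p D : ℝ} (hp1 : 1 < p) (hp2 : p < 2) (hD : 0 ≤ D)
    (hDN : D < (N : ℝ) - p * (p / (p - 1))) :
    ∃ u ∈ solutionSet Ω p, ENNReal.ofReal D ≤ dimH (singularSet Ω u) := by
  obtain ⟨k, a, b, ε, σ, β, hkN, hk1, ha, hab, hε, hσ, hβ, hβ1, hq, hDk, hA, hE⟩ :=
    exists_params hp1 hp2 hD hDN
  obtain ⟨x₀, hx₀⟩ := hne
  obtain ⟨R, hR, hRΩ⟩ := Metric.isOpen_iff.1 hΩ x₀ hx₀
  have hNk : (0 : ℝ) < (N : ℝ) - k := by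
    have : (k : ℝ) < N := by exact_mod_cast hkN
    linarith
  have hN0 : (1 : ℝ) ≤ N := by
    have : 1 ≤ N := by omega
    exact_mod_cast this
  set q := p / (p - 1) with hqdef
  have hqp : p ≤ q := by
    rw [hqdef, le_div_iff₀ (by linarith)]
    nlinarith
  set A := (β + 1) * p - k * σ with hAdef
  set B := (q - p) / 2 with hBdef
  have hB : 0 ≤ B := by rw [hBdef]; linarith
  set e := (2 * A + (q - p)) / ((N : ℝ) - k) with he
  have he0 : 0 ≤ e := div_nonneg (by linarith) hNk.le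
  have he1 : e < 1 := by
    rw [he, div_lt_one hNk]
    exact hE
  have hAB : A + B = ((N : ℝ) - k) * (e / 2) := by
    rw [he, hBdef]
    field_simp
  set ρ := R / (2 * (N + 1)) with hρdef
  have hρ : 0 < ρ := by positivity
  obtain ⟨μ, μ', μ'', M, S, m1, m2, m3, m4, m5⟩ :=
    exists_sep (N := N) (k := k) (e := e) ha hab hε hσ hq he1 x₀ hρ
  obtain ⟨ψ, ψ', α, α', C, P⟩ := exists_profile hp1 hp2 hβ hβ1
  have hMpos := S.M_pos
  -- the compact set
  have hKR : 2 * N * ρ < R := by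
    rw [hρdef]
    have : 2 * (N : ℝ) * (R / (2 * (N + 1))) = R * (N / (N + 1)) := by
      field_simp
    rw [this]
    have h2 : (N : ℝ) / (N + 1) < 1 := by
      rw [div_lt_one (by positivity)]
      linarith
    nlinarith
  have hKΩ : Metric.closedBall x₀ (2 * N * ρ) ⊆ Ω :=
    (Metric.closedBall_subset_ball hKR).trans hRΩ
  have hbox : ∀ x : Eu N, sS μ x ≤ 1 → ∀ i, (x i - x₀ i) / ρ ∈ Icc (-1 : ℝ) 2 := by
    intro x hx i
    apply m1
    refine le_trans ?_ hx
    exact Finset.single_le_sum (f := fun i => μ i (x i)) (fun j _ => S.nonneg j _)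
      (Finset.mem_univ i)
  have hKs : ∀ x : Eu N, sS μ x ≤ 1 → x ∈ Metric.closedBall x₀ (2 * N * ρ) := by
    intro x hx
    have h1 := hbox x hx
    rw [mem_closedBall_iff_norm]
    apply abs_le_of_sq_le_sq' _ (by positivity) |>.2
    rw [EuclideanSpace.norm_sq_eq]
    calc ∑ i, ‖(x - x₀) i‖ ^ 2 ≤ ∑ _i : Fin N, (2 * ρ) ^ 2 := by
          apply Finset.sum_le_sum
          intro i _
          have h2 := h1 i
          rw [mem_Icc, le_div_iff₀ hρ, div_le_iff₀ hρ] at h2
          rw [Real.norm_eq_abs]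
          apply pow_le_pow_left₀ (abs_nonneg _)
          rw [abs_le]
          have e1 : (x - x₀) i = x i - x₀ i := rfl
          rw [e1]
          constructor <;> linarith
      _ = N * (2 * ρ) ^ 2 := by simp
      _ ≤ (2 * N * ρ) ^ 2 := by
          have : (0 : ℝ) < ρ ^ 2 := by positivity
          nlinarith
  -- positivity
  have hposall : ∀ᵐ x : Eu N, ∀ i, (x i - x₀ i) / ρ ∈ Icc (-1 : ℝ) 2 → 0 < μ i (x i) :=
    ae_coord m4
  have hneall : ∀ᵐ x : Eu N, ∀ i, x i ≠ x₀ i := ae_coord fun i => Measure.ae_ne volume (x₀ i)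
  have hpos : ∀ᵐ x : Eu N, 0 < sS μ x ∧ 0 < sQ μ' x := by
    filter_upwards [hneall] with x hx
    set i0 : Fin N := ⟨k, hkN⟩ with hi0
    obtain ⟨e1, e2⟩ := m3 i0 le_rfl (x i0)
    have hz : (x i0 - x₀ i0) / ρ ≠ 0 := div_ne_zero (sub_ne_zero.2 (hx i0)) hρ.ne'
    have e3 : 0 < μ i0 (x i0) := by rw [e1]; positivity
    constructor
    · exact lt_of_lt_of_le e3 (Finset.single_le_sum (f := fun i => μ i (x i))
        (fun j _ => S.nonneg j _) (Finset.mem_univ i0))
    · refine lt_of_lt_of_le ?_ (Finset.single_le_sum (f := fun i => μ' i (x i) ^ 2)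
        (fun j _ => sq_nonneg _) (Finset.mem_univ i0))
      beta_reduce
      rw [e2]
      positivity
  -- integrability
  have hint : IntegrableOn (fun x : Eu N => sS μ x ^ (-((β + 1) * p)) *
      sQ μ' x ^ (-((p / (p - 1) - p) / 2))) {x | sS μ x < 1} volume := by
    have h1 := (integrable_prod m5).const_mul ((8 / ρ ^ 2) ^ (-B))
    refine Integrable.mono' h1.integrableOn ?_ ?_
    · exact ((S.continuous_sS.measurable.pow_const _).mul
        (S.continuous_sQ.measurable.pow_const _)).aestronglyMeasurable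
    · have hU : MeasurableSet {x : Eu N | sS μ x < 1} :=
        measurableSet_lt S.continuous_sS.measurable measurable_const
      rw [ae_restrict_iff' hU]
      filter_upwards [hposall] with x hx hxU
      have hxU' : sS μ x ≤ 1 := le_of_lt hxU
      have hbx := hbox x hxU'
      have e0 := S.sS_nonneg x
      have e1 := sQ_nonneg μ' x
      rw [Real.norm_of_nonneg (by positivity)]
      have e2 : ∏ i, ({y | (y - x₀ i) / ρ ∈ Icc (-1 : ℝ) 2}.indicator
        fun y => μ i y ^ (-(if (i : ℕ) < k then σ else e / 2))) (x i) =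
        ∏ i : Fin N, μ i (x i) ^ (-(if (i : ℕ) < k then σ else e / 2)) := by
        apply Finset.prod_congr rfl
        intro i _
        have hmem : x i ∈ {y : ℝ | (y - x₀ i) / ρ ∈ Icc (-1 : ℝ) 2} := hbx i
        rw [indicator_of_mem hmem]
      rw [e2]
      have e3 := integrand_le hkN hσ he0 hA hB (by positivity : 0 < 8 / ρ ^ 2) hAB
        (fun i => μ i (x i)) (fun i => μ' i (x i)) (fun i => hx i (hbx i))
        (fun i hi => (m3 i hi (x i)).2)
      have e4 : k * σ + A = (β + 1) * p := by rw [hAdef]; ring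
      rw [e4] at e3
      exact e3
  have hu := mem_solutionSet hΩ hb hp1 hp2 hβ P S (isCompact_closedBall x₀ (2 * N * ρ)) hKΩ hKs
    hpos hint
  refine ⟨_, hu, ?_⟩
  -- the singular set
  have hdim := le_dimH_cantor (N := N) (k := k) (a := a) (b := b) hkN.le ha (by omega) x₀ hρ
  refine (ENNReal.ofReal_le_ofReal hDk).trans (hdim.trans (dimH_mono ?_))
  rintro z ⟨hz1, hz2⟩
  -- all the functions vanish at `z`
  have hv : ∀ i, μ i (z i) = 0 := by
    intro i
    rcases lt_or_ge (i : ℕ) k with h | h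
    · obtain ⟨c, hc⟩ := hz1 i h
      rw [hc]
      exact m2 i h c
    · rw [(m3 i h (z i)).1, hz2 i h]
      simp
  have hv' : ∀ i, μ' i (z i) = 0 := by
    intro i
    have h1 := sq_deriv_le hMpos (S.h1 i) (S.h2 i) (S.nonneg i) (S.bd i) (z i)
    rw [hv i, mul_zero] at h1
    exact pow_eq_zero_iff (two_ne_zero) |>.1 (le_antisymm h1 (sq_nonneg _))
  have hsz : sS μ z = 0 := Finset.sum_eq_zero fun i _ => hv i
  have hzΩ : z ∈ Ω := hKΩ (hKs z (by rw [hsz]; exact zero_le_one))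
  have hsle : ∀ x : Eu N, sS μ x ≤ M * ‖x - z‖ ^ 2 := by
    intro x
    rw [EuclideanSpace.norm_sq_eq, Finset.mul_sum]
    apply Finset.sum_le_sum
    intro i _
    have h1 := le_sq_of_vanish (S.h1 i) (S.h2 i) (S.bd i) (hv i) (hv' i) (x i)
    have e1 : (x - z) i = x i - z i := rfl
    rw [Real.norm_eq_abs, sq_abs, e1]
    exact h1
  obtain ⟨r₁, hr₁, hr₁Ω⟩ := Metric.isOpen_iff.1 hΩ z hzΩ
  set r := min r₁ (1 / (2 * (M + 1))) with hr
  have hr0 : 0 < r := lt_min hr₁ (by positivity)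
  have hC := P.C_pos
  refine ⟨hzΩ, C⁻¹ * M ^ (-β), 2 * β, r, by positivity, by positivity, hr0,
    (Metric.ball_subset_ball (min_le_left _ _)).trans hr₁Ω, ?_⟩
  rw [ae_restrict_iff' measurableSet_ball]
  filter_upwards [hpos] with x hx hxr
  rw [mem_ball_iff_norm] at hxr
  have h1 : ‖x - z‖ < 1 / (2 * (M + 1)) := lt_of_lt_of_le hxr (min_le_right _ _)
  have h2 : sS μ x ≤ 1 / 2 := by
    refine (hsle x).trans ?_
    have h3 : ‖x - z‖ ^ 2 ≤ (1 / (2 * (M + 1))) * 1 := by
      rw [sq]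
      have h4 : 1 / (2 * (M + 1)) ≤ 1 := by
        rw [div_le_one (by positivity)]
        linarith
      gcongr
      linarith
    calc M * ‖x - z‖ ^ 2 ≤ M * ((1 / (2 * (M + 1))) * 1) := by gcongr
      _ ≤ 1 / 2 := by
          rw [mul_one, mul_one_div, div_le_div_iff₀ (by positivity) (by norm_num)]
          linarith
  have h3 := P.le_ψ (sS μ x) hx.1 h2
  refine le_trans ?_ h3
  rw [mul_assoc]
  have h4 : (M * ‖x - z‖ ^ 2) ^ (-β) ≤ sS μ x ^ (-β) :=
    Real.rpow_le_rpow_of_nonpos hx.1 (hsle x) (by linarith)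
  rw [Real.mul_rpow hMpos.le (sq_nonneg _), ← Real.rpow_natCast, ← Real.rpow_mul (norm_nonneg _)]
    at h4
  have h5 : ((2 : ℕ) : ℝ) * -β = -(2 * β) := by push_cast; ring
  rw [h5] at h4
  gcongr

end Pool.Agent.Lib.MP_ae319b_an
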