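import Mathlib

/-!
# MP_ae319b_an : dominated convergence in `L^p`
-/

namespace Pool.Agent.Lib.MP_ae319b_an

open MeasureTheory Filter Topology Set
open scoped ENNReal NNReal

theorem tendsto_eLpNorm_zero_of_dominated {α E : Type*} {m : MeasurableSpace α} {ν : Measure α}
    [NormedAddCommGroup E] {p : ℝ} (hp : 0 < p) {f : ℕ → α → E} {h : α → ℝ}
    (hf : ∀ n, AEStronglyMeasurable (f n) ν) (hh : MemLp h (ENNReal.ofReal p) ν)
    (hb : ∀ n, ∀ᵐ x ∂ν, ‖f n x‖ ≤ h x) (hlim : ∀ᵐ x ∂ν, Tendsto (fun n => f n x) atTop (𝓝 0)) :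
    Tendsto (fun n => eLpNorm (f n) (ENNReal.ofReal p) ν) atTop (𝓝 0) := by
  have h0 : ENNReal.ofReal p ≠ 0 := by simpa using hp
  have hform : ∀ g : α → E, eLpNorm g (ENNReal.ofReal p) ν = (∫⁻ x, ‖g x‖ₑ ^ p ∂ν) ^ (1 / p) := by
    intro g
    rw [eLpNorm_eq_lintegral_rpow_enorm_toReal h0 ENNReal.ofReal_ne_top, ENNReal.toReal_ofReal hp.le]
  simp_rw [hform]
  have hfin : ∫⁻ x, ‖h x‖ₑ ^ p ∂ν ≠ (⊤ : ℝ≥0∞) := by
    have := hh.2
    rw [eLpNorm_lt_top_iff_lintegral_rpow_enorm_lt_top h0 ENNReal.ofReal_ne_top,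
      ENNReal.toReal_ofReal hp.le] at this
    exact this.ne
  have h1 : Tendsto (fun n => ∫⁻ x, ‖f n x‖ₑ ^ p ∂ν) atTop (𝓝 (∫⁻ _, (0 : ℝ≥0∞) ∂ν)) := by
    apply tendsto_lintegral_of_dominated_convergence' (fun x => ‖h x‖ₑ ^ p)
    · intro n
      exact ((hf n).enorm).pow_const p
    · intro n
      filter_upwards [hb n] with x hx
      apply ENNReal.rpow_le_rpow _ hp.le
      rw [enorm_le_iff_norm_le]
      exact hx.trans (le_abs_self _)
    · exact hfin
    · filter_upwards [hlim] with x hx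
      have h2 : Tendsto (fun n => ‖f n x‖ₑ) atTop (𝓝 0) := by
        have := (continuous_enorm.tendsto (0 : E)).comp hx
        simpa [Function.comp_def] using this
      have h3 := (ENNReal.continuous_rpow_const (y := p)).tendsto 0 |>.comp h2
      rw [ENNReal.zero_rpow_of_pos hp] at h3
      exact h3
  rw [lintegral_zero] at h1
  have h4 := (ENNReal.continuous_rpow_const (y := 1 / p)).tendsto 0 |>.comp h1
  rw [ENNReal.zero_rpow_of_pos (by positivity)] at h4
  exact h4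

end Pool.Agent.Lib.MP_ae319b_an
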