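import Pool.Agent.Lib.MP_ae319b_an.Defs

/-!
# MP_ae319b_an : approximation of `C¹` functions with compact support by test functions
-/

namespace Pool.Agent.Lib.MP_ae319b_an

open MeasureTheory Filter Topology Set
open scoped ENNReal NNReal RealInnerProductSpace ContDiff Convolution Pointwise

variable {N : ℕ}

theorem norm_gradient_sub (f g : Eu N → ℝ) (x y : Eu N) :
    ‖gradient f x - gradient g y‖ = ‖fderiv ℝ f x - fderiv ℝ g y‖ := by
  unfold gradient
  rw [← map_sub, LinearIsometryEquiv.norm_map]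

theorem norm_gradient (f : Eu N → ℝ) (x : Eu N) : ‖gradient f x‖ = ‖fderiv ℝ f x‖ := by
  unfold gradient
  rw [LinearIsometryEquiv.norm_map]

theorem mollify {Ω : Set (Eu N)} (hΩ : IsOpen Ω) {v : Eu N → ℝ} (hv : ContDiff ℝ 1 v)
    (hc : HasCompactSupport v) (hsub : tsupport v ⊆ Ω) {δ : ℝ} (hδ : 0 < δ) :
    ∃ φ : Eu N → ℝ, IsTest Ω φ ∧ (∀ x, ‖φ x - v x‖ ≤ δ) ∧
      ∀ x, ‖gradient φ x - gradient v x‖ ≤ δ := by
  obtain ⟨ε₀, hε₀, hthick⟩ := hc.isCompact.exists_cthickening_subset_open hΩ hsub
  have hcont := hv.continuous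
  have hfd : Continuous (fderiv ℝ v) := hv.continuous_fderiv one_ne_zero
  have huc1 : UniformContinuous v := hc.uniformContinuous_of_continuous hcont
  have huc2 : UniformContinuous (fderiv ℝ v) :=
    (hc.fderiv ℝ).uniformContinuous_of_continuous hfd
  obtain ⟨ε₁, hε₁, h1⟩ := Metric.uniformContinuous_iff.1 huc1 δ hδ
  obtain ⟨ε₂, hε₂, h2⟩ := Metric.uniformContinuous_iff.1 huc2 δ hδ
  set r := min ε₀ (min ε₁ ε₂) with hr
  have hr0 : 0 < r := lt_min hε₀ (lt_min hε₁ hε₂)
  let ρ : ContDiffBump (0 : Eu N) := ⟨r / 2, r, by linarith, by linarith⟩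
  have hρout : ρ.rOut = r := rfl
  let φ : Eu N → ℝ := (ρ.normed volume ⋆[ContinuousLinearMap.lsmul ℝ ℝ, volume] v)
  have hloc : LocallyIntegrable v volume := hcont.locallyIntegrable
  have hlocρ : LocallyIntegrable (ρ.normed volume) (volume : Measure (Eu N)) :=
    ρ.continuous_normed.locallyIntegrable
  have hsmooth : ContDiff ℝ ∞ φ :=
    HasCompactSupport.contDiff_convolution_left _ ρ.hasCompactSupport_normed
      ρ.contDiff_normed hloc
  have hcomp : HasCompactSupport φ :=
    HasCompactSupport.convolution _ ρ.hasCompactSupport_normed hc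
  have hder : ∀ x, HasFDerivAt φ
      ((ρ.normed volume ⋆[(ContinuousLinearMap.lsmul ℝ ℝ).precompR (Eu N), volume]
        fderiv ℝ v) x) x := fun x =>
    HasCompactSupport.hasFDerivAt_convolution_right _ hc hlocρ hv x
  have hder' : ∀ x, fderiv ℝ φ x =
      (ρ.normed volume ⋆[ContinuousLinearMap.lsmul ℝ ℝ, volume] fderiv ℝ v) x := by
    intro x
    rw [(hder x).fderiv]
    rfl
  refine ⟨φ, ⟨hsmooth, hcomp, ?_⟩, ?_, ?_⟩
  · refine subset_trans ?_ hthick
    apply closure_minimal _ Metric.isClosed_cthickening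
    intro x hx
    have h3 := support_convolution_subset (L := ContinuousLinearMap.lsmul ℝ ℝ)
      (μ := (volume : Measure (Eu N))) (f := ρ.normed volume) (g := v) hx
    obtain ⟨b, hb, a, ha, hab⟩ := h3
    simp only at hab
    have hb' : b ∈ Metric.ball (0 : Eu N) r := by
      have := ρ.support_normed_eq (μ := (volume : Measure (Eu N)))
      rw [this] at hb
      exact hb
    rw [← hab]
    apply Metric.mem_cthickening_of_dist_le (b + a) a ε₀ _ (subset_tsupport _ ha)
    rw [dist_eq_norm, add_sub_cancel_right]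
    rw [mem_ball_zero_iff] at hb'
    exact hb'.le.trans (min_le_left _ _)
  · intro x
    rw [← dist_eq_norm]
    refine ContDiffBump.dist_normed_convolution_le hcont.aestronglyMeasurable ?_
    intro y hy
    exact (h1 (lt_of_lt_of_le hy ((min_le_right _ _).trans (min_le_left _ _)))).le
  · intro x
    rw [norm_gradient_sub, hder' x, ← dist_eq_norm]
    refine ContDiffBump.dist_normed_convolution_le hfd.aestronglyMeasurable ?_
    intro y hy
    exact (h2 (lt_of_lt_of_le hy ((min_le_right _ _).trans (min_le_right _ _)))).le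

end Pool.Agent.Lib.MP_ae319b_an
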