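import Pool.Agent.Lib.MP_ae319b_an.Iterate

/-!
# MP_ae319b_an : points where `F` decays are not singular
-/

namespace Pool.Agent.Lib.MP_ae319b_an

open MeasureTheory Filter Topology Set Module
open scoped ENNReal NNReal RealInnerProductSpace ContDiff

variable {N : ℕ}

/-- the sequence `d_{j+1} = d_j / 2 + E q^j` -/
noncomputable def dseq (d0 E q : ℝ) : ℕ → ℝ
  | 0 => d0
  | n + 1 => dseq d0 E q n / 2 + E * q ^ n

theorem dseq_pos {d0 E q : ℝ} (hd : 0 < d0) (hE : 0 ≤ E) (hq : 0 ≤ q) (n : ℕ) :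
    0 < dseq d0 E q n := by
  induction n with
  | zero => exact hd
  | succ n ih =>
    unfold dseq
    positivity

theorem sum_dseq_le {d0 E q : ℝ} (hd : 0 < d0) (hE : 0 ≤ E) (hq : 0 ≤ q) (hq1 : q < 1) (n : ℕ) :
    ∑ i ∈ Finset.range n, dseq d0 E q i ≤ 2 * (d0 + E / (1 - q)) := by
  have h1q : 0 < 1 - q := by linarith
  induction n with
  | zero =>
    rw [Finset.range_zero, Finset.sum_empty]
    positivity
  | succ n ih =>
    rw [Finset.sum_range_succ']
    have h1 : ∑ k ∈ Finset.range n, dseq d0 E q (k + 1) =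
        (∑ k ∈ Finset.range n, dseq d0 E q k) / 2 + E * ∑ k ∈ Finset.range n, q ^ k := by
      rw [Finset.sum_div, Finset.mul_sum, ← Finset.sum_add_distrib]
      rfl
    have h2 : ∑ k ∈ Finset.range n, q ^ k ≤ 1 / (1 - q) := by
      rw [geom_sum_eq hq1.ne, one_div]
      have h3 : (q ^ n - 1) / (q - 1) = (1 - q ^ n) * (1 - q)⁻¹ := by
        rw [← neg_div_neg_eq, neg_sub, neg_sub]
        rfl
      rw [h3]
      have h4 : 0 ≤ q ^ n := by positivity
      have h5 : 0 < (1 - q)⁻¹ := by positivity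
      nlinarith
    have h3 : dseq d0 E q 0 = d0 := rfl
    rw [h1, h3]
    have h4 : E * ∑ k ∈ Finset.range n, q ^ k ≤ E * (1 / (1 - q)) := by gcongr
    have h5 : E * (1 / (1 - q)) = E / (1 - q) := by ring
    linarith

theorem not_mem_singularSet {p : ℝ} (hp1 : 1 < p) (hp2 : p < 2) (hN : 2 ≤ N) {Ω : Set (Eu N)}
    {u : Eu N → ℝ} {G : Eu N → Eu N} {F : Eu N → ℝ} {φ : ℕ → Eu N → ℝ} (D : Data Ω p u G F φ)
    {a : Eu N} {r0 δ C : ℝ} (hr0 : 0 < r0) (hδ : 0 < δ) (hC : 0 ≤ C) (hball : Metric.ball a r0 ⊆ Ω)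
    (hF : ∀ j : ℕ, ∫⁻ x in Metric.ball a (r0 / 2 ^ j), ‖F x‖ₑ ≤
      ENNReal.ofReal (C * (r0 / 2 ^ j) ^ ((N : ℝ) - p + δ))) :
    a ∉ singularSet Ω u := by
  have hp0 : 0 < p := by linarith
  have hγ := gam_pos hp1 hp2 hN
  have hγp := gam_le hp1 hp2 hN
  obtain ⟨κ0, hκ0, hstep⟩ := one_step hp1 hp2 hN
  set γ := gam N p with hγdef
  -- the volume of balls
  set vb := (volume (Metric.ball (0 : Eu N) 1)).toReal with hvb
  have hvbfin : volume (Metric.ball (0 : Eu N) 1) ≠ (⊤ : ℝ≥0∞) := measure_ball_lt_top.ne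
  have hvbpos : 0 < vb := ENNReal.toReal_pos (Metric.measure_ball_pos _ _ one_pos).ne' hvbfin
  have hvol : ∀ r : ℝ, 0 < r → volume (Metric.ball a r) = ENNReal.ofReal (vb * r ^ N) := by
    intro r hr
    rw [Measure.addHaar_ball_of_pos _ _ hr, finrank_euclideanSpace_fin, hvb, mul_comm vb,
      ENNReal.ofReal_mul (by positivity), ENNReal.ofReal_toReal hvbfin]
  set κ := min κ0 (vb / 2) with hκdef
  have hκ : 0 < κ := lt_min hκ0 (by positivity)
  have hκvb : κ < vb := lt_of_le_of_lt (min_le_right _ _) (by linarith)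
  -- the initial scale
  set I := ∫⁻ x in Metric.ball a r0, ENNReal.ofReal (u x) ^ γ with hI
  have hIfin : I ≠ (⊤ : ℝ≥0∞) := by
    have h1 : I ≤ ∫⁻ x in Metric.ball a r0, (1 + ‖u x‖ₑ ^ p) := by
      apply lintegral_mono
      intro x
      beta_reduce
      have h2 : ENNReal.ofReal (u x) ≤ ‖u x‖ₑ := by
        rw [Real.enorm_eq_ofReal_abs]
        exact ENNReal.ofReal_le_ofReal (le_abs_self _)
      rcases le_total ‖u x‖ₑ 1 with h3 | h3
      · calc ENNReal.ofReal (u x) ^ γ ≤ ‖u x‖ₑ ^ γ := ENNReal.rpow_le_rpow h2 hγ.le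
          _ ≤ 1 := ENNReal.rpow_le_one h3 hγ.le
          _ ≤ _ := le_self_add
      · calc ENNReal.ofReal (u x) ^ γ ≤ ‖u x‖ₑ ^ γ := ENNReal.rpow_le_rpow h2 hγ.le
          _ ≤ ‖u x‖ₑ ^ p := ENNReal.rpow_le_rpow_of_exponent_le h3 hγp
          _ ≤ _ := le_add_self
    refine (lt_of_le_of_lt h1 ?_).ne
    rw [lintegral_add_left' aemeasurable_const]
    apply ENNReal.add_lt_top.2
    constructor
    · rw [lintegral_const, one_mul, Measure.restrict_apply_univ]
      exact measure_ball_lt_top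
    · have h2 := D.hu.2
      rw [eLpNorm_lt_top_iff_lintegral_rpow_enorm_lt_top (by simpa using hp0)
        ENNReal.ofReal_ne_top, ENNReal.toReal_ofReal hp0.le] at h2
      exact lt_of_le_of_lt (setLIntegral_le_lintegral _ _) h2
  set d0 := (I.toReal / (κ * r0 ^ N)) ^ (1 / γ) + 1 with hd0
  have hd0pos : 0 < d0 := by positivity
  have hinit : MM γ u 0 d0 a r0 ≤ ENNReal.ofReal (κ * r0 ^ N) := by
    have h1 : MM γ u 0 d0 a r0 = ENNReal.ofReal (d0 ^ (-γ)) * I := by
      unfold MM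
      rw [hI, ← lintegral_const_mul' _ _ ENNReal.ofReal_ne_top]
      congr 1
      funext x
      rw [sub_zero, div_eq_inv_mul, ENNReal.ofReal_mul (by positivity),
        ENNReal.mul_rpow_of_nonneg _ _ hγ.le, ENNReal.ofReal_rpow_of_nonneg (by positivity) hγ.le,
        Real.inv_rpow hd0pos.le, Real.rpow_neg hd0pos.le]
    rw [h1, ← ENNReal.ofReal_toReal hIfin, ← ENNReal.ofReal_mul (by positivity)]
    apply ENNReal.ofReal_le_ofReal
    rw [Real.rpow_neg hd0pos.le, inv_mul_le_iff₀ (by positivity)]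
    have h2 : I.toReal / (κ * r0 ^ N) ≤ d0 ^ γ := by
      have h3 : ((I.toReal / (κ * r0 ^ N)) ^ (1 / γ)) ^ γ ≤ d0 ^ γ :=
        Real.rpow_le_rpow (by positivity) (by rw [hd0]; linarith) hγ.le
      rwa [← Real.rpow_mul (by positivity), one_div_mul_cancel hγ.ne', Real.rpow_one] at h3
    rwa [div_le_iff₀ (by positivity)] at h2
  -- the sequences
  set E := (C / κ * r0 ^ δ) ^ (1 / (p - 1)) with hE
  have hE0 : 0 ≤ E := by positivity
  set q := (2 : ℝ) ^ (-(δ / (p - 1))) with hq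
  have hq0 : 0 ≤ q := by positivity
  have hδp : 0 < δ / (p - 1) := div_pos hδ (by linarith)
  have hq1 : q < 1 := Real.rpow_lt_one_of_one_lt_of_neg (by norm_num) (by linarith)
  have hdpos := dseq_pos hd0pos hE0 hq0
  -- the key inequality
  have hkey : ∀ j : ℕ, C * (r0 / 2 ^ j) ^ ((N : ℝ) - p + δ) ≤
      κ * dseq d0 E q (j + 1) ^ (p - 1) * (r0 / 2 ^ j) ^ ((N : ℝ) - p) := by
    intro j
    set r := r0 / 2 ^ j with hr
    have hrpos : 0 < r := by positivity
    have h1 : E * q ^ j ≤ dseq d0 E q (j + 1) := by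
      have := (hdpos j).le
      change E * q ^ j ≤ dseq d0 E q j / 2 + E * q ^ j
      linarith
    have h2 : (E * q ^ j) ^ (p - 1) ≤ dseq d0 E q (j + 1) ^ (p - 1) :=
      Real.rpow_le_rpow (by positivity) h1 (by linarith)
    have hp1' : p - 1 ≠ 0 := by linarith
    have h3 : (E * q ^ j) ^ (p - 1) = C / κ * r ^ δ := by
      have e1 : (q ^ j) ^ (p - 1) = (2 : ℝ) ^ (-((j : ℝ) * δ)) := by
        rw [hq, ← Real.rpow_natCast, ← Real.rpow_mul (by positivity),
          ← Real.rpow_mul (by positivity)]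
        congr 1
        field_simp
      have e2 : r ^ δ = r0 ^ δ * (2 : ℝ) ^ (-((j : ℝ) * δ)) := by
        rw [hr, Real.div_rpow hr0.le (by positivity), ← Real.rpow_natCast,
          ← Real.rpow_mul (by norm_num), Real.rpow_neg (by norm_num)]
        rfl
      rw [Real.mul_rpow hE0 (by positivity), e1, e2, hE, ← Real.rpow_mul (by positivity),
        one_div_mul_cancel hp1', Real.rpow_one]
      ring
    have h5 : C * r ^ ((N : ℝ) - p + δ) = κ * (C / κ * r ^ δ) * r ^ ((N : ℝ) - p) := by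
      rw [Real.rpow_add hrpos]
      field_simp
    rw [h5, ← h3]
    gcongr
  -- the iteration
  have hiter : ∀ j : ℕ, MM γ u (∑ i ∈ Finset.range j, dseq d0 E q i) (dseq d0 E q j) a
      (r0 / 2 ^ j) ≤ ENNReal.ofReal (κ * (r0 / 2 ^ j) ^ N) := by
    intro j
    induction j with
    | zero =>
      simp only [Finset.range_zero, Finset.sum_empty, pow_zero, div_one]
      exact hinit
    | succ j ih =>
      rw [Finset.sum_range_succ]
      have h1 : r0 / 2 ^ (j + 1) = r0 / 2 ^ j / 2 := by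
        rw [pow_succ]
        field_simp
      rw [h1]
      apply hstep κ hκ (min_le_left _ _) D a _ _ _ _ (by positivity) (hdpos j)
      · change dseq d0 E q j / 2 ≤ dseq d0 E q j / 2 + E * q ^ j
        have : 0 ≤ E * q ^ j := by positivity
        linarith
      · refine (Metric.ball_subset_ball ?_).trans hball
        exact div_le_self hr0.le (one_le_pow₀ (by norm_num))
      · exact ih
      · exact (hF j).trans (ENNReal.ofReal_le_ofReal (hkey j))
  -- the contradiction
  rintro ⟨-, C', γ', ρ, hC', hγ', hρ, -, hae⟩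
  set L := 2 * (d0 + E / (1 - q)) with hL
  have hlim : Tendsto (fun j : ℕ => r0 / 2 ^ j) atTop (𝓝 0) := by
    have := (tendsto_pow_atTop_nhds_zero_of_lt_one (r := (1 / 2 : ℝ)) (by norm_num)
      (by norm_num)).const_mul r0
    rw [mul_zero] at this
    refine this.congr fun j => ?_
    rw [one_div, inv_pow]
    rfl
  have hlimpos : Tendsto (fun j : ℕ => r0 / 2 ^ j) atTop (𝓝[>] 0) :=
    tendsto_nhdsWithin_iff.2 ⟨hlim, Eventually.of_forall fun j => by
      rw [mem_Ioi]; positivity⟩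
  have hlim2 : Tendsto (fun j : ℕ => C' * (r0 / 2 ^ j) ^ (-γ')) atTop atTop := by
    apply Tendsto.const_mul_atTop hC'
    exact (tendsto_rpow_neg_nhdsGT_zero (by linarith : -γ' < 0)).comp hlimpos
  obtain ⟨j, hj1, hj2⟩ := ((hlim2.eventually_ge_atTop L).and (hlim.eventually (gt_mem_nhds hρ))).exists
  set r := r0 / 2 ^ j with hr
  have hrpos : 0 < r := by positivity
  set l := ∑ i ∈ Finset.range j, dseq d0 E q i with hl
  set d := dseq d0 E q j with hd
  have hld : l + d ≤ L := by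
    have := sum_dseq_le hd0pos hE0 hq0 hq1 (j + 1)
    rwa [Finset.sum_range_succ] at this
  have h1 := hiter j
  rw [← hl, ← hd, ← hr] at h1
  have h2 : volume (Metric.ball a r) ≤ MM γ u l d a r := by
    unfold MM
    rw [← setLIntegral_one]
    apply lintegral_mono_ae
    have h3 : ∀ᵐ x ∂(volume.restrict (Metric.ball a r)), C' * ‖x - a‖ ^ (-γ') ≤ u x :=
      ae_mono (Measure.restrict_mono (Metric.ball_subset_ball hj2.le) le_rfl) hae
    have h4 : ∀ᵐ x ∂(volume.restrict (Metric.ball a r)), x ∈ Metric.ball a r :=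
      ae_restrict_mem measurableSet_ball
    have h5 : ∀ᵐ x ∂(volume.restrict (Metric.ball a r)), x ≠ a := by
      apply ae_restrict_of_ae
      have : Nontrivial (Eu N) := by
        have : Nonempty (Fin N) := ⟨⟨0, by omega⟩⟩
        infer_instance
      exact Measure.ae_ne volume a
    filter_upwards [h3, h4, h5] with x hx1 hx2 hx3
    have h6 : 0 < ‖x - a‖ := norm_pos_iff.2 (sub_ne_zero.2 hx3)
    rw [mem_ball_iff_norm] at hx2
    have h7 : r ^ (-γ') ≤ ‖x - a‖ ^ (-γ') :=
      Real.rpow_le_rpow_of_nonpos h6 hx2.le (by linarith)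
    have h8 : l + d ≤ u x := by
      calc l + d ≤ L := hld
        _ ≤ C' * r ^ (-γ') := hj1
        _ ≤ C' * ‖x - a‖ ^ (-γ') := by gcongr
        _ ≤ u x := hx1
    apply ENNReal.one_le_rpow _ hγ
    rw [ENNReal.one_le_ofReal, one_le_div (hdpos j)]
    linarith
  have h3 := h2.trans h1
  rw [hvol r hrpos, ENNReal.ofReal_le_ofReal_iff (by positivity)] at h3
  have h4 : 0 < r ^ N := by positivity
  nlinarith

end Pool.Agent.Lib.MP_ae319b_an
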