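import Mathlib

/-!
# MP_ae319b_an : the profile `ψ`

Proof of `exists_profile`.  Let `m = 1 + 2 / (p - 1)` (so `m ≥ 3` and `(m - 1) (p - 1) = 2`),
`c(t) = max (1 - t) 0`, and
`ψ(t) = t^(-β) * c(t)^m`,
`ψ'(t) = - t^(-(β+1)) * c(t)^(m-1) * (β + (m - β) t)`,
`α(t) = t^(-(β+1)(p-1)) * c(t)^2 * (β + (m - β) t)^(p-1)` (all powers are real powers, except
for the square), and `α'` the derivative given by the product rule
(using `HasDerivAt (fun t => (max (1 - t) 0) ^ e) (-(e * (max (1 - t) 0) ^ (e - 1))) t` for real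
`e > 1`; at `t = 1` this is `o(|t - 1|)`).
-/

namespace Pool.Agent.Lib.MP_ae319b_an

open Filter Topology Set

/-- A profile `ψ`, its derivative `ψ'`, and the function `α = |ψ'|^(p-1)` with its derivative. -/
structure Profile (p β : ℝ) (ψ ψ' α α' : ℝ → ℝ) (C : ℝ) : Prop where
  C_pos : 0 < C
  hψ : ∀ t, 0 < t → HasDerivAt ψ (ψ' t) t
  cψ' : ContinuousOn ψ' (Ioi 0)
  hα : ∀ t, 0 < t → HasDerivAt α (α' t) t
  cα' : ContinuousOn α' (Ioi 0)
  α_eq : ∀ t, 0 < t → α t = (-ψ' t) ^ (p - 1)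
  ψ'_nonpos : ∀ t, 0 < t → ψ' t ≤ 0
  vanish : ∀ t, 1 ≤ t → ψ t = 0 ∧ ψ' t = 0 ∧ α t = 0 ∧ α' t = 0
  ψ_nonneg : ∀ t, 0 < t → 0 ≤ ψ t
  ψ_le : ∀ t, 0 < t → ψ t ≤ C * t ^ (-β)
  ψ'_le : ∀ t, 0 < t → -ψ' t ≤ C * t ^ (-(β + 1))
  α_le : ∀ t, 0 < t → α t ≤ C * t ^ (-((β + 1) * (p - 1)))
  α'_le : ∀ t, 0 < t → |α' t| ≤ C * t ^ (-((β + 1) * (p - 1)) - 1)
  le_ψ : ∀ t, 0 < t → t ≤ 1 / 2 → C⁻¹ * t ^ (-β) ≤ ψ t

/-- The positive part raised to a real power larger than one is differentiable. -/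
theorem hasDerivAt_posPart_rpow {e : ℝ} (he : 1 < e) (x : ℝ) :
    HasDerivAt (fun x : ℝ => (max x 0) ^ e) (e * (max x 0) ^ (e - 1)) x := by
  rcases lt_trichotomy x 0 with hx | hx | hx
  · have h1 : (fun x : ℝ => (max x 0) ^ e) =ᶠ[𝓝 x] fun _ => (0 : ℝ) := by
      filter_upwards [Iio_mem_nhds hx] with y hy
      rw [max_eq_right (le_of_lt hy), Real.zero_rpow (by linarith)]
    have h2 : e * (max x 0) ^ (e - 1) = 0 := by
      rw [max_eq_right hx.le, Real.zero_rpow (by linarith), mul_zero]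
    rw [h2]
    exact (hasDerivAt_const x (0 : ℝ)).congr_of_eventuallyEq h1
  · subst hx
    have h2 : e * (max (0 : ℝ) 0) ^ (e - 1) = 0 := by
      rw [max_self, Real.zero_rpow (by linarith), mul_zero]
    rw [h2, hasDerivAt_iff_isLittleO]
    have h3 : ((max (0 : ℝ) 0) ^ e) = 0 := by
      rw [max_self, Real.zero_rpow (by linarith)]
    simp only [h3, sub_zero, smul_zero]
    rw [Asymptotics.isLittleO_iff]
    intro c hc
    have hlim : Tendsto (fun x : ℝ => |x| ^ (e - 1)) (𝓝 0) (𝓝 0) := by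
      have h4 : Continuous (fun x : ℝ => |x| ^ (e - 1)) :=
        (continuous_abs).rpow_const (fun x => Or.inr (by linarith))
      have h5 := h4.tendsto 0
      simpa [Real.zero_rpow (show e - 1 ≠ 0 by linarith)] using h5
    filter_upwards [hlim.eventually (gt_mem_nhds hc)] with y hy
    rw [Real.norm_eq_abs, Real.norm_eq_abs]
    have h6 : |(max y 0) ^ e| ≤ |y| ^ e := by
      rw [abs_of_nonneg (Real.rpow_nonneg (le_max_right _ _) _)]
      exact Real.rpow_le_rpow (le_max_right _ _) (max_le (le_abs_self y) (abs_nonneg y))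
        (by linarith)
    have h7 : |y| ^ e = |y| ^ (e - 1) * |y| := by
      rcases eq_or_ne y 0 with h0 | h0
      · subst h0
        rw [abs_zero, Real.zero_rpow (by linarith), mul_zero]
      · rw [← Real.rpow_add_one (abs_pos.mpr h0).ne']
        congr 1
        ring
    calc |(max y 0) ^ e| ≤ |y| ^ e := h6
      _ = |y| ^ (e - 1) * |y| := h7
      _ ≤ c * |y| := mul_le_mul_of_nonneg_right (le_of_lt hy) (abs_nonneg y)
  · have h1 : (fun x : ℝ => (max x 0) ^ e) =ᶠ[𝓝 x] fun x => x ^ e := by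
      filter_upwards [Ioi_mem_nhds hx] with y hy
      rw [max_eq_left (le_of_lt hy)]
    rw [max_eq_left hx.le]
    exact (Real.hasDerivAt_rpow_const (Or.inl hx.ne')).congr_of_eventuallyEq h1

/-- The function `c(t)^e` with `c(t) = max (1 - t) 0`. -/
theorem hasDerivAt_cut_rpow {e : ℝ} (he : 1 < e) (t : ℝ) :
    HasDerivAt (fun t : ℝ => (max (1 - t) 0) ^ e) (-(e * (max (1 - t) 0) ^ (e - 1))) t := by
  have h1 := hasDerivAt_posPart_rpow he (1 - t)
  have h2 : HasDerivAt (fun t : ℝ => 1 - t) (-1) t := by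
    simpa using (hasDerivAt_id t).const_sub 1
  have h3 := h1.comp t h2
  have h4 : (e * (max (1 - t) 0) ^ (e - 1)) * (-1) = -(e * (max (1 - t) 0) ^ (e - 1)) := by ring
  rw [h4] at h3
  exact h3

theorem continuous_cut : Continuous (fun t : ℝ => max (1 - t) 0) :=
  (continuous_const.sub continuous_id).max continuous_const

theorem exists_profile {p β : ℝ} (hp1 : 1 < p) (hp2 : p < 2) (hβ : 0 < β) (hβ1 : β ≤ 1) :
    ∃ ψ ψ' α α' C, Profile p β ψ ψ' α α' C := by
  obtain ⟨q, hq⟩ : ∃ q, q = p - 1 := ⟨_, rfl⟩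
  have hq0 : 0 < q := by rw [hq]; linarith
  have hq1 : q < 1 := by rw [hq]; linarith
  obtain ⟨m, hm⟩ : ∃ m, m = 1 + 2 / q := ⟨_, rfl⟩
  have hmq : (m - 1) * q = 2 := by
    rw [hm]; field_simp; ring
  have hm3 : 3 < m := by
    have : 2 < 2 / q := by
      rw [lt_div_iff₀ hq0]; linarith
    linarith
  obtain ⟨γ, hγ⟩ : ∃ γ, γ = (β + 1) * q := ⟨_, rfl⟩
  have hγ0 : 0 < γ := by rw [hγ]; positivity
  have hmβ : 0 < m - β := by linarith
  set c : ℝ → ℝ := fun t => max (1 - t) 0 with hc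
  set b : ℝ → ℝ := fun t => β + (m - β) * t with hb
  have hc0 : ∀ t, 0 ≤ c t := fun t => le_max_right _ _
  have hc1 : ∀ t, 0 < t → c t ≤ 1 := fun t ht => max_le (by linarith) zero_le_one
  have hcz : ∀ t, 1 ≤ t → c t = 0 := fun t ht => max_eq_right (by linarith)
  have hbp : ∀ t, 0 < t → 0 < b t := fun t ht => by
    simp only [hb]; positivity
  have hbβ : ∀ t, 0 < t → β ≤ b t := fun t ht => by
    simp only [hb]
    have : 0 < (m - β) * t := by positivity
    linarith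
  have hbm : ∀ t, t ≤ 1 → b t ≤ m := fun t ht => by
    simp only [hb]
    nlinarith
  obtain ⟨K, hK⟩ : ∃ K, K = γ * m ^ q + 2 * m ^ q + q * β ^ (q - 1) * (m - β) := ⟨_, rfl⟩
  have hmq0 : 0 < m ^ q := Real.rpow_pos_of_pos (by linarith) _
  have hβq0 : 0 < β ^ (q - 1) := Real.rpow_pos_of_pos hβ _
  have h2m : 0 < (2 : ℝ) ^ m := Real.rpow_pos_of_pos (by norm_num) _
  have hK0 : 0 < K := by rw [hK]; positivity
  -- continuity facts
  have ccont : Continuous c := continuous_cut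
  have bcont : Continuous b := by
    simp only [hb]; fun_prop
  have tpow : ∀ e : ℝ, ContinuousOn (fun t : ℝ => t ^ e) (Ioi 0) := fun e =>
    continuousOn_id.rpow_const (fun x hx => Or.inl (ne_of_gt hx))
  have cpow : ∀ e : ℝ, 0 ≤ e → ContinuousOn (fun t : ℝ => (c t) ^ e) (Ioi 0) := fun e he =>
    (ccont.rpow_const (fun x => Or.inr he)).continuousOn
  have bpow : ∀ e : ℝ, ContinuousOn (fun t : ℝ => (b t) ^ e) (Ioi 0) := fun e =>
    bcont.continuousOn.rpow_const (fun x hx => Or.inl (hbp x hx).ne')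
  refine ⟨fun t => t ^ (-β) * (c t) ^ m,
    fun t => -(t ^ (-(β + 1)) * (c t) ^ (m - 1) * b t),
    fun t => t ^ (-γ) * (c t) ^ (2 : ℝ) * (b t) ^ q,
    fun t => ((-γ) * t ^ (-γ - 1) * (c t) ^ (2 : ℝ) + t ^ (-γ) * (-(2 * (c t) ^ (1 : ℝ))))
        * (b t) ^ q + t ^ (-γ) * (c t) ^ (2 : ℝ) * (q * (b t) ^ (q - 1) * (m - β)),
    2 ^ m + 1 + m + m ^ q + K, ?_⟩
  have hC2 : (2 : ℝ) ^ m ≤ 2 ^ m + 1 + m + m ^ q + K := by linarith
  refine
    { C_pos := by positivity
      hψ := ?_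
      cψ' := ?_
      hα := ?_
      cα' := ?_
      α_eq := ?_
      ψ'_nonpos := ?_
      vanish := ?_
      ψ_nonneg := ?_
      ψ_le := ?_
      ψ'_le := ?_
      α_le := ?_
      α'_le := ?_
      le_ψ := ?_ }
  · -- derivative of ψ
    intro t ht
    have h1 : HasDerivAt (fun t : ℝ => t ^ (-β)) ((-β) * t ^ (-β - 1)) t :=
      Real.hasDerivAt_rpow_const (Or.inl ht.ne')
    have h2 : HasDerivAt (fun t : ℝ => (c t) ^ m) (-(m * (c t) ^ (m - 1))) t :=
      hasDerivAt_cut_rpow (by linarith) t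
    have h3 := h1.mul h2
    have h4 : (-β) * t ^ (-β - 1) * (c t) ^ m + t ^ (-β) * (-(m * (c t) ^ (m - 1)))
        = -(t ^ (-(β + 1)) * (c t) ^ (m - 1) * b t) := by
      have e1 : t ^ (-β - 1) = t ^ (-(β + 1)) := by congr 1; ring
      have e2 : t ^ (-β) = t ^ (-(β + 1)) * t := by
        rw [← Real.rpow_add_one ht.ne']; congr 1; ring
      rcases le_or_gt 1 t with h | h
      · rw [hcz t h, Real.zero_rpow (by linarith), Real.zero_rpow (by linarith)]; ring
      · have e3 : c t = 1 - t := max_eq_left (by linarith)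
        have e4 : (c t) ^ m = (c t) ^ (m - 1) * (1 - t) := by
          rw [e3, ← Real.rpow_add_one (by linarith)]; congr 1; ring
        rw [e1, e2, e4]
        simp only [hb]
        ring
    rw [h4] at h3
    exact h3
  · -- continuity of ψ'
    exact (((tpow _).mul (cpow _ (by linarith))).mul bcont.continuousOn).neg
  · -- derivative of α
    intro t ht
    have h1 : HasDerivAt (fun t : ℝ => t ^ (-γ)) ((-γ) * t ^ (-γ - 1)) t :=
      Real.hasDerivAt_rpow_const (Or.inl ht.ne')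
    have h2 : HasDerivAt (fun t : ℝ => (c t) ^ (2 : ℝ)) (-(2 * (c t) ^ (1 : ℝ))) t := by
      have := hasDerivAt_cut_rpow (e := 2) (by norm_num) t
      norm_num at this ⊢
      exact this
    have h3 : HasDerivAt b (m - β) t := by
      have := ((hasDerivAt_id t).const_mul (m - β)).const_add β
      simpa [hb] using this
    have h4 : HasDerivAt (fun t : ℝ => (b t) ^ q) (q * (b t) ^ (q - 1) * (m - β)) t := by
      have := h3.rpow_const (p := q) (Or.inl (hbp t ht).ne')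
      convert this using 1
      ring
    exact (h1.mul h2).mul h4
  · -- continuity of α'
    exact ((((continuousOn_const.mul (tpow _)).mul (cpow _ (by norm_num))).add
      ((tpow _).mul ((continuousOn_const.mul (cpow _ (by norm_num))).neg))).mul (bpow _)).add
      (((tpow _).mul (cpow _ (by norm_num))).mul ((continuousOn_const.mul (bpow _)).mul
        continuousOn_const))
  · -- α = (-ψ')^(p-1)
    intro t ht
    simp only [neg_neg]
    rw [← hq, Real.mul_rpow (mul_nonneg (Real.rpow_nonneg ht.le _) (Real.rpow_nonneg (hc0 t) _))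
      (hbp t ht).le, Real.mul_rpow (Real.rpow_nonneg ht.le _) (Real.rpow_nonneg (hc0 t) _),
      ← Real.rpow_mul ht.le, ← Real.rpow_mul (hc0 t), hmq]
    congr 3
    rw [hγ]; ring
  · intro t ht
    have := mul_nonneg (mul_nonneg (Real.rpow_nonneg ht.le (-(β + 1)))
      (Real.rpow_nonneg (hc0 t) (m - 1))) (hbp t ht).le
    linarith
  · intro t ht
    simp only [hcz t ht]
    rw [Real.zero_rpow (by linarith), Real.zero_rpow (by linarith), Real.zero_rpow (by norm_num),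
      Real.zero_rpow (by norm_num)]
    refine ⟨by ring, by ring, by ring, by ring⟩
  · intro t ht
    exact mul_nonneg (Real.rpow_nonneg ht.le _) (Real.rpow_nonneg (hc0 t) _)
  · intro t ht
    have h1 : (c t) ^ m ≤ 1 := Real.rpow_le_one (hc0 t) (hc1 t ht) (by linarith)
    have h2 : 0 < t ^ (-β) := Real.rpow_pos_of_pos ht _
    have h3 : (1 : ℝ) ≤ 2 ^ m + 1 + m + m ^ q + K := by linarith
    calc t ^ (-β) * (c t) ^ m ≤ t ^ (-β) * 1 := mul_le_mul_of_nonneg_left h1 h2.le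
      _ = 1 * t ^ (-β) := by ring
      _ ≤ _ := mul_le_mul_of_nonneg_right h3 h2.le
  · intro t ht
    have h2 : 0 < t ^ (-(β + 1)) := Real.rpow_pos_of_pos ht _
    have h1 : (c t) ^ (m - 1) ≤ 1 := Real.rpow_le_one (hc0 t) (hc1 t ht) (by linarith)
    have h1' : 0 ≤ (c t) ^ (m - 1) := Real.rpow_nonneg (hc0 t) _
    simp only [neg_neg]
    have h4 : (c t) ^ (m - 1) * b t ≤ m := by
      rcases le_or_gt 1 t with h | h
      · rw [hcz t h, Real.zero_rpow (by linarith), zero_mul]; linarith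
      · calc (c t) ^ (m - 1) * b t ≤ 1 * m :=
            mul_le_mul h1 (hbm t h.le) (hbp t ht).le zero_le_one
          _ = m := one_mul m
    calc t ^ (-(β + 1)) * (c t) ^ (m - 1) * b t = ((c t) ^ (m - 1) * b t) * t ^ (-(β + 1)) := by
          ring
      _ ≤ (2 ^ m + 1 + m + m ^ q + K) * t ^ (-(β + 1)) :=
          mul_le_mul_of_nonneg_right (by linarith) h2.le
  · intro t ht
    rw [← hq, ← hγ]
    have h2 : 0 < t ^ (-γ) := Real.rpow_pos_of_pos ht _
    have h1 : (c t) ^ (2 : ℝ) ≤ 1 := Real.rpow_le_one (hc0 t) (hc1 t ht) (by norm_num)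
    have h1' : 0 ≤ (c t) ^ (2 : ℝ) := Real.rpow_nonneg (hc0 t) _
    have h4 : (c t) ^ (2 : ℝ) * (b t) ^ q ≤ m ^ q := by
      rcases le_or_gt 1 t with h | h
      · rw [hcz t h, Real.zero_rpow (by norm_num), zero_mul]; linarith
      · calc (c t) ^ (2 : ℝ) * (b t) ^ q ≤ 1 * m ^ q :=
            mul_le_mul h1 (Real.rpow_le_rpow (hbp t ht).le (hbm t h.le) hq0.le)
              (Real.rpow_nonneg (hbp t ht).le _) zero_le_one
          _ = m ^ q := one_mul _
    calc t ^ (-γ) * (c t) ^ (2 : ℝ) * (b t) ^ q = ((c t) ^ (2 : ℝ) * (b t) ^ q) * t ^ (-γ) := by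
          ring
      _ ≤ (2 ^ m + 1 + m + m ^ q + K) * t ^ (-γ) :=
          mul_le_mul_of_nonneg_right (by linarith) h2.le
  · intro t ht
    rw [← hq, ← hγ]
    have h2 : 0 < t ^ (-γ - 1) := Real.rpow_pos_of_pos ht _
    rcases le_or_gt 1 t with h | h
    · simp only [hcz t h]
      rw [Real.zero_rpow (by norm_num), Real.zero_rpow (by norm_num)]
      have : (-γ * t ^ (-γ - 1) * 0 + t ^ (-γ) * -(2 * 0)) * b t ^ q
          + t ^ (-γ) * 0 * (q * b t ^ (q - 1) * (m - β)) = 0 := by ring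
      rw [this, abs_zero]
      positivity
    · have hcc : (c t) ^ (2 : ℝ) ≤ 1 := Real.rpow_le_one (hc0 t) (hc1 t ht) (by norm_num)
      have hcc' : 0 ≤ (c t) ^ (2 : ℝ) := Real.rpow_nonneg (hc0 t) _
      have hc1' : (c t) ^ (1 : ℝ) ≤ 1 := Real.rpow_le_one (hc0 t) (hc1 t ht) (by norm_num)
      have hc1'' : 0 ≤ (c t) ^ (1 : ℝ) := Real.rpow_nonneg (hc0 t) _
      have hbq : (b t) ^ q ≤ m ^ q := Real.rpow_le_rpow (hbp t ht).le (hbm t h.le) hq0.le
      have hbq' : 0 ≤ (b t) ^ q := Real.rpow_nonneg (hbp t ht).le _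
      have hbr : (b t) ^ (q - 1) ≤ β ^ (q - 1) :=
        Real.rpow_le_rpow_of_nonpos hβ (hbβ t ht) (by linarith)
      have hbr' : 0 ≤ (b t) ^ (q - 1) := Real.rpow_nonneg (hbp t ht).le _
      have htt : t ^ (-γ) = t ^ (-γ - 1) * t := by
        rw [← Real.rpow_add_one ht.ne']; congr 1; ring
      have htt' : t ^ (-γ) ≤ t ^ (-γ - 1) := by
        rw [htt]
        calc t ^ (-γ - 1) * t ≤ t ^ (-γ - 1) * 1 := mul_le_mul_of_nonneg_left h.le h2.le
          _ = _ := mul_one _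
      have htp : 0 < t ^ (-γ) := Real.rpow_pos_of_pos ht _
      have A1 : |(-γ) * t ^ (-γ - 1) * (c t) ^ (2 : ℝ) * (b t) ^ q|
          ≤ γ * m ^ q * t ^ (-γ - 1) := by
        rw [abs_mul, abs_mul, abs_mul, abs_neg, abs_of_pos hγ0, abs_of_pos h2,
          abs_of_nonneg hcc', abs_of_nonneg hbq']
        calc γ * t ^ (-γ - 1) * (c t) ^ (2 : ℝ) * (b t) ^ q
            = γ * t ^ (-γ - 1) * ((c t) ^ (2 : ℝ) * (b t) ^ q) := by ring
          _ ≤ γ * t ^ (-γ - 1) * (1 * m ^ q) :=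
              mul_le_mul_of_nonneg_left (mul_le_mul hcc hbq hbq' zero_le_one) (by positivity)
          _ = _ := by ring
      have A2 : |t ^ (-γ) * (-(2 * (c t) ^ (1 : ℝ))) * (b t) ^ q|
          ≤ 2 * m ^ q * t ^ (-γ - 1) := by
        rw [abs_mul, abs_mul, abs_neg, abs_mul, abs_of_pos htp, abs_of_nonneg hc1'',
          abs_of_nonneg hbq', abs_of_pos (show (0 : ℝ) < 2 by norm_num)]
        calc t ^ (-γ) * (2 * (c t) ^ (1 : ℝ)) * (b t) ^ q
            = 2 * (t ^ (-γ) * ((c t) ^ (1 : ℝ) * (b t) ^ q)) := by ring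
          _ ≤ 2 * (t ^ (-γ - 1) * (1 * m ^ q)) := by
              refine mul_le_mul_of_nonneg_left ?_ (by norm_num)
              exact mul_le_mul htt' (mul_le_mul hc1' hbq hbq' zero_le_one)
                (mul_nonneg hc1'' hbq') h2.le
          _ = _ := by ring
      have A3 : |t ^ (-γ) * (c t) ^ (2 : ℝ) * (q * (b t) ^ (q - 1) * (m - β))|
          ≤ q * β ^ (q - 1) * (m - β) * t ^ (-γ - 1) := by
        have hnn : 0 ≤ t ^ (-γ) * (c t) ^ (2 : ℝ) * (q * (b t) ^ (q - 1) * (m - β)) := by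
          positivity
        rw [abs_of_nonneg hnn]
        calc t ^ (-γ) * (c t) ^ (2 : ℝ) * (q * (b t) ^ (q - 1) * (m - β))
            = (t ^ (-γ) * ((c t) ^ (2 : ℝ) * (b t) ^ (q - 1))) * (q * (m - β)) := by ring
          _ ≤ (t ^ (-γ - 1) * (1 * β ^ (q - 1))) * (q * (m - β)) := by
              refine mul_le_mul_of_nonneg_right ?_ (by positivity)
              exact mul_le_mul htt' (mul_le_mul hcc hbr hbr' zero_le_one)
                (mul_nonneg hcc' hbr') h2.le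
          _ = _ := by ring
      have split : (-γ * t ^ (-γ - 1) * (c t) ^ (2 : ℝ) + t ^ (-γ) * -(2 * (c t) ^ (1 : ℝ)))
            * (b t) ^ q + t ^ (-γ) * (c t) ^ (2 : ℝ) * (q * (b t) ^ (q - 1) * (m - β))
          = (-γ) * t ^ (-γ - 1) * (c t) ^ (2 : ℝ) * (b t) ^ q
            + t ^ (-γ) * (-(2 * (c t) ^ (1 : ℝ))) * (b t) ^ q
            + t ^ (-γ) * (c t) ^ (2 : ℝ) * (q * (b t) ^ (q - 1) * (m - β)) := by ring
      rw [split]
      calc _ ≤ γ * m ^ q * t ^ (-γ - 1) + 2 * m ^ q * t ^ (-γ - 1)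
              + q * β ^ (q - 1) * (m - β) * t ^ (-γ - 1) :=
            (abs_add_three _ _ _).trans (add_le_add (add_le_add A1 A2) A3)
        _ = K * t ^ (-γ - 1) := by rw [hK]; ring
        _ ≤ _ := mul_le_mul_of_nonneg_right (by linarith) h2.le
  · intro t ht ht2
    have h2 : 0 < t ^ (-β) := Real.rpow_pos_of_pos ht _
    have hct : 1 / 2 ≤ c t := le_max_of_le_left (by linarith)
    have h3 : (1 / 2 : ℝ) ^ m ≤ (c t) ^ m :=
      Real.rpow_le_rpow (by norm_num) hct (by linarith)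
    have h4 : (2 ^ m + 1 + m + m ^ q + K)⁻¹ ≤ (1 / 2 : ℝ) ^ m := by
      rw [one_div, Real.inv_rpow (by norm_num)]
      exact inv_anti₀ h2m hC2
    calc (2 ^ m + 1 + m + m ^ q + K)⁻¹ * t ^ (-β) ≤ (c t) ^ m * t ^ (-β) :=
          mul_le_mul_of_nonneg_right (h4.trans h3) h2.le
      _ = _ := by ring

end Pool.Agent.Lib.MP_ae319b_an
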