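import Pool.Agent.Lib.MP_ae319b_an.Sep

/-!
# MP_ae319b_an : integration by parts for the regularized field

Proof of `regularized_eq`.  Put `A(x) = α(s(x) + δ) (Q(x) + δ)^((p-2)/2)`; as `s + δ > 0` and
`Q + δ > 0` everywhere it is of class `C¹` (here `s = sS μ`, `Q = sQ μ'`), with derivative (from
`SepData.hasFDerivAt_sS`, `SepData.hasFDerivAt_sQ`) in the direction of the `i`-th basis vector
`α'(s + δ) μ'_i (Q+δ)^((p-2)/2) + α(s+δ) ((p-2)/2) (Q+δ)^((p-2)/2-1) 2 μ'_i μ''_i`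
(arguments `x i`).  So `V_i(x) = A(x) μ'_i(x_i)` is of class `C¹`, with continuous `∂_i V_i`, and
`∑ i, ∂_i V_i = sF p α α' μ μ' μ'' δ`.  Since `φ` is `C¹` with compact support,
`∫ V_i ∂_i φ = - ∫ (∂_i V_i) φ` (`integral_mul_fderiv_eq_neg_fderiv_mul_of_integrable`), and
`fderiv ℝ φ x (sG μ' x) = ∑ i, μ'_i(x_i) ∂_i φ(x)`.
-/

namespace Pool.Agent.Lib.MP_ae319b_an

open MeasureTheory Filter Topology Set
open scoped ENNReal NNReal RealInnerProductSpace ContDiff

variable {N : ℕ}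

/-- the regularized weight -/
private noncomputable def regA (p : ℝ) (α : ℝ → ℝ) (μ μ' : Fin N → ℝ → ℝ) (δ : ℝ) (x : Eu N) : ℝ :=
  α (sS μ x + δ) * (sQ μ' x + δ) ^ ((p - 2) / 2)

/-- the derivative of the weight in the direction of the `i`-th basis vector -/
private noncomputable def regD (p : ℝ) (α α' : ℝ → ℝ) (μ μ' μ'' : Fin N → ℝ → ℝ) (δ : ℝ)
    (i : Fin N) (x : Eu N) : ℝ :=
  α (sS μ x + δ) * ((p - 2) / 2 * (sQ μ' x + δ) ^ ((p - 2) / 2 - 1) *
      (2 * μ' i (x i) * μ'' i (x i))) +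
    (sQ μ' x + δ) ^ ((p - 2) / 2) * (α' (sS μ x + δ) * μ' i (x i))

/-- the `i`-th component of the regularized field -/
private noncomputable def regV (p : ℝ) (α : ℝ → ℝ) (μ μ' : Fin N → ℝ → ℝ) (δ : ℝ) (i : Fin N)
    (x : Eu N) : ℝ :=
  regA p α μ μ' δ x * μ' i (x i)

private theorem regV_spec {p β : ℝ} {ψ ψ' α α' : ℝ → ℝ} {C : ℝ} (P : Profile p β ψ ψ' α α' C)
    {μ μ' μ'' : Fin N → ℝ → ℝ} {M : ℝ} (S : SepData μ μ' μ'' M) {δ : ℝ} (hδ : 0 < δ)
    (i : Fin N) (x : Eu N) :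
    DifferentiableAt ℝ (regV p α μ μ' δ i) x ∧
      fderiv ℝ (regV p α μ μ' δ i) x (EuclideanSpace.single i (1 : ℝ)) =
        regA p α μ μ' δ x * μ'' i (x i) + μ' i (x i) * regD p α α' μ μ' μ'' δ i x := by
  have hs : 0 < sS μ x + δ := by have := S.sS_nonneg x; linarith
  have hQ : 0 < sQ μ' x + δ := by have := sQ_nonneg μ' x; linarith
  have h1 := (S.hasFDerivAt_sS x).add_const δ
  have h2 := (P.hα _ hs).comp_hasFDerivAt x h1
  have h3 := ((S.hasFDerivAt_sQ x).add_const δ).rpow_const (p := (p - 2) / 2) (Or.inl hQ.ne')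
  have h4 := h2.mul h3
  have h5 := hasFDerivAt_coord i (S.h2 i (x i))
  have h6 := h4.mul h5
  have h7 : HasFDerivAt (regV p α μ μ' δ i) _ x := h6
  refine ⟨h7.differentiableAt, ?_⟩
  rw [h7.fderiv]
  simp only [regA, regD, _root_.add_apply, _root_.smul_apply,
    _root_.sum_apply, smul_eq_mul, Pi.mul_apply, Function.comp_apply]
  have e0 : ∀ j, (EuclideanSpace.proj (𝕜 := ℝ) j : Eu N →L[ℝ] ℝ)
      (EuclideanSpace.single i (1 : ℝ)) = if j = i then 1 else 0 := by
    intro j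
    by_cases h : j = i
    · subst h; simp
    · simp [h]
  simp [e0]

private theorem continuous_regA {p β : ℝ} {ψ ψ' α α' : ℝ → ℝ} {C : ℝ} (P : Profile p β ψ ψ' α α' C)
    {μ μ' μ'' : Fin N → ℝ → ℝ} {M : ℝ} (S : SepData μ μ' μ'' M) {δ : ℝ} (hδ : 0 < δ) :
    Continuous (regA p α μ μ' δ) := by
  unfold regA
  have hs : ∀ x, sS μ x + δ ∈ Ioi (0 : ℝ) := fun x => by
    have := S.sS_nonneg x; exact mem_Ioi.2 (by linarith)
  have hα : ContinuousOn α (Ioi 0) := fun t ht => (P.hα t ht).continuousAt.continuousWithinAt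
  refine (hα.comp_continuous (S.continuous_sS.add continuous_const) hs).mul ?_
  have hQ : ∀ x, sQ μ' x + δ ≠ 0 := fun x => by have := sQ_nonneg μ' x; linarith
  exact (S.continuous_sQ.add continuous_const).rpow_const fun x => Or.inl (hQ x)

private theorem continuous_coord {f : ℝ → ℝ} (hf : Continuous f) (i : Fin N) :
    Continuous fun x : Eu N => f (x i) :=
  hf.comp (EuclideanSpace.proj (𝕜 := ℝ) i).continuous

private theorem continuous_regD {p β : ℝ} {ψ ψ' α α' : ℝ → ℝ} {C : ℝ} (P : Profile p β ψ ψ' α α' C)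
    {μ μ' μ'' : Fin N → ℝ → ℝ} {M : ℝ} (S : SepData μ μ' μ'' M) {δ : ℝ} (hδ : 0 < δ)
    (i : Fin N) : Continuous (regD p α α' μ μ' μ'' δ i) := by
  unfold regD
  have hs : ∀ x, sS μ x + δ ∈ Ioi (0 : ℝ) := fun x => by
    have := S.sS_nonneg x; exact mem_Ioi.2 (by linarith)
  have hQ : ∀ x, sQ μ' x + δ ≠ 0 := fun x => by have := sQ_nonneg μ' x; linarith
  have hα : ContinuousOn α (Ioi 0) := fun t ht => (P.hα t ht).continuousAt.continuousWithinAt
  have c1 := hα.comp_continuous (S.continuous_sS.add continuous_const) hs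
  have c2 := P.cα'.comp_continuous (S.continuous_sS.add continuous_const) hs
  have c3 : ∀ e : ℝ, Continuous fun x => (sQ μ' x + δ) ^ e := fun e =>
    (S.continuous_sQ.add continuous_const).rpow_const fun x => Or.inl (hQ x)
  have c4 := continuous_coord (S.continuous_μ' i) i
  have c5 := continuous_coord (S.hc i) i
  exact (c1.mul ((continuous_const.mul (c3 _)).mul ((continuous_const.mul c4).mul c5))).add
    ((c3 _).mul (c2.mul c4))

theorem regularized_eq {p β : ℝ} {ψ ψ' α α' : ℝ → ℝ} {C : ℝ} (P : Profile p β ψ ψ' α α' C)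
    {μ μ' μ'' : Fin N → ℝ → ℝ} {M : ℝ} (S : SepData μ μ' μ'' M) {δ : ℝ} (hδ : 0 < δ)
    {φ : Eu N → ℝ} (hφ : ContDiff ℝ 1 φ) (hc : HasCompactSupport φ) :
    ∫ x, (α (sS μ x + δ) * (sQ μ' x + δ) ^ ((p - 2) / 2)) * fderiv ℝ φ x (sG μ' x) =
      -∫ x, sF p α α' μ μ' μ'' δ x * φ x := by
  have hdφ : Differentiable ℝ φ := hφ.differentiable one_ne_zero
  have hcφ : Continuous φ := hφ.continuous
  have hcdφ : ∀ v : Eu N, Continuous fun x => fderiv ℝ φ x v := fun v =>
    (hφ.continuous_fderiv one_ne_zero).clm_apply continuous_const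
  have hcsd : ∀ v : Eu N, HasCompactSupport fun x => fderiv ℝ φ x v := by
    intro v
    exact (hc.fderiv (𝕜 := ℝ)).comp_left (g := fun L : Eu N →L[ℝ] ℝ => L v) (by simp)
  have hcA := continuous_regA P S hδ
  have hcD := fun i => continuous_regD P S hδ i
  have hcV : ∀ i, Continuous (regV p α μ μ' δ i) := fun i =>
    hcA.mul (continuous_coord (S.continuous_μ' i) i)
  have hfd : ∀ i, (fun x => fderiv ℝ (regV p α μ μ' δ i) x (EuclideanSpace.single i (1 : ℝ))) =
      fun x => regA p α μ μ' δ x * μ'' i (x i) + μ' i (x i) * regD p α α' μ μ' μ'' δ i x :=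
    fun i => funext fun x => (regV_spec P S hδ i x).2
  have hcfd : ∀ i, Continuous fun x =>
      fderiv ℝ (regV p α μ μ' δ i) x (EuclideanSpace.single i (1 : ℝ)) := by
    intro i
    rw [hfd i]
    exact (hcA.mul (continuous_coord (S.hc i) i)).add
      ((continuous_coord (S.continuous_μ' i) i).mul (hcD i))
  have hI1 : ∀ i, Integrable (fun x => fderiv ℝ (regV p α μ μ' δ i) x
      (EuclideanSpace.single i (1 : ℝ)) * φ x) volume := fun i =>
    ((hcfd i).mul hcφ).integrable_of_hasCompactSupport hc.mul_left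
  have hI2 : ∀ i, Integrable (fun x => regV p α μ μ' δ i x *
      fderiv ℝ φ x (EuclideanSpace.single i (1 : ℝ))) volume := fun i =>
    ((hcV i).mul (hcdφ _)).integrable_of_hasCompactSupport (hcsd _).mul_left
  have hI3 : ∀ i, Integrable (fun x => regV p α μ μ' δ i x * φ x) volume := fun i =>
    ((hcV i).mul hcφ).integrable_of_hasCompactSupport hc.mul_left
  have key : ∀ i, ∫ x, regV p α μ μ' δ i x * fderiv ℝ φ x (EuclideanSpace.single i (1 : ℝ)) =
      -∫ x, fderiv ℝ (regV p α μ μ' δ i) x (EuclideanSpace.single i (1 : ℝ)) * φ x := fun i =>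
    integral_mul_fderiv_eq_neg_fderiv_mul_of_integrable (hI1 i) (hI2 i) (hI3 i)
      (fun x _ => (regV_spec P S hδ i x).1)
      (fun x _ => hdφ x)
  have hL : ∀ x, (α (sS μ x + δ) * (sQ μ' x + δ) ^ ((p - 2) / 2)) * fderiv ℝ φ x (sG μ' x) =
      ∑ i, regV p α μ μ' δ i x * fderiv ℝ φ x (EuclideanSpace.single i (1 : ℝ)) := by
    intro x
    have h1 : sG μ' x = ∑ i, μ' i (x i) • (EuclideanSpace.single i (1 : ℝ) : Eu N) := by
      ext j
      simp [sG, Finset.sum_apply, Pi.single_apply]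
    rw [h1, map_sum, Finset.mul_sum]
    refine Finset.sum_congr rfl fun i _ => ?_
    rw [map_smul, smul_eq_mul]
    simp only [regV, regA]
    ring
  have hR : ∀ x, sF p α α' μ μ' μ'' δ x * φ x =
      ∑ i, fderiv ℝ (regV p α μ μ' δ i) x (EuclideanSpace.single i (1 : ℝ)) * φ x := by
    intro x
    rw [← Finset.sum_mul]
    congr 1
    rw [Finset.sum_congr rfl fun i _ => (regV_spec P S hδ i x).2]
    rw [Finset.sum_add_distrib, ← Finset.mul_sum]
    unfold sF regD regA sQ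
    simp only [mul_add, Finset.sum_add_distrib]
    have e1 : ∑ i, μ' i (x i) * (α (sS μ x + δ) * ((p - 2) / 2 *
        (∑ i, μ' i (x i) ^ 2 + δ) ^ ((p - 2) / 2 - 1) * (2 * μ' i (x i) * μ'' i (x i)))) =
        α (sS μ x + δ) * ((p - 2) / 2 * (∑ i, μ' i (x i) ^ 2 + δ) ^ ((p - 2) / 2 - 1)) *
        ∑ i, 2 * μ' i (x i) ^ 2 * μ'' i (x i) := by
      rw [Finset.mul_sum]
      refine Finset.sum_congr rfl fun i _ => ?_
      ring
    have e2 : ∑ i, μ' i (x i) * ((∑ i, μ' i (x i) ^ 2 + δ) ^ ((p - 2) / 2) *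
        (α' (sS μ x + δ) * μ' i (x i))) =
        α' (sS μ x + δ) * (∑ i, μ' i (x i) ^ 2 + δ) ^ ((p - 2) / 2) * ∑ i, μ' i (x i) ^ 2 := by
      rw [Finset.mul_sum]
      refine Finset.sum_congr rfl fun i _ => ?_
      ring
    rw [e1, e2]
    ring
  rw [integral_congr_ae (Eventually.of_forall hL), integral_congr_ae (Eventually.of_forall hR),
    integral_finsetSum _ fun i _ => hI2 i, integral_finsetSum _ fun i _ => hI1 i,
    Finset.sum_congr rfl fun i _ => key i, Finset.sum_neg_distrib]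

end Pool.Agent.Lib.MP_ae319b_an
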