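import Pool.Agent.Lib.MP_ae319b_an.Mollify
import Pool.Agent.Lib.MP_ae319b_an.Profile

/-!
# MP_ae319b_an : separable functions `s(x) = ∑ μ_i(x_i)`
-/

namespace Pool.Agent.Lib.MP_ae319b_an

open MeasureTheory Filter Topology Set
open scoped ENNReal NNReal RealInnerProductSpace ContDiff

variable {N : ℕ}

/-- Data of a separable function: `μ i ≥ 0` is of class `C²`, with derivatives `μ' i` and `μ'' i`,
and `|μ'' i| ≤ M`. -/
structure SepData (μ μ' μ'' : Fin N → ℝ → ℝ) (M : ℝ) : Prop where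
  M_pos : 0 < M
  h1 : ∀ i y, HasDerivAt (μ i) (μ' i y) y
  h2 : ∀ i y, HasDerivAt (μ' i) (μ'' i y) y
  hc : ∀ i, Continuous (μ'' i)
  nonneg : ∀ i y, 0 ≤ μ i y
  bd : ∀ i y, |μ'' i y| ≤ M

/-- `s(x) = ∑ i, μ i (x i)` -/
noncomputable def sS (μ : Fin N → ℝ → ℝ) (x : Eu N) : ℝ := ∑ i, μ i (x i)

/-- `Q(x) = |∇ s(x)|² = ∑ i, (μ' i (x i))²` -/
noncomputable def sQ (μ' : Fin N → ℝ → ℝ) (x : Eu N) : ℝ := ∑ i, μ' i (x i) ^ 2

/-- `∇ s(x)` -/
noncomputable def sG (μ' : Fin N → ℝ → ℝ) (x : Eu N) : Eu N := WithLp.toLp 2 fun i => μ' i (x i)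

/-- The function `∑ i, ∂_i (α(s + δ) (Q + δ)^((p-2)/2) μ' i)`. -/
noncomputable def sF (p : ℝ) (α α' : ℝ → ℝ) (μ μ' μ'' : Fin N → ℝ → ℝ) (δ : ℝ) (x : Eu N) : ℝ :=
  α' (sS μ x + δ) * (sQ μ' x + δ) ^ ((p - 2) / 2) * sQ μ' x +
  α (sS μ x + δ) * ((p - 2) / 2 * (sQ μ' x + δ) ^ ((p - 2) / 2 - 1)) *
    (∑ i, 2 * μ' i (x i) ^ 2 * μ'' i (x i)) +
  α (sS μ x + δ) * (sQ μ' x + δ) ^ ((p - 2) / 2) * ∑ i, μ'' i (x i)

theorem sQ_nonneg (μ' : Fin N → ℝ → ℝ) (x : Eu N) : 0 ≤ sQ μ' x :=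
  Finset.sum_nonneg fun _ _ => sq_nonneg _

theorem norm_sG_sq (μ' : Fin N → ℝ → ℝ) (x : Eu N) : ‖sG μ' x‖ ^ 2 = sQ μ' x := by
  unfold sG sQ
  rw [EuclideanSpace.norm_sq_eq]
  simp

theorem norm_sG (μ' : Fin N → ℝ → ℝ) (x : Eu N) : ‖sG μ' x‖ = sQ μ' x ^ (1 / 2 : ℝ) := by
  rw [← norm_sG_sq, ← Real.sqrt_eq_rpow, Real.sqrt_sq (norm_nonneg _)]

/-- a nonnegative function with `|f''| ≤ M` satisfies `f'² ≤ 2 M f` -/
theorem sq_deriv_le {f f' f'' : ℝ → ℝ} {M : ℝ} (hM : 0 < M) (h1 : ∀ y, HasDerivAt f (f' y) y)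
    (h2 : ∀ y, HasDerivAt f' (f'' y) y) (h0 : ∀ y, 0 ≤ f y) (hb : ∀ y, |f'' y| ≤ M) (y : ℝ) :
    f' y ^ 2 ≤ 2 * M * f y := by
  -- `f(y + h) ≤ f(y) + f'(y) h + M h²/2`
  have key : ∀ h : ℝ, 0 ≤ f y + f' y * h + M * h ^ 2 / 2 := by
    intro h
    have hmono : ∀ z, |f' z - f' y| ≤ M * |z - y| := by
      intro z
      have h3 := Convex.norm_image_sub_le_of_norm_hasDerivWithin_le (f := f') (f' := f'')
        (s := Set.univ) (C := M) (x := y) (y := z)
        (fun w _ => (h2 w).hasDerivWithinAt) (fun w _ => by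
          rw [Real.norm_eq_abs]; exact hb w) convex_univ (mem_univ _) (mem_univ _)
      simpa using h3
    -- the function `g(t) = f(y) + f'(y) t + M t²/2 - f(y + t)`
    set g : ℝ → ℝ := fun t => f y + f' y * t + M * t ^ 2 / 2 - f (y + t) with hg
    have hgd : ∀ t, HasDerivAt g (f' y + M * t - f' (y + t)) t := by
      intro t
      have e1 : HasDerivAt (fun t => f (y + t)) (f' (y + t)) t := (h1 (y + t)).comp_const_add y t
      have e2 : HasDerivAt (fun t => f y + f' y * t + M * t ^ 2 / 2) (f' y + M * t) t := by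
        have e3 := ((hasDerivAt_id t).const_mul (f' y)).const_add (f y)
        have e4 := ((hasDerivAt_pow 2 t).const_mul M).div_const 2
        have e5 := e3.add e4
        refine e5.congr_deriv ?_
        simp
        ring
      exact e2.sub e1
    have hg0 : g 0 = 0 := by simp [hg]
    have hcont : Continuous g := continuous_iff_continuousAt.2 fun t => (hgd t).continuousAt
    have hgn : 0 ≤ g h := by
      rcases le_total 0 h with hh | hh
      · have : MonotoneOn g (Ici 0) := by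
          apply monotoneOn_of_deriv_nonneg (convex_Ici 0) hcont.continuousOn
          · exact fun t _ => (hgd t).differentiableAt.differentiableWithinAt
          · intro t ht
            rw [interior_Ici, mem_Ioi] at ht
            rw [(hgd t).deriv]
            have h4 := abs_le.1 (hmono (y + t))
            rw [add_sub_cancel_left, abs_of_pos ht] at h4
            linarith [h4.2]
        have h5 := this (mem_Ici.2 le_rfl) (mem_Ici.2 hh) hh
        rwa [hg0] at h5
      · have : AntitoneOn g (Iic 0) := by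
          apply antitoneOn_of_deriv_nonpos (convex_Iic 0) hcont.continuousOn
          · exact fun t _ => (hgd t).differentiableAt.differentiableWithinAt
          · intro t ht
            rw [interior_Iic, mem_Iio] at ht
            rw [(hgd t).deriv]
            have h4 := abs_le.1 (hmono (y + t))
            rw [add_sub_cancel_left, abs_of_neg ht] at h4
            linarith [h4.1]
        have h5 := this (mem_Iic.2 hh) (mem_Iic.2 le_rfl) hh
        rwa [hg0] at h5
    have := h0 (y + h)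
    simp only [hg] at hgn
    linarith
  have h6 := key (-(f' y) / M)
  have h7 : f y + f' y * (-(f' y) / M) + M * (-(f' y) / M) ^ 2 / 2 =
      f y - f' y ^ 2 / (2 * M) := by
    field_simp
    ring
  rw [h7] at h6
  have h8 : f' y ^ 2 / (2 * M) ≤ f y := by linarith
  rwa [div_le_iff₀ (by positivity), mul_comm] at h8

namespace SepData

variable {μ μ' μ'' : Fin N → ℝ → ℝ} {M : ℝ}

theorem sS_nonneg (S : SepData μ μ' μ'' M) (x : Eu N) : 0 ≤ sS μ x :=
  Finset.sum_nonneg fun i _ => S.nonneg i _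

theorem sQ_le (S : SepData μ μ' μ'' M) (x : Eu N) : sQ μ' x ≤ 2 * M * sS μ x := by
  unfold sQ sS
  rw [Finset.mul_sum]
  exact Finset.sum_le_sum fun i _ => sq_deriv_le S.M_pos (S.h1 i) (S.h2 i) (S.nonneg i) (S.bd i) _

theorem continuous_μ (S : SepData μ μ' μ'' M) (i : Fin N) : Continuous (μ i) :=
  continuous_iff_continuousAt.2 fun y => (S.h1 i y).continuousAt

theorem continuous_μ' (S : SepData μ μ' μ'' M) (i : Fin N) : Continuous (μ' i) :=
  continuous_iff_continuousAt.2 fun y => (S.h2 i y).continuousAt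

theorem continuous_sS (S : SepData μ μ' μ'' M) : Continuous (sS μ) := by
  unfold sS
  exact continuous_finsetSum _ fun i _ => (S.continuous_μ i).comp
    (EuclideanSpace.proj (𝕜 := ℝ) i).continuous

theorem continuous_sQ (S : SepData μ μ' μ'' M) : Continuous (sQ μ') := by
  unfold sQ
  exact continuous_finsetSum _ fun i _ => ((S.continuous_μ' i).comp
    (EuclideanSpace.proj (𝕜 := ℝ) i).continuous).pow 2

theorem continuous_sG (S : SepData μ μ' μ'' M) : Continuous (sG μ') := by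
  unfold sG
  apply (PiLp.continuous_toLp 2 _).comp
  exact continuous_pi fun i => (S.continuous_μ' i).comp
    (EuclideanSpace.proj (𝕜 := ℝ) i).continuous

/-- derivative of a function of the `i`-th coordinate -/
theorem _root_.Pool.Agent.Lib.MP_ae319b_an.hasFDerivAt_coord {f : ℝ → ℝ} {f' : ℝ} (i : Fin N)
    {x : Eu N} (h : HasDerivAt f f' (x i)) :
    HasFDerivAt (fun x : Eu N => f (x i)) (f' • (EuclideanSpace.proj (𝕜 := ℝ) i : Eu N →L[ℝ] ℝ))
      x := by
  have h2 : HasFDerivAt (fun x : Eu N => x i)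
      (EuclideanSpace.proj (𝕜 := ℝ) i : Eu N →L[ℝ] ℝ) x :=
    (EuclideanSpace.proj (𝕜 := ℝ) i : Eu N →L[ℝ] ℝ).hasFDerivAt
  exact h.comp_hasFDerivAt x h2

theorem hasFDerivAt_sS (S : SepData μ μ' μ'' M) (x : Eu N) :
    HasFDerivAt (sS μ) (∑ i, μ' i (x i) • (EuclideanSpace.proj (𝕜 := ℝ) i : Eu N →L[ℝ] ℝ)) x := by
  unfold sS
  exact HasFDerivAt.fun_sum fun i _ => hasFDerivAt_coord i (S.h1 i (x i))

theorem hasFDerivAt_sQ (S : SepData μ μ' μ'' M) (x : Eu N) :
    HasFDerivAt (sQ μ') (∑ i, (2 * μ' i (x i) * μ'' i (x i)) •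
      (EuclideanSpace.proj (𝕜 := ℝ) i : Eu N →L[ℝ] ℝ)) x := by
  unfold sQ
  refine HasFDerivAt.fun_sum fun i _ => ?_
  have h := (S.h2 i (x i)).pow 2
  simp only [Nat.cast_ofNat, Nat.add_one_sub_one, pow_one] at h
  exact hasFDerivAt_coord i h

theorem fderiv_sS_apply (S : SepData μ μ' μ'' M) (x v : Eu N) :
    fderiv ℝ (sS μ) x v = ∑ i, μ' i (x i) * v i := by
  rw [(S.hasFDerivAt_sS x).fderiv]
  simp

theorem gradient_sS (S : SepData μ μ' μ'' M) (x : Eu N) : gradient (sS μ) x = sG μ' x := by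
  unfold gradient
  rw [LinearIsometryEquiv.symm_apply_eq]
  ext v
  rw [S.fderiv_sS_apply]
  simp [sG, PiLp.inner_apply, mul_comm]

end SepData

end Pool.Agent.Lib.MP_ae319b_an
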