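import Pool.Agent.Lib.MP_ae319b_an.Energy2
import Pool.Agent.Lib.MP_ae319b_an.LpDct

/-!
# MP_ae319b_an : the Sobolev step
-/

namespace Pool.Agent.Lib.MP_ae319b_an

open MeasureTheory Filter Topology Set Module
open scoped ENNReal NNReal RealInnerProductSpace ContDiff

variable {N : ℕ}

/-- The Sobolev constant. -/
noncomputable def CS (N : ℕ) (p : ℝ) : ℝ≥0 :=
  eLpNormLESNormFDerivOfEqInnerConst (volume : Measure (Eu N)) p

/-- The Sobolev exponent. -/
noncomputable def pst (N : ℕ) (p : ℝ) : ℝ := N * p / (N - p)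

theorem pst_pos {p : ℝ} (hp1 : 1 < p) (hp2 : p < 2) (hN : 2 ≤ N) : 0 < pst N p := by
  have : (2 : ℝ) ≤ N := by exact_mod_cast hN
  unfold pst
  apply div_pos <;> nlinarith

theorem sobolev_c1 {p : ℝ} (hp1 : 1 < p) (hp2 : p < 2) (hN : 2 ≤ N) {v : Eu N → ℝ}
    (hv : ContDiff ℝ 1 v) (hc : HasCompactSupport v) :
    eLpNorm v (ENNReal.ofReal (pst N p)) volume ≤
      CS N p * eLpNorm (fderiv ℝ v) (ENNReal.ofReal p) volume := by
  have hN' : (2 : ℝ) ≤ N := by exact_mod_cast hN
  have hp0 : 0 < p := by linarith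
  have h := eLpNorm_le_eLpNorm_fderiv_of_eq_inner (volume : Measure (Eu N)) hv hc
    (p := p.toNNReal) (p' := (pst N p).toNNReal)
    (by rw [Real.one_le_toNNReal]; exact hp1.le)
    (by rw [finrank_euclideanSpace_fin]; omega)
    (by
      rw [finrank_euclideanSpace_fin, Real.coe_toNNReal _ (pst_pos hp1 hp2 hN).le, NNReal.coe_inv,
        Real.coe_toNNReal _ hp0.le]
      unfold pst
      have : (N : ℝ) - p ≠ 0 := by linarith
      field_simp)
  rw [Real.coe_toNNReal _ hp0.le] at h
  exact h

theorem sobolev_limit {Ω : Set (Eu N)} {p : ℝ} {u : Eu N → ℝ} {G : Eu N → Eu N}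
    {F : Eu N → ℝ} {φ : ℕ → Eu N → ℝ} (D : Data Ω p u G F φ) (hN : 2 ≤ N) {η : Eu N → ℝ}
    (hη : Cutoff Ω η) {b : ℝ} (hb : 0 < b) (hb1 : b ≤ 1) (l : ℝ) {d : ℝ} (hd : 0 < d) :
    eLpNorm (fun x => η x ^ 2 * Gf b ((u x - l) / d)) (ENNReal.ofReal (pst N p)) volume ≤
      CS N p * (eLpNorm (fun x => (η x ^ 2 * (Gf' b ((u x - l) / d) / d)) * ‖G x‖)
        (ENNReal.ofReal p) volume +
      eLpNorm (fun x => (2 * η x * Gf b ((u x - l) / d)) * ‖fderiv ℝ η x‖)
        (ENNReal.ofReal p) volume) := by
  have hp1 := D.hp1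
  have hp2 := D.hp2
  have hp0 : 0 < p := by linarith
  have hone : (1 : ℝ≥0∞) ≤ ENNReal.ofReal p := by
    rw [ENNReal.one_le_ofReal]; exact hp1.le
  have hφ1 : ∀ n, ContDiff ℝ 1 (φ n) := fun n => (D.hφ n).1.of_le (by exact_mod_cast le_top)
  obtain ⟨ns, hns, hae⟩ := exists_subseq_ae (f := φ) (g := u) (p := ENNReal.ofReal p)
    (by simpa using hp0) (fun n => (hφ1 n).continuous.aestronglyMeasurable) D.hu.1 D.hφu
  have hwc : ∀ {f : Eu N → ℝ}, Continuous f → Continuous (fun x => (f x - l) / d) :=
    fun h => (h.sub continuous_const).div_const d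
  have hηc : Continuous η := hη.smooth.continuous
  have hfd : Continuous (fderiv ℝ η) := hη.smooth.continuous_fderiv one_ne_zero
  have hη2 : ∀ x, η x ^ 2 ≤ 1 := fun x => pow_le_one₀ (hη.nonneg x) (hη.le_one x)
  obtain ⟨Cη, hCη⟩ := hfd.bounded_above_of_compact_support (hη.comp.fderiv ℝ)
  have hCη0 : 0 ≤ Cη := (norm_nonneg _).trans (hCη 0)
  have hGc : Continuous (Gf b) := (contDiff_Gf b).continuous
  have hwm : AEStronglyMeasurable (fun x => (u x - l) / d) (volume : Measure (Eu N)) :=
    ((D.hu.1.aemeasurable.sub_const l).div_const d).aestronglyMeasurable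
  -- the functions
  set v : ℕ → Eu N → ℝ := fun i x => η x ^ 2 * Gf b ((φ (ns i) x - l) / d) with hv
  set c : ℕ → Eu N → ℝ := fun i x => η x ^ 2 * (Gf' b ((φ (ns i) x - l) / d) / d) with hc
  set c' : Eu N → ℝ := fun x => η x ^ 2 * (Gf' b ((u x - l) / d) / d) with hc'
  set e' : Eu N → ℝ := fun x => 2 * η x * Gf b ((u x - l) / d) with he'
  have hcb : ∀ (w : ℝ) x, |η x ^ 2 * (Gf' b w / d)| ≤ b / d := by
    intro w x
    rw [abs_of_nonneg (mul_nonneg (sq_nonneg _) (div_nonneg (Gf'_nonneg hb.le w) hd.le))]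
    calc η x ^ 2 * (Gf' b w / d) ≤ 1 * (b / d) := by
          gcongr
          · exact div_nonneg (Gf'_nonneg hb.le w) hd.le
          · exact hη2 x
          · exact Gf'_le hb.le hb1 w
      _ = b / d := one_mul _
  have hc'm : AEStronglyMeasurable c' (volume : Measure (Eu N)) := by
    have := (continuous_Gf' b).comp_aestronglyMeasurable hwm
    exact (hηc.pow 2).aestronglyMeasurable.mul (this.aemeasurable.div_const d).aestronglyMeasurable
  have he'm : AEStronglyMeasurable e' (volume : Measure (Eu N)) := by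
    have := hGc.comp_aestronglyMeasurable hwm
    exact (continuous_const.mul hηc).aestronglyMeasurable.mul this
  have hcm : ∀ i, Continuous (c i) := by
    intro i
    have := (continuous_Gf' b).comp (hwc (hφ1 (ns i)).continuous)
    exact (hηc.pow 2).mul (this.div_const d)
  have hgm : ∀ i, AEStronglyMeasurable (fun x => gradient (φ (ns i)) x - G x)
      (volume : Measure (Eu N)) := by
    intro i
    have : Continuous (fderiv ℝ (φ (ns i))) := (hφ1 (ns i)).continuous_fderiv one_ne_zero
    exact ((InnerProductSpace.toDual ℝ (Eu N)).symm.continuous.comp this).aestronglyMeasurable.sub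
      D.hG.1
  -- the error terms
  set E : ℕ → ℝ≥0∞ := fun i =>
    ENNReal.ofReal (b / d) * eLpNorm (fun x => gradient (φ (ns i)) x - G x) (ENNReal.ofReal p) volume +
    eLpNorm (fun x => (c i x - c' x) * ‖G x‖) (ENNReal.ofReal p) volume +
    ENNReal.ofReal (2 * (b / d) * Cη) * eLpNorm (fun x => φ (ns i) x - u x)
      (ENNReal.ofReal p) volume with hE
  have hE0 : Tendsto E atTop (𝓝 0) := by
    have h1 : Tendsto (fun i => ENNReal.ofReal (b / d) *
        eLpNorm (fun x => gradient (φ (ns i)) x - G x) (ENNReal.ofReal p) volume) atTop (𝓝 0) := by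
      have := ENNReal.Tendsto.const_mul (a := ENNReal.ofReal (b / d))
        (D.hφG.comp hns.tendsto_atTop) (Or.inr ENNReal.ofReal_ne_top)
      rwa [mul_zero] at this
    have h2 : Tendsto (fun i => eLpNorm (fun x => (c i x - c' x) * ‖G x‖) (ENNReal.ofReal p)
        volume) atTop (𝓝 0) := by
      apply tendsto_eLpNorm_zero_of_dominated hp0 (h := fun x => (2 * (b / d)) * ‖G x‖)
      · intro i
        exact ((hcm i).aestronglyMeasurable.sub hc'm).mul D.hG.1.norm
      · exact D.hG.norm.const_mul _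
      · intro i
        filter_upwards with x
        rw [norm_mul, norm_norm]
        gcongr
        rw [Real.norm_eq_abs]
        calc |c i x - c' x| ≤ |c i x| + |c' x| := abs_sub _ _
          _ ≤ b / d + b / d := add_le_add (hcb _ x) (hcb _ x)
          _ = 2 * (b / d) := by ring
      · filter_upwards [hae] with x hx
        have h3 : Tendsto (fun i => c i x) atTop (𝓝 (c' x)) := by
          apply Tendsto.const_mul
          apply Tendsto.div_const
          exact ((continuous_Gf' b).tendsto _).comp ((hx.sub_const l).div_const d)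
        have h4 := (h3.sub_const (c' x)).mul_const ‖G x‖
        rwa [sub_self, zero_mul] at h4
    have h3 : Tendsto (fun i => ENNReal.ofReal (2 * (b / d) * Cη) *
        eLpNorm (fun x => φ (ns i) x - u x) (ENNReal.ofReal p) volume) atTop (𝓝 0) := by
      have := ENNReal.Tendsto.const_mul (a := ENNReal.ofReal (2 * (b / d) * Cη))
        (D.hφu.comp hns.tendsto_atTop) (Or.inr ENNReal.ofReal_ne_top)
      rwa [mul_zero] at this
    have h4 := (h1.add h2).add h3
    simpa using h4
  set A := eLpNorm (fun x => c' x * ‖G x‖) (ENNReal.ofReal p) volume with hA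
  set B := eLpNorm (fun x => e' x * ‖fderiv ℝ η x‖) (ENNReal.ofReal p) volume with hB
  -- the estimate for the approximations
  have hest : ∀ i, eLpNorm (v i) (ENNReal.ofReal (pst N p)) volume ≤ CS N p * ((A + B) + E i) := by
    intro i
    obtain ⟨h1, h2, -, h4⟩ := test_props hη (hφ1 (ns i)) (contDiff_Gf b) (hasDerivAt_Gf b) l d
    refine (sobolev_c1 hp1 hp2 hN h1 h2).trans ?_
    gcongr
    have hpt : ∀ x, ‖fderiv ℝ (v i) x‖ ≤ ‖(b / d) * ‖gradient (φ (ns i)) x - G x‖ +
        |(c i x - c' x) * ‖G x‖| + (2 * (b / d) * Cη) * |φ (ns i) x - u x| +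
        c' x * ‖G x‖ + e' x * ‖fderiv ℝ η x‖‖ := by
      intro x
      rw [h4 x]
      refine le_trans ?_ (Real.le_norm_self _)
      refine (norm_add_le _ _).trans ?_
      rw [norm_smul, norm_smul]
      have e1 : ‖η x ^ 2 * (Gf' b ((φ (ns i) x - l) / d) / d)‖ = c i x := by
        rw [Real.norm_of_nonneg (mul_nonneg (sq_nonneg _)
          (div_nonneg (Gf'_nonneg hb.le _) hd.le))]
      have e2 : ‖2 * η x * Gf b ((φ (ns i) x - l) / d)‖ = 2 * η x * Gf b ((φ (ns i) x - l) / d) := by
        rw [Real.norm_of_nonneg (mul_nonneg (mul_nonneg zero_le_two (hη.nonneg x))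
          (Gf_nonneg hb.le _))]
      rw [e1, e2, ← norm_gradient]
      have hci0 : 0 ≤ c i x := mul_nonneg (sq_nonneg _) (div_nonneg (Gf'_nonneg hb.le _) hd.le)
      have hci1 : c i x ≤ b / d := (le_abs_self _).trans (hcb _ x)
      have e3 : ‖gradient (φ (ns i)) x‖ ≤ ‖gradient (φ (ns i)) x - G x‖ + ‖G x‖ := by
        have := norm_add_le (gradient (φ (ns i)) x - G x) (G x)
        rwa [sub_add_cancel] at this
      have e4 : c i x * ‖gradient (φ (ns i)) x‖ ≤ (b / d) * ‖gradient (φ (ns i)) x - G x‖ +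
          |(c i x - c' x) * ‖G x‖| + c' x * ‖G x‖ := by
        calc c i x * ‖gradient (φ (ns i)) x‖
            ≤ c i x * (‖gradient (φ (ns i)) x - G x‖ + ‖G x‖) := by gcongr
          _ = c i x * ‖gradient (φ (ns i)) x - G x‖ + (c i x - c' x) * ‖G x‖ + c' x * ‖G x‖ := by
              ring
          _ ≤ _ := by
              gcongr
              exact le_abs_self _
      have e5 : 2 * η x * Gf b ((φ (ns i) x - l) / d) ≤ e' x + 2 * (b / d) * |φ (ns i) x - u x| := by
        have e6 := Gf_lipschitz hb.le hb1 ((φ (ns i) x - l) / d) ((u x - l) / d)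
        have e7 : (φ (ns i) x - l) / d - (u x - l) / d = (φ (ns i) x - u x) / d := by ring
        rw [e7, abs_div, abs_of_pos hd] at e6
        have e8 := (abs_le.1 e6).2
        have e9 : 2 * η x * (Gf b ((φ (ns i) x - l) / d) - Gf b ((u x - l) / d)) ≤
            2 * 1 * (b * (|φ (ns i) x - u x| / d)) := by
          have hη1 := hη.le_one x
          have hη0 := hη.nonneg x
          calc _ ≤ 2 * η x * (b * (|φ (ns i) x - u x| / d)) := by gcongr
            _ ≤ _ := by gcongr
        have e10 : 2 * 1 * (b * (|φ (ns i) x - u x| / d)) = 2 * (b / d) * |φ (ns i) x - u x| := by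
          ring
        rw [e10] at e9
        simp only [he']
        linarith
      have e11 : 2 * η x * Gf b ((φ (ns i) x - l) / d) * ‖fderiv ℝ η x‖ ≤
          e' x * ‖fderiv ℝ η x‖ + (2 * (b / d) * Cη) * |φ (ns i) x - u x| := by
        calc _ ≤ (e' x + 2 * (b / d) * |φ (ns i) x - u x|) * ‖fderiv ℝ η x‖ := by gcongr
          _ = e' x * ‖fderiv ℝ η x‖ + 2 * (b / d) * |φ (ns i) x - u x| * ‖fderiv ℝ η x‖ := by ring
          _ ≤ e' x * ‖fderiv ℝ η x‖ + 2 * (b / d) * |φ (ns i) x - u x| * Cη := by
              gcongr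
              exact hCη x
          _ = _ := by ring
      linarith
    refine (eLpNorm_mono hpt).trans ?_
    have m1 : AEStronglyMeasurable (fun x => (b / d) * ‖gradient (φ (ns i)) x - G x‖)
        (volume : Measure (Eu N)) := (hgm i).norm.const_mul _
    have m2 : AEStronglyMeasurable (fun x => |(c i x - c' x) * ‖G x‖|)
        (volume : Measure (Eu N)) :=
      (((hcm i).aestronglyMeasurable.sub hc'm).mul D.hG.1.norm).norm
    have m3 : AEStronglyMeasurable (fun x => (2 * (b / d) * Cη) * |φ (ns i) x - u x|)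
        (volume : Measure (Eu N)) :=
      (((hφ1 (ns i)).continuous.aestronglyMeasurable.sub D.hu.1).norm).const_mul _
    have m4 : AEStronglyMeasurable (fun x => c' x * ‖G x‖) (volume : Measure (Eu N)) :=
      hc'm.mul D.hG.1.norm
    have m5 : AEStronglyMeasurable (fun x => e' x * ‖fderiv ℝ η x‖) (volume : Measure (Eu N)) :=
      he'm.mul hfd.norm.aestronglyMeasurable
    have s1 := eLpNorm_add_le (((m1.add m2).add m3).add m4) m5 hone
    have s2 := eLpNorm_add_le ((m1.add m2).add m3) m4 hone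
    have s3 := eLpNorm_add_le (m1.add m2) m3 hone
    have s4 := eLpNorm_add_le m1 m2 hone
    have t1 : eLpNorm (fun x => (b / d) * ‖gradient (φ (ns i)) x - G x‖) (ENNReal.ofReal p) volume ≤
        ENNReal.ofReal (b / d) * eLpNorm (fun x => gradient (φ (ns i)) x - G x)
          (ENNReal.ofReal p) volume := by
      have := eLpNorm_const_smul_le (c := b / d) (f := fun x => ‖gradient (φ (ns i)) x - G x‖)
        (p := ENNReal.ofReal p) (μ := (volume : Measure (Eu N)))
      rw [eLpNorm_norm, Real.enorm_of_nonneg (by positivity : 0 ≤ b / d)] at this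
      exact this
    have t2 : eLpNorm (fun x => |(c i x - c' x) * ‖G x‖|) (ENNReal.ofReal p) volume =
        eLpNorm (fun x => (c i x - c' x) * ‖G x‖) (ENNReal.ofReal p) volume :=
      eLpNorm_norm (fun x => (c i x - c' x) * ‖G x‖)
    have t3 : eLpNorm (fun x => (2 * (b / d) * Cη) * |φ (ns i) x - u x|) (ENNReal.ofReal p)
        volume ≤ ENNReal.ofReal (2 * (b / d) * Cη) * eLpNorm (fun x => φ (ns i) x - u x)
          (ENNReal.ofReal p) volume := by
      have := eLpNorm_const_smul_le (c := 2 * (b / d) * Cη) (f := fun x => ‖φ (ns i) x - u x‖)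
        (p := ENNReal.ofReal p) (μ := (volume : Measure (Eu N)))
      rw [eLpNorm_norm, Real.enorm_of_nonneg (by positivity : 0 ≤ 2 * (b / d) * Cη)] at this
      exact this
    have s5 := s1.trans (add_le_add_left (s2.trans (add_le_add_left (s3.trans
      (add_le_add_left s4 _)) _)) _)
    refine s5.trans ?_
    rw [t2]
    calc _ ≤ ENNReal.ofReal (b / d) * eLpNorm (fun x => gradient (φ (ns i)) x - G x)
          (ENNReal.ofReal p) volume +
          eLpNorm (fun x => (c i x - c' x) * ‖G x‖) (ENNReal.ofReal p) volume +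
          ENNReal.ofReal (2 * (b / d) * Cη) * eLpNorm (fun x => φ (ns i) x - u x)
          (ENNReal.ofReal p) volume + A + B := by gcongr
      _ = (A + B) + E i := by
          simp only [hE]
          ring
  -- passage to the limit
  have hlim : ∀ᵐ x ∂(volume : Measure (Eu N)), Tendsto (fun i => v i x) atTop
      (𝓝 (η x ^ 2 * Gf b ((u x - l) / d))) := by
    filter_upwards [hae] with x hx
    apply Tendsto.const_mul
    exact (hGc.tendsto _).comp ((hx.sub_const l).div_const d)
  have hvm : ∀ i, AEStronglyMeasurable (v i) (volume : Measure (Eu N)) := by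
    intro i
    have := hGc.comp (hwc (hφ1 (ns i)).continuous)
    exact ((hηc.pow 2).mul this).aestronglyMeasurable
  refine (Lp.eLpNorm_lim_le_liminf_eLpNorm hvm _ hlim).trans ?_
  have hlimR : Tendsto (fun i => (CS N p : ℝ≥0∞) * ((A + B) + E i)) atTop
      (𝓝 (CS N p * ((A + B) + 0))) := by
    apply ENNReal.Tendsto.const_mul _ (Or.inr ENNReal.coe_ne_top)
    exact tendsto_const_nhds.add hE0
  rw [add_zero] at hlimR
  calc atTop.liminf (fun i => eLpNorm (v i) (ENNReal.ofReal (pst N p)) volume)
      ≤ atTop.liminf (fun i => (CS N p : ℝ≥0∞) * ((A + B) + E i)) :=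
        liminf_le_liminf (Eventually.of_forall hest)
    _ = CS N p * (A + B) := hlimR.liminf_eq

end Pool.Agent.Lib.MP_ae319b_an
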