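import Pool.Agent.Lib.MP_ae319b_an.Sobolev

/-!
# MP_ae319b_an : the Sobolev step on balls
-/

namespace Pool.Agent.Lib.MP_ae319b_an

open MeasureTheory Filter Topology Set Module
open scoped ENNReal NNReal RealInnerProductSpace ContDiff

variable {N : ℕ}

theorem exists_cutoff (N : ℕ) : ∃ Cη : ℝ, 0 < Cη ∧ ∀ (a : Eu N) (r : ℝ), 0 < r →
    ∃ η : Eu N → ℝ, ContDiff ℝ 1 η ∧ HasCompactSupport η ∧ tsupport η ⊆ Metric.ball a r ∧
      (∀ x, 0 ≤ η x) ∧ (∀ x, η x ≤ 1) ∧ (∀ x ∈ Metric.ball a (r / 2), η x = 1) ∧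
      ∀ x, ‖fderiv ℝ η x‖ ≤ Cη / r := by
  let ρ : ContDiffBump (0 : Eu N) := ⟨1 / 2, 3 / 4, by norm_num, by norm_num⟩
  have hρin : ρ.rIn = 1 / 2 := rfl
  have hρout : ρ.rOut = 3 / 4 := rfl
  have hsm : ContDiff ℝ 1 ρ := ρ.contDiff
  obtain ⟨C, hC⟩ := (hsm.continuous_fderiv one_ne_zero).bounded_above_of_compact_support
    (ρ.hasCompactSupport.fderiv ℝ)
  refine ⟨|C| + 1, by positivity, ?_⟩
  intro a r hr
  have hsupp : Function.support (fun x => ρ (r⁻¹ • (x - a))) ⊆ Metric.closedBall a (3 / 4 * r) := by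
    intro x hx
    have h1 : r⁻¹ • (x - a) ∈ Function.support ρ := hx
    rw [ρ.support_eq, hρout, mem_ball_zero_iff, norm_smul, Real.norm_of_nonneg (by positivity),
      inv_mul_eq_div, div_lt_iff₀ hr] at h1
    rw [mem_closedBall_iff_norm]
    exact h1.le
  have hts : tsupport (fun x => ρ (r⁻¹ • (x - a))) ⊆ Metric.closedBall a (3 / 4 * r) :=
    closure_minimal hsupp Metric.isClosed_closedBall
  refine ⟨fun x => ρ (r⁻¹ • (x - a)), ?_, ?_, ?_, ?_, ?_, ?_, ?_⟩
  · exact hsm.comp ((contDiff_id.sub contDiff_const).const_smul r⁻¹)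
  · exact HasCompactSupport.of_support_subset_isCompact (isCompact_closedBall a (3 / 4 * r)) hsupp
  · refine hts.trans (Metric.closedBall_subset_ball ?_)
    linarith
  · intro x
    exact ρ.nonneg
  · intro x
    exact ρ.le_one
  · intro x hx
    apply ρ.one_of_mem_closedBall
    rw [hρin, mem_closedBall_zero_iff, norm_smul, Real.norm_of_nonneg (by positivity),
      inv_mul_eq_div, div_le_iff₀ hr]
    rw [mem_ball_iff_norm] at hx
    linarith
  · intro x
    have h1 : HasFDerivAt ρ (fderiv ℝ ρ (r⁻¹ • (x - a))) (r⁻¹ • (x - a)) :=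
      (hsm.differentiable one_ne_zero _).hasFDerivAt
    have h2 : HasFDerivAt (fun x : Eu N => r⁻¹ • (x - a)) (r⁻¹ • ContinuousLinearMap.id ℝ (Eu N))
        x := ((hasFDerivAt_id x).sub_const a).const_smul r⁻¹
    have h3 := h1.comp x h2
    change ‖fderiv ℝ (ρ ∘ fun x => r⁻¹ • (x - a)) x‖ ≤ _
    rw [h3.fderiv]
    refine (ContinuousLinearMap.opNorm_comp_le _ _).trans ?_
    rw [norm_smul, Real.norm_of_nonneg (by positivity : 0 ≤ r⁻¹)]
    have h4 := hC (r⁻¹ • (x - a))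
    have h5 : ‖ContinuousLinearMap.id ℝ (Eu N)‖ ≤ 1 := ContinuousLinearMap.norm_id_le
    calc _ ≤ (|C| + 1) * (r⁻¹ * 1) := by
          gcongr
          exact h4.trans ((le_abs_self C).trans (by linarith))
      _ = (|C| + 1) / r := by ring

/-- the exponent `σ` -/
noncomputable def sig (N : ℕ) (p : ℝ) : ℝ := p * (p - 1) / (N + (p - 1) * (N - p))

theorem sig_pos {p : ℝ} (hp1 : 1 < p) (hp2 : p < 2) (hN : 2 ≤ N) : 0 < sig N p := by
  have hN' : (2 : ℝ) ≤ N := by exact_mod_cast hN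
  unfold sig
  apply div_pos
  · nlinarith
  · nlinarith

theorem sig_lt {p : ℝ} (hp1 : 1 < p) (hp2 : p < 2) (hN : 2 ≤ N) : sig N p < p - 1 := by
  have hN' : (2 : ℝ) ≤ N := by exact_mod_cast hN
  have h1 : 0 < (N : ℝ) + (p - 1) * (N - p) := by nlinarith
  unfold sig
  rw [div_lt_iff₀ h1]
  have h2 : p < (N : ℝ) + (p - 1) * (N - p) := by nlinarith
  nlinarith

/-- the exponent `γ` -/
noncomputable def gam (N : ℕ) (p : ℝ) : ℝ := (1 + sig N p) * (p - 1)

theorem gam_pos {p : ℝ} (hp1 : 1 < p) (hp2 : p < 2) (hN : 2 ≤ N) : 0 < gam N p := by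
  have := sig_pos hp1 hp2 hN
  unfold gam
  apply mul_pos <;> linarith

theorem gam_le {p : ℝ} (hp1 : 1 < p) (hp2 : p < 2) (hN : 2 ≤ N) : gam N p ≤ p := by
  have := sig_lt hp1 hp2 hN
  have := sig_pos hp1 hp2 hN
  unfold gam
  nlinarith

/-- the exponent `b` -/
noncomputable def bb (N : ℕ) (p : ℝ) : ℝ := (p - 1 - sig N p) / p

theorem bb_pos {p : ℝ} (hp1 : 1 < p) (hp2 : p < 2) (hN : 2 ≤ N) : 0 < bb N p := by
  have := sig_lt hp1 hp2 hN
  unfold bb
  apply div_pos <;> linarith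

theorem bb_le_one {p : ℝ} (hp1 : 1 < p) (hp2 : p < 2) (hN : 2 ≤ N) : bb N p ≤ 1 := by
  have := sig_pos hp1 hp2 hN
  unfold bb
  rw [div_le_one (by linarith)]
  linarith

/-- the key relation between the exponents -/
theorem bb_mul_pst {p : ℝ} (hp1 : 1 < p) (hp2 : p < 2) (hN : 2 ≤ N) :
    bb N p * pst N p = gam N p := by
  have hN' : (2 : ℝ) ≤ N := by exact_mod_cast hN
  have h1 : (N : ℝ) + (p - 1) * (N - p) ≠ 0 := by nlinarith
  have h2 : (N : ℝ) - p ≠ 0 := by linarith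
  have h3 : p ≠ 0 := by linarith
  unfold bb pst gam sig
  field_simp
  ring

/-- The Sobolev step. -/
theorem sobolev_step {p : ℝ} (hp1 : 1 < p) (hp2 : p < 2) (hN : 2 ≤ N) :
    ∃ C0 : ℝ, 0 < C0 ∧ ∀ {Ω : Set (Eu N)} {u : Eu N → ℝ} {G : Eu N → Eu N}
      {F : Eu N → ℝ} {φ : ℕ → Eu N → ℝ} (_ : Data Ω p u G F φ) (a : Eu N) (r l d : ℝ),
      0 < r → 0 < d → Metric.ball a r ⊆ Ω →
      ∫⁻ x in Metric.ball a (r / 2), ‖Gf (bb N p) ((u x - l) / d)‖ₑ ^ (pst N p) ≤
        (ENNReal.ofReal C0 * (ENNReal.ofReal (d ^ (1 - p)) * (∫⁻ x in Metric.ball a r, ‖F x‖ₑ) +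
          ENNReal.ofReal (r ^ (-p)) *
            ∫⁻ x in Metric.ball a r, ENNReal.ofReal (Zt (gam N p) ((u x - l) / d)))) ^
          (pst N p / p) := by
  have hp0 : 0 < p := by linarith
  set σ := sig N p with hσdef
  set γ := gam N p with hγdef
  set b := bb N p with hbdef
  set q := pst N p with hqdef
  have hσ := sig_pos hp1 hp2 hN
  have hσp := sig_lt hp1 hp2 hN
  have hγ := gam_pos hp1 hp2 hN
  have hγp := gam_le hp1 hp2 hN
  have hb := bb_pos hp1 hp2 hN
  have hb1 := bb_le_one hp1 hp2 hN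
  have hq := pst_pos hp1 hp2 hN
  rw [← hσdef] at hσ hσp
  rw [← hγdef] at hγ hγp
  rw [← hbdef] at hb hb1
  rw [← hqdef] at hq
  obtain ⟨Cη, hCη, hcut⟩ := exists_cutoff N
  set K1 := b ^ p / σ with hK1
  have hK1pos : 0 < K1 := by positivity
  have hCY := CY_pos (p := p) hσ
  set K2 := 2 * K1 + 2 * K1 * CY p σ + 2 ^ p with hK2
  have hK2pos : 0 < K2 := by positivity
  set C0 := ((CS N p : ℝ) + 1) ^ p * 2 ^ (p - 1) * K2 * (1 + Cη ^ p) with hC0
  have hC0pos : 0 < C0 := by positivity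
  refine ⟨C0, hC0pos, ?_⟩
  intro Ω u G F φ D a r l d hr hd hball
  obtain ⟨η, hη1, hη2, hη3, hη4, hη5, hη6, hη7⟩ := hcut a r hr
  have hη : Cutoff Ω η := ⟨hη1, hη2, hη3.trans hball, hη4, hη5⟩
  have hηz : ∀ x ∉ Metric.ball a r, η x = 0 := fun x hx =>
    image_eq_zero_of_notMem_tsupport fun h => hx (hη3 h)
  have hηz' : ∀ x ∉ Metric.ball a r, fderiv ℝ η x = 0 := by
    intro x hx
    by_contra hne
    exact hx (hη3 (support_fderiv_subset ℝ hne))
  set w : Eu N → ℝ := fun x => (u x - l) / d with hw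
  have hfd : Continuous (fderiv ℝ η) := hη1.continuous_fderiv one_ne_zero
  have hwm : AEStronglyMeasurable w (volume : Measure (Eu N)) :=
    ((D.hu.1.aemeasurable.sub_const l).div_const d).aestronglyMeasurable
  have hmeasball : MeasurableSet (Metric.ball a r) := measurableSet_ball
  set J1 := ∫⁻ x in Metric.ball a r, ‖F x‖ₑ with hJ1
  set J2 := ∫⁻ x in Metric.ball a r, ENNReal.ofReal (Zt γ (w x)) with hJ2
  set T := ∫ x, η x ^ 2 * Hf' σ (w x) * ‖G x‖ ^ p with hT
  set I1 := ∫ x, |F x| * η x ^ 2 with hI1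
  set I2 := ∫ x, ‖fderiv ℝ η x‖ ^ p * Zt γ (w x) with hI2
  have hen := energy_ineq D hη hσ hσp l hd
  change T ≤ 2 * d * I1 + 2 * CY p σ * d ^ p * I2 at hen
  have hI1n : 0 ≤ I1 := integral_nonneg fun x => by positivity
  have hI2n : 0 ≤ I2 := integral_nonneg fun x => by
    have := Zt_nonneg γ (w x)
    positivity
  have hTn : 0 ≤ T := integral_nonneg fun x => by
    have := Hf'_nonneg hσ (w x)
    positivity
  have hofReal_le : ∀ f : Eu N → ℝ, (∀ x, 0 ≤ f x) →
      ENNReal.ofReal (∫ x, f x) ≤ ∫⁻ x, ENNReal.ofReal (f x) := by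
    intro f hf
    have h1 := enorm_integral_le_lintegral_enorm (μ := (volume : Measure (Eu N))) f
    rw [Real.enorm_of_nonneg (integral_nonneg hf)] at h1
    refine h1.trans (le_of_eq ?_)
    congr 1
    funext x
    rw [Real.enorm_of_nonneg (hf x)]
  -- `ofReal I1 ≤ J1`
  have hI1J : ENNReal.ofReal I1 ≤ J1 := by
    refine (hofReal_le _ fun x => by positivity).trans ?_
    rw [hJ1, ← lintegral_indicator hmeasball]
    apply lintegral_mono
    intro x
    by_cases hx : x ∈ Metric.ball a r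
    · rw [indicator_of_mem hx, Real.enorm_eq_ofReal_abs]
      apply ENNReal.ofReal_le_ofReal
      have h2 : η x ^ 2 ≤ 1 := pow_le_one₀ (hη4 x) (hη5 x)
      calc |F x| * η x ^ 2 ≤ |F x| * 1 := by gcongr
        _ = |F x| := mul_one _
    · simp only [indicator_of_notMem hx, hηz x hx]
      simp
  -- the gradient term
  have hgr : ∫⁻ x, ENNReal.ofReal (‖fderiv ℝ η x‖ ^ p * Zt γ (w x)) ≤
      ENNReal.ofReal (Cη ^ p * r ^ (-p)) * J2 := by
    rw [hJ2, ← lintegral_const_mul' _ _ ENNReal.ofReal_ne_top, ← lintegral_indicator hmeasball]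
    apply lintegral_mono
    intro x
    by_cases hx : x ∈ Metric.ball a r
    · rw [indicator_of_mem hx, ← ENNReal.ofReal_mul (by positivity)]
      apply ENNReal.ofReal_le_ofReal
      have h2 := Zt_nonneg γ (w x)
      gcongr
      calc ‖fderiv ℝ η x‖ ^ p ≤ (Cη / r) ^ p := by
            gcongr
            exact hη7 x
        _ = Cη ^ p * r ^ (-p) := by
            rw [Real.div_rpow hCη.le hr.le, Real.rpow_neg hr.le]
            rfl
    · simp only [indicator_of_notMem hx, hηz' x hx]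
      rw [norm_zero, Real.zero_rpow hp0.ne']
      simp
  have hI2J : ENNReal.ofReal I2 ≤ ENNReal.ofReal (Cη ^ p * r ^ (-p)) * J2 := by
    refine (hofReal_le _ fun x => ?_).trans hgr
    have := Zt_nonneg γ (w x)
    positivity
  -- the two norms
  have h0 : ENNReal.ofReal p ≠ 0 := by simpa using hp0
  have hform : ∀ g : Eu N → ℝ, eLpNorm g (ENNReal.ofReal p) (volume : Measure (Eu N)) ^ p =
      ∫⁻ x, ‖g x‖ₑ ^ p := by
    intro g
    rw [eLpNorm_eq_lintegral_rpow_enorm_toReal h0 ENNReal.ofReal_ne_top,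
      ENNReal.toReal_ofReal hp0.le, ← ENNReal.rpow_mul, one_div_mul_cancel hp0.ne',
      ENNReal.rpow_one]
  set A := eLpNorm (fun x => (η x ^ 2 * (Gf' b (w x) / d)) * ‖G x‖) (ENNReal.ofReal p)
    (volume : Measure (Eu N)) with hA
  set B := eLpNorm (fun x => (2 * η x * Gf b (w x)) * ‖fderiv ℝ η x‖) (ENNReal.ofReal p)
    (volume : Measure (Eu N)) with hB
  have hGp : Integrable (fun x => ‖G x‖ ^ p) volume := by
    have := D.hG.integrable_norm_rpow (by simpa using hp0) ENNReal.ofReal_ne_top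
    rwa [ENNReal.toReal_ofReal hp0.le] at this
  have hTint : Integrable (fun x => η x ^ 2 * Hf' σ (w x) * ‖G x‖ ^ p) volume := by
    refine (hGp.const_mul σ).mono' ?_ ?_
    · have := (continuous_Hf' σ).comp_aestronglyMeasurable hwm
      exact (((hη1.continuous.pow 2).aestronglyMeasurable.mul this).mul hGp.1)
    · filter_upwards with x
      have h1 := Hf'_nonneg hσ (w x)
      rw [Real.norm_of_nonneg (by positivity)]
      have h2 := Hf'_le hσ (w x)
      have h3 : η x ^ 2 ≤ 1 := pow_le_one₀ (hη4 x) (hη5 x)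
      calc η x ^ 2 * Hf' σ (w x) * ‖G x‖ ^ p ≤ 1 * σ * ‖G x‖ ^ p := by gcongr
        _ = σ * ‖G x‖ ^ p := by rw [one_mul]
  have hAp : A ^ p ≤ ENNReal.ofReal (K1 * d ^ (-p) * T) := by
    rw [hA, hform, hT, ← integral_const_mul, ofReal_integral_eq_lintegral_ofReal
      (hTint.const_mul _) (Eventually.of_forall fun x => by
        have := Hf'_nonneg hσ (w x)
        positivity)]
    apply lintegral_mono
    intro x
    beta_reduce
    have h1 := Gf'_nonneg hb.le (w x)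
    have h2 := Hf'_nonneg hσ (w x)
    have h3 := Gf'_rpow_le hp1 hσ hσp (w x)
    change Gf' b (w x) ^ p ≤ K1 * Hf' σ (w x) at h3
    have h4 : (η x ^ 2) ^ p ≤ η x ^ 2 := by
      rcases (sq_nonneg (η x)).eq_or_lt with h | h
      · rw [← h, Real.zero_rpow hp0.ne']
      · calc (η x ^ 2) ^ p ≤ (η x ^ 2) ^ (1 : ℝ) :=
              Real.rpow_le_rpow_of_exponent_ge h (pow_le_one₀ (hη4 x) (hη5 x)) hp1.le
          _ = η x ^ 2 := Real.rpow_one _
    have hn : 0 ≤ (η x ^ 2 * (Gf' b (w x) / d)) * ‖G x‖ := by positivity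
    rw [Real.enorm_of_nonneg hn, ENNReal.ofReal_rpow_of_nonneg hn hp0.le]
    apply ENNReal.ofReal_le_ofReal
    rw [Real.mul_rpow (by positivity) (norm_nonneg _), Real.mul_rpow (by positivity) (by positivity),
      Real.div_rpow h1 hd.le]
    calc (η x ^ 2) ^ p * (Gf' b (w x) ^ p / d ^ p) * ‖G x‖ ^ p
        ≤ η x ^ 2 * ((K1 * Hf' σ (w x)) / d ^ p) * ‖G x‖ ^ p := by gcongr
      _ = K1 * d ^ (-p) * (η x ^ 2 * Hf' σ (w x) * ‖G x‖ ^ p) := by
          rw [Real.rpow_neg hd.le]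
          ring
  have hBp : B ^ p ≤ ENNReal.ofReal (2 ^ p) * (ENNReal.ofReal (Cη ^ p * r ^ (-p)) * J2) := by
    refine le_trans ?_ (mul_le_mul_right hgr _)
    rw [hB, hform, ← lintegral_const_mul' _ _ ENNReal.ofReal_ne_top]
    apply lintegral_mono
    intro x
    beta_reduce
    have h1 := Gf_nonneg hb.le (w x)
    have h5 : Gf b (w x) ^ p ≤ Zt γ (w x) := by
      rcases le_or_gt (w x) 0 with h | h
      · rw [Gf_of_nonpos h, Real.zero_rpow hp0.ne']
        exact Zt_nonneg _ _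
      · have h6 := Gf_rpow_le hp1 hσ hσp (w x)
        change Gf b (w x) ^ p ≤ zf (w x) ^ (γ / 2) at h6
        unfold Zt
        rwa [if_pos h]
    have h6 := hη4 x
    have hn : 0 ≤ (2 * η x * Gf b (w x)) * ‖fderiv ℝ η x‖ := by positivity
    rw [Real.enorm_of_nonneg hn, ENNReal.ofReal_rpow_of_nonneg hn hp0.le,
      ← ENNReal.ofReal_mul (by positivity)]
    apply ENNReal.ofReal_le_ofReal
    rw [Real.mul_rpow (by positivity) (norm_nonneg _), Real.mul_rpow (by positivity) h1,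
      Real.mul_rpow (by positivity) h6]
    have h7 : η x ^ p ≤ 1 := Real.rpow_le_one h6 (hη5 x) hp0.le
    have h8 := Zt_nonneg γ (w x)
    calc 2 ^ p * η x ^ p * Gf b (w x) ^ p * ‖fderiv ℝ η x‖ ^ p
        ≤ 2 ^ p * 1 * Zt γ (w x) * ‖fderiv ℝ η x‖ ^ p := by gcongr
      _ = 2 ^ p * (‖fderiv ℝ η x‖ ^ p * Zt γ (w x)) := by ring
  -- the bound of the sum
  set R := ENNReal.ofReal (d ^ (1 - p)) * J1 + ENNReal.ofReal (r ^ (-p)) * J2 with hR
  have hCη1 : 0 < 1 + Cη ^ p := by positivity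
  have hAB : A ^ p + B ^ p ≤ ENNReal.ofReal (K2 * (1 + Cη ^ p)) * R := by
    have h1 : K1 * d ^ (-p) * T ≤ 2 * K1 * d ^ (1 - p) * I1 + 2 * K1 * CY p σ * I2 := by
      have h2 : K1 * d ^ (-p) * T ≤ K1 * d ^ (-p) * (2 * d * I1 + 2 * CY p σ * d ^ p * I2) := by
        gcongr
      refine h2.trans (le_of_eq ?_)
      have e1 : d ^ (1 - p) = d ^ (-p) * d := by
        rw [← Real.rpow_add_one hd.ne']
        congr 1; ring
      have e2 : d ^ (-p) * d ^ p = 1 := by
        rw [← Real.rpow_add hd, neg_add_cancel, Real.rpow_zero]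
      calc _ = 2 * K1 * (d ^ (-p) * d) * I1 + 2 * K1 * CY p σ * I2 * (d ^ (-p) * d ^ p) := by ring
        _ = _ := by rw [← e1, e2, mul_one]
    have h3 : A ^ p ≤ ENNReal.ofReal (2 * K1) * (ENNReal.ofReal (d ^ (1 - p)) * J1) +
        ENNReal.ofReal (2 * K1 * CY p σ) * (ENNReal.ofReal (Cη ^ p * r ^ (-p)) * J2) := by
      refine hAp.trans ((ENNReal.ofReal_le_ofReal h1).trans ?_)
      rw [ENNReal.ofReal_add (by positivity) (by positivity)]
      gcongr
      · rw [ENNReal.ofReal_mul (by positivity), ENNReal.ofReal_mul (by positivity), mul_assoc]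
        gcongr
      · rw [ENNReal.ofReal_mul (by positivity)]
        gcongr
    have e3 : ENNReal.ofReal (Cη ^ p * r ^ (-p)) * J2 =
        ENNReal.ofReal (Cη ^ p) * (ENNReal.ofReal (r ^ (-p)) * J2) := by
      rw [ENNReal.ofReal_mul (by positivity), mul_assoc]
    rw [e3] at h3 hBp
    set X := ENNReal.ofReal (d ^ (1 - p)) * J1 with hX
    set Y := ENNReal.ofReal (r ^ (-p)) * J2 with hY
    have hXR : X ≤ R := le_self_add
    have hYR : Y ≤ R := le_add_self
    calc A ^ p + B ^ p ≤ (ENNReal.ofReal (2 * K1) * X + ENNReal.ofReal (2 * K1 * CY p σ) *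
          (ENNReal.ofReal (Cη ^ p) * Y)) + ENNReal.ofReal (2 ^ p) * (ENNReal.ofReal (Cη ^ p) * Y) :=
          add_le_add h3 hBp
      _ ≤ (ENNReal.ofReal (2 * K1) * R + ENNReal.ofReal (2 * K1 * CY p σ) *
          (ENNReal.ofReal (Cη ^ p) * R)) + ENNReal.ofReal (2 ^ p) * (ENNReal.ofReal (Cη ^ p) * R) := by
          gcongr
      _ = ENNReal.ofReal (2 * K1 + 2 * K1 * CY p σ * Cη ^ p + 2 ^ p * Cη ^ p) * R := by
          rw [ENNReal.ofReal_add (by positivity) (by positivity),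
            ENNReal.ofReal_add (by positivity) (by positivity),
            ENNReal.ofReal_mul (p := 2 * K1 * CY p σ) (by positivity),
            ENNReal.ofReal_mul (p := 2 ^ p) (by positivity)]
          ring
      _ ≤ ENNReal.ofReal (K2 * (1 + Cη ^ p)) * R := by
          gcongr
          have hc : 0 ≤ Cη ^ p := by positivity
          have e4 : K2 * (1 + Cη ^ p) = (2 * K1 + 2 * K1 * CY p σ * Cη ^ p + 2 ^ p * Cη ^ p) +
              (2 * K1 * CY p σ + 2 ^ p + 2 * K1 * Cη ^ p) := by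
            rw [hK2]; ring
          rw [e4]
          have : 0 ≤ 2 * K1 * CY p σ + 2 ^ p + 2 * K1 * Cη ^ p := by positivity
          linarith
  -- conclusion
  have hsob := sobolev_limit D hN hη hb hb1 l hd
  change eLpNorm (fun x => η x ^ 2 * Gf b (w x)) (ENNReal.ofReal q) volume ≤
    CS N p * (A + B) at hsob
  have hq0 : ENNReal.ofReal q ≠ 0 := by simpa using hq
  have hL : (∫⁻ x in Metric.ball a (r / 2), ‖Gf b (w x)‖ₑ ^ q) ^ (1 / q) ≤ CS N p * (A + B) := by
    refine le_trans ?_ hsob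
    rw [eLpNorm_eq_lintegral_rpow_enorm_toReal hq0 ENNReal.ofReal_ne_top,
      ENNReal.toReal_ofReal hq.le]
    apply ENNReal.rpow_le_rpow _ (by positivity)
    rw [← lintegral_indicator measurableSet_ball]
    apply lintegral_mono
    intro x
    by_cases hx : x ∈ Metric.ball a (r / 2)
    · rw [indicator_of_mem hx]
      simp only [hη6 x hx]
      simp
    · rw [indicator_of_notMem hx]
      exact zero_le
  have hL2 : ∫⁻ x in Metric.ball a (r / 2), ‖Gf b (w x)‖ₑ ^ q ≤ (CS N p * (A + B)) ^ q := by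
    have := ENNReal.rpow_le_rpow hL hq.le
    rwa [← ENNReal.rpow_mul, one_div_mul_cancel hq.ne', ENNReal.rpow_one] at this
  refine hL2.trans ?_
  have e5 : (CS N p * (A + B)) ^ q = ((CS N p * (A + B)) ^ p) ^ (q / p) := by
    rw [← ENNReal.rpow_mul]
    congr 1
    field_simp
  rw [e5]
  apply ENNReal.rpow_le_rpow _ (by positivity)
  rw [ENNReal.mul_rpow_of_nonneg _ _ hp0.le]
  have h7 := ENNReal.rpow_add_le_mul_rpow_add_rpow A B hp1.le
  have h8 : (CS N p : ℝ≥0∞) ^ p ≤ ENNReal.ofReal (((CS N p : ℝ) + 1) ^ p) := by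
    rw [← ENNReal.ofReal_rpow_of_nonneg (by positivity) hp0.le]
    apply ENNReal.rpow_le_rpow _ hp0.le
    rw [← ENNReal.ofReal_coe_nnreal]
    apply ENNReal.ofReal_le_ofReal
    linarith
  have h9 : (2 : ℝ≥0∞) ^ (p - 1) = ENNReal.ofReal (2 ^ (p - 1)) := by
    rw [← ENNReal.ofReal_rpow_of_pos (by norm_num)]
    simp
  rw [h9] at h7
  calc (CS N p : ℝ≥0∞) ^ p * (A + B) ^ p
      ≤ ENNReal.ofReal (((CS N p : ℝ) + 1) ^ p) * (ENNReal.ofReal (2 ^ (p - 1)) *
          (ENNReal.ofReal (K2 * (1 + Cη ^ p)) * R)) := by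
        gcongr
        exact h7.trans (by gcongr)
    _ = ENNReal.ofReal C0 * R := by
        rw [← mul_assoc, ← mul_assoc, ← ENNReal.ofReal_mul (by positivity),
          ← ENNReal.ofReal_mul (by positivity)]
        congr 2
        rw [hC0]
        ring

end Pool.Agent.Lib.MP_ae319b_an
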