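import Pool.Agent.Lib.MP_ae319b_an.NotSing
import Pool.Agent.Lib.MP_ae319b_an.Except
import Pool.Agent.Lib.MP_ae319b_an.DimOne

/-!
# MP_ae319b_an : the upper bound
-/

namespace Pool.Agent.Lib.MP_ae319b_an

open MeasureTheory Filter Topology Set Module
open scoped ENNReal NNReal RealInnerProductSpace ContDiff

variable {N : ℕ}

theorem singularSet_congr {Ω : Set (Eu N)} {u v : Eu N → ℝ} (h : ∀ x ∈ Ω, u x = v x) :
    singularSet Ω u ⊆ singularSet Ω v := by
  rintro a ⟨ha, C, γ, r, hC, hγ, hr, hb, hae⟩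
  refine ⟨ha, C, γ, r, hC, hγ, hr, hb, ?_⟩
  have h1 : ∀ᵐ x ∂(volume.restrict (Metric.ball a r)), x ∈ Metric.ball a r :=
    ae_restrict_mem measurableSet_ball
  filter_upwards [hae, h1] with x hx hx1
  rw [← h x (hb hx1)]
  exact hx

/-- The points of a set of small dimension excepted, `F` decays. -/
theorem singularSet_subset {p : ℝ} (hp1 : 1 < p) (hp2 : p < 2) (hN : 2 ≤ N) {Ω : Set (Eu N)}
    {u : Eu N → ℝ} {G : Eu N → Eu N} {F : Eu N → ℝ} {φ : ℕ → Eu N → ℝ} (D : Data Ω p u G F φ)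
    {s : ℝ} (hs : (N : ℝ) - p * (p / (p - 1)) < s) :
    singularSet Ω u ⊆ {a | ∃ᶠ j : ℕ in atTop, ENNReal.ofReal (((1 / 2 : ℝ) ^ j) ^ s) ≤
      (volume.withDensity fun x => ‖F x‖ₑ ^ (p / (p - 1))) (Metric.ball a ((1 / 2 : ℝ) ^ j))} := by
  intro a ha
  by_contra hne
  rw [mem_ofPred_eq, not_frequently] at hne
  have hp0 : 0 < p := by linarith
  have hp1' : 0 < p - 1 := by linarith
  set q := p / (p - 1) with hq
  have hq0 : 0 < q := div_pos hp0 hp1'
  have hpq : p.HolderConjugate q := by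
    rw [Real.holderConjugate_iff]
    refine ⟨hp1, ?_⟩
    rw [hq]
    field_simp
    ring
  have haΩ : a ∈ Ω := ha.1
  obtain ⟨ρ, hρ, hρΩ⟩ := Metric.isOpen_iff.1 D.hΩ a haΩ
  have hlim : Tendsto (fun j : ℕ => (1 / 2 : ℝ) ^ j) atTop (𝓝 0) :=
    tendsto_pow_atTop_nhds_zero_of_lt_one (by norm_num) (by norm_num)
  obtain ⟨j1, hj1⟩ := eventually_atTop.1 (hne.and (hlim.eventually (gt_mem_nhds hρ)))
  -- the volume of balls
  set vb := (volume (Metric.ball (0 : Eu N) 1)).toReal with hvb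
  have hvbfin : volume (Metric.ball (0 : Eu N) 1) ≠ (⊤ : ℝ≥0∞) := measure_ball_lt_top.ne
  have hvbpos : 0 < vb := ENNReal.toReal_pos (Metric.measure_ball_pos _ _ one_pos).ne' hvbfin
  have hvol : ∀ r : ℝ, 0 < r → volume (Metric.ball a r) = ENNReal.ofReal (vb * r ^ N) := by
    intro r hr
    rw [Measure.addHaar_ball_of_pos _ _ hr, finrank_euclideanSpace_fin, hvb, mul_comm vb,
      ENNReal.ofReal_mul (by positivity), ENNReal.ofReal_toReal hvbfin]
  set δ := (s - (N - p * q)) / q with hδ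
  have hδ0 : 0 < δ := div_pos (by linarith) hq0
  refine not_mem_singularSet hp1 hp2 hN D (a := a) (r0 := (1 / 2 : ℝ) ^ j1) (δ := δ)
    (C := vb ^ (1 / p)) (by positivity) hδ0 (by positivity)
    ((Metric.ball_subset_ball (hj1 j1 le_rfl).2.le).trans hρΩ) ?_ ha
  intro j
  have hr : (1 / 2 : ℝ) ^ j1 / 2 ^ j = (1 / 2 : ℝ) ^ (j1 + j) := by
    rw [pow_add, div_eq_mul_inv, one_div, inv_pow, inv_pow]
  rw [hr]
  set r := (1 / 2 : ℝ) ^ (j1 + j) with hrdef
  have hr0 : 0 < r := by positivity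
  have h1 := (hj1 (j1 + j) (Nat.le_add_right _ _)).1
  rw [not_le, ← hrdef, withDensity_apply _ measurableSet_ball] at h1
  have h2 := ENNReal.lintegral_mul_le_Lp_mul_Lq (volume.restrict (Metric.ball a r)) hpq
    (f := fun _ => 1) (g := fun x => ‖F x‖ₑ) aemeasurable_const D.hF.1.enorm.restrict
  simp only [Pi.mul_apply, one_mul, ENNReal.one_rpow] at h2
  refine h2.trans ?_
  rw [lintegral_one, Measure.restrict_apply_univ, hvol r hr0]
  calc _ ≤ ENNReal.ofReal (vb * r ^ N) ^ (1 / p) * (ENNReal.ofReal (r ^ s)) ^ (1 / q) := by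
        gcongr
    _ = ENNReal.ofReal (vb ^ (1 / p) * r ^ ((N : ℝ) - p + δ)) := by
        rw [ENNReal.ofReal_rpow_of_nonneg (by positivity) (by positivity),
          ENNReal.ofReal_rpow_of_nonneg (by positivity) (by positivity),
          ← ENNReal.ofReal_mul (by positivity)]
        congr 1
        rw [Real.mul_rpow hvbpos.le (by positivity), mul_assoc, ← Real.rpow_natCast,
          ← Real.rpow_mul hr0.le, ← Real.rpow_mul hr0.le, ← Real.rpow_add hr0]
        congr 2
        rw [hδ, hq]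
        field_simp
        ring

/-- The upper bound. -/
theorem dimH_singularSet_le {Ω : Set (Eu N)} (hN : 1 ≤ N) (hΩ : IsOpen Ω)
    (hb : Bornology.IsBounded Ω) {p : ℝ} (hp1 : 1 < p) (hp2 : p < 2) {u : Eu N → ℝ}
    (hu : u ∈ solutionSet Ω p) :
    dimH (singularSet Ω u) ≤ ENNReal.ofReal ((N : ℝ) - p * (p / (p - 1))) := by
  rcases Nat.lt_or_ge N 2 with h | h
  · obtain rfl : N = 1 := by omega
    obtain ⟨G, F, hW, -⟩ := hu
    rw [singularSet_one hΩ hb hp1 hW, dimH_empty]
    exact zero_le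
  · have hp0 : 0 < p := by linarith
    have hp1' : 0 < p - 1 := by linarith
    have hq0 : 0 < p / (p - 1) := div_pos hp0 hp1'
    obtain ⟨G, F, φ, D⟩ := exists_data hΩ hb hp1 hp2 hu
    have hsub : singularSet Ω u ⊆ singularSet Ω (Ω.indicator u) :=
      singularSet_congr fun x hx => (indicator_of_mem hx u).symm
    refine (dimH_mono hsub).trans ?_
    have hfin : IsFiniteMeasure ((volume : Measure (Eu N)).withDensity
        fun x => ‖F x‖ₑ ^ (p / (p - 1))) := by
      apply isFiniteMeasure_withDensity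
      have h2 := D.hF.2
      rw [eLpNorm_lt_top_iff_lintegral_rpow_enorm_lt_top (by simpa using hq0)
        ENNReal.ofReal_ne_top, ENNReal.toReal_ofReal hq0.le] at h2
      exact h2.ne
    apply ENNReal.le_of_forall_pos_le_add
    intro ε hε _
    set s := max ((N : ℝ) - p * (p / (p - 1))) 0 + ε with hs
    have hε' : (0 : ℝ) < ε := hε
    have hs0 : 0 ≤ s := by
      have := le_max_right ((N : ℝ) - p * (p / (p - 1))) 0
      linarith
    have hs1 : (N : ℝ) - p * (p / (p - 1)) < s := by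
      have := le_max_left ((N : ℝ) - p * (p / (p - 1))) 0
      linarith
    have h1 := (dimH_mono (singularSet_subset hp1 hp2 h D hs1)).trans
      (dimH_limsup_ball_le _ hs0)
    refine h1.trans (le_of_eq ?_)
    rw [hs, ENNReal.ofReal_add (le_max_right _ _) hε'.le, ENNReal.ofReal_coe_nnreal]
    congr 1
    rcases le_total ((N : ℝ) - p * (p / (p - 1))) 0 with h3 | h3
    · rw [max_eq_right h3, ENNReal.ofReal_zero, ENNReal.ofReal_of_nonpos h3]
    · rw [max_eq_left h3]

end Pool.Agent.Lib.MP_ae319b_an
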