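import Pool.Agent.Lib.MP_ae319b_an.Mollify

/-!
# MP_ae319b_an : the weak equation on the whole space, tested with `C¹` functions
-/

namespace Pool.Agent.Lib.MP_ae319b_an

open MeasureTheory Filter Topology Set
open scoped ENNReal NNReal RealInnerProductSpace ContDiff

variable {N : ℕ}

/-- the field `|G|^{p-2} G` -/
noncomputable def Vf (p : ℝ) (G : Eu N → Eu N) (x : Eu N) : Eu N := ‖G x‖ ^ (p - 2) • G x

theorem norm_Vf {p : ℝ} (hp : 1 < p) (G : Eu N → Eu N) (x : Eu N) :
    ‖Vf p G x‖ = ‖G x‖ ^ (p - 1) := by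
  unfold Vf
  rw [norm_smul, Real.norm_of_nonneg (by positivity)]
  rcases (norm_nonneg (G x)).eq_or_lt with h | h
  · rw [← h, mul_zero, Real.zero_rpow (by linarith)]
  · rw [← Real.rpow_add_one h.ne']
    congr 1; ring

theorem inner_Vf {p : ℝ} (hp : 1 < p) (G : Eu N → Eu N) (x : Eu N) :
    ⟪G x, Vf p G x⟫ = ‖G x‖ ^ p := by
  unfold Vf
  rw [real_inner_smul_right, real_inner_self_eq_norm_sq]
  rcases (norm_nonneg (G x)).eq_or_lt with h | h
  · rw [← h, Real.zero_rpow (by linarith : p ≠ 0)]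
    simp
  · rw [← Real.rpow_natCast, ← Real.rpow_add h]
    congr 1
    push_cast
    ring

theorem inner_gradient_eq (ψ : Eu N → ℝ) (x v : Eu N) : ⟪v, gradient ψ x⟫ = fderiv ℝ ψ x v := by
  rw [real_inner_comm]
  unfold gradient
  exact InnerProductSpace.toDual_symm_apply

/-- The data of a weak solution, extended by zero to the whole space. -/
structure Data (Ω : Set (Eu N)) (p : ℝ) (u : Eu N → ℝ) (G : Eu N → Eu N) (F : Eu N → ℝ)
    (φ : ℕ → Eu N → ℝ) : Prop where
  hp1 : 1 < p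
  hp2 : p < 2
  hΩ : IsOpen Ω
  hu : MemLp u (ENNReal.ofReal p) volume
  hG : MemLp G (ENNReal.ofReal p) volume
  hF : MemLp F (ENNReal.ofReal (p / (p - 1))) volume
  hF1 : Integrable F volume
  hV1 : Integrable (Vf p G) volume
  hφ : ∀ n, IsTest Ω (φ n)
  hφu : Tendsto (fun n => eLpNorm (fun x => φ n x - u x) (ENNReal.ofReal p) volume) atTop (𝓝 0)
  hφG : Tendsto (fun n => eLpNorm (fun x => gradient (φ n) x - G x) (ENNReal.ofReal p) volume)
    atTop (𝓝 0)
  weak : ∀ ψ : Eu N → ℝ, ContDiff ℝ 1 ψ → HasCompactSupport ψ → tsupport ψ ⊆ Ω →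
    ∫ x, fderiv ℝ ψ x (Vf p G x) = ∫ x, F x * ψ x

theorem memLp_indicator_iff' {E' : Type*} [NormedAddCommGroup E'] {Ω : Set (Eu N)}
    (hΩ : MeasurableSet Ω) {f : Eu N → E'} {q : ℝ≥0∞} (h : MemLp f q (volume.restrict Ω)) :
    MemLp (Ω.indicator f) q volume := (memLp_indicator_iff_restrict hΩ).2 h

theorem aestronglyMeasurable_Vf {p : ℝ} {G : Eu N → Eu N} {μ : Measure (Eu N)}
    (hG : AEStronglyMeasurable G μ) : AEStronglyMeasurable (Vf p G) μ := by
  unfold Vf
  exact ((hG.norm.aemeasurable.pow_const _).aestronglyMeasurable).smul hG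

theorem exists_data {Ω : Set (Eu N)} (hΩ : IsOpen Ω) (hb : Bornology.IsBounded Ω) {p : ℝ}
    (hp1 : 1 < p) (hp2 : p < 2) {u : Eu N → ℝ} (hu : u ∈ solutionSet Ω p) :
    ∃ G F φ, Data Ω p (Ω.indicator u) G F φ := by
  obtain ⟨G, F, ⟨hu, hG, φ, hφ, hφu, hφG⟩, hF, hw⟩ := hu
  have hm := hΩ.measurableSet
  have hp0 : 0 < p := by linarith
  have hfin : volume Ω ≠ (⊤ : ℝ≥0∞) := hb.measure_lt_top.ne
  have hfinm : IsFiniteMeasure (volume.restrict Ω) := ⟨by
    rw [Measure.restrict_apply_univ]; exact hfin.lt_top⟩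
  have hφ0 : ∀ n, ∀ x ∉ Ω, φ n x = 0 := fun n x hx =>
    image_eq_zero_of_notMem_tsupport (fun h => hx ((hφ n).2.2 h))
  have hg0 : ∀ ψ : Eu N → ℝ, tsupport ψ ⊆ Ω → ∀ x ∉ Ω, fderiv ℝ ψ x = 0 := by
    intro ψ hψ x hx
    have := support_fderiv_subset ℝ (f := ψ)
    by_contra hne
    exact hx (hψ (this hne))
  have hgg0 : ∀ ψ : Eu N → ℝ, tsupport ψ ⊆ Ω → ∀ x ∉ Ω, gradient ψ x = 0 := by
    intro ψ hψ x hx
    rw [← norm_eq_zero, norm_gradient, hg0 ψ hψ x hx, norm_zero]
  have hV1 : Integrable (Vf p (Ω.indicator G)) volume := by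
    have h1 : Vf p (Ω.indicator G) = Ω.indicator (Vf p G) := by
      funext x
      by_cases hx : x ∈ Ω
      · simp [Vf, Set.indicator_of_mem hx]
      · simp [Vf, Set.indicator_of_notMem hx]
    rw [h1, integrable_indicator_iff hm]
    have h2 : Integrable (fun x => 1 + ‖G x‖ ^ p) (volume.restrict Ω) := by
      apply (integrable_const 1).add
      have := hG.integrable_norm_rpow (by simpa using hp0) ENNReal.ofReal_ne_top
      rwa [ENNReal.toReal_ofReal hp0.le] at this
    refine h2.mono' (aestronglyMeasurable_Vf hG.1) ?_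
    filter_upwards with x
    rw [norm_Vf hp1]
    rcases le_total ‖G x‖ 1 with h | h
    · have h3 : ‖G x‖ ^ (p - 1) ≤ 1 := Real.rpow_le_one (norm_nonneg _) h (by linarith)
      have h4 : 0 ≤ ‖G x‖ ^ p := by positivity
      linarith
    · have h3 : ‖G x‖ ^ (p - 1) ≤ ‖G x‖ ^ p := Real.rpow_le_rpow_of_exponent_le h (by linarith)
      linarith
  have hF1 : Integrable (Ω.indicator F) volume := by
    rw [integrable_indicator_iff hm]
    have hq : (1 : ℝ≥0∞) ≤ ENNReal.ofReal (p / (p - 1)) := by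
      rw [ENNReal.one_le_ofReal, le_div_iff₀ (by linarith)]
      linarith
    exact memLp_one_iff_integrable.1 (hF.mono_exponent hq)
  have hwt : ∀ ψ : Eu N → ℝ, IsTest Ω ψ →
      ∫ x, fderiv ℝ ψ x (Vf p (Ω.indicator G) x) = ∫ x, Ω.indicator F x * ψ x := by
    intro ψ hψ
    have h1 : ∫ x, fderiv ℝ ψ x (Vf p (Ω.indicator G) x) =
        ∫ x in Ω, ‖G x‖ ^ (p - 2) * ⟪G x, gradient ψ x⟫ := by
      rw [← integral_indicator hm]
      congr 1
      funext x
      by_cases hx : x ∈ Ω
      · rw [Set.indicator_of_mem hx]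
        simp only [Vf, Set.indicator_of_mem hx, map_smul, smul_eq_mul, inner_gradient_eq]
      · rw [Set.indicator_of_notMem hx, hg0 ψ hψ.2.2 x hx]
        rfl
    have h2 : ∫ x, Ω.indicator F x * ψ x = ∫ x in Ω, F x * ψ x := by
      rw [← integral_indicator hm]
      congr 1
      funext x
      by_cases hx : x ∈ Ω
      · rw [Set.indicator_of_mem hx, Set.indicator_of_mem hx]
      · rw [Set.indicator_of_notMem hx, Set.indicator_of_notMem hx, zero_mul]
    rw [h1, h2]
    exact hw ψ hψ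
  refine ⟨Ω.indicator G, Ω.indicator F, φ, hp1, hp2, hΩ, memLp_indicator_iff' hm hu,
    memLp_indicator_iff' hm hG, memLp_indicator_iff' hm hF, hF1, hV1, hφ, ?_, ?_, ?_⟩
  · have h1 : ∀ n, eLpNorm (fun x => φ n x - Ω.indicator u x) (ENNReal.ofReal p) volume =
        eLpNorm (fun x => φ n x - u x) (ENNReal.ofReal p) (volume.restrict Ω) := by
      intro n
      rw [← eLpNorm_indicator_eq_eLpNorm_restrict hm]
      congr 1
      funext x
      by_cases hx : x ∈ Ω
      · rw [Set.indicator_of_mem hx, Set.indicator_of_mem hx]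
      · rw [Set.indicator_of_notMem hx, Set.indicator_of_notMem hx, hφ0 n x hx, sub_zero]
    simp_rw [h1]
    exact hφu
  · have h1 : ∀ n, eLpNorm (fun x => gradient (φ n) x - Ω.indicator G x) (ENNReal.ofReal p) volume =
        eLpNorm (fun x => gradient (φ n) x - G x) (ENNReal.ofReal p) (volume.restrict Ω) := by
      intro n
      rw [← eLpNorm_indicator_eq_eLpNorm_restrict hm]
      congr 1
      funext x
      by_cases hx : x ∈ Ω
      · rw [Set.indicator_of_mem hx, Set.indicator_of_mem hx]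
      · rw [Set.indicator_of_notMem hx, Set.indicator_of_notMem hx,
          hgg0 (φ n) (hφ n).2.2 x hx, sub_zero]
    simp_rw [h1]
    exact hφG
  · intro ψ hψ hψc hψs
    set V := Vf p (Ω.indicator G) with hV
    set F' := Ω.indicator F with hF'
    -- integrability
    have hint1 : ∀ χ : Eu N → ℝ, ContDiff ℝ 1 χ → HasCompactSupport χ →
        Integrable (fun x => fderiv ℝ χ x (V x)) volume := by
      intro χ hχ hχc
      have hcont : Continuous (fderiv ℝ χ) := hχ.continuous_fderiv one_ne_zero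
      obtain ⟨C, hC⟩ := hcont.bounded_above_of_compact_support (hχc.fderiv ℝ)
      refine (hV1.norm.const_mul C).mono' ?_ ?_
      · exact (ContinuousLinearMap.apply ℝ ℝ).flip.aestronglyMeasurable_comp₂ hcont.aestronglyMeasurable hV1.1
      · filter_upwards with x
        exact ((fderiv ℝ χ x).le_opNorm _).trans (by gcongr; exact hC x)
    have hint2 : ∀ χ : Eu N → ℝ, ContDiff ℝ 1 χ → HasCompactSupport χ →
        Integrable (fun x => F' x * χ x) volume := by
      intro χ hχ hχc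
      have hcont : Continuous χ := hχ.continuous
      obtain ⟨C, hC⟩ := hcont.bounded_above_of_compact_support hχc
      refine (hF1.norm.const_mul C).mono' (hF1.1.mul hcont.aestronglyMeasurable) ?_
      filter_upwards with x
      rw [norm_mul, mul_comm]
      gcongr
      exact hC x
    have key : ∀ δ : ℝ, 0 < δ → |(∫ x, fderiv ℝ ψ x (V x)) - ∫ x, F' x * ψ x| ≤
        δ * ((∫ x, ‖V x‖) + ∫ x, ‖F' x‖) := by
      intro δ hδ
      obtain ⟨χ, hχ, h1, h2⟩ := mollify hΩ hψ hψc hψs hδ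
      have hχ1 : ContDiff ℝ 1 χ := hχ.1.of_le (by exact_mod_cast le_top)
      have h3 := hwt χ hχ
      have h4 : (∫ x, fderiv ℝ ψ x (V x)) - ∫ x, F' x * ψ x =
          (∫ x, (fderiv ℝ ψ x (V x) - fderiv ℝ χ x (V x))) - ∫ x, (F' x * ψ x - F' x * χ x) := by
        rw [integral_sub (hint1 ψ hψ hψc) (hint1 χ hχ1 hχ.2.1),
          integral_sub (hint2 ψ hψ hψc) (hint2 χ hχ1 hχ.2.1), h3]
        ring
      rw [h4]
      have h5 : |∫ x, (fderiv ℝ ψ x (V x) - fderiv ℝ χ x (V x))| ≤ ∫ x, δ * ‖V x‖ := by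
        rw [← Real.norm_eq_abs]
        apply norm_integral_le_of_norm_le (hV1.norm.const_mul δ)
        filter_upwards with x
        rw [← sub_apply]
        refine ((fderiv ℝ ψ x - fderiv ℝ χ x).le_opNorm _).trans ?_
        gcongr
        rw [norm_sub_rev, ← norm_gradient_sub]
        exact h2 x
      have h6 : |∫ x, (F' x * ψ x - F' x * χ x)| ≤ ∫ x, δ * ‖F' x‖ := by
        rw [← Real.norm_eq_abs]
        apply norm_integral_le_of_norm_le (hF1.norm.const_mul δ)
        filter_upwards with x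
        rw [← mul_sub, norm_mul, mul_comm]
        gcongr
        rw [norm_sub_rev]
        exact h1 x
      rw [integral_const_mul] at h5 h6
      calc _ ≤ |∫ x, (fderiv ℝ ψ x (V x) - fderiv ℝ χ x (V x))| +
            |∫ x, (F' x * ψ x - F' x * χ x)| := abs_sub _ _
        _ ≤ δ * (∫ x, ‖V x‖) + δ * (∫ x, ‖F' x‖) := add_le_add h5 h6
        _ = _ := by ring
    set M := (∫ x, ‖V x‖) + ∫ x, ‖F' x‖ with hM
    have hM0 : 0 ≤ M := add_nonneg (integral_nonneg fun _ => norm_nonneg _)
      (integral_nonneg fun _ => norm_nonneg _)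
    have h0 : |(∫ x, fderiv ℝ ψ x (V x)) - ∫ x, F' x * ψ x| ≤ 0 := by
      apply le_of_forall_pos_le_add
      intro ε hε
      rw [zero_add]
      refine (key (ε / (M + 1)) (by positivity)).trans ?_
      rw [div_mul_eq_mul_div, div_le_iff₀ (by positivity)]
      nlinarith
    have := abs_nonpos_iff.1 h0
    linarith

end Pool.Agent.Lib.MP_ae319b_an
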